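import Mathlib
import Pool.Agent.MP_867aae_co.H75.SVal

/-!
Pairs of self-dual unit-step functions: weighted sums, simultaneous shifts, best pairs.
-/

namespace Pool.Agent.MP_867aae_co.P75

open Finset Function Pool.Agent.MP_867aae_co.H75

lemma sum_ngR {z : ℕ} (f : (Fin z → Bool) → ℝ) : ∑ τ, f (ng τ) = ∑ τ, f τ := by
  apply Fintype.sum_equiv ⟨ng, ng, ng_ng, ng_ng⟩
  intro τ; rfl

lemma sum_consR {z : ℕ} (f : (Fin (z + 1) → Bool) → ℝ) :
    ∑ σ, f σ = ∑ τ : Fin z → Bool, (f (Fin.cons false τ) + f (Fin.cons true τ)) := by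
  rw [← (Fin.consEquiv (fun _ : Fin (z + 1) => Bool)).sum_comp, Fintype.sum_prod_type,
    Fintype.sum_bool, Finset.sum_add_distrib, add_comm]
  rfl

/-- the weighted sum of a pair -/
noncomputable def PV {z : ℕ} (G H : ℤ → ℝ) (a c : (Fin z → Bool) → ℤ) : ℝ :=
  ∑ σ, G (a σ) * H (c σ - cn σ)

/-- the mirrored pair -/
lemma mirrorP {z : ℕ} {A R : ℤ} {a c : (Fin z → Bool) → ℤ} (ha : Val A a) (hc : Val (R + z) c)
    (G H : ℤ → ℝ) :
    ∃ a' c' : (Fin z → Bool) → ℤ, Val R a' ∧ Val (A + z) c' ∧ PV G H a c = PV H G a' c' := by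
  refine ⟨fun σ => c (ng σ) - cn (ng σ), fun σ => a (ng σ) + cn σ, ⟨?_, ?_⟩, ⟨?_, ?_⟩, ?_⟩
  · intro σ
    have := hc.sd σ
    simp only [ng_ng]
    rw [cn_ng]
    linarith
  · intro σ i hi
    have h1 := hc.st (ng (update σ i true)) i (by simp [ng])
    have h2 : update (ng (update σ i true)) i true = ng σ := by
      rw [ng_update, update_idem]
      funext k
      by_cases h : k = i
      · subst h; simp [ng, hi]
      · simp [h]
    rw [h2] at h1
    have h3 := cn_update hi
    rw [cn_ng, cn_ng, h3]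
    rcases h1 with h1 | h1
    · right; linarith
    · left; linarith
  · intro σ
    have := ha.sd σ
    simp only [ng_ng]
    rw [cn_ng]
    linarith
  · intro σ i hi
    have h1 := ha.st (ng (update σ i true)) i (by simp [ng])
    have h2 : update (ng (update σ i true)) i true = ng σ := by
      rw [ng_update, update_idem]
      funext k
      by_cases h : k = i
      · subst h; simp [ng, hi]
      · simp [h]
    rw [h2] at h1
    have h3 := cn_update hi
    rw [h3]
    rcases h1 with h1 | h1
    · right; linarith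
    · left; linarith
  · unfold PV
    rw [← sum_ngR]
    apply Finset.sum_congr rfl
    intro σ _
    rw [mul_comm]
    congr 2
    ring

section swap
variable {z : ℕ} (i j : Fin z)

/-- exchange coordinates `i` and `j` -/
def swp (σ : Fin z → Bool) : Fin z → Bool := fun l => σ (Equiv.swap i j l)

lemma swp_swp (σ : Fin z → Bool) : swp i j (swp i j σ) = σ := by
  funext l; simp [swp]

lemma swp_ng (σ : Fin z → Bool) : swp i j (ng σ) = ng (swp i j σ) := rfl

lemma swp_i (σ : Fin z → Bool) : swp i j σ i = σ j := by simp [swp]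

lemma swp_j (σ : Fin z → Bool) : swp i j σ j = σ i := by simp [swp]

lemma swp_of_ne (σ : Fin z → Bool) {l : Fin z} (h1 : l ≠ i) (h2 : l ≠ j) :
    swp i j σ l = σ l := by simp [swp, Equiv.swap_apply_of_ne_of_ne h1 h2]

lemma cn_swp (σ : Fin z → Bool) : cn (swp i j σ) = cn σ := by
  unfold cn swp
  exact Fintype.sum_equiv (Equiv.swap i j) _ _ (fun i => rfl)

lemma swp_eq {σ : Fin z → Bool} (h : σ i = σ j) : swp i j σ = σ := by
  funext l
  by_cases h1 : l = i
  · subst h1; rw [swp_i, h]
  · by_cases h2 : l = j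
    · subst h2; rw [swp_j, h]
    · rw [swp_of_ne i j σ h1 h2]

lemma swp_update_of_ne {σ : Fin z → Bool} {l : Fin z} (h1 : l ≠ i) (h2 : l ≠ j)
    (b : Bool) : swp i j (update σ l b) = update (swp i j σ) l b := by
  funext k
  by_cases hk : k = l
  · subst hk
    rw [swp_of_ne i j _ h1 h2, update_self, update_self]
  · rw [update_of_ne hk]
    unfold swp
    rw [update_of_ne]
    intro h
    apply hk
    have := congrArg (Equiv.swap i j) h
    rw [Equiv.swap_apply_self, Equiv.swap_apply_of_ne_of_ne h1 h2] at this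
    exact this

/-- the rearrangement -/
def rrp (a : (Fin z → Bool) → ℤ) (σ : Fin z → Bool) : ℤ :=
  if σ i = σ j then a σ else
    if σ i = true then max (a σ) (a (swp i j σ)) else min (a σ) (a (swp i j σ))

lemma rrp_eq {a : (Fin z → Bool) → ℤ} {σ : Fin z → Bool} (h : σ i = σ j) :
    rrp i j a σ = a σ := if_pos h

lemma rrp_true {a : (Fin z → Bool) → ℤ} {σ : Fin z → Bool} (h : σ i = true)
    (h' : σ j = false) : rrp i j a σ = max (a σ) (a (swp i j σ)) := by
  unfold rrp; simp [h, h']

lemma rrp_false {a : (Fin z → Bool) → ℤ} {σ : Fin z → Bool} (h : σ i = false)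
    (h' : σ j = true) : rrp i j a σ = min (a σ) (a (swp i j σ)) := by
  unfold rrp; simp [h, h']

lemma rrp_val (hij : i ≠ j) {A : ℤ} {a : (Fin z → Bool) → ℤ} (ha : Val A a) :
    Val A (rrp i j a) := by
  refine ⟨?_, ?_⟩
  · intro σ
    have h1 := ha.sd σ
    have h2 := ha.sd (swp i j σ)
    rcases h0 : σ i with _ | _ <;> rcases hk : σ j with _ | _
    · rw [rrp_eq i j (by rw [h0, hk]), rrp_eq i j (by rw [ng_apply, ng_apply, h0, hk])]
      exact h1
    · rw [rrp_false i j h0 hk, rrp_true i j (by rw [ng_apply, h0]; rfl)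
        (by rw [ng_apply, hk]; rfl), swp_ng]
      omega
    · rw [rrp_true i j h0 hk, rrp_false i j (by rw [ng_apply, h0]; rfl)
        (by rw [ng_apply, hk]; rfl), swp_ng]
      omega
    · rw [rrp_eq i j (by rw [h0, hk]), rrp_eq i j (by rw [ng_apply, ng_apply, h0, hk])]
      exact h1
  · intro σ l hl
    by_cases h1 : l = i
    · subst h1
      rcases hk : σ j with _ | _
      · -- (0,0) → (1,0)
        have e1 : update σ l true l = true := by simp
        have e2 : update σ l true j = false := by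
          rw [update_of_ne (Ne.symm hij), hk]
        rw [rrp_true l j e1 e2, rrp_eq l j (σ := σ) (by rw [hl, hk])]
        have s1 := ha.st σ l hl
        have s2 := ha.st σ j hk
        have : swp l j (update σ l true) = update σ j true := by
          funext k
          by_cases hk1 : k = l
          · subst hk1
            rw [swp_i, e2, update_of_ne hij, hl]
          · by_cases hk2 : k = j
            · subst hk2
              rw [swp_j, e1, update_self]
            · rw [swp_of_ne l j _ hk1 hk2, update_of_ne hk1, update_of_ne hk2]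
        rw [this]
        omega
      · -- (0,1) → (1,1)
        have e1 : update σ l true l = true := by simp
        have e2 : update σ l true j = true := by
          rw [update_of_ne (Ne.symm hij), hk]
        rw [rrp_eq l j (σ := update σ l true) (by rw [e1, e2]), rrp_false l j hl hk]
        have s1 := ha.st σ l hl
        have s2 := ha.st (swp l j σ) j (by rw [swp_j, hl])
        have : update (swp l j σ) j true = update σ l true := by
          funext k
          by_cases hk1 : k = l
          · subst hk1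
            rw [e1, update_of_ne hij, swp_i, hk]
          · by_cases hk2 : k = j
            · subst hk2
              rw [update_self, e2]
            · rw [update_of_ne hk2, swp_of_ne l j _ hk1 hk2, update_of_ne hk1]
        rw [this] at s2
        omega
    · by_cases h2 : l = j
      · subst h2
        rcases h0 : σ i with _ | _
        · -- (0,0) → (0,1)
          have e1 : update σ l true l = true := by simp
          have e2 : update σ l true i = false := by
            rw [update_of_ne hij, h0]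
          rw [rrp_false i l e2 e1, rrp_eq i l (σ := σ) (by rw [hl, h0])]
          have s1 := ha.st σ i h0
          have s2 := ha.st σ l hl
          have : swp i l (update σ l true) = update σ i true := by
            funext k
            by_cases hk1 : k = i
            · subst hk1
              rw [swp_i, e1, update_self]
            · by_cases hk2 : k = l
              · subst hk2
                rw [swp_j, e2, update_of_ne (Ne.symm hij), hl]
              · rw [swp_of_ne i l _ hk1 hk2, update_of_ne hk1, update_of_ne hk2]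
          rw [this]
          omega
        · -- (1,0) → (1,1)
          have e1 : update σ l true l = true := by simp
          have e2 : update σ l true i = true := by
            rw [update_of_ne hij, h0]
          rw [rrp_eq i l (σ := update σ l true) (by rw [e1, e2]), rrp_true i l h0 hl]
          have s1 := ha.st σ l hl
          have s2 := ha.st (swp i l σ) i (by rw [swp_i, hl])
          have : update (swp i l σ) i true = update σ l true := by
            funext k
            by_cases hk1 : k = i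
            · subst hk1
              rw [e2, update_self]
            · by_cases hk2 : k = l
              · subst hk2
                rw [update_self, update_of_ne (Ne.symm hij), swp_j, h0]
              · rw [update_of_ne hk2, update_of_ne hk1, swp_of_ne i l _ hk1 hk2]
          rw [this] at s2
          omega
      · have e0 : update σ l true i = σ i := by rw [update_of_ne (Ne.symm h1)]
        have ek : update σ l true j = σ j := by rw [update_of_ne (Ne.symm h2)]
        have s1 := ha.st σ l hl
        have s2 := ha.st (swp i j σ) l (by rw [swp_of_ne i j σ h1 h2, hl])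
        rw [← swp_update_of_ne i j h1 h2] at s2
        rcases h0 : σ i with _ | _ <;> rcases hk : σ j with _ | _
        · rw [rrp_eq i j (σ := σ) (by rw [h0, hk]),
            rrp_eq i j (σ := update σ l true) (by rw [e0, ek, h0, hk])]
          exact s1
        · rw [rrp_false i j (σ := σ) h0 hk,
            rrp_false i j (σ := update σ l true) (by rw [e0, h0]) (by rw [ek, hk])]
          omega
        · rw [rrp_true i j (σ := σ) h0 hk,
            rrp_true i j (σ := update σ l true) (by rw [e0, h0]) (by rw [ek, hk])]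
          omega
        · rw [rrp_eq i j (σ := σ) (by rw [h0, hk]),
            rrp_eq i j (σ := update σ l true) (by rw [e0, ek, h0, hk])]
          exact s1

/-- pairing sums by the exchange -/
lemma sum_swp_le (f g : (Fin z → Bool) → ℝ)
    (h : ∀ σ, f σ + f (swp i j σ) ≤ g σ + g (swp i j σ)) : ∑ σ, f σ ≤ ∑ σ, g σ := by
  have h1 : ∀ f : (Fin z → Bool) → ℝ, ∑ σ, f (swp i j σ) = ∑ σ, f σ := by
    intro f
    exact Fintype.sum_equiv ⟨swp i j, swp i j, swp_swp i j, swp_swp i j⟩ _ _ (fun σ => rfl)
  have h2 : ∑ σ, (f σ + f (swp i j σ)) ≤ ∑ σ, (g σ + g (swp i j σ)) :=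
    Finset.sum_le_sum (fun σ _ => h σ)
  rw [Finset.sum_add_distrib, Finset.sum_add_distrib, h1, h1] at h2
  linarith

lemma sum_swp_ltZ (f g : (Fin z → Bool) → ℤ)
    (h : ∀ σ, f σ + f (swp i j σ) ≤ g σ + g (swp i j σ)) : ∑ σ, f σ ≤ ∑ σ, g σ := by
  have h1 : ∀ f : (Fin z → Bool) → ℤ, ∑ σ, f (swp i j σ) = ∑ σ, f σ := by
    intro f
    exact Fintype.sum_equiv ⟨swp i j, swp i j, swp_swp i j, swp_swp i j⟩ _ _ (fun σ => rfl)
  have h2 : ∑ σ, (f σ + f (swp i j σ)) ≤ ∑ σ, (g σ + g (swp i j σ)) :=
    Finset.sum_le_sum (fun σ _ => h σ)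
  rw [Finset.sum_add_distrib, Finset.sum_add_distrib, h1, h1] at h2
  linarith

lemma sum_swp_lt (f g : (Fin z → Bool) → ℤ)
    (h : ∀ σ, f σ + f (swp i j σ) ≤ g σ + g (swp i j σ)) (σ0 : Fin z → Bool)
    (h0 : f σ0 + f (swp i j σ0) < g σ0 + g (swp i j σ0)) : ∑ σ, f σ < ∑ σ, g σ := by
  have h1 : ∀ f : (Fin z → Bool) → ℤ, ∑ σ, f (swp i j σ) = ∑ σ, f σ := by
    intro f
    exact Fintype.sum_equiv ⟨swp i j, swp i j, swp_swp i j, swp_swp i j⟩ _ _ (fun σ => rfl)
  have h2 : ∑ σ, (f σ + f (swp i j σ)) < ∑ σ, (g σ + g (swp i j σ)) :=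
    Finset.sum_lt_sum (fun σ _ => h σ) ⟨σ0, Finset.mem_univ _, h0⟩
  rw [Finset.sum_add_distrib, Finset.sum_add_distrib, h1, h1] at h2
  linarith

lemma rearr {G H : ℤ → ℝ} (hG : Monotone G) (hH : Monotone H) (x1 x0 y1 y0 k : ℤ) :
    G x1 * H (y1 - k) + G x0 * H (y0 - k) ≤
      G (max x1 x0) * H (max y1 y0 - k) + G (min x1 x0) * H (min y1 y0 - k) := by
  rcases le_total x1 x0 with h1 | h1 <;> rcases le_total y1 y0 with h2 | h2
  · rw [max_eq_right h1, max_eq_right h2, min_eq_left h1, min_eq_left h2]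
    linarith
  · rw [max_eq_right h1, max_eq_left h2, min_eq_left h1, min_eq_right h2]
    have a1 := hG h1
    have a2 := hH (show y0 - k ≤ y1 - k by omega)
    nlinarith [mul_nonneg (sub_nonneg.2 a1) (sub_nonneg.2 a2)]
  · rw [max_eq_left h1, max_eq_right h2, min_eq_right h1, min_eq_left h2]
    have a1 := hG h1
    have a2 := hH (show y1 - k ≤ y0 - k by omega)
    nlinarith [mul_nonneg (sub_nonneg.2 a1) (sub_nonneg.2 a2)]
  · rw [max_eq_left h1, max_eq_left h2, min_eq_right h1, min_eq_right h2]

lemma rrp_PV {G H : ℤ → ℝ} (hG : Monotone G) (hH : Monotone H) (a c : (Fin z → Bool) → ℤ) :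
    PV G H a c ≤ PV G H (rrp i j a) (rrp i j c) := by
  unfold PV
  apply sum_swp_le i j
  intro σ
  rw [cn_swp]
  rcases h0 : σ i with _ | _ <;> rcases hk : σ j with _ | _
  · rw [swp_eq i j (by rw [h0, hk]), rrp_eq i j (by rw [h0, hk]), rrp_eq i j (by rw [h0, hk])]
  · rw [rrp_false i j h0 hk, rrp_false i j h0 hk,
      rrp_true i j (by rw [swp_i, hk]) (by rw [swp_j, h0]),
      rrp_true i j (by rw [swp_i, hk]) (by rw [swp_j, h0]), swp_swp]
    have := rearr hG hH (a σ) (a (swp i j σ)) (c σ) (c (swp i j σ)) (cn σ)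
    rw [max_comm (a (swp i j σ)), max_comm (c (swp i j σ))]
    linarith
  · rw [rrp_true i j h0 hk, rrp_true i j h0 hk,
      rrp_false i j (by rw [swp_i, hk]) (by rw [swp_j, h0]),
      rrp_false i j (by rw [swp_i, hk]) (by rw [swp_j, h0]), swp_swp]
    have := rearr hG hH (a σ) (a (swp i j σ)) (c σ) (c (swp i j σ)) (cn σ)
    rw [min_comm (a (swp i j σ)), min_comm (c (swp i j σ))]
    linarith
  · rw [swp_eq i j (by rw [h0, hk]), rrp_eq i j (by rw [h0, hk]), rrp_eq i j (by rw [h0, hk])]

/-- weight of a string -/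
def wt (σ : Fin z → Bool) : ℤ := ∑ l, if σ l then (z : ℤ) - (l : ℕ) else 0

lemma wt_swp (hij : i < j) {σ : Fin z → Bool} (hi : σ i = true) (hj : σ j = false) :
    wt (swp i j σ) < wt σ := by
  have e1 : wt (swp i j σ) = ∑ l, if σ l then (z : ℤ) - ((Equiv.swap i j l : Fin z) : ℕ) else 0 := by
    unfold wt swp
    apply Fintype.sum_equiv (Equiv.swap i j)
    intro l
    rw [Equiv.swap_apply_self]
  rw [e1]
  unfold wt
  have h : ∑ l, ((if σ l then (z : ℤ) - (l : ℕ) else 0) -
      (if σ l then (z : ℤ) - ((Equiv.swap i j l : Fin z) : ℕ) else 0)) = (j : ℕ) - (i : ℕ) := by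
    rw [Fintype.sum_eq_add i j hij.ne]
    · simp only [hi, hj, if_true, Equiv.swap_apply_left]
      simp
    · rintro l ⟨h1, h2⟩
      rw [Equiv.swap_apply_of_ne_of_ne h1 h2]
      simp
  rw [Finset.sum_sub_distrib] at h
  have hlt : ((i : ℕ) : ℤ) < (j : ℕ) := by exact_mod_cast hij
  linarith

/-- the potential -/
def Pot (a : (Fin z → Bool) → ℤ) : ℤ := ∑ σ, wt σ * a σ

lemma Pot_pair (hij : i < j) (a : (Fin z → Bool) → ℤ) {σ : Fin z → Bool} (hi : σ i = true)
    (hj : σ j = false) : wt σ * a σ + wt (swp i j σ) * a (swp i j σ) ≤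
      wt σ * max (a σ) (a (swp i j σ)) + wt (swp i j σ) * min (a (swp i j σ)) (a σ) ∧
    (a σ < a (swp i j σ) → wt σ * a σ + wt (swp i j σ) * a (swp i j σ) <
      wt σ * max (a σ) (a (swp i j σ)) + wt (swp i j σ) * min (a (swp i j σ)) (a σ)) := by
  have hw := wt_swp i j hij hi hj
  constructor
  · rcases le_total (a σ) (a (swp i j σ)) with h | h
    · rw [max_eq_right h, min_eq_right h]
      nlinarith
    · rw [max_eq_left h, min_eq_left h]
  · intro h
    rw [max_eq_right h.le, min_eq_right h.le]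
    nlinarith

lemma Pot_le (hij : i < j) (a : (Fin z → Bool) → ℤ) : Pot a ≤ Pot (rrp i j a) := by
  unfold Pot
  apply sum_swp_ltZ i j
  intro σ
  rcases h0 : σ i with _ | _ <;> rcases hk : σ j with _ | _
  · rw [swp_eq i j (by rw [h0, hk]), rrp_eq i j (by rw [h0, hk])]
  · rw [rrp_false i j h0 hk, rrp_true i j (by rw [swp_i, hk]) (by rw [swp_j, h0]), swp_swp]
    have := (Pot_pair i j hij a (σ := swp i j σ) (by rw [swp_i, hk]) (by rw [swp_j, h0])).1
    rw [swp_swp] at this
    linarith
  · rw [rrp_true i j h0 hk, rrp_false i j (by rw [swp_i, hk]) (by rw [swp_j, h0]), swp_swp]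
    exact (Pot_pair i j hij a h0 hk).1
  · rw [swp_eq i j (by rw [h0, hk]), rrp_eq i j (by rw [h0, hk])]

lemma Pot_lt (hij : i < j) (a : (Fin z → Bool) → ℤ) {σ0 : Fin z → Bool} (hi : σ0 i = true)
    (hj : σ0 j = false) (hlt : a σ0 < a (swp i j σ0)) : Pot a < Pot (rrp i j a) := by
  unfold Pot
  apply sum_swp_lt i j _ _ _ σ0
  · rw [rrp_true i j hi hj, rrp_false i j (by rw [swp_i, hj]) (by rw [swp_j, hi]), swp_swp]
    exact (Pot_pair i j hij a hi hj).2 hlt
  · intro σ
    rcases h0 : σ i with _ | _ <;> rcases hk : σ j with _ | _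
    · rw [swp_eq i j (by rw [h0, hk]), rrp_eq i j (by rw [h0, hk])]
    · rw [rrp_false i j h0 hk, rrp_true i j (by rw [swp_i, hk]) (by rw [swp_j, h0]), swp_swp]
      have := (Pot_pair i j hij a (σ := swp i j σ) (by rw [swp_i, hk]) (by rw [swp_j, h0])).1
      rw [swp_swp] at this
      linarith
    · rw [rrp_true i j h0 hk, rrp_false i j (by rw [swp_i, hk]) (by rw [swp_j, h0]), swp_swp]
      exact (Pot_pair i j hij a h0 hk).1
    · rw [swp_eq i j (by rw [h0, hk]), rrp_eq i j (by rw [h0, hk])]

end swap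

/-- stability under shifts -/
def Stab {z : ℕ} (f : (Fin z → Bool) → ℤ) : Prop :=
  ∀ i j : Fin z, i < j → ∀ σ, σ i = true → σ j = false →
    f (update (update σ i false) j true) ≤ f σ

lemma swp_upd {z : ℕ} {i j : Fin z} (hij : i ≠ j) {σ : Fin z → Bool} (hi : σ i = true)
    (hj : σ j = false) : swp i j σ = update (update σ i false) j true := by
  funext l
  by_cases h2 : l = j
  · subst h2; rw [swp_j, update_self, hi]
  · rw [update_of_ne h2]
    by_cases h1 : l = i
    · subst h1; rw [swp_i, update_self, hj]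
    · rw [swp_of_ne i j σ h1 h2, update_of_ne h1]

lemma Val.bd {z : ℕ} {A : ℤ} {a : (Fin z → Bool) → ℤ} (ha : Val A a) (σ : Fin z → Bool) :
    a σ ∈ Set.Icc (-(|A| + z)) (|A| + z) := by
  have h1 := ha.le_of_ng σ
  have h2 := ha.le_of_ng (ng σ)
  have h3 := ha.sd σ
  have h4 := le_abs_self A
  have h5 := neg_abs_le A
  constructor
  · omega
  · omega

lemma val_finite {z : ℕ} (A : ℤ) : {a : (Fin z → Bool) → ℤ | Val A a}.Finite := by
  apply Set.Finite.subset (Set.Finite.pi (fun _ : Fin z → Bool =>
    Set.finite_Icc (-(|A| + (z : ℤ))) (|A| + z)))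
  intro a ha
  rw [Set.mem_pi]
  intro σ _
  exact Val.bd ha σ

/-- best pairs -/
lemma exists_best {z : ℕ} {A C : ℤ} {G H : ℤ → ℝ} (hG : Monotone G) (hH : Monotone H)
    {a c : (Fin z → Bool) → ℤ} (ha : Val A a) (hc : Val C c) :
    ∃ a' c' : (Fin z → Bool) → ℤ, Val A a' ∧ Val C c' ∧ PV G H a c ≤ PV G H a' c' ∧
      (∀ a'' c'' : (Fin z → Bool) → ℤ, Val A a'' → Val C c'' →
        PV G H a'' c'' ≤ PV G H a' c') ∧ Stab a' ∧ Stab c' := by
  let S : Set (((Fin z → Bool) → ℤ) × ((Fin z → Bool) → ℤ)) :=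
    {a | Val A a} ×ˢ {c | Val C c}
  have hS : S.Finite := (val_finite A).prod (val_finite C)
  have hmem : ∀ a'' c'', Val A a'' → Val C c'' → (a'', c'') ∈ S := fun a'' c'' h1 h2 => ⟨h1, h2⟩
  obtain ⟨⟨a1, c1⟩, hq1, hmax1⟩ := Set.exists_max_image S (fun q => PV G H q.1 q.2) hS
    ⟨(a, c), hmem a c ha hc⟩
  let S' : Set (((Fin z → Bool) → ℤ) × ((Fin z → Bool) → ℤ)) :=
    S ∩ {q | PV G H q.1 q.2 = PV G H a1 c1}
  have hS' : S'.Finite := hS.inter_of_left _
  obtain ⟨⟨a2, c2⟩, hq2, hmax2⟩ := Set.exists_max_image S' (fun q => Pot q.1 + Pot q.2) hS'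
    ⟨(a1, c1), hq1, rfl⟩
  have hV : PV G H a2 c2 = PV G H a1 c1 := hq2.2
  have hval : Val A a2 ∧ Val C c2 := hq2.1
  have hst : ∀ i j : Fin z, i < j → Pot (rrp i j a2) + Pot (rrp i j c2) ≤ Pot a2 + Pot c2 := by
    intro i j hij
    apply hmax2 (rrp i j a2, rrp i j c2)
    have hm := hmem _ _ (rrp_val i j hij.ne hval.1) (rrp_val i j hij.ne hval.2)
    refine ⟨hm, le_antisymm (hmax1 _ hm) ?_⟩
    rw [← hV]
    exact rrp_PV i j hG hH a2 c2
  refine ⟨a2, c2, hval.1, hval.2, ?_, ?_, ?_, ?_⟩
  · rw [hV]; exact hmax1 (a, c) (hmem a c ha hc)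
  · intro a'' c'' h1 h2
    rw [hV]; exact hmax1 (a'', c'') (hmem _ _ h1 h2)
  · intro i j hij σ hi hj
    by_contra hcon
    push Not at hcon
    rw [← swp_upd hij.ne hi hj] at hcon
    have h1 := Pot_lt i j hij a2 hi hj hcon
    have h2 := Pot_le i j hij c2
    have h3 := hst i j hij
    linarith
  · intro i j hij σ hi hj
    by_contra hcon
    push Not at hcon
    rw [← swp_upd hij.ne hi hj] at hcon
    have h1 := Pot_lt i j hij c2 hi hj hcon
    have h2 := Pot_le i j hij a2
    have h3 := hst i j hij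
    linarith

end Pool.Agent.MP_867aae_co.P75
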