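import Mathlib
import Pool.Agent.MP_867aae_co.H75.SBall

/-!
Real versions of the ball volumes around a centre; the overshoot function.
-/

namespace Pool.Agent.MP_867aae_co.P75

open Pool.Agent.MP_867aae_co.H75

/-- the overshoot -/
noncomputable def Ph (N : ℕ) (K : ℤ) : ℝ := (N - K) * cz N K - (N - 2 * K) * bz N K

lemma cz_stepR (N : ℕ) (K : ℤ) : (cz N (K + 1) : ℝ) * (K + 1) = cz N K * (N - K) := by
  have := cz_step N K
  exact_mod_cast this

lemma bz_succR (N : ℕ) (K : ℤ) : (bz N (K + 1) : ℝ) = bz N K + cz N (K + 1) := by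
  have := bz_succ N K
  exact_mod_cast this

lemma czR_nonneg (N : ℕ) (K : ℤ) : (0 : ℝ) ≤ cz N K := by exact_mod_cast cz_nonneg N K

lemma bzR_nonneg (N : ℕ) (K : ℤ) : (0 : ℝ) ≤ bz N K := by exact_mod_cast bz_nonneg N K

lemma Ph_succ (N : ℕ) (K : ℤ) : Ph N (K + 1) = Ph N K + 2 * bz N K := by
  unfold Ph
  have h1 := cz_stepR N K
  have h2 := bz_succR N K
  push_cast
  rw [h2]
  linear_combination h1

lemma Ph_neg (N : ℕ) {K : ℤ} (h : K < 0) : Ph N K = 0 := by
  unfold Ph
  rw [cz_neg h, bz_neg h]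
  simp

lemma Ph_nonneg (N : ℕ) (K : ℤ) : 0 ≤ Ph N K := by
  by_cases h : K < 0
  · rw [Ph_neg N h]
  · obtain ⟨k, rfl⟩ := Int.eq_ofNat_of_zero_le (show 0 ≤ K by omega)
    clear h
    induction k with
    | zero =>
      have := Ph_succ N (-1)
      rw [Ph_neg N (show (-1 : ℤ) < 0 by omega)] at this
      simp only [Int.reduceNeg, neg_add_cancel] at this
      have h2 := bzR_nonneg N (-1)
      simp only [Nat.cast_zero]
      rw [this]; linarith
    | succ k ih =>
      have := Ph_succ N k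
      have h2 := bzR_nonneg N k
      push_cast
      rw [this]; linarith

/-- log-concavity with ball volumes -/
lemma lcB (N : ℕ) (K : ℤ) : (cz N (K + 2) : ℝ) * bz N K ≤ cz N (K + 1) * bz N (K + 1) := by
  have : cz N (K + 2) * bz N K ≤ cz N (K + 1) * bz N (K + 1) := by
    apply bz_lc _ (cz_nonneg _ _)
    intro k hk
    have := cz_lc (p := N) (m := K + 1) (m' := k) (by omega)
    rw [show K + 1 + 1 = K + 2 by ring] at this
    exact this
  exact_mod_cast this

lemma PhU (N : ℕ) (K : ℤ) : Ph N K * cz N (K + 1) ≤ 2 * (bz N K : ℝ) ^ 2 := by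
  by_cases h : K < 0
  · rw [Ph_neg N h, bz_neg h]; simp
  · obtain ⟨k, rfl⟩ := Int.eq_ofNat_of_zero_le (show 0 ≤ K by omega)
    clear h
    induction k with
    | zero =>
      have h0 : Ph N ((0 : ℕ) : ℤ) = 0 := by
        unfold Ph
        simp [cz, bz, Ball_zero]
      rw [h0, zero_mul]
      positivity
    | succ k ih =>
      have e : ((k + 1 : ℕ) : ℤ) = (k : ℤ) + 1 := by push_cast; ring
      rw [e, Ph_succ, add_assoc, show (1 : ℤ) + 1 = 2 by norm_num]
      have h1 := lcB N k
      have h2 := bz_succR N k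
      have h3 := Ph_nonneg N k
      have hB0 : (0 : ℝ) < bz N k := by
        have h1 := bz_mono N (show (0 : ℤ) ≤ (k : ℤ) by omega)
        have h2 : bz N 0 = 1 := by simp [bz, Ball_zero]
        have : 0 < bz N k := by omega
        exact_mod_cast this
      have hB1 := bzR_nonneg N ((k : ℤ) + 1)
      have h4 : Ph N k * cz N ((k : ℤ) + 2) ≤ 2 * bz N k * bz N ((k : ℤ) + 1) := by
        have h5 : Ph N k * (cz N ((k : ℤ) + 2) * bz N k) ≤
            Ph N k * (cz N ((k : ℤ) + 1) * bz N ((k : ℤ) + 1)) := mul_le_mul_of_nonneg_left h1 h3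
        have h6 : (Ph N k * cz N ((k : ℤ) + 1)) * bz N ((k : ℤ) + 1) ≤
            (2 * (bz N k : ℝ) ^ 2) * bz N ((k : ℤ) + 1) := mul_le_mul_of_nonneg_right ih hB1
        apply le_of_mul_le_mul_right _ hB0
        calc Ph N k * cz N ((k : ℤ) + 2) * bz N k = Ph N k * (cz N ((k : ℤ) + 2) * bz N k) := by ring
          _ ≤ _ := h5
          _ = (Ph N k * cz N ((k : ℤ) + 1)) * bz N ((k : ℤ) + 1) := by ring
          _ ≤ _ := h6
          _ = 2 * bz N k * bz N ((k : ℤ) + 1) * bz N k := by ring
      calc (Ph N k + 2 * bz N k) * cz N ((k : ℤ) + 2)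
          = Ph N k * cz N ((k : ℤ) + 2) + 2 * (cz N ((k : ℤ) + 2) * bz N k) := by ring
        _ ≤ 2 * bz N k * bz N ((k : ℤ) + 1) + 2 * (cz N ((k : ℤ) + 1) * bz N ((k : ℤ) + 1)) := by
          linarith
        _ = 2 * (bz N ((k : ℤ) + 1) : ℝ) ^ 2 := by rw [h2]; ring

/-- the overshoot relative to the ball volume increases -/
lemma Ph_ratio (N : ℕ) (K : ℤ) (i : ℕ) : Ph N K * bz N (K + i) ≤ Ph N (K + i) * bz N K := by
  induction i with
  | zero => simp
  | succ i ih =>
    have e : K + ((i + 1 : ℕ) : ℤ) = K + i + 1 := by push_cast; ring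
    rw [e, Ph_succ, bz_succR]
    set L := K + (i : ℤ)
    have h1 := PhU N L
    have hL := bzR_nonneg N L
    have hK := bzR_nonneg N K
    have hP := Ph_nonneg N K
    rcases hL.eq_or_lt with h0 | h0
    · -- the ball is empty
      have hL0 : L < 0 := by
        by_contra hc
        have h1 := bz_mono N (show (0 : ℤ) ≤ L by omega)
        have h2 : bz N 0 = 1 := by simp [bz, Ball_zero]
        have : 0 < bz N L := by omega
        have : (0 : ℝ) < bz N L := by exact_mod_cast this
        linarith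
      have hK0 : K < 0 := by omega
      rw [Ph_neg N hK0, bz_neg hK0]
      simp
    · -- multiply the induction hypothesis
      apply le_of_mul_le_mul_right _ h0
      have h2 : (Ph N K * bz N L) * (bz N L + cz N (L + 1)) ≤
          (Ph N L * bz N K) * (bz N L + cz N (L + 1)) :=
        mul_le_mul_of_nonneg_right ih (add_nonneg hL (czR_nonneg _ _))
      have h3 : (Ph N L * cz N (L + 1)) * bz N K ≤ (2 * (bz N L : ℝ) ^ 2) * bz N K :=
        mul_le_mul_of_nonneg_right h1 hK
      calc Ph N K * (bz N L + cz N (L + 1)) * bz N L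
          = (Ph N K * bz N L) * (bz N L + cz N (L + 1)) := by ring
        _ ≤ _ := h2
        _ = Ph N L * bz N K * bz N L + (Ph N L * cz N (L + 1)) * bz N K := by ring
        _ ≤ Ph N L * bz N K * bz N L + (2 * (bz N L : ℝ) ^ 2) * bz N K := by linarith
        _ = (Ph N L + 2 * bz N L) * bz N K * bz N L := by ring

end Pool.Agent.MP_867aae_co.P75
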