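import Mathlib
import Pool.Agent.MP_867aae_co.H75.SMove
import Pool.Agent.MP_867aae_co.P75.PB
import Pool.Agent.MP_867aae_co.P75.YA

/-!
The odd move for pairs.
-/

namespace Pool.Agent.MP_867aae_co.P75

open Finset Function Pool.Agent.MP_867aae_co.H75

/-- real ball volume -/
noncomputable def Gf (p : ℕ) (x : ℤ) : ℝ := bz p x

/-- real binomial coefficient -/
noncomputable def kf (p : ℕ) (x : ℤ) : ℝ := cz p x

lemma Gf_mono (p : ℕ) : Monotone (Gf p) := by
  intro x y h
  unfold Gf
  exact_mod_cast bz_mono p h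

lemma Gf_nonneg (p : ℕ) (x : ℤ) : 0 ≤ Gf p x := bzR_nonneg p x

lemma kf_nonneg (p : ℕ) (x : ℤ) : 0 ≤ kf p x := czR_nonneg p x

lemma Gf_rec (p : ℕ) (x : ℤ) : Gf (p + 1) x = Gf p x + Gf p (x - 1) := by
  unfold Gf; exact_mod_cast bz_rec p x

lemma Gf_succ (p : ℕ) (x : ℤ) : Gf p (x + 1) = Gf p x + kf p (x + 1) := bz_succR p x

lemma Gf_pred (p : ℕ) (x : ℤ) : Gf p (x - 1) = Gf p x - kf p x := by
  have := Gf_succ p (x - 1)
  rw [sub_add_cancel] at this
  linarith

/-- gain at a flat string -/
noncomputable def sg (p : ℕ) (e : Bool) (x : ℤ) : ℝ := if e then kf p (x + 1) else -kf p x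

lemma lvl {p : ℕ} {A m : ℤ} (hA : A ≤ p - 1) {ι : Type*} (s : Finset ι) (W W' : ι → ℝ)
    (hW : ∀ i, 0 ≤ W i) (hW' : ∀ i, 0 ≤ W' i) :
    ∃ e : Bool, 0 ≤ ∑ i ∈ s, (W i * sg p e m + W' i * sg p (!e) (A - m)) := by
  by_contra hcon
  push Not at hcon
  have h1 := hcon true
  have h2 := hcon false
  simp only [sg, Bool.not_true, Bool.not_false, Bool.false_eq_true, if_false, if_true] at h1 h2
  rw [Finset.sum_add_distrib, ← Finset.sum_mul, ← Finset.sum_mul] at h1 h2
  have hS : 0 ≤ ∑ i ∈ s, W i := Finset.sum_nonneg (fun i _ => hW i)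
  have hS' : 0 ≤ ∑ i ∈ s, W' i := Finset.sum_nonneg (fun i _ => hW' i)
  set S := ∑ i ∈ s, W i
  set S' := ∑ i ∈ s, W' i
  have h3 : S * kf p (m + 1) < S' * kf p (A - m) := by linarith
  have h4 : S' * kf p (A - m + 1) < S * kf p m := by linarith
  have h5 : kf p m * kf p (A - m) ≤ kf p (m + 1) * kf p (A - m + 1) := by
    have := cz_lc2 (p := p) (m := m) (m' := A - m) (by omega)
    unfold kf
    exact_mod_cast this
  have h6 : (S * kf p (m + 1)) * (S' * kf p (A - m + 1)) < (S' * kf p (A - m)) * (S * kf p m) :=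
    mul_lt_mul'' h3 h4 (mul_nonneg hS (kf_nonneg _ _)) (mul_nonneg hS' (kf_nonneg _ _))
  have h7 := mul_le_mul_of_nonneg_left h5 (mul_nonneg hS hS')
  linarith

section
variable {z : ℕ}

/-- new values of `c` -/
def nc (C : ℤ) (c : (Fin (z + 1) → Bool) → ℤ) (θ : Bool) (τ : Fin z → Bool) : ℤ :=
  if C < c (Fin.cons true τ) + c (Fin.cons false τ) then
    (if θ then c (Fin.cons true τ) - 1 else c (Fin.cons false τ)) else
    (if θ then c (Fin.cons false τ) else c (Fin.cons true τ) - 1)

lemma Stab.st0 {f : (Fin (z + 1) → Bool) → ℤ} (h : Stab f) (τ : Fin z → Bool) (k : Fin z)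
    (hk : τ k = false) : f (Fin.cons false (update τ k true)) ≤ f (Fin.cons true τ) := by
  have h1 := h 0 k.succ (Fin.succ_pos k) (Fin.cons true τ) (by simp) (by simpa using hk)
  rwa [Fin.update_cons_zero, ← Fin.cons_update] at h1

lemma nc_val {C : ℤ} {c : (Fin (z + 1) → Bool) → ℤ} (hc : Val C c) (hC : C % 2 = 1)
    (hs : Stab c) (θ : Bool) : Val (C - 1) (nc C c θ) := by
  refine ⟨?_, ?_⟩
  · intro τ
    have h1 := sd0 hc τ
    have h2 := sd1 hc τ
    have h3 := H75.st0 hc τ
    unfold nc
    cases θ <;> simp only [Bool.false_eq_true, if_false, if_true] <;> split_ifs <;> omega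
  · intro τ i hi
    have h1 := stS hc false τ hi
    have h2 := stS hc true τ hi
    have h3 := H75.st0 hc τ
    have h4 := H75.st0 hc (update τ i true)
    have h5 := hs.st0 τ i hi
    unfold nc
    cases θ <;> simp only [Bool.false_eq_true, if_false, if_true] <;> split_ifs <;> omega

/-- the odd move -/
lemma odd_move {A C : ℤ} (p : ℕ) {H : ℤ → ℝ} (hH : Monotone H) (hH0 : ∀ b, 0 ≤ H b)
    (hA : A ≤ p - 1) {a c : (Fin (z + 1) → Bool) → ℤ} (ha : Val A a) (hc : Val C c)
    (hAo : A % 2 = 1) (hCo : C % 2 = 1) (sa : Stab a) (sc : Stab c) :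
    ∃ a' c' : (Fin z → Bool) → ℤ, Val (A + 1) a' ∧ Val (C - 1) c' ∧
      PV (Gf p) H a c ≤ PV (Gf (p + 1)) H a' c' := by
  classical
  -- weights
  let W : (Fin z → Bool) → ℝ := fun τ =>
    H (c (Fin.cons true τ) - 1 - cn τ) + H (c (Fin.cons false τ) - cn τ)
  have hW : ∀ τ, 0 ≤ W τ := fun τ => add_nonneg (hH0 _) (hH0 _)
  have hlev : ∀ m : ℤ, ∃ e : Bool, 0 ≤ ∑ τ ∈ univ.filter (fun τ : Fin z → Bool =>
      a (Fin.cons false τ) = a (Fin.cons true τ) ∧ a (Fin.cons false τ) = m),
      (W τ * sg p e m + W (ng τ) * sg p (!e) (A - m)) := fun m =>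
    lvl hA _ W (fun τ => W (ng τ)) hW (fun τ => hW (ng τ))
  choose ε hε using hlev
  let w : (Fin z → Bool) → Bool := fun τ =>
    if A < 2 * a (Fin.cons false τ) then ε (a (Fin.cons false τ)) else
      !ε (A - a (Fin.cons false τ))
  have hflat : ∀ τ : Fin z → Bool, a (Fin.cons false τ) = a (Fin.cons true τ) →
      a (Fin.cons false (ng τ)) = A - a (Fin.cons false τ) ∧
      a (Fin.cons false (ng τ)) = a (Fin.cons true (ng τ)) := by
    intro τ h
    have h1 := sd0 ha τ
    have h2 := sd1 ha τ
    omega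
  have w1 : ∀ τ, a (Fin.cons false τ) = a (Fin.cons true τ) → w (ng τ) = !w τ := by
    intro τ hf
    obtain ⟨h1, -⟩ := hflat τ hf
    simp only [w]
    rw [h1]
    rcases lt_trichotomy (2 * a (Fin.cons false τ)) A with h | h | h
    · rw [if_pos (by omega), if_neg (by omega), Bool.not_not]
    · omega
    · rw [if_neg (by omega), if_pos (by omega), sub_sub_cancel]
  have w2 : ∀ τ i, τ i = false → a (Fin.cons false τ) = a (Fin.cons true τ) →
      a (Fin.cons false (update τ i true)) = a (Fin.cons true (update τ i true)) →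
      a (Fin.cons false (update τ i true)) = a (Fin.cons false τ) →
      w τ = true → w (update τ i true) = true := by
    intro τ i hi hf hf' he hw
    simp only [w] at hw ⊢
    rw [he]
    exact hw
  have hval := nf_val ha sa.st0 w w1 w2
  -- the comparison
  have key : 2 * PV (Gf p) H a c ≤ PV (Gf (p + 1)) H (nf a w) (nc C c true) +
      PV (Gf (p + 1)) H (nf a w) (nc C c false) := by
    unfold PV
    rw [sum_consR, ← Finset.sum_add_distrib, Finset.mul_sum]
    have hpt : ∀ τ : Fin z → Bool,
        2 * (Gf p (a (Fin.cons false τ)) * H (c (Fin.cons false τ) - cn (Fin.cons false τ)) +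
          Gf p (a (Fin.cons true τ)) * H (c (Fin.cons true τ) - cn (Fin.cons true τ))) +
        (if a (Fin.cons false τ) = a (Fin.cons true τ) then
          W τ * sg p (w τ) (a (Fin.cons false τ)) else 0) ≤
        Gf (p + 1) (nf a w τ) * H (nc C c true τ - cn τ) +
          Gf (p + 1) (nf a w τ) * H (nc C c false τ - cn τ) := by
      intro τ
      have h3 := H75.st0 ha τ
      have h3c := H75.st0 hc τ
      rw [cn_cons, cn_cons]
      simp only [Bool.false_eq_true, if_false, if_true, zero_add]
      have e1 : Gf (p + 1) (nf a w τ) * H (nc C c true τ - cn τ) +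
          Gf (p + 1) (nf a w τ) * H (nc C c false τ - cn τ) = Gf (p + 1) (nf a w τ) * W τ := by
        simp only [W]
        unfold nc
        simp only [Bool.false_eq_true, if_false, if_true]
        split_ifs
        · ring
        · ring
      rw [e1, show c (Fin.cons true τ) - (1 + cn τ) = c (Fin.cons true τ) - 1 - cn τ by ring]
      simp only [W]
      have hh : H (c (Fin.cons true τ) - 1 - cn τ) ≤ H (c (Fin.cons false τ) - cn τ) :=
        hH (by omega)
      set u := H (c (Fin.cons true τ) - 1 - cn τ)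
      set v := H (c (Fin.cons false τ) - cn τ)
      unfold nf
      by_cases hf : a (Fin.cons false τ) = a (Fin.cons true τ)
      · rw [if_pos hf, if_pos hf, ← hf]
        set x := a (Fin.cons false τ)
        rcases w τ with _ | _
        · simp only [Bool.false_eq_true, if_false, add_zero, sg]
          rw [Gf_rec, Gf_pred]
          apply le_of_eq
          ring
        · simp only [if_true, sg]
          rw [Gf_rec, add_sub_cancel_right, Gf_succ]
          apply le_of_eq
          ring
      · rw [if_neg hf, if_neg hf]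
        have h4 : a (Fin.cons true τ) = a (Fin.cons false τ) + 1 := by omega
        rw [h4, Gf_rec, add_sub_cancel_right]
        have h5 := Gf_mono p (show a (Fin.cons false τ) ≤ a (Fin.cons false τ) + 1 by omega)
        have h6 := mul_nonneg (sub_nonneg.2 h5) (sub_nonneg.2 hh)
        linarith
    have hsum := Finset.sum_le_sum (fun τ (_ : τ ∈ (univ : Finset (Fin z → Bool))) => hpt τ)
    rw [Finset.sum_add_distrib] at hsum
    suffices h : 0 ≤ ∑ τ, (if a (Fin.cons false τ) = a (Fin.cons true τ) then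
          W τ * sg p (w τ) (a (Fin.cons false τ)) else 0) by linarith
    -- levels
    let F1 : (Fin z → Bool) → ℝ := fun τ =>
      if a (Fin.cons false τ) = a (Fin.cons true τ) ∧ A < 2 * a (Fin.cons false τ) then
        W τ * sg p (w τ) (a (Fin.cons false τ)) else 0
    let F2 : (Fin z → Bool) → ℝ := fun τ =>
      if a (Fin.cons false τ) = a (Fin.cons true τ) ∧ 2 * a (Fin.cons false τ) < A then
        W τ * sg p (w τ) (a (Fin.cons false τ)) else 0
    have hsplit : ∀ τ, (if a (Fin.cons false τ) = a (Fin.cons true τ) then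
          W τ * sg p (w τ) (a (Fin.cons false τ)) else 0) = F1 τ + F2 τ := by
      intro τ
      simp only [F1, F2]
      by_cases hf : a (Fin.cons false τ) = a (Fin.cons true τ)
      · rw [if_pos hf]
        rcases lt_trichotomy (2 * a (Fin.cons false τ)) A with h | h | h
        · rw [if_neg (by omega), if_pos ⟨hf, h⟩]; simp
        · omega
        · rw [if_pos ⟨hf, h⟩, if_neg (by omega)]; simp
      · rw [if_neg hf, if_neg (fun h => hf h.1), if_neg (fun h => hf h.1)]
        simp
    rw [Finset.sum_congr rfl (fun τ _ => hsplit τ), Finset.sum_add_distrib]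
    rw [← sum_ngR F2, ← Finset.sum_add_distrib]
    have e1 : ∀ τ, F1 τ + F2 (ng τ) =
        if a (Fin.cons false τ) = a (Fin.cons true τ) ∧ A < 2 * a (Fin.cons false τ) then
        (W τ * sg p (ε (a (Fin.cons false τ))) (a (Fin.cons false τ)) +
          W (ng τ) * sg p (!ε (a (Fin.cons false τ))) (A - a (Fin.cons false τ))) else 0 := by
      intro τ
      simp only [F1, F2]
      by_cases hf : a (Fin.cons false τ) = a (Fin.cons true τ)
      · obtain ⟨h1, h2⟩ := hflat τ hf
        by_cases h : A < 2 * a (Fin.cons false τ)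
        · rw [if_pos ⟨hf, h⟩, if_pos ⟨h2, by omega⟩, if_pos ⟨hf, h⟩]
          have hw1 : w τ = ε (a (Fin.cons false τ)) := by simp only [w]; rw [if_pos h]
          rw [w1 τ hf, hw1, h1]
        · rw [if_neg (fun h' => h h'.2), if_neg (by omega), if_neg (fun h' => h h'.2)]; simp
      · have h2 : ¬ a (Fin.cons false (ng τ)) = a (Fin.cons true (ng τ)) := by
          have h1 := sd0 ha τ
          have h2 := sd1 ha τ
          omega
        rw [if_neg (fun h' => hf h'.1), if_neg (fun h' => h2 h'.1), if_neg (fun h' => hf h'.1)]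
        simp
    rw [Finset.sum_congr rfl (fun τ _ => e1 τ), ← Finset.sum_filter]
    rw [← Finset.sum_fiberwise_of_maps_to (g := fun τ : Fin z → Bool => a (Fin.cons false τ))
      (t := (univ.filter (fun τ : Fin z → Bool => a (Fin.cons false τ) = a (Fin.cons true τ) ∧
        A < 2 * a (Fin.cons false τ))).image (fun τ : Fin z → Bool => a (Fin.cons false τ)))
      (fun x hx => Finset.mem_image_of_mem _ hx)]
    apply Finset.sum_nonneg
    intro m hm
    obtain ⟨τ0, hτ0, rfl⟩ := Finset.mem_image.1 hm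
    have hm0 : A < 2 * a (Fin.cons false τ0) := (Finset.mem_filter.1 hτ0).2.2
    set m := a (Fin.cons false τ0)
    refine (hε m).trans_eq ?_
    rw [Finset.filter_filter]
    have : (univ.filter (fun τ : Fin z → Bool =>
        a (Fin.cons false τ) = a (Fin.cons true τ) ∧ a (Fin.cons false τ) = m)) =
        (univ.filter (fun τ : Fin z → Bool => (a (Fin.cons false τ) = a (Fin.cons true τ) ∧
          A < 2 * a (Fin.cons false τ)) ∧ a (Fin.cons false τ) = m)) := by
      ext τ
      simp only [Finset.mem_filter, Finset.mem_univ, true_and]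
      constructor
      · rintro ⟨h1, h2⟩; exact ⟨⟨h1, by omega⟩, h2⟩
      · rintro ⟨⟨h1, _⟩, h2⟩; exact ⟨h1, h2⟩
    rw [this]
    apply Finset.sum_congr rfl
    intro τ hτ
    have h1 : a (Fin.cons false τ) = m := (Finset.mem_filter.1 hτ).2.2
    rw [h1]
  rcases le_total (PV (Gf (p + 1)) H (nf a w) (nc C c true))
    (PV (Gf (p + 1)) H (nf a w) (nc C c false)) with h | h
  · exact ⟨nf a w, nc C c false, hval, nc_val hc hCo sc false, by linarith⟩
  · exact ⟨nf a w, nc C c true, hval, nc_val hc hCo sc true, by linarith⟩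

end

end Pool.Agent.MP_867aae_co.P75
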