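import Mathlib
import Pool.Agent.MP_867aae_co.P75.YA

/-!
The flat inequality with a constant weight: sign patterns are preserved by Pascal's rule.
-/

namespace Pool.Agent.MP_867aae_co.P75

open Pool.Agent.MP_867aae_co.H75

/-- sign pattern `+ - +` -/
def Pat (f : ℤ → ℝ) : Prop := ∃ p q : ℤ, p ≤ q ∧ (∀ j, j < p → 0 ≤ f j) ∧
  (∀ j, p ≤ j → j < q → f j ≤ 0) ∧ (∀ j, q ≤ j → 0 ≤ f j)

lemma Pat_step {f g : ℤ → ℝ} (hf : Pat f) (hg : ∀ j, g j = f j + f (j - 1)) : Pat g := by
  obtain ⟨p, q, hpq, h1, h2, h3⟩ := hf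
  rcases hpq.eq_or_lt with h | h
  · subst h
    have hall : ∀ j, 0 ≤ f j := by
      intro j
      rcases lt_or_ge j p with hj | hj
      · exact h1 j hj
      · exact h3 j hj
    refine ⟨p, p, le_refl _, ?_, ?_, ?_⟩
    · intro j _; rw [hg]; exact add_nonneg (hall _) (hall _)
    · intro j _ _; omega
    · intro j _; rw [hg]; exact add_nonneg (hall _) (hall _)
  · have a1 : ∀ j, j < p → 0 ≤ g j := fun j hj => by
      rw [hg]; exact add_nonneg (h1 _ (by omega)) (h1 _ (by omega))
    have a2 : ∀ j, p < j → j < q → g j ≤ 0 := fun j hj1 hj2 => by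
      rw [hg]; exact add_nonpos (h2 _ (by omega) (by omega)) (h2 _ (by omega) (by omega))
    have a3 : ∀ j, q < j → 0 ≤ g j := fun j hj => by
      rw [hg]; exact add_nonneg (h3 _ (by omega)) (h3 _ (by omega))
    obtain ⟨p', hp'1, hp'2, hp'3⟩ : ∃ p', (p ≤ p' ∧ p' ≤ p + 1) ∧ (∀ j, j < p' → 0 ≤ g j) ∧
        (∀ j, p' ≤ j → j < q → g j ≤ 0) := by
      rcases le_total (g p) 0 with h4 | h4
      · refine ⟨p, by omega, a1, ?_⟩
        intro j hj1 hj2
        rcases eq_or_lt_of_le hj1 with e | e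
        · subst e; exact h4
        · exact a2 j e hj2
      · refine ⟨p + 1, by omega, ?_, fun j hj1 hj2 => a2 j (by omega) hj2⟩
        intro j hj
        rcases eq_or_lt_of_le (show j ≤ p by omega) with e | e
        · subst e; exact h4
        · exact a1 j e
    rcases le_total (g q) 0 with h4 | h4
    · refine ⟨p', q + 1, by omega, hp'2, ?_, fun j hj => a3 j (by omega)⟩
      intro j hj1 hj2
      rcases eq_or_lt_of_le (show j ≤ q by omega) with e | e
      · subst e; exact h4
      · exact hp'3 j hj1 e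
    · refine ⟨p', q, by omega, hp'2, hp'3, ?_⟩
      intro j hj
      rcases eq_or_lt_of_le hj with e | e
      · subst e; exact h4
      · exact a3 j e

lemma Pat_end {f : ℤ → ℝ} (hf : Pat f) (h1 : 0 < f (-1)) (h0 : f 0 < 0) (h2 : 0 < f 1) (j : ℤ)
    (hj : j ≠ 0) : 0 ≤ f j := by
  obtain ⟨p, q, hpq, a1, a2, a3⟩ := hf
  have b1 : p ≤ 0 := by
    by_contra h; push Not at h
    have := a1 0 h; linarith
  have b2 : 0 < q := by
    by_contra h; push Not at h
    have := a3 0 h; linarith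
  have b3 : -1 < p := by
    by_contra h; push Not at h
    have := a2 (-1) h (by omega); linarith
  have b4 : q ≤ 1 := by
    by_contra h; push Not at h
    have := a2 1 (by omega) h; linarith
  rcases lt_or_gt_of_ne hj with h | h
  · exact a1 j (by omega)
  · exact a3 j (by omega)

/-- the sequence -/
noncomputable def Sq (q : ℤ) (a b c : ℝ) (N : ℕ) (x : ℤ) : ℝ :=
  a * cz N x - b * cz N (x - 1) - a * cz N (x - q) + b * cz N (x - q - 1) + c * bz N (x - q - 1)

lemma cz_zero (x : ℤ) : (cz 0 x : ℝ) = if x = 0 then 1 else 0 := by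
  rcases lt_trichotomy x 0 with h | h | h
  · rw [cz_neg h, if_neg (by omega)]; simp
  · subst h; simp [cz]
  · rw [cz_big (by simpa using h), if_neg (by omega)]; simp

lemma bz_zero (x : ℤ) : (bz 0 x : ℝ) = if 0 ≤ x then 1 else 0 := by
  by_cases h : 0 ≤ x
  · obtain ⟨n, rfl⟩ := Int.eq_ofNat_of_zero_le h
    rw [if_pos h, bz_nat]
    have : Ball 0 n = 1 := by
      induction n with
      | zero => simp [Ball]
      | succ n ih => rw [Ball_succ_right, ih (by omega)]; simp
    rw [this]; simp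
  · rw [if_neg h, bz_neg (by omega)]; simp

lemma Sq_rec (q : ℤ) (a b c : ℝ) (N : ℕ) (x : ℤ) :
    Sq q a b c (N + 1) x = Sq q a b c N x + Sq q a b c N (x - 1) := by
  have h : ∀ y, (cz (N + 1) y : ℝ) = cz N y + cz N (y - 1) := fun y => by
    have := cz_rec N y; exact_mod_cast this
  have h' : ∀ y, (bz (N + 1) y : ℝ) = bz N y + bz N (y - 1) := fun y => by
    have := bz_rec N y; exact_mod_cast this
  unfold Sq
  rw [h, h, h, h, h', show x - q - 1 - 1 = x - 1 - q - 1 by ring, show x - q - 1 = x - 1 - q by ring]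
  ring

lemma Sq_pat {q : ℤ} (hq : 1 ≤ q) {a b c : ℝ} (ha : 0 ≤ a) (hb : 0 ≤ b) (hc : 0 ≤ c) (N : ℕ) :
    Pat (Sq q a b c N) := by
  induction N with
  | zero =>
    refine ⟨1, q + 1, by omega, ?_, ?_, ?_⟩
    · intro j hj
      unfold Sq
      rw [cz_zero, cz_zero, cz_zero, cz_zero, bz_zero, if_neg (show ¬ j - 1 = 0 by omega),
        if_neg (show ¬ j - q = 0 by omega), if_neg (show ¬ j - q - 1 = 0 by omega),
        if_neg (show ¬ 0 ≤ j - q - 1 by omega)]
      split_ifs <;> simp [ha]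
    · intro j hj1 hj2
      unfold Sq
      rw [cz_zero, cz_zero, cz_zero, cz_zero, bz_zero, if_neg (show ¬ j = 0 by omega),
        if_neg (show ¬ j - q - 1 = 0 by omega), if_neg (show ¬ 0 ≤ j - q - 1 by omega)]
      split_ifs <;> simp <;> linarith
    · intro j hj
      unfold Sq
      rw [cz_zero, cz_zero, cz_zero, cz_zero, bz_zero, if_neg (show ¬ j = 0 by omega),
        if_neg (show ¬ j - 1 = 0 by omega), if_neg (show ¬ j - q = 0 by omega),
        if_pos (show 0 ≤ j - q - 1 by omega)]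
      split_ifs <;> simp <;> linarith
  | succ N ih => exact Pat_step ih (fun j => Sq_rec q a b c N j)

/-- data for the second factor: `m = β + 1`, `n = r - β` -/
structure YD (r : ℕ) (m n : ℤ) : Prop where
  hm : 1 ≤ m
  hn : m ≤ n
  hr : (r : ℤ) = m + n - 1

/-- coefficient at distance `j` from the centre -/
noncomputable def hh (r : ℕ) (m j : ℤ) : ℝ := cz r (m - 1 + j)

/-- ball volume at distance `j` from the centre -/
noncomputable def HH (r : ℕ) (m j : ℤ) : ℝ := bz r (m - 1 + j)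

section
variable {r : ℕ} {m n : ℤ}

lemma hh_nonneg (r : ℕ) (m j : ℤ) : 0 ≤ hh r m j := czR_nonneg _ _

lemma HH_nonneg (r : ℕ) (m j : ℤ) : 0 ≤ HH r m j := bzR_nonneg _ _

lemma YD.step (d : YD r m n) (j : ℤ) : hh r m (j + 1) * (m + j) = hh r m j * (n - j) := by
  have := cz_stepR r (m - 1 + j)
  unfold hh
  rw [show m - 1 + (j + 1) = m - 1 + j + 1 by ring]
  have e : (r : ℝ) = m + n - 1 := by exact_mod_cast d.hr
  rw [e] at this
  push_cast at this
  linear_combination this

lemma HH_succ (r : ℕ) (m j : ℤ) : HH r m (j + 1) = HH r m j + hh r m (j + 1) := by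
  have := bz_succR r (m - 1 + j)
  unfold hh HH
  rw [show m - 1 + (j + 1) = m - 1 + j + 1 by ring]
  exact this

lemma HH_pred (r : ℕ) (m j : ℤ) : HH r m j = HH r m (j - 1) + hh r m j := by
  have := HH_succ r m (j - 1)
  rwa [sub_add_cancel] at this

lemma YD.symm (d : YD r m n) (j : ℤ) : (cz r (n + j) : ℝ) = hh r m (-j) := by
  unfold hh
  have := cz_symm r (n + j)
  rw [d.hr] at this
  rw [← this]
  congr 2
  ring

lemma YD.pos (d : YD r m n) : 0 < hh r m 0 := by
  unfold hh
  have h := d.hm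
  have h2 := d.hn
  have h3 := d.hr
  obtain ⟨k, hk⟩ := Int.eq_ofNat_of_zero_le (show 0 ≤ m - 1 + 0 by omega)
  rw [hk, cz_nat]
  have : 0 < r.choose k := Nat.choose_pos (by omega)
  exact_mod_cast this

lemma YD.posH (d : YD r m n) : 0 < HH r m 0 := by
  have h1 := d.pos
  have h2 := HH_pred r m 0
  have h3 := HH_nonneg r m (0 - 1)
  linarith

/-- overshoot nonnegative -/
lemma YD.ov (d : YD r m n) (j : ℤ) :
    (n - m + 1 - 2 * j) * HH r m j ≤ (n - j) * hh r m j := by
  have := Ph_nonneg r (m - 1 + j)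
  unfold Ph at this
  have e : (r : ℝ) = m + n - 1 := by exact_mod_cast d.hr
  rw [e] at this
  unfold hh HH
  push_cast at this
  linarith

lemma YD.U (d : YD r m n) (j : ℤ) :
    ((n - j) * hh r m j - (n - m + 1 - 2 * j) * HH r m j) * hh r m (j + 1) ≤
      2 * HH r m j ^ 2 := by
  have := PhU r (m - 1 + j)
  unfold Ph at this
  have e : (r : ℝ) = m + n - 1 := by exact_mod_cast d.hr
  rw [e] at this
  unfold hh HH
  rw [show m - 1 + (j + 1) = m - 1 + j + 1 by ring]
  push_cast at this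
  linarith

lemma YD.ovmono (d : YD r m n) {j : ℤ} (hj : 0 ≤ j) :
    (n * hh r m 0 - (n - m + 1) * HH r m 0) * HH r m j ≤
      ((n - j) * hh r m j - (n - m + 1 - 2 * j) * HH r m j) * HH r m 0 := by
  obtain ⟨i, rfl⟩ := Int.eq_ofNat_of_zero_le hj
  have := Ph_ratio r (m - 1) i
  unfold Ph at this
  have e : (r : ℝ) = m + n - 1 := by exact_mod_cast d.hr
  rw [e] at this
  unfold hh HH
  rw [add_zero]
  push_cast at this ⊢
  linarith


lemma flat_id1 {H0 x M Q : ℝ} (h1 : 0 < H0) (h2 : 0 < M) (h3 : 0 < M + 1) (h4 : 0 < M + Q + 1) :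
    (H0 * (x * (M - 1) / (M + Q + 1) - (M + Q - 1) * ((M + Q) * x / M) / (M + 1)) -
          (H0 - x) * (x - (M + Q) * x / M) +
          (H0 + (H0 - x)) * (((M + Q) * x / M - x) / H0) * (H0 + (M + Q) * x / M)) *
          (H0 * M * M * (M + 1) * (M + Q + 1)) =
          (Q * x) * ((6 * (M - 1) - (Q - 5) * (Q + 2)) * M * H0 ^ 2 +
            (2 * Q * H0 * x - (M + Q) * x ^ 2) * ((M + 1) * (M + Q + 1))) := by
  field_simp
  ring

lemma flat_id2 {H0 x M Q : ℝ} (h1 : 0 < H0) (h2 : 0 < M) (h3 : 0 < M + 1) (h4 : 0 < M + Q + 1) :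
    (H0 * ((M + Q) * x / M - x) -
          (H0 - x) * ((M + Q - 1) * ((M + Q) * x / M) / (M + 1) - x * (M - 1) / (M + Q + 1)) +
          (H0 + (H0 - x)) * (((M + Q) * x / M - x) / H0) * (H0 - x)) *
          (H0 * M * (M + 1) * (M + Q + 1)) =
          (Q * x) * (x ^ 2 * ((M + 1) * (M + Q + 1)) -
            ((Q - 5) * (Q + 2) - 6 * (M - 1)) * (H0 * (H0 - x))) := by
  field_simp
  ring

lemma flat_pos1 {H0 x M Q : ℝ} (h1 : 0 < H0) (hx : 0 < x) (hM : 1 ≤ M) (hQ : 1 ≤ Q)
    (hov : (Q + 1) * H0 ≤ (M + Q) * x)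
    (hU : (M + Q) * x * ((M + Q) * x - (Q + 1) * H0) ≤ 2 * M * H0 ^ 2) :
    0 < (6 * (M - 1) - (Q - 5) * (Q + 2)) * M * H0 ^ 2 +
            (2 * Q * H0 * x - (M + Q) * x ^ 2) * ((M + 1) * (M + Q + 1)) := by
  have hN : 0 < M + Q := by linarith
  have b2 : (Q - 1) * H0 * ((Q + 1) * H0) ≤ (Q - 1) * H0 * ((M + Q) * x) :=
    mul_le_mul_of_nonneg_left hov (mul_nonneg (by linarith) h1.le)
  have b1 : (Q ^ 2 - 1 - 2 * M) * H0 ^ 2 ≤ (M + Q) * (2 * Q * H0 * x - (M + Q) * x ^ 2) := by
    have e : (M + Q) * (2 * Q * H0 * x - (M + Q) * x ^ 2) =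
        (Q - 1) * H0 * ((M + Q) * x) - (M + Q) * x * ((M + Q) * x - (Q + 1) * H0) := by ring
    rw [e]
    linarith
  have b4 : (Q ^ 2 - 1 - 2 * M) * H0 ^ 2 * ((M + 1) * (M + Q + 1)) ≤
      (M + Q) * (2 * Q * H0 * x - (M + Q) * x ^ 2) * ((M + 1) * (M + Q + 1)) :=
    mul_le_mul_of_nonneg_right b1 (by positivity)
  have b5 : 0 < ((M + Q) * (6 * (M - 1) - (Q - 5) * (Q + 2)) * M +
      (Q ^ 2 - 1 - 2 * M) * ((M + 1) * (M + Q + 1))) * H0 ^ 2 := by
    apply mul_pos _ (by positivity)
    have : (M + Q) * (6 * (M - 1) - (Q - 5) * (Q + 2)) * M +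
      (Q ^ 2 - 1 - 2 * M) * ((M + 1) * (M + Q + 1)) =
      4 * M ^ 2 * (M + Q - 1) + 3 * Q * M * (M + Q) + 3 * M * (M + Q) +
      (Q ^ 2 - 1) * (2 * M + Q + 1) - 2 * M * (Q + 1) := by ring
    rw [this]
    have c1 : 0 < 4 * M ^ 2 * (M + Q - 1) := by
      apply mul_pos (by positivity); linarith
    have c2 : 0 ≤ (Q ^ 2 - 1) * (2 * M + Q + 1) := by
      apply mul_nonneg _ (by linarith); nlinarith
    have c3 : 2 * M * (Q + 1) ≤ 3 * Q * M * (M + Q) := by
      have d1 : Q * M * 2 ≤ Q * M * (M + Q) := by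
        apply mul_le_mul_of_nonneg_left (by linarith) (by positivity)
      have d2 : M ≤ Q * M := by nlinarith
      linarith
    have c4 : 0 ≤ 3 * M * (M + Q) := by positivity
    linarith
  have b3 : 0 < (M + Q) * ((6 * (M - 1) - (Q - 5) * (Q + 2)) * M * H0 ^ 2 +
      (2 * Q * H0 * x - (M + Q) * x ^ 2) * ((M + 1) * (M + Q + 1))) := by
    calc 0 < _ := b5
      _ = (M + Q) * (6 * (M - 1) - (Q - 5) * (Q + 2)) * M * H0 ^ 2 +
        (Q ^ 2 - 1 - 2 * M) * H0 ^ 2 * ((M + 1) * (M + Q + 1)) := by ring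
      _ ≤ (M + Q) * (6 * (M - 1) - (Q - 5) * (Q + 2)) * M * H0 ^ 2 +
        (M + Q) * (2 * Q * H0 * x - (M + Q) * x ^ 2) * ((M + 1) * (M + Q + 1)) := by linarith
      _ = _ := by ring
  exact (mul_pos_iff_of_pos_left hN).1 b3

lemma flat_pos2 {H0 x M Q : ℝ} (h1 : 0 < H0) (hx : 0 < x) (hM : 1 ≤ M) (hQ : 1 ≤ Q)
    (hov : (Q + 1) * H0 ≤ (M + Q) * x) (hw : 0 ≤ H0 - x) :
    0 < x ^ 2 * ((M + 1) * (M + Q + 1)) -
            ((Q - 5) * (Q + 2) - 6 * (M - 1)) * (H0 * (H0 - x)) := by
  have hN : 0 < M + Q := by linarith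
  rcases le_total ((Q - 5) * (Q + 2) - 6 * (M - 1)) 0 with hX | hX
  · have : 0 < x ^ 2 * ((M + 1) * (M + Q + 1)) := by positivity
    have h2 : ((Q - 5) * (Q + 2) - 6 * (M - 1)) * (H0 * (H0 - x)) ≤ 0 :=
      mul_nonpos_of_nonpos_of_nonneg hX (mul_nonneg h1.le hw)
    linarith
  · have g1 : (M + Q) * (H0 - x) ≤ (M - 1) * H0 := by linarith
    have g2 : ((Q + 1) * H0) ^ 2 ≤ ((M + Q) * x) ^ 2 := by
      apply pow_le_pow_left₀ (by positivity) hov
    have g3 : (Q - 5) * (Q + 2) - 6 * (M - 1) ≤ (Q + 1) ^ 2 := by nlinarith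
    have g4 : (M + Q) ^ 2 * (((Q - 5) * (Q + 2) - 6 * (M - 1)) * (H0 * (H0 - x))) <
        (M + Q) ^ 2 * (x ^ 2 * ((M + 1) * (M + Q + 1))) := by
      calc (M + Q) ^ 2 * (((Q - 5) * (Q + 2) - 6 * (M - 1)) * (H0 * (H0 - x)))
          = ((Q - 5) * (Q + 2) - 6 * (M - 1)) * ((M + Q) * H0) * ((M + Q) * (H0 - x)) := by ring
        _ ≤ ((Q - 5) * (Q + 2) - 6 * (M - 1)) * ((M + Q) * H0) * ((M - 1) * H0) := by
          apply mul_le_mul_of_nonneg_left g1 (mul_nonneg hX (by positivity))
        _ = ((Q - 5) * (Q + 2) - 6 * (M - 1)) * ((M + Q) * (M - 1) * H0 ^ 2) := by ring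
        _ ≤ (Q + 1) ^ 2 * ((M + Q) * (M - 1) * H0 ^ 2) := by
          apply mul_le_mul_of_nonneg_right g3
          apply mul_nonneg (mul_nonneg hN.le (by linarith)) (by positivity)
        _ = ((Q + 1) * H0) ^ 2 * ((M + Q) * (M - 1)) := by ring
        _ < ((Q + 1) * H0) ^ 2 * ((M + 1) * (M + Q + 1)) := by
          apply mul_lt_mul_of_pos_left _ (by positivity)
          nlinarith
        _ ≤ ((M + Q) * x) ^ 2 * ((M + 1) * (M + Q + 1)) :=
          mul_le_mul_of_nonneg_right g2 (by positivity)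
        _ = _ := by ring
    have g5 := lt_of_mul_lt_mul_left g4 (show 0 ≤ (M + Q) ^ 2 by positivity)
    linarith

/-- the flat inequality -/
lemma YD.flat (d : YD r m n) (j : ℤ) :
    HH r m 0 * (hh r m (j + 1) - hh r m (-j)) - HH r m (-1) * (hh r m j - hh r m (1 - j)) ≤
      (HH r m 0 + HH r m (-1)) * ((hh r m 1 - hh r m 0) / HH r m 0) * HH r m j := by
  set q := n - m with hq
  have hHp := d.posH
  have hhp := d.pos
  have hH1 := HH_nonneg r m (-1)
  have key : ∀ c, ∀ j, Sq q (HH r m 0) (HH r m (-1)) c r (n + j) =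
      HH r m 0 * (hh r m (-j) - hh r m (j + 1)) - HH r m (-1) * (hh r m (1 - j) - hh r m j) +
        c * HH r m j := by
    intro c j
    unfold Sq
    have e1 := d.symm j
    have e2 := d.symm (j - 1)
    rw [e1, show n + j - 1 = n + (j - 1) by ring, e2, show -(j - 1) = 1 - j by ring]
    unfold hh HH
    rw [show n + j - q = m - 1 + (j + 1) by rw [hq]; ring,
      show m - 1 + (j + 1) - 1 = m - 1 + j by ring]
    ring
  rcases (show 0 ≤ q by have := d.hn; omega).eq_or_lt with h0 | h0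
  · -- balanced case
    have hmn : n = m := by omega
    have s1 : hh r m (-j) = hh r m (j + 1) := by
      rw [← d.symm j, hmn]
      unfold hh
      congr 2; ring
    have s2 : hh r m (1 - j) = hh r m j := by
      have := d.symm (j - 1)
      rw [show -(j - 1) = 1 - j by ring] at this
      rw [← this, hmn]
      unfold hh
      congr 2; ring
    have s3 : hh r m 1 = hh r m 0 := by
      have := d.symm 0
      rw [neg_zero, add_zero, hmn] at this
      rw [← this]
      unfold hh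
      congr 2; ring
    rw [s1, s2, s3]
    simp
  · set M : ℝ := (m : ℝ) with hM
    set Nn : ℝ := (n : ℝ) with hNn
    set Q : ℝ := (q : ℝ) with hQ
    have eQ : Nn = M + Q := by rw [hNn, hM, hQ, hq]; push_cast; ring
    have hM1 : (1 : ℝ) ≤ M := by rw [hM]; exact_mod_cast d.hm
    have hQ1 : (1 : ℝ) ≤ Q := by rw [hQ]; exact_mod_cast h0
    set H0 := HH r m 0 with hH0
    set w := HH r m (-1) with hw
    set x := hh r m 0 with hx
    have ew : w = H0 - x := by
      have := HH_pred r m 0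
      rw [zero_sub] at this
      linarith
    have s0 := d.step 0
    have s1 := d.step 1
    have sm := d.step (-1)
    have eH1 := HH_succ r m 0
    rw [zero_add] at s0 eH1
    rw [show (1 : ℤ) + 1 = 2 by norm_num] at s1
    rw [neg_add_cancel] at sm
    push_cast at s0 s1 sm
    rw [← hM, ← hNn] at s0 s1 sm
    rw [← hH0] at eH1
    have f1 : hh r m 1 = Nn * x / M := by
      field_simp
      linarith
    have f2 : hh r m 2 = (Nn - 1) * (Nn * x / M) / (M + 1) := by
      rw [← f1]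
      field_simp
      linarith
    have fm : hh r m (-1) = x * (M - 1) / (Nn + 1) := by
      have : Nn + 1 ≠ 0 := by rw [eQ]; positivity
      field_simp
      linarith
    set c : ℝ := (H0 + w) * ((hh r m 1 - x) / H0) with hc
    have hov := d.ov 0
    have hU := d.U 0
    push_cast at hov hU
    rw [← hH0, ← hx, ← hNn, ← hM] at hov hU
    have hov' : (Q + 1) * H0 ≤ Nn * x := by
      have : Nn - M = Q := by rw [eQ]; ring
      rw [this] at hov
      linarith
    have hcpos : 0 < c := by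
      rw [hc, f1]
      apply mul_pos (by linarith)
      apply div_pos _ hHp
      have : Nn * x / M - x = Q * x / M := by rw [eQ]; field_simp; ring
      rw [this]
      positivity
    -- value at 1
    have S1 : 0 < Sq q H0 w c r (n + 1) := by
      rw [key c 1]
      rw [show (1 : ℤ) + 1 = 2 by norm_num, show (1 : ℤ) - 1 = 0 by norm_num, eH1, f2, fm, ← hx]
      rw [hc, f1]
      have hU' : (M + Q) * x * ((M + Q) * x - (Q + 1) * H0) ≤ 2 * M * H0 ^ 2 := by
        have e3 : Nn - M + 1 = Q + 1 := by rw [eQ]; ring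
        rw [f1] at hU
        have h5 : (Nn * x - (Q + 1) * H0) * (Nn * x / M) ≤ 2 * H0 ^ 2 := by
          rw [e3] at hU
          calc (Nn * x - (Q + 1) * H0) * (Nn * x / M) = ((Nn - 0) * x - (Q + 1 - 2 * 0) * H0) *
              (Nn * x / M) := by ring
            _ ≤ _ := hU
        rw [mul_div_assoc'] at h5
        rw [div_le_iff₀ (by linarith)] at h5
        rw [← eQ]
        linarith
      have hov2 : (Q + 1) * H0 ≤ (M + Q) * x := by rw [← eQ]; exact hov'
      have pos2 := flat_pos1 hHp hhp hM1 hQ1 hov2 hU'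
      have id1 := flat_id1 (x := x) hHp (show 0 < M by linarith) (show 0 < M + 1 by linarith)
        (show 0 < M + Q + 1 by linarith)
      have hden : 0 < H0 * M * M * (M + 1) * (M + Q + 1) := by positivity
      have hp := mul_pos (show 0 < Q * x by positivity) pos2
      rw [← id1] at hp
      rw [eQ, ew]
      exact (mul_pos_iff_of_pos_right hden).1 hp
    have Sm : 0 < Sq q H0 w c r (n + -1) := by
      rw [key c (-1)]
      rw [show (-1 : ℤ) + 1 = 0 by norm_num, show (1 : ℤ) - -1 = 2 by norm_num, neg_neg, ← hx,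
        f2, fm, ← hw, hc, f1]
      have hov2 : (Q + 1) * H0 ≤ (M + Q) * x := by rw [← eQ]; exact hov'
      have hw0 : 0 ≤ H0 - x := by rw [← ew]; exact hH1
      have pos2 := flat_pos2 hHp hhp hM1 hQ1 hov2 hw0
      have id1 := flat_id2 (x := x) hHp (show 0 < M by linarith) (show 0 < M + 1 by linarith)
        (show 0 < M + Q + 1 by linarith)
      have hden : 0 < H0 * M * (M + 1) * (M + Q + 1) := by positivity
      have hp := mul_pos (show 0 < Q * x by positivity) pos2
      rw [← id1] at hp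
      rw [eQ, ew]
      exact (mul_pos_iff_of_pos_right hden).1 hp
    -- perturbation
    have hHp1 := HH_nonneg r m 1
    obtain ⟨ε, hε0, hε1, hε2, hε3⟩ : ∃ ε : ℝ, 0 < ε ∧ ε ≤ c ∧
        ε * HH r m 1 < Sq q H0 w c r (n + 1) ∧ ε * HH r m (-1) < Sq q H0 w c r (n + -1) := by
      set A1 := Sq q H0 w c r (n + 1)
      set A2 := Sq q H0 w c r (n + -1)
      refine ⟨min c (min (A1 / (HH r m 1 + 1)) (A2 / (HH r m (-1) + 1))), ?_, min_le_left _ _, ?_, ?_⟩
      · apply lt_min hcpos (lt_min _ _)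
        · positivity
        · exact div_pos Sm (by linarith)
      · have h1 : min c (min (A1 / (HH r m 1 + 1)) (A2 / (HH r m (-1) + 1))) ≤ A1 / (HH r m 1 + 1) :=
          (min_le_right _ _).trans (min_le_left _ _)
        calc _ ≤ A1 / (HH r m 1 + 1) * HH r m 1 := mul_le_mul_of_nonneg_right h1 hHp1
          _ < A1 / (HH r m 1 + 1) * (HH r m 1 + 1) := by
            apply mul_lt_mul_of_pos_left (by linarith) (by positivity)
          _ = A1 := by field_simp
      · have h1 : min c (min (A1 / (HH r m 1 + 1)) (A2 / (HH r m (-1) + 1))) ≤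
          A2 / (HH r m (-1) + 1) := (min_le_right _ _).trans (min_le_right _ _)
        have hp : 0 < HH r m (-1) + 1 := by linarith
        calc _ ≤ A2 / (HH r m (-1) + 1) * HH r m (-1) := mul_le_mul_of_nonneg_right h1 hH1
          _ < A2 / (HH r m (-1) + 1) * (HH r m (-1) + 1) := by
            apply mul_lt_mul_of_pos_left (by linarith) (div_pos Sm hp)
          _ = A2 := by field_simp
    have hlin : ∀ j, Sq q H0 w (c - ε) r (n + j) = Sq q H0 w c r (n + j) - ε * HH r m j := by
      intro j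
      rw [key, key]; ring
    have hzero : Sq q H0 w c r (n + 0) = 0 := by
      rw [key c 0, neg_zero, zero_add, sub_zero, ← hx, ← hH0, hc]
      field_simp
      ring
    have hP : Pat (fun j => Sq q H0 w (c - ε) r (n + j)) := by
      obtain ⟨p1, p2, k1, k2, k3, k4⟩ := Sq_pat (q := q) (by omega) hHp.le hH1
        (show 0 ≤ c - ε by linarith) r
      exact ⟨p1 - n, p2 - n, by omega, fun j hj => k2 _ (by omega),
        fun j hj1 hj2 => k3 _ (by omega) (by omega), fun j hj => k4 _ (by omega)⟩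
    have hend := Pat_end hP (by simp only [hlin]; linarith)
      (by simp only [hlin]; rw [hzero]; nlinarith) (by simp only [hlin]; linarith)
    have hfin : 0 ≤ Sq q H0 w c r (n + j) := by
      by_cases hj : j = 0
      · subst hj; rw [hzero]
      · have h1 := hend j hj
        simp only [hlin] at h1
        have h2 := mul_nonneg hε0.le (HH_nonneg r m j)
        linarith
    rw [key c j] at hfin
    linarith

end

end Pool.Agent.MP_867aae_co.P75
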