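import Mathlib
import Pool.Agent.MP_867aae_co.P75.YF

/-!
The ratio of a binomial coefficient to the ball volume away from the centre (`K'`).
-/

namespace Pool.Agent.MP_867aae_co.P75

open Pool.Agent.MP_867aae_co.H75

section poly
variable {P κ e q : ℝ}

/-- the step polynomial -/
lemma CA (hκP : κ ≤ P) (hq : 2 ≤ q) (hκ : 2 * q + 1 ≤ κ)
    (hs : κ ^ 2 * (P + q - 2) ≤ κ * ((q + 3) * P + q * (q - 1)) + P * (P - q)) :
    (P + -1) * (P + κ) * (κ - -1 - 2) ≤ (P - -1) * (P + -1 + 2) * (κ - -1) := by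
  have h1 : 0 ≤ P * ((κ - 1) * (κ - 2 * q - 1)) :=
    mul_nonneg (by linarith) (mul_nonneg (by linarith) (by linarith))
  have h2 : 0 ≤ κ * ((κ - (2 * q + 1)) * (2 * q - 3) + (2 * q * (q - 2) + (2 * q - 3))) := by
    apply mul_nonneg (by linarith)
    apply add_nonneg
    · exact mul_nonneg (by linarith) (by linarith)
    · have : 0 ≤ q * (q - 2) := mul_nonneg (by linarith) (by linarith)
      nlinarith
  nlinarith

lemma CB (hκP : κ ≤ P) (hq : 2 ≤ q) (he : 0 ≤ e) (hκ : 2 * q + e + 2 ≤ κ)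
    (hs : κ ^ 2 * (P + q - 2) ≤ κ * ((q + 3) * P + q * (q - 1)) + P * (P - q)) :
    (P + e) * (P + κ) * (κ - e - 2) ≤ (P - e) * (P + e + 2) * (κ - e) := by
  obtain ⟨w, hw, rfl⟩ : ∃ w, 0 ≤ w ∧ q = 2 + w := ⟨q - 2, by linarith, by ring⟩
  obtain ⟨u, hu, rfl⟩ : ∃ u, 0 ≤ u ∧ κ = 2 * (2 + w) + e + 2 + u :=
    ⟨κ - (2 * (2 + w) + e + 2), by linarith, by ring⟩
  obtain ⟨v, hv, rfl⟩ : ∃ v, 0 ≤ v ∧ P = 2 * (2 + w) + e + 2 + u + v :=
    ⟨P - (2 * (2 + w) + e + 2 + u), by linarith, by ring⟩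
  have h1 : 0 ≤ v * ((2 * (2 + w) + e + 2 + u) * (e + u) + 2 * (2 + w) + e ^ 2) := by positivity
  have h2 : 0 ≤ (2 * (2 + w) + e + 2 + u) * (2 * w ^ 2 + 8 * w + 2 * w * (e + u) + 2 * w * u +
    (e + 6 + u) * u + e ^ 2) + 2 * e ^ 2 + e ^ 3 := by positivity
  nlinarith

lemma CC1 (hκ1 : 3 * κ ≤ 2 * P) (hκ0 : 0 ≤ κ) (hP : 0 ≤ P)
    (hs : κ ^ 2 * (P + 1 - 2) ≤ κ * ((1 + 3) * P + 1 * (1 - 1)) + P * (P - 1)) :
    (P + 1) * (P + κ) * (κ - 1 - 2) ≤ (P - 1) * (P + 1 + 2) * (κ - 1) := by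
  have h1 : κ ^ 2 ≤ (2 / 3 * P) ^ 2 := by
    apply pow_le_pow_left₀ hκ0; linarith
  nlinarith

lemma CC0 (hP : 0 ≤ P)
    (hs : κ ^ 2 * (P + 1 - 2) ≤ κ * ((1 + 3) * P + 1 * (1 - 1)) + P * (P - 1)) :
    (P + -1) * (P + κ) * (κ - -1 - 2) ≤ (P - -1) * (P + -1 + 2) * (κ - -1) := by
  nlinarith

/-- consequence of the star inequality for `q = 1` -/
lemma star_q1 (hP : 9 ≤ P) (hκ0 : 0 ≤ κ)
    (hs : κ ^ 2 * (P + 1 - 2) ≤ κ * ((1 + 3) * P + 1 * (1 - 1)) + P * (P - 1)) :
    3 * κ ≤ 2 * P ∧ κ * (κ - 9 / 2) ≤ P := by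
  constructor
  · by_contra hcon
    push Not at hcon
    have h1 : 0 < (3 * κ - 2 * P) * (3 * κ + 2 * P) := mul_pos (by linarith) (by linarith)
    have h2 : 0 < (3 * κ - 2 * P) * P := mul_pos (by linarith) (by linarith)
    have h3 : 0 ≤ (P - 9) * (4 * P - 1) * P :=
      mul_nonneg (mul_nonneg (by linarith) (by linarith)) (by linarith)
    -- (P - 1) κ² - 4 κ P - P (P - 1) > 0
    have h4 : 0 < (3 * κ - 2 * P) * ((P - 1) * (3 * κ + 2 * P) - 12 * P) := by
      apply mul_pos (by linarith)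
      nlinarith
    nlinarith
  · by_contra hcon
    push Not at hcon
    have h1 : 0 < (κ * (κ - 9 / 2) - P) * (P - 1) := mul_pos (by linarith) (by linarith)
    have h2 : 0 ≤ κ * (P - 9) := mul_nonneg hκ0 (by linarith)
    nlinarith

lemma CC3 (he : 3 ≤ e) (hκ : e + 4 ≤ κ) (hP : κ * (κ - 9 / 2) ≤ P)
    (hs : κ ^ 2 * (P + 1 - 2) ≤ κ * ((1 + 3) * P + 1 * (1 - 1)) + P * (P - 1)) :
    (P + e) * (P + κ) * (κ - e - 2) ≤ (P - e) * (P + e + 2) * (κ - e) := by
  obtain ⟨f, hf, rfl⟩ : ∃ f, 0 ≤ f ∧ e = 3 + f := ⟨e - 3, by linarith, by ring⟩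
  obtain ⟨u, hu, rfl⟩ : ∃ u, 0 ≤ u ∧ κ = 3 + f + 4 + u := ⟨κ - (3 + f + 4), by linarith, by ring⟩
  obtain ⟨v, hv, rfl⟩ : ∃ v, 0 ≤ v ∧ P = (3 + f + 4 + u) * (3 + f + 4 + u - 9 / 2) + v :=
    ⟨P - (3 + f + 4 + u) * (3 + f + 4 + u - 9 / 2), by linarith, by ring⟩
  set k := 3 + f + 4 + u with hk
  -- Ψ - 2 (*) = P [κ² - 4κ + 2 + e²] - κ² (2 + e) + 2 e² + e³
  have h1 : 0 ≤ v * (k * (k - 4) + 2 + (3 + f) ^ 2) := by
    have : 0 ≤ k - 4 := by rw [hk]; linarith
    have : 0 ≤ k := by rw [hk]; linarith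
    positivity
  have h2 : 0 ≤ k * ((5 / 2 + f + u) * (k * (k - 4) + 2 + (3 + f) ^ 2) - k * (5 + f)) := by
    have h3 : 0 ≤ (5 / 2 + f + u) * (k * (k - 4) + 2 + (3 + f) ^ 2) - k * (5 + f) := by
      rw [hk]
      ring_nf
      positivity
    have : 0 ≤ k := by rw [hk]; linarith
    exact mul_nonneg this h3
  have h3 : 0 ≤ 2 * (3 + f) ^ 2 + (3 + f) ^ 3 := by positivity
  have e1 : k - 9 / 2 = 5 / 2 + f + u := by rw [hk]; ring
  rw [e1] at hs ⊢
  nlinarith

end poly

section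
variable {r : ℕ} {m n : ℤ}

/-- the critical parameter -/
noncomputable def kap (r : ℕ) (m n : ℤ) : ℝ :=
  (m + n) * hh r m 0 / (2 * HH r m 0 - hh r m 0)

lemma YD.xle (_d : YD r m n) : hh r m 0 ≤ HH r m 0 := by
  have h2 := HH_pred r m 0
  have h3 := HH_nonneg r m (0 - 1)
  linarith

lemma YD.den (d : YD r m n) : 0 < 2 * HH r m 0 - hh r m 0 := by
  have h1 := d.xle
  have h2 := d.posH
  linarith

lemma YD.kapeq (d : YD r m n) :
    kap r m n * (2 * HH r m 0 - hh r m 0) = (m + n) * hh r m 0 := by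
  unfold kap
  exact div_mul_cancel₀ _ d.den.ne'

lemma YD.mR (d : YD r m n) : (1 : ℝ) ≤ m := by exact_mod_cast d.hm

lemma YD.nR (d : YD r m n) : (m : ℝ) ≤ n := by exact_mod_cast d.hn

lemma YD.kpos (d : YD r m n) : 0 < kap r m n := by
  unfold kap
  have h1 := d.mR
  have h2 := d.nR
  exact div_pos (mul_pos (by linarith) d.pos) d.den

lemma YD.kle (d : YD r m n) : kap r m n ≤ m + n := by
  unfold kap
  rw [div_le_iff₀ d.den]
  have h1 := d.mR
  have h2 := d.nR
  have h3 := d.xle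
  apply mul_le_mul_of_nonneg_left _ (by linarith)
  linarith

/-- `(P + κ) h₀ = 2 κ H₀` -/
lemma YD.kx (d : YD r m n) : (m + n + kap r m n) * hh r m 0 = 2 * kap r m n * HH r m 0 := by
  have := d.kapeq
  linarith

lemma YD.qle (d : YD r m n) : (n - m : ℝ) ≤ kap r m n := by
  have h1 := d.ov 0
  have h2 := d.kapeq
  have h3 := d.den
  have h4 := d.posH
  push_cast at h1
  apply le_of_mul_le_mul_right _ h3
  rw [h2]
  nlinarith

lemma YD.star (d : YD r m n) : kap r m n ^ 2 * ((m + n) + (n - m) - 2) ≤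
    kap r m n * (((n - m) + 3) * (m + n) + (n - m) * ((n - m) - 1)) +
      (m + n) * ((m + n) - (n - m)) := by
  have hU := d.U 0
  have hst := d.step 0
  have hx := d.kx
  have hH := d.posH
  have hm := d.mR
  have hn := d.nR
  have hk := d.kpos
  have hpos := d.pos
  push_cast at hU hst
  simp only [add_zero, sub_zero, mul_zero] at hU hst
  set κ := kap r m n
  set x := hh r m 0
  set H := HH r m 0
  set h1 := hh r m (0 + 1)
  have hm0 : (0 : ℝ) < m := by linarith
  have hP : (0 : ℝ) < m + n := by linarith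
  have hPk : (0 : ℝ) < m + n + κ := by linarith
  -- multiply by m
  have e1 : (n * x - (n - m + 1) * H) * (x * n) ≤ 2 * m * H ^ 2 := by
    rw [← hst]
    have := mul_le_mul_of_nonneg_left hU hm0.le
    linarith
  have e2 : (n * (2 * κ) - (n - m + 1) * (m + n + κ)) * (2 * κ * n) * H ^ 2 ≤
      2 * m * (m + n + κ) ^ 2 * H ^ 2 := by
    have h2 := mul_le_mul_of_nonneg_left e1 (sq_nonneg ((m : ℝ) + n + κ))
    calc (n * (2 * κ) - (n - m + 1) * (m + n + κ)) * (2 * κ * n) * H ^ 2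
        = (n * (2 * κ * H) - (n - m + 1) * (m + n + κ) * H) * ((2 * κ * H) * n) := by ring
      _ = (n * ((m + n + κ) * x) - (n - m + 1) * (m + n + κ) * H) * (((m + n + κ) * x) * n) := by
          rw [hx]
      _ = (m + n + κ) ^ 2 * ((n * x - (n - m + 1) * H) * (x * n)) := by ring
      _ ≤ (m + n + κ) ^ 2 * (2 * m * H ^ 2) := h2
      _ = _ := by ring
  have e3 : (n * (2 * κ) - (n - m + 1) * (m + n + κ)) * (2 * κ * n) ≤
      2 * m * (m + n + κ) ^ 2 := le_of_mul_le_mul_right e2 (by positivity)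
  apply le_of_mul_le_mul_left _ hP
  linarith

/-- `K'` for `2 j ≤ q` -/
lemma YD.K1 (d : YD r m n) {j : ℤ} (hj : 0 ≤ j) (hq : 2 * j ≤ n - m)
    (hk : (n - m + 2 * j : ℝ) ≤ kap r m n) :
    (kap r m n + (n - m) - 2 * j) * HH r m j ≤ (m + n + kap r m n) * hh r m j := by
  have h1 := d.ovmono hj
  have hx := d.kx
  have hH := d.posH
  have hm := d.mR
  have hn := d.nR
  have hk0 := d.kpos
  have hHj := HH_nonneg r m j
  have hj' : (0 : ℝ) ≤ j := by exact_mod_cast hj
  have hq' : (2 * j : ℝ) ≤ n - m := by exact_mod_cast hq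
  set κ := kap r m n
  set x := hh r m 0
  set H := HH r m 0
  set Hj := HH r m j
  set hj := hh r m j
  have hnj : (0 : ℝ) < n - j := by linarith
  have hPk : (0 : ℝ) < m + n + κ := by linarith
  have e1 : (2 * n * κ - 2 * j * (m + n + κ)) * Hj * H ≤ (n - j) * (m + n + κ) * hj * H := by
    have h2 := mul_le_mul_of_nonneg_left h1 hPk.le
    have h3 : (m + n + κ) * ((n * x - (n - m + 1) * H) * Hj) =
        (n * ((m + n + κ) * x) - (n - m + 1) * (m + n + κ) * H) * Hj := by ring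
    rw [h3, hx] at h2
    linarith
  have e2 : (2 * n * κ - 2 * j * (m + n + κ)) * Hj ≤ (n - j) * (m + n + κ) * hj :=
    le_of_mul_le_mul_right e1 hH
  have e3 : (n - j) * (κ + (n - m) - 2 * j) ≤ 2 * n * κ - 2 * j * (m + n + κ) := by
    have h4 : 0 ≤ (j : ℝ) * (n - m - 2 * j) := mul_nonneg hj' (by linarith)
    have h5 : 0 ≤ (κ - (n - m + 2 * j)) * (m + n + (n - m) - 2 * j) :=
      mul_nonneg (by linarith) (by linarith)
    nlinarith
  apply le_of_mul_le_mul_left _ hnj
  have e4 := mul_le_mul_of_nonneg_right e3 hHj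
  linarith

/-- small centres for `q = 1` -/
lemma YD.small1 (d : YD r m n) (hq : n = m + 1) (hm3 : m ≤ 3) : kap r m n < 5 := by
  have hm1 := d.hm
  have hr := d.hr
  have : m = 1 ∨ m = 2 ∨ m = 3 := by omega
  rcases this with h | h | h
  · subst h
    obtain rfl : r = 2 := by omega
    obtain rfl : n = 2 := by omega
    norm_num [kap, hh, HH, cz, bz, Ball, Finset.sum_range_succ, Nat.choose]
  · subst h
    obtain rfl : r = 4 := by omega
    obtain rfl : n = 3 := by omega
    norm_num [kap, hh, HH, cz, bz, Ball, Finset.sum_range_succ, Nat.choose]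
  · subst h
    obtain rfl : r = 6 := by omega
    obtain rfl : n = 4 := by omega
    have e1 : hh 6 3 0 = 15 := by
      have : cz 6 2 = 15 := by decide
      unfold hh; norm_num [this]
    have e2 : HH 6 3 0 = 22 := by
      have : bz 6 2 = 22 := by decide
      unfold HH; norm_num [this]
    unfold kap
    rw [e1, e2]
    norm_num

/-- one step of `K'` -/
lemma YD.K2 (d : YD r m n) {k : ℤ} (hk0 : 0 ≤ k) (hkm : k < n)
    (hk : (n - m + 2 * (k + 1) : ℝ) ≤ kap r m n) (hmn : m < n)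
    (hC : (m + n + (2 * k - (n - m))) * (m + n + kap r m n) *
        (kap r m n - (2 * k - (n - m)) - 2) ≤
        (m + n - (2 * k - (n - m))) * (m + n + (2 * k - (n - m)) + 2) *
        (kap r m n - (2 * k - (n - m))))
    (hI : (kap r m n + (n - m) - 2 * k) * HH r m k ≤ (m + n + kap r m n) * hh r m k) :
    (kap r m n + (n - m) - 2 * (k + 1)) * HH r m (k + 1) ≤
      (m + n + kap r m n) * hh r m (k + 1) := by
  have hst := d.step k
  have hs := HH_succ r m k
  have hm := d.mR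
  have hn := d.nR
  have hkp := d.kpos
  have hh0 := hh_nonneg r m k
  have hk0' : (0 : ℝ) ≤ k := by exact_mod_cast hk0
  have hkm' : (k : ℝ) < n := by exact_mod_cast hkm
  have hmn' : (m : ℝ) < n := by exact_mod_cast hmn
  rw [hs]
  set κ := kap r m n
  set Hk := HH r m k
  set hk' := hh r m k
  set hk1 := hh r m (k + 1)
  have hmk : (0 : ℝ) < m + k := by linarith
  have hd1 : (0 : ℝ) < κ + (n - m) - 2 * k := by linarith
  have hd2 : (0 : ℝ) ≤ κ + (n - m) - 2 * (k + 1) := by linarith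
  suffices h : (κ + (n - m) - 2 * (k + 1)) * Hk ≤ (2 * (m + k) + 2) * hk1 by
    have e : m + n + κ - (κ + (n - m) - 2 * (k + 1)) = 2 * (m + k) + 2 := by ring
    nlinarith
  apply le_of_mul_le_mul_left _ (mul_pos hmk hd1)
  have e1 := mul_le_mul_of_nonneg_left hI (mul_nonneg hmk.le hd2)
  have e2 := mul_le_mul_of_nonneg_right hC hh0
  have e3 : hk1 * (m + k) * (κ + (n - m) - 2 * k) * (2 * (m + k) + 2) =
      hk' * (n - k) * (κ + (n - m) - 2 * k) * (2 * (m + k) + 2) := by rw [hst]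
  nlinarith

/-- `K'` -/
lemma YD.Kp (d : YD r m n) (hmn : m < n) (j : ℕ) (hjn : (j : ℤ) < n)
    (hk : (n - m + 2 * (j : ℤ) : ℝ) ≤ kap r m n) :
    (kap r m n + (n - m) - 2 * (j : ℤ)) * HH r m j ≤ (m + n + kap r m n) * hh r m j := by
  induction j with
  | zero =>
    apply d.K1 (by omega) (by omega)
    exact hk
  | succ j ih =>
    by_cases hq : 2 * ((j + 1 : ℕ) : ℤ) ≤ n - m
    · exact d.K1 (by omega) hq hk
    · have e : ((j + 1 : ℕ) : ℤ) = (j : ℤ) + 1 := by push_cast; ring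
      rw [e] at hk ⊢
      push_cast at hk
      have hI := ih (by omega) (by push_cast at hk ⊢; linarith)
      push_cast
      push_cast at hI
      have hst := d.star
      have hle := d.kle
      have hm := d.mR
      have hkp := d.kpos
      apply d.K2 (by omega) (by omega) (by push_cast; exact hk) hmn _ (by push_cast; exact hI)
      push_cast
      -- the step polynomial
      obtain ⟨q, hqq⟩ : ∃ q : ℤ, q = n - m := ⟨_, rfl⟩
      obtain ⟨e, hee⟩ : ∃ e : ℤ, e = 2 * j - q := ⟨_, rfl⟩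
      have hqR : (n : ℝ) - m = q := by rw [hqq]; push_cast; ring
      have heR : (2 * (j : ℝ) - q) = e := by rw [hee]; push_cast; ring
      rw [hqR, heR]
      rw [hqR] at hst hk
      have he1 : -1 ≤ e := by omega
      have hq1 : 1 ≤ q := by omega
      have hk' : 2 * (q : ℝ) + e + 2 ≤ kap r m n := by rw [← heR]; linarith
      rcases eq_or_lt_of_le hq1 with h1 | h1
      · -- q = 1
        have hq1' : (q : ℝ) = 1 := by rw [← h1]; simp
        rw [hq1'] at hst hk'
        have h3 : e = -1 ∨ e = 1 ∨ 3 ≤ e := by omega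
        rcases h3 with h3 | h3 | h3
        · have he' : (e : ℝ) = -1 := by rw [h3]; simp
          rw [he']
          exact CC0 (by linarith) hst
        · have he' : (e : ℝ) = 1 := by rw [h3]; simp
          rw [he'] at hk' ⊢
          have h9 : 4 ≤ m := by
            by_contra hcon
            exact absurd (d.small1 (by omega) (by omega)) (by push Not; linarith)
          have hP9 : (9 : ℝ) ≤ m + n := by
            have : (9 : ℤ) ≤ m + n := by omega
            exact_mod_cast this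
          exact CC1 (star_q1 hP9 hkp.le hst).1 hkp.le (by linarith) hst
        · have he' : (3 : ℝ) ≤ e := by exact_mod_cast h3
          have h9 : 4 ≤ m := by
            by_contra hcon
            exact absurd (d.small1 (by omega) (by omega)) (by push Not; linarith)
          have hP9 : (9 : ℝ) ≤ m + n := by
            have : (9 : ℤ) ≤ m + n := by omega
            exact_mod_cast this
          exact CC3 he' (by linarith) (star_q1 hP9 hkp.le hst).2 hst
      · have hq2 : (2 : ℝ) ≤ q := by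
          have : (2 : ℤ) ≤ q := by omega
          exact_mod_cast this
        rcases eq_or_lt_of_le he1 with h3 | h3
        · have he' : (e : ℝ) = -1 := by rw [← h3]; simp
          rw [he'] at hk' ⊢
          exact CA hle hq2 (by linarith) hst
        · have he' : (0 : ℝ) ≤ e := by
            have : (0 : ℤ) ≤ e := by omega
            exact_mod_cast this
          exact CB hle hq2 he' hk' hst

end

end Pool.Agent.MP_867aae_co.P75
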