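import Mathlib
import Pool.Agent.MP_867aae_co.P75.YK

/-!
Lower bound for the antipodal binomial coefficient (`Q'`).
-/

namespace Pool.Agent.MP_867aae_co.P75

open Pool.Agent.MP_867aae_co.H75

/-- first product -/
noncomputable def pa (m n : ℝ) : ℕ → ℝ
  | 0 => 1
  | j + 1 => pa m n j * ((m + j + 1) / (n + j + 1))

/-- second product -/
noncomputable def pb (m n : ℝ) : ℕ → ℝ
  | 0 => 1
  | j + 1 => pb m n j * ((m - j) / (n - j))

lemma pa_bd {m n : ℝ} (hm : 1 ≤ m) (hmn : m ≤ n) (j : ℕ) :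
    0 ≤ pa m n j ∧ pa m n j ≤ 1 ∧ 1 - j * (n - m) / (n + 1) ≤ pa m n j := by
  induction j with
  | zero => simp [pa]
  | succ j ih =>
    obtain ⟨h0, h1, h2⟩ := ih
    have hj : (0 : ℝ) ≤ j := by positivity
    have hd : 0 < n + j + 1 := by linarith
    have hn1 : 0 < n + 1 := by linarith
    have e : (m + j + 1) / (n + j + 1) = 1 - (n - m) / (n + j + 1) := by
      field_simp; ring
    have f0 : 0 ≤ (n - m) / (n + j + 1) := div_nonneg (by linarith) hd.le
    have f1 : (n - m) / (n + j + 1) ≤ (n - m) / (n + 1) :=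
      div_le_div_of_nonneg_left (by linarith) hn1 (by linarith)
    have f2 : (n - m) / (n + j + 1) ≤ 1 := by
      rw [div_le_one hd]; linarith
    simp only [pa]
    rw [e]
    refine ⟨mul_nonneg h0 (by linarith), ?_, ?_⟩
    · calc pa m n j * (1 - (n - m) / (n + j + 1)) ≤ 1 * 1 :=
            mul_le_mul h1 (by linarith) (by linarith) (by norm_num)
        _ = 1 := by norm_num
    · have f3 : pa m n j * ((n - m) / (n + j + 1)) ≤ 1 * ((n - m) / (n + 1)) :=
        mul_le_mul h1 f1 f0 (by norm_num)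
      push_cast
      have e2 : ((j : ℝ) + 1) * (n - m) / (n + 1) = j * (n - m) / (n + 1) + (n - m) / (n + 1) := by
        ring
      rw [e2]
      linarith

lemma pb_bd {m n : ℝ} (hmn : m ≤ n) (j : ℕ) (hj : (j : ℝ) ≤ m) (hm : 1 ≤ m) :
    0 ≤ pb m n j ∧ pb m n j ≤ 1 ∧ 1 - j * (n - m) / (n + 1 - j) ≤ pb m n j := by
  induction j with
  | zero => simp [pb]
  | succ j ih =>
    push_cast at hj
    obtain ⟨h0, h1, h2⟩ := ih (by linarith)
    have hj0 : (0 : ℝ) ≤ j := by positivity
    have hd : 0 < n - j := by linarith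
    have hn1 : 0 < n + 1 - j := by linarith
    have e : (m - j) / (n - j) = 1 - (n - m) / (n - j) := by
      field_simp; ring
    have f0 : 0 ≤ (n - m) / (n - j) := div_nonneg (by linarith) hd.le
    have f1 : j * (n - m) / (n + 1 - j) ≤ j * (n - m) / (n - j) :=
      div_le_div_of_nonneg_left (mul_nonneg hj0 (by linarith)) hd (by linarith)
    have f2 : (n - m) / (n - j) ≤ 1 := by
      rw [div_le_one hd]; linarith
    simp only [pb]
    rw [e]
    refine ⟨mul_nonneg h0 (by linarith), ?_, ?_⟩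
    · calc pb m n j * (1 - (n - m) / (n - j)) ≤ 1 * 1 :=
            mul_le_mul h1 (by linarith) (by linarith) (by norm_num)
        _ = 1 := by norm_num
    · have f3 : pb m n j * ((n - m) / (n - j)) ≤ 1 * ((n - m) / (n - j)) :=
        mul_le_mul_of_nonneg_right h1 f0
      push_cast
      have e2 : ((j : ℝ) + 1) * (n - m) / (n + 1 - (j + 1)) =
          j * (n - m) / (n - j) + (n - m) / (n - j) := by
        rw [show n + 1 - ((j : ℝ) + 1) = n - j by ring]; ring
      rw [e2]
      linarith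

/-- the polynomial inequality for `j ≥ 3` -/
lemma QP {j q n : ℝ} (hj : 3 ≤ j) (hq : 1 ≤ q) (hn : 2 * j ^ 2 + (q - 3) * j - 1 ≤ n) :
    (2 * j - q) * (n + 1) * (n + 1 - j) ≤
      2 * (n + 1 - j * q) * (n + 1 - j - j * q) * (n - q - j) := by
  obtain ⟨y, hy, rfl⟩ : ∃ y, 0 ≤ y ∧ j = 3 + y := ⟨j - 3, by linarith, by ring⟩
  obtain ⟨w, hw, rfl⟩ : ∃ w, 0 ≤ w ∧ q = 1 + w := ⟨q - 1, by linarith, by ring⟩
  obtain ⟨x, hx, rfl⟩ : ∃ x, 0 ≤ x ∧ n = 2 * (3 + y) ^ 2 + ((1 + w) - 3) * (3 + y) - 1 + x :=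
    ⟨n - (2 * (3 + y) ^ 2 + ((1 + w) - 3) * (3 + y) - 1), by linarith, by ring⟩
  rw [← sub_nonneg]
  ring_nf
  positivity

/-- the range of `n` for `j ≥ 3` -/
lemma QN {j q n : ℤ} (hj : 3 ≤ j) (hq : 1 ≤ q) (hn : j + 1 + q ≤ n)
    (hJ : 2 * (n - 1) * j ^ 2 + (q - 3) * n * j ≤ n ^ 2) : 2 * j ^ 2 + (q - 3) * j - 1 ≤ n := by
  by_contra hcon
  push Not at hcon
  have hcon' : n ≤ 2 * j ^ 2 + (q - 3) * j - 2 := by omega
  set M := 2 * j ^ 2 + (q - 3) * j with hM
  have h1 : 0 ≤ (n - (j + 1 + q)) * (M - 2 - n) := mul_nonneg (by omega) (by omega)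
  have h2 : 0 ≤ (j + q - 1) * (M - 2 - n) := mul_nonneg (by omega) (by omega)
  have h3 : 0 ≤ (q - 1) * j := mul_nonneg (by omega) (by omega)
  nlinarith

section
variable {r : ℕ} {m n : ℤ}

/-- numerical bound for small centres -/
lemma YD.small (d : YD r m n) (b : ℤ)
    (h : (m + n) * cz r (m - 1) < b * (2 * bz r (m - 1) - cz r (m - 1))) : kap r m n < b := by
  unfold kap
  rw [div_lt_iff₀ d.den]
  unfold hh HH
  rw [add_zero]
  exact_mod_cast h

/-- the product formula -/
lemma YD.prod (d : YD r m n) (j : ℕ) (hj : (j : ℤ) < m) :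
    (m + (j : ℤ)) * hh r m (-(j : ℤ)) = pa m n j * pb m n j * (m - (j : ℤ)) * hh r m j := by
  induction j with
  | zero => simp [pa, pb]
  | succ j ih =>
    have hI := ih (by omega)
    have h1 := d.step (-(j + 1 : ℤ))
    have h2 := d.step j
    have hm := d.mR
    have hn := d.nR
    have hj' : ((j : ℝ) + 1) < m := by
      have : ((j : ℤ) + 1) < m := by push_cast at hj; omega
      exact_mod_cast this
    have hj0 : (0 : ℝ) ≤ j := by positivity
    rw [show -((j : ℤ) + 1) + 1 = -(j : ℤ) by ring] at h1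
    push_cast at h1 h2 hI ⊢
    rw [show (-((j : ℤ) + 1)) = -1 + -(j : ℤ) by ring] at h1 ⊢
    simp only [pa, pb]
    set a := pa m n j
    set b := pb m n j
    set u := hh r m (-(j : ℤ))
    set v := hh r m (j : ℤ)
    set u' := hh r m (-1 + -(j : ℤ))
    set v' := hh r m ((j : ℤ) + 1)
    have d1 : (0 : ℝ) < n + j + 1 := by linarith
    have d2 : (0 : ℝ) < n - j := by linarith
    have d3 : (0 : ℝ) < m + j := by linarith
    have eu : u' = u * (m - (j + 1)) / (n + j + 1) := by
      rw [eq_div_iff d1.ne']; linarith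
    have ev : v' = v * (n - j) / (m + j) := by
      rw [eq_div_iff d3.ne']; linarith
    have e1 : u = a * b * (m - j) * v / (m + j) := by
      rw [eq_div_iff d3.ne']; linarith
    rw [eu, ev, e1]
    field_simp
    ring

/-- the star inequality with `κ` replaced by `q + 2 j` -/
lemma YD.J (d : YD r m n) {j : ℤ} (hj : 0 ≤ j) (hk : (n - m + 2 * j : ℝ) ≤ kap r m n) :
    2 * (n - 1) * j ^ 2 + ((n - m) - 3) * n * j ≤ n ^ 2 := by
  have hst := d.star
  have hm := d.mR
  have hn := d.nR
  have hkp := d.kpos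
  have hj' : (0 : ℝ) ≤ j := by exact_mod_cast hj
  set κ := kap r m n
  set q : ℝ := n - m with hq
  set P : ℝ := m + n with hP
  have hq0 : 0 ≤ q := by rw [hq]; linarith
  set y : ℝ := q + 2 * j with hy
  have hy0 : 0 ≤ y := by rw [hy]; linarith
  have h1 : y ^ 2 * (P + q - 2) ≤ y * ((q + 3) * P + q * (q - 1)) + P * (P - q) := by
    apply le_of_mul_le_mul_left _ hkp
    have h2 := mul_le_mul_of_nonneg_left hst hy0
    have h3 : 0 ≤ (P + q - 2) * (κ * y * (κ - y)) := by
      apply mul_nonneg (by rw [hP, hq]; linarith)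
      exact mul_nonneg (mul_nonneg hkp.le hy0) (by linarith)
    have h4 : 0 ≤ P * (P - q) * (κ - y) := by
      apply mul_nonneg _ (by linarith)
      exact mul_nonneg (by rw [hP]; linarith) (by rw [hP, hq]; linarith)
    nlinarith
  have h5 : (2 * (n - 1) * j ^ 2 + ((n - m) - 3) * n * j : ℝ) ≤ n ^ 2 := by
    rw [hy, hP, hq] at h1
    nlinarith
  exact_mod_cast h5

/-- from the polynomial inequality to the product bound -/
lemma YD.QF (d : YD r m n) {j : ℕ} (hjm : (j : ℤ) < m)
    (h1 : 0 ≤ (n + 1 - j * (n - m) : ℝ)) (h2 : 0 ≤ (n + 1 - j - j * (n - m) : ℝ))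
    (hpoly : (2 * j - (n - m)) * (n + 1) * (n + 1 - j) ≤
      2 * (n + 1 - j * (n - m)) * (n + 1 - j - j * (n - m)) * (n - (n - m) - j : ℝ)) :
    (2 * j - (n - m) : ℝ) ≤ 2 * (pa m n j * pb m n j * (m - j)) := by
  have hm := d.mR
  have hn := d.nR
  have hj' : (j : ℝ) < m := by exact_mod_cast hjm
  obtain ⟨a0, -, a2⟩ := pa_bd hm hn j
  obtain ⟨b0, -, b2⟩ := pb_bd hn j hj'.le hm
  have d1 : (0 : ℝ) < n + 1 := by linarith
  have d2 : (0 : ℝ) < n + 1 - j := by linarith
  have ea : 1 - (j : ℝ) * (n - m) / (n + 1) = (n + 1 - j * (n - m)) / (n + 1) := by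
    field_simp
  have eb : 1 - (j : ℝ) * (n - m) / (n + 1 - j) = (n + 1 - j - j * (n - m)) / (n + 1 - j) := by
    field_simp
  rw [ea] at a2
  rw [eb] at b2
  have h3 : (n + 1 - j * (n - m)) / (n + 1) * ((n + 1 - j - j * (n - m)) / (n + 1 - j)) ≤
      pa m n j * pb m n j := mul_le_mul a2 b2 (div_nonneg h2 d2.le) a0
  have h4 : (2 * j - (n - m) : ℝ) ≤ 2 * ((n + 1 - j * (n - m)) / (n + 1) *
      ((n + 1 - j - j * (n - m)) / (n + 1 - j)) * (m - j)) := by
    have e : 2 * ((n + 1 - j * (n - m)) / (n + 1) *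
      ((n + 1 - j - j * (n - m)) / (n + 1 - j)) * (m - j)) =
      (2 * (n + 1 - j * (n - m)) * (n + 1 - j - j * (n - m)) * (n - (n - m) - j : ℝ)) /
        ((n + 1) * (n + 1 - j)) := by
      field_simp
      ring
    rw [e, le_div_iff₀ (mul_pos d1 d2)]
    linarith
  have h5 := mul_le_mul_of_nonneg_right h3 (show (0 : ℝ) ≤ m - j by linarith)
  linarith

/-- `Q'` in product form -/
lemma YD.Q0 (d : YD r m n) (hmn : m < n) {j : ℕ} (hj : 1 ≤ j) (hjm : (j : ℤ) < m)
    (hq : n - m < 2 * (j : ℤ)) (hk : (n - m + 2 * (j : ℤ) : ℝ) ≤ kap r m n) :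
    (2 * j - (n - m) : ℝ) ≤ 2 * (pa m n j * pb m n j * (m - j)) := by
  have hm := d.mR
  have hn := d.nR
  have hr := d.hr
  have hj' : (j : ℝ) < m := by exact_mod_cast hjm
  have h3 : j = 1 ∨ j = 2 ∨ 3 ≤ j := by omega
  rcases h3 with h3 | h3 | h3
  · -- j = 1
    subst h3
    obtain rfl : n = m + 1 := by omega
    have hm2 : (2 : ℝ) ≤ m := by
      have : (2 : ℤ) ≤ m := by omega
      exact_mod_cast this
    simp only [pa, pb]
    push_cast
    have d1 : (0 : ℝ) < m + 1 + 0 + 1 := by linarith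
    have d2 : (0 : ℝ) < m + 1 - 0 := by linarith
    have e : (1 * (((m : ℝ) + 0 + 1) / (m + 1 + 0 + 1)) * (1 * ((m - 0) / (m + 1 - 0))) * (m - 1)) =
        m * (m - 1) / (m + 2) := by
      field_simp
      ring
    rw [e, show 2 * (1 : ℝ) - ((m : ℝ) + 1 - m) = 1 by ring]
    have e2 : 2 * ((m : ℝ) * (m - 1) / (m + 2)) = (2 * m * (m - 1)) / (m + 2) := by ring
    rw [e2, le_div_iff₀ (by linarith)]
    nlinarith
  · -- j = 2
    subst h3
    have h4 : n = m + 1 ∨ n = m + 2 ∨ n = m + 3 := by omega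
    rcases h4 with rfl | rfl | rfl
    · have hm6 : 6 ≤ m := by
        by_contra hcon
        have h5 : m = 3 ∨ m = 4 ∨ m = 5 := by omega
        have h6 : kap r m (m + 1) < ((5 : ℤ) : ℝ) := by
          rcases h5 with rfl | rfl | rfl
          · obtain rfl : r = 6 := by omega
            exact d.small 5 (by decide)
          · obtain rfl : r = 8 := by omega
            exact d.small 5 (by decide)
          · obtain rfl : r = 10 := by omega
            exact d.small 5 (by decide)
        push_cast at hk h6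
        linarith
      have hm6' : (6 : ℝ) ≤ m := by exact_mod_cast hm6
      apply d.QF hjm
      · push_cast; linarith
      · push_cast; linarith
      · push_cast
        nlinarith [mul_nonneg (show (0 : ℝ) ≤ m - 6 by linarith) (show (0 : ℝ) ≤ m by linarith),
          mul_nonneg (mul_nonneg (show (0 : ℝ) ≤ m - 6 by linarith)
            (show (0 : ℝ) ≤ m by linarith)) (show (0 : ℝ) ≤ m by linarith)]
    · have hm6 : 7 ≤ m := by
        by_contra hcon
        have h5 : m = 3 ∨ m = 4 ∨ m = 5 ∨ m = 6 := by omega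
        have h6 : kap r m (m + 2) < ((6 : ℤ) : ℝ) := by
          rcases h5 with rfl | rfl | rfl | rfl
          · obtain rfl : r = 7 := by omega
            exact d.small 6 (by decide)
          · obtain rfl : r = 9 := by omega
            exact d.small 6 (by decide)
          · obtain rfl : r = 11 := by omega
            exact d.small 6 (by decide)
          · obtain rfl : r = 13 := by omega
            exact d.small 6 (by decide)
        push_cast at hk h6
        linarith
      have hm6' : (7 : ℝ) ≤ m := by exact_mod_cast hm6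
      apply d.QF hjm
      · push_cast; linarith
      · push_cast; linarith
      · push_cast
        nlinarith [mul_nonneg (show (0 : ℝ) ≤ m - 7 by linarith) (show (0 : ℝ) ≤ m by linarith),
          mul_nonneg (mul_nonneg (show (0 : ℝ) ≤ m - 7 by linarith)
            (show (0 : ℝ) ≤ m by linarith)) (show (0 : ℝ) ≤ m by linarith)]
    · have hm6 : 7 ≤ m := by
        by_contra hcon
        have h5 : m = 3 ∨ m = 4 ∨ m = 5 ∨ m = 6 := by omega
        have h6 : kap r m (m + 3) < ((7 : ℤ) : ℝ) := by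
          rcases h5 with rfl | rfl | rfl | rfl
          · obtain rfl : r = 8 := by omega
            exact d.small 7 (by decide)
          · obtain rfl : r = 10 := by omega
            exact d.small 7 (by decide)
          · obtain rfl : r = 12 := by omega
            exact d.small 7 (by decide)
          · obtain rfl : r = 14 := by omega
            exact d.small 7 (by decide)
        push_cast at hk h6
        linarith
      have hm6' : (7 : ℝ) ≤ m := by exact_mod_cast hm6
      apply d.QF hjm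
      · push_cast; linarith
      · push_cast; linarith
      · push_cast
        nlinarith [mul_nonneg (show (0 : ℝ) ≤ m - 7 by linarith) (show (0 : ℝ) ≤ m by linarith),
          mul_nonneg (mul_nonneg (show (0 : ℝ) ≤ m - 7 by linarith)
            (show (0 : ℝ) ≤ m by linarith)) (show (0 : ℝ) ≤ m by linarith)]
  · -- j ≥ 3
    have hJ := d.J (j := j) (by omega) hk
    have hN := QN (j := j) (q := n - m) (n := n) (by omega) (by omega) (by omega) hJ
    have hNR : (2 * (j : ℝ) ^ 2 + ((n - m) - 3) * j - 1 : ℝ) ≤ n := by exact_mod_cast hN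
    have hj3 : (3 : ℝ) ≤ j := by exact_mod_cast h3
    have hq1 : (1 : ℝ) ≤ n - m := by
      have : (1 : ℤ) ≤ n - m := by omega
      exact_mod_cast this
    have h7 : 0 ≤ (j : ℝ) * (j - 2) := mul_nonneg (by linarith) (by linarith)
    apply d.QF hjm
    · nlinarith
    · nlinarith
    · exact QP hj3 hq1 hNR

/-- `Q'` -/
lemma YD.Qp (d : YD r m n) (hmn : m < n) {j : ℕ} (hj : 1 ≤ j) (hjm : (j : ℤ) < m)
    (hk : (n - m + 2 * (j : ℤ) : ℝ) ≤ kap r m n) :
    (2 * (j : ℤ) - (n - m)) * hh r m j ≤ 2 * (m + (j : ℤ)) * hh r m (-(j : ℤ)) := by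
  have hm := d.mR
  have h1 := hh_nonneg r m j
  have h2 := hh_nonneg r m (-(j : ℤ))
  have hj0 : (0 : ℝ) ≤ j := by positivity
  push_cast at *
  by_cases hq : n - m < 2 * (j : ℤ)
  · have h3 := d.Q0 hmn hj hjm hq hk
    have h4 := d.prod j hjm
    push_cast at h3 h4
    have h5 := mul_le_mul_of_nonneg_right h3 h1
    linarith
  · have hq' : (2 * (j : ℝ) : ℝ) ≤ n - m := by
      have : 2 * (j : ℤ) ≤ n - m := by omega
      exact_mod_cast this
    have h3 : 0 ≤ (n - m - 2 * (j : ℝ)) * hh r m j := mul_nonneg (by linarith) h1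
    have h4 : 0 ≤ 2 * (m + (j : ℝ)) * hh r m (-(j : ℤ)) :=
      mul_nonneg (mul_nonneg (by norm_num) (by linarith)) h2
    linarith

end

end Pool.Agent.MP_867aae_co.P75
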