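import Mathlib
import Pool.Agent.MP_867aae_co.P75.YQ

/-!
The pointwise inequalities on the side of the ball with the larger defect.
-/

namespace Pool.Agent.MP_867aae_co.P75

open Pool.Agent.MP_867aae_co.H75

/-- the ratio of the binomial coefficient to the ball volume decreases -/
lemma czbz_mono (N : ℕ) {K K' : ℤ} (h : K ≤ K') :
    (cz N K' : ℝ) * bz N K ≤ cz N K * bz N K' := by
  obtain ⟨n, rfl⟩ := Int.le.dest h
  clear h
  induction n with
  | zero => simp
  | succ n ih =>
    have e : K + ((n + 1 : ℕ) : ℤ) = K + n + 1 := by push_cast; ring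
    rw [e]
    set L := K + (n : ℤ)
    have h1 := lcB N (L - 1)
    rw [show L - 1 + 2 = L + 1 by ring, show L - 1 + 1 = L by ring] at h1
    have h2 := bz_succR N (L - 1)
    rw [show L - 1 + 1 = L by ring] at h2
    have h3 := bz_succR N L
    have hL := bzR_nonneg N L
    have hK := bzR_nonneg N K
    have hL1 := bzR_nonneg N (L + 1)
    have h4 : (cz N (L + 1) : ℝ) * bz N L ≤ cz N L * bz N (L + 1) := by
      rw [h3]
      have : (cz N (L + 1) : ℝ) * bz N L = cz N (L + 1) * bz N (L - 1) + cz N (L + 1) * cz N L := by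
        rw [h2]; ring
      linarith
    rcases hL.eq_or_lt with h0 | h0
    · have hL0 : L < 0 := by
        by_contra hc
        have h1 := bz_mono N (show (0 : ℤ) ≤ L by omega)
        have h2 : bz N 0 = 1 := by simp [bz, Ball_zero]
        have : 0 < bz N L := by omega
        have : (0 : ℝ) < bz N L := by exact_mod_cast this
        linarith
      have hK0 : K < 0 := by omega
      rw [cz_neg hK0, bz_neg hK0]
      simp
    · apply le_of_mul_le_mul_right _ h0
      calc (cz N (L + 1) : ℝ) * bz N K * bz N L = (cz N (L + 1) * bz N L) * bz N K := by ring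
        _ ≤ (cz N L * bz N (L + 1)) * bz N K := mul_le_mul_of_nonneg_right h4 hK
        _ = (cz N L * bz N K) * bz N (L + 1) := by ring
        _ ≤ (cz N K * bz N L) * bz N (L + 1) := mul_le_mul_of_nonneg_right ih hL1
        _ = cz N K * bz N (L + 1) * bz N L := by ring

section
variable {r : ℕ} {m n : ℤ}

/-- the weight -/
noncomputable def alp (r : ℕ) (m n j : ℤ) : ℝ :=
  max (kap r m n) (min (m + n) ((n - m) + 2 * j)) / (m + n)

/-- the curvature -/
noncomputable def muy (r : ℕ) (m : ℤ) : ℝ := (hh r m 1 - hh r m 0) / HH r m 0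

noncomputable def YC (r : ℕ) (m j : ℤ) (α : ℝ) : ℝ :=
  (1 + α) * hh r m (-j) - (1 - α) * hh r m (1 - j)

noncomputable def YB (r : ℕ) (m j : ℤ) (α : ℝ) : ℝ :=
  (1 + α) * hh r m (j + 1) - (1 - α) * hh r m j

lemma YD.Ppos (d : YD r m n) : (0 : ℝ) < m + n := by
  have := d.mR; have := d.nR; linarith

lemma YD.alp_pos (d : YD r m n) (j : ℤ) : 0 < alp r m n j :=
  div_pos (lt_max_of_lt_left d.kpos) d.Ppos

lemma YD.alp_le (d : YD r m n) (j : ℤ) : alp r m n j ≤ 1 := by
  unfold alp
  rw [div_le_one d.Ppos]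
  exact max_le d.kle (min_le_left _ _)

lemma YD.alp_mono (d : YD r m n) {j j' : ℤ} (h : j ≤ j') : alp r m n j ≤ alp r m n j' := by
  unfold alp
  apply div_le_div_of_nonneg_right _ d.Ppos.le
  apply max_le_max le_rfl
  apply min_le_min le_rfl
  have : (j : ℝ) ≤ j' := by exact_mod_cast h
  linarith

lemma YD.alp_low (d : YD r m n) {j : ℤ} (h : (n - m + 2 * j : ℝ) ≤ kap r m n) :
    alp r m n j = kap r m n / (m + n) := by
  unfold alp
  rw [max_eq_left]
  exact (min_le_right _ _).trans h

lemma YD.alp_mid (d : YD r m n) {j : ℤ} (hj : j ≤ m) (h : kap r m n ≤ (n - m + 2 * j : ℝ)) :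
    alp r m n j = (n - m + 2 * j) / (m + n) := by
  unfold alp
  have hj' : (j : ℝ) ≤ m := by exact_mod_cast hj
  rw [min_eq_right (by linarith), max_eq_right h]

lemma YD.alp_top (d : YD r m n) {j : ℤ} (hj : m ≤ j) : alp r m n j = 1 := by
  unfold alp
  have hj' : (m : ℝ) ≤ j := by exact_mod_cast hj
  rw [min_eq_left (by linarith), max_eq_right d.kle, div_self d.Ppos.ne']

lemma YD.alp_ge (d : YD r m n) {j : ℤ} (hj : j ≤ m) :
    (n - m + 2 * j : ℝ) ≤ alp r m n j * (m + n) := by
  unfold alp
  rw [div_mul_cancel₀ _ d.Ppos.ne']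
  have hj' : (j : ℝ) ≤ m := by exact_mod_cast hj
  rw [min_eq_right (by linarith)]
  exact le_max_right _ _

lemma YD.C0 (d : YD r m n) (j : ℤ) : 0 ≤ YC r m j (alp r m n j) := by
  have ha := d.alp_pos j
  have h1 := hh_nonneg r m (-j)
  have h2 := hh_nonneg r m (1 - j)
  unfold YC
  rcases le_or_gt m j with hj | hj
  · rw [d.alp_top hj]
    linarith
  · rcases le_or_gt (n + j) 0 with h3 | h3
    · have h4 : hh r m (1 - j) = 0 := by
        unfold hh
        rw [cz_big (by rw [d.hr]; omega)]
        simp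
      rw [h4]
      have := mul_nonneg (show 0 ≤ 1 + alp r m n j by linarith) h1
      linarith
    · have hs := d.step (-j)
      rw [show -j + 1 = 1 - j by ring] at hs
      push_cast at hs
      have h3' : (0 : ℝ) < n + j := by exact_mod_cast h3
      have hg := d.alp_ge hj.le
      have hm := d.mR
      set α := alp r m n j
      have h5 : 0 ≤ hh r m (1 - j) * ((1 + α) * (m - j) - (1 - α) * (n + j)) := by
        apply mul_nonneg h2
        linarith
      have h6 : 0 ≤ ((1 + α) * hh r m (-j) - (1 - α) * hh r m (1 - j)) * (n + j) := by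
        have : (1 + α) * (hh r m (1 - j) * (m + -j)) = (1 + α) * (hh r m (-j) * (n - -j)) := by
          rw [hs]
        linarith
      by_contra hcon
      push Not at hcon
      have := mul_neg_of_neg_of_pos hcon h3'
      linarith

/-- the curvature in terms of `σ = q / m` -/
lemma YD.mu_eq (d : YD r m n) : m * (muy r m * HH r m 0) = (n - m) * hh r m 0 := by
  unfold muy
  rw [div_mul_cancel₀ _ d.posH.ne']
  have := d.step 0
  push_cast at this
  simp only [zero_add, add_zero, sub_zero] at this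
  linarith

lemma YD.mu_nonneg (d : YD r m n) : 0 ≤ muy r m := by
  have h1 := d.mu_eq
  have h2 := d.posH
  have h3 := d.pos
  have h4 := d.mR
  have h5 := d.nR
  by_contra hcon
  push Not at hcon
  have : muy r m * HH r m 0 < 0 := mul_neg_of_neg_of_pos hcon h2
  have : (m : ℝ) * (muy r m * HH r m 0) < 0 := mul_neg_of_pos_of_neg (by linarith) this
  have : 0 ≤ ((n : ℝ) - m) * hh r m 0 := mul_nonneg (by linarith) h3.le
  linarith

lemma YD.mu1 (d : YD r m n) {j : ℤ} (hj : 0 ≤ j) :
    (n - m) * hh r m j ≤ m * (muy r m * HH r m j) := by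
  have h1 : hh r m j * HH r m 0 ≤ hh r m 0 * HH r m j :=
    czbz_mono r (show m - 1 + 0 ≤ m - 1 + j by omega)
  have h2 := d.mu_eq
  have h3 := d.posH
  have h5 := d.nR
  apply le_of_mul_le_mul_right _ h3
  have h6 := mul_le_mul_of_nonneg_left h1 (show (0 : ℝ) ≤ n - m by linarith)
  calc (n - m) * hh r m j * HH r m 0 = (n - m) * (hh r m j * HH r m 0) := by ring
    _ ≤ (n - m) * (hh r m 0 * HH r m j) := h6
    _ = ((n - m) * hh r m 0) * HH r m j := by ring
    _ = m * (muy r m * HH r m 0) * HH r m j := by rw [h2]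
    _ = _ := by ring

lemma YD.mu2 (d : YD r m n) {j : ℤ} (hj : j ≤ 0) :
    m * (muy r m * HH r m j) ≤ (n - m) * hh r m j := by
  have h1 : hh r m 0 * HH r m j ≤ hh r m j * HH r m 0 :=
    czbz_mono r (show m - 1 + j ≤ m - 1 + 0 by omega)
  have h2 := d.mu_eq
  have h3 := d.posH
  have h5 := d.nR
  apply le_of_mul_le_mul_right _ h3
  have h6 := mul_le_mul_of_nonneg_left h1 (show (0 : ℝ) ≤ n - m by linarith)
  calc m * (muy r m * HH r m j) * HH r m 0 = m * (muy r m * HH r m 0) * HH r m j := by ring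
    _ = ((n - m) * hh r m 0) * HH r m j := by rw [h2]
    _ = (n - m) * (hh r m 0 * HH r m j) := by ring
    _ ≤ (n - m) * (hh r m j * HH r m 0) := h6
    _ = _ := by ring

/-- `σ ≤ θ` -/
lemma YD.sig (d : YD r m n) {θ : ℝ} (hθ : 0 ≤ θ) (h : (1 + θ) * muy r m ≤ θ ^ 2) :
    (n - m : ℝ) ≤ θ * m := by
  have h1 := d.mu_eq
  have h2 := d.ov 0
  have h3 := d.posH
  have hm := d.mR
  have hn := d.nR
  have hp := d.pos
  push_cast at h2
  simp only [mul_zero, sub_zero] at h2
  by_contra hcon
  push Not at hcon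
  set x := hh r m 0
  set H := HH r m 0
  set μ := muy r m
  have hm0 : (0 : ℝ) < m := by linarith
  have hq : (0 : ℝ) < n - m := lt_of_le_of_lt (mul_nonneg hθ hm0.le) hcon
  -- n x ≥ q H, so μ m n ≥ q², while θ² m² < q²
  have e1 : (n - m) * H ≤ n * x := by linarith
  have e2 : (n - m : ℝ) ^ 2 ≤ μ * m * n := by
    apply le_of_mul_le_mul_right _ h3
    have := mul_le_mul_of_nonneg_left e1 hq.le
    calc (n - m : ℝ) ^ 2 * H = (n - m) * ((n - m) * H) := by ring
      _ ≤ (n - m) * (n * x) := this
      _ = n * (m * (μ * H)) := by rw [h1]; ring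
      _ = μ * m * n * H := by ring
  have e3 : (1 + θ) * (n - m : ℝ) ^ 2 ≤ θ ^ 2 * m * n := by
    have := mul_le_mul_of_nonneg_right h
      (show (0 : ℝ) ≤ m * n from mul_nonneg hm0.le (by linarith))
    have := mul_le_mul_of_nonneg_left e2 (show (0 : ℝ) ≤ 1 + θ by linarith)
    linarith
  -- with u = q - θ m > 0
  have e4 : θ * m * (θ * m) < (n - m) * (n - m) := by
    have : 0 ≤ θ * m := mul_nonneg hθ hm0.le
    nlinarith
  have e5 : θ * (θ * m) * (n - m) ≤ θ * (n - m) * (n - m) := by
    apply mul_le_mul_of_nonneg_right _ hq.le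
    exact mul_le_mul_of_nonneg_left hcon.le hθ
  nlinarith

/-- region 2 -/
lemma YD.reg2 (d : YD r m n) {j : ℤ} (hj0 : 1 ≤ j) (hjm : j < m)
    (hk : kap r m n ≤ (n - m + 2 * j : ℝ)) :
    (m + j) * YB r m j (alp r m n j) = 2 * (n - m) * hh r m j ∧ YC r m j (alp r m n j) = 0 := by
  have hs := d.step j
  have hs2 := d.step (-j)
  rw [show -j + 1 = 1 - j by ring] at hs2
  push_cast at hs2
  have hP := d.Ppos
  have hj0' : (1 : ℝ) ≤ j := by exact_mod_cast hj0
  have hjm' : (j : ℝ) < m := by exact_mod_cast hjm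
  have hn := d.nR
  rw [d.alp_mid hjm.le hk]
  unfold YB YC
  have e1 : 1 + (n - m + 2 * j : ℝ) / (m + n) = 2 * (n + j) / (m + n) := by
    field_simp; ring
  have e2 : 1 - (n - m + 2 * j : ℝ) / (m + n) = 2 * (m - j) / (m + n) := by
    field_simp; ring
  rw [e1, e2]
  constructor
  · have : (m + j) * (2 * (n + j) / (m + n) * hh r m (j + 1) - 2 * (m - j) / (m + n) * hh r m j) =
        (2 * (n + j) * (hh r m (j + 1) * (m + j)) - 2 * (m - j) * (m + j) * hh r m j) / (m + n) := by
      field_simp
    rw [this, hs, div_eq_iff hP.ne']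
    ring
  · have : 2 * (n + j) / (m + n) * hh r m (-j) - 2 * (m - j) / (m + n) * hh r m (1 - j) =
        2 * (hh r m (-j) * (n - -j) - hh r m (1 - j) * (m + -j)) / (m + n) := by
      field_simp
      ring
    rw [this, hs2]
    simp

/-- region 3 -/
lemma YD.reg3 (d : YD r m n) {j : ℤ} (hjm : m ≤ j) :
    (m + j) * YB r m j (alp r m n j) ≤ 2 * (n - m) * hh r m j := by
  have hs := d.step j
  rw [d.alp_top hjm]
  unfold YB
  have h1 := hh_nonneg r m j
  have hjm' : (m : ℝ) ≤ j := by exact_mod_cast hjm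
  have : (m + j) * ((1 + 1) * hh r m (j + 1) - (1 - 1) * hh r m j) =
      2 * (hh r m j * (n - j)) := by rw [← hs]; ring
  rw [this]
  have := mul_le_mul_of_nonneg_left hjm' h1
  linarith

/-- the case `q = 0` -/
lemma YD.AC0 (d : YD r m n) (hmn : m = n) (j : ℤ) (α : ℝ) :
    YB r m j α - YC r m j α = 0 := by
  have h1 : ∀ j, hh r m (j + 1) = hh r m (-j) := by
    intro j
    rw [← d.symm j]
    unfold hh
    rw [← hmn, show m - 1 + (j + 1) = m + j by ring]
  have h2 := h1 j
  have h3 := h1 (j - 1)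
  rw [show j - 1 + 1 = j by ring, show -(j - 1) = 1 - j by ring] at h3
  unfold YB YC
  rw [h2, h3]
  ring

/-- `F` -/
lemma YD.F (d : YD r m n) (j : ℤ) :
    YB r m j (alp r m n j) - YC r m j (alp r m n j) ≤ 2 * (muy r m * HH r m j) := by
  have hC := d.C0 j
  have hm := d.mR
  have hn := d.nR
  -- the low region
  have low : (n - m + 2 * j : ℝ) ≤ kap r m n →
      YB r m j (alp r m n j) - YC r m j (alp r m n j) ≤ 2 * (muy r m * HH r m j) := by
    intro hk
    have hf := d.flat j
    rw [d.alp_low hk]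
    have hx := d.kx
    have hP := d.Ppos
    have hden := d.den
    have hH := d.posH
    have hkap := d.kapeq
    have e0 : HH r m (-1) = HH r m 0 - hh r m 0 := by
      have := HH_pred r m 0
      rw [show (0 : ℤ) - 1 = -1 by ring] at this
      linarith
    rw [e0] at hf
    unfold muy
    have e1 : 1 + kap r m n / (m + n) = 2 * HH r m 0 / (2 * HH r m 0 - hh r m 0) := by
      unfold kap
      field_simp
      ring
    have e2 : 1 - kap r m n / (m + n) =
        2 * (HH r m 0 - hh r m 0) / (2 * HH r m 0 - hh r m 0) := by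
      unfold kap
      field_simp
      ring
    unfold YB YC
    rw [e1, e2]
    apply le_of_mul_le_mul_left _ hden
    calc (2 * HH r m 0 - hh r m 0) * (2 * HH r m 0 / (2 * HH r m 0 - hh r m 0) * hh r m (j + 1) -
          2 * (HH r m 0 - hh r m 0) / (2 * HH r m 0 - hh r m 0) * hh r m j -
          (2 * HH r m 0 / (2 * HH r m 0 - hh r m 0) * hh r m (-j) -
          2 * (HH r m 0 - hh r m 0) / (2 * HH r m 0 - hh r m 0) * hh r m (1 - j)))
        = 2 * (HH r m 0 * (hh r m (j + 1) - hh r m (-j)) -
            (HH r m 0 - hh r m 0) * (hh r m j - hh r m (1 - j))) := by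
          field_simp
          ring
      _ ≤ 2 * ((HH r m 0 + (HH r m 0 - hh r m 0)) * ((hh r m 1 - hh r m 0) / HH r m 0) *
            HH r m j) := by linarith
      _ = _ := by ring
  by_cases hk : (n - m + 2 * j : ℝ) ≤ kap r m n
  · exact low hk
  · push Not at hk
    have hq := d.qle
    have hj1 : 1 ≤ j := by
      by_contra hcon
      have : (j : ℝ) ≤ 0 := by
        have : j ≤ 0 := by omega
        exact_mod_cast this
      linarith
    have hj0 : (1 : ℝ) ≤ j := by exact_mod_cast hj1
    have hB : (m + j) * YB r m j (alp r m n j) ≤ 2 * (n - m) * hh r m j := by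
      rcases le_or_gt m j with h | h
      · exact d.reg3 h
      · exact (d.reg2 hj1 h hk.le).1.le
    have h1 := d.mu1 (show 0 ≤ j by omega)
    have hmj : (0 : ℝ) < m + j := by linarith
    apply le_of_mul_le_mul_left _ hmj
    have h2 := mul_nonneg d.mu_nonneg (HH_nonneg r m j)
    have h3 := mul_nonneg (show (0 : ℝ) ≤ j by linarith) h2
    have h4 := mul_nonneg hmj.le hC
    linarith

/-- region 1 -/
lemma YD.reg1 (d : YD r m n) (hmn : m < n) {j : ℤ} (hj0 : 1 ≤ j) (hjm : j < m)
    (hk : (n - m + 2 * j : ℝ) ≤ kap r m n) {θ : ℝ} (hθ : 0 < θ)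
    (h : (1 + θ) * muy r m ≤ θ ^ 2) :
    YB r m j (alp r m n j) - YC r m j (alp r m n j) ≤ 2 * (θ * hh r m j) ∧
    YB r m j (alp r m n j) - YC r m j (alp r m n j) ≤
      2 * ((1 + alp r m n j) * (θ / (1 + θ)) * (hh r m (j + 1) + hh r m (-j))) := by
  obtain ⟨i, rfl⟩ := Int.eq_ofNat_of_zero_le (show 0 ≤ j by omega)
  have hK := d.Kp hmn i (by omega) hk
  have hQ := d.Qp hmn (j := i) (by omega) hjm hk
  have hF := d.F i
  have hC := d.C0 i
  have hs := d.step i
  have hP := d.Ppos
  have hm := d.mR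
  have hn := d.nR
  have hkp := d.kpos
  have ha := d.alp_low hk
  have hHj := HH_nonneg r m i
  have hi1 : (1 : ℝ) ≤ i := by
    have : 1 ≤ i := by omega
    exact_mod_cast this
  have him : (i : ℝ) < m := by exact_mod_cast hjm
  push_cast at hK hQ hs hk
  have h0 := hh_nonneg r m i
  have h0' := hh_nonneg r m ((i : ℤ) + 1)
  have h0'' := hh_nonneg r m (-(i : ℤ))
  have hap := d.alp_pos i
  set D := YB r m i (alp r m n i) - YC r m i (alp r m n i) with hD
  set α := alp r m n i with hα
  set κ := kap r m n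
  set hj := hh r m (i : ℤ)
  set hj1 := hh r m ((i : ℤ) + 1)
  set hn' := hh r m (-(i : ℤ))
  set Hj := HH r m (i : ℤ)
  set μ := muy r m
  have hmi : (0 : ℝ) < m + i := by linarith
  have hγ : 0 < θ / (1 + θ) := by positivity
  have r1 : 0 ≤ 2 * (θ * hj) := by positivity
  have r2 : 0 ≤ 2 * ((1 + α) * (θ / (1 + θ)) * (hj1 + hn')) := by positivity
  rcases le_or_gt D 0 with hD0 | hD0
  · exact ⟨hD0.trans r1, hD0.trans r2⟩
  · -- h_j > 0
    have hjpos : 0 < hj := by
      rcases h0.lt_or_eq with h1 | h1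
      · exact h1
      · exfalso
        have e1 : hj1 * (m + i) = 0 := by rw [hs, ← h1, zero_mul]
        have e2 : hj1 = 0 := by
          rcases mul_eq_zero.1 e1 with h2 | h2
          · exact h2
          · exact absurd h2 hmi.ne'
        have : D ≤ 0 := by
          have : YB r m i α = 0 := by
            unfold YB
            change (1 + α) * hj1 - (1 - α) * hj = 0
            rw [e2, ← h1]; ring
          rw [hD, this]; linarith
        linarith
    obtain ⟨T, hT⟩ : ∃ T : ℝ, T = D / (2 * hj) := ⟨_, rfl⟩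
    have hDT : D = 2 * (hj * T) := by rw [hT]; field_simp
    have hT0 : 0 < T := by rw [hT]; positivity
    -- T (P + e) ≤ κ - e
    have t1 : T * (m + n + (2 * i - (n - m))) ≤ κ - (2 * i - (n - m)) := by
      have hB : (m + i) * D ≤ hj * (κ + (n - m) - 2 * i) := by
        have e1 : D ≤ YB r m i α := by rw [hD]; linarith
        have e2 := mul_le_mul_of_nonneg_left e1 hmi.le
        refine e2.trans_eq ?_
        unfold YB
        change (m + i) * ((1 + α) * hj1 - (1 - α) * hj) = _
        have e3 : (m + i) * ((1 + α) * hj1 - (1 - α) * hj) =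
          (1 + α) * (hj1 * (m + i)) - (1 - α) * (m + i) * hj := by ring
        rw [e3, hs, ha]
        field_simp
        ring
      rw [hDT] at hB
      apply le_of_mul_le_mul_left _ hjpos
      linarith
    -- T (P + κ) ≤ (κ - e) (1 + T)
    have t2 : T * (m + n + κ) ≤ (κ + (n - m) - 2 * i) * (1 + T) := by linarith
    have t3 : T * Hj ≤ (1 + T) * hj := by
      have hPk : 0 < m + n + κ := by linarith
      apply le_of_mul_le_mul_left _ hPk
      have e1 := mul_le_mul_of_nonneg_right t2 hHj
      have e2 := mul_le_mul_of_nonneg_right hK (show 0 ≤ 1 + T by linarith)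
      linarith
    have t4 : hj * T ≤ μ * Hj := by linarith
    have hμ := d.mu_nonneg
    have t5 : T ^ 2 ≤ (1 + T) * μ := by
      apply le_of_mul_le_mul_left _ hjpos
      have e1 := mul_le_mul_of_nonneg_left t4 hT0.le
      have e2 := mul_le_mul_of_nonneg_left t3 hμ
      linarith
    have t6 : T ≤ θ := by
      by_contra hcon
      push Not at hcon
      have e1 := mul_le_mul_of_nonneg_left h (show 0 ≤ 1 + T by linarith)
      have e2 := mul_le_mul_of_nonneg_left t5 (show 0 ≤ 1 + θ by linarith)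
      have e3 : 0 < (T - θ) * (T + θ + T * θ) := by
        apply mul_pos (by linarith)
        positivity
      nlinarith
    constructor
    · rw [hDT]
      have := mul_le_mul_of_nonneg_right t6 hjpos.le
      linarith
    · rw [hDT]
      -- T ≤ (1 + T) γ
      have g1 : T ≤ (1 + T) * (θ / (1 + θ)) := by
        rw [← mul_div_assoc, le_div_iff₀ (by linarith)]
        linarith
      -- hj (1 + T) ≤ (1 + α) (hj1 + hn')
      have g2 : hj * (1 + T) ≤ (1 + α) * (hj1 + hn') := by
        have g3 : (1 + T) * (2 * (m + i)) ≤ m + n + κ := by linarith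
        have g4 : 1 + α = (m + n + κ) / (m + n) := by
          rw [ha]; field_simp
        have g5 : (m + n) * hj ≤ 2 * (m + i) * (hj1 + hn') := by linarith
        rw [g4, div_mul_eq_mul_div, le_div_iff₀ hP]
        apply le_of_mul_le_mul_left _ (show (0 : ℝ) < 2 * (m + i) by linarith)
        have g6 := mul_le_mul_of_nonneg_left g5 (show 0 ≤ m + n + κ by linarith)
        have g7 := mul_le_mul_of_nonneg_right g3 (show 0 ≤ (m + n) * hj by positivity)
        linarith
      have g3 := mul_le_mul_of_nonneg_left g1 hjpos.le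
      have g4 := mul_le_mul_of_nonneg_right g2 hγ.le
      linarith

end

end Pool.Agent.MP_867aae_co.P75
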