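import Mathlib
import Pool.Agent.MP_867aae_co.P75.PO
import Pool.Agent.MP_867aae_co.P75.YM

/-!
The probabilities of raising a flat edge.
-/

namespace Pool.Agent.MP_867aae_co.P75

open Pool.Agent.MP_867aae_co.H75

/-- clamp to the unit interval -/
noncomputable def cl (y : ℝ) : ℝ := max 0 (min 1 y)

lemma cl_nonneg (y : ℝ) : 0 ≤ cl y := le_max_left _ _

lemma cl_le (y : ℝ) : cl y ≤ 1 := max_le (by norm_num) (min_le_left _ _)

lemma cl_id {y : ℝ} (h0 : 0 ≤ y) (h1 : y ≤ 1) : cl y = y := by
  unfold cl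
  rw [min_eq_right h1, max_eq_right h0]

lemma cl_zero {y : ℝ} (h : y ≤ 0) : cl y = 0 := by
  unfold cl
  exact max_eq_left ((min_le_right _ _).trans h)

lemma cl_one {y : ℝ} (h : 1 ≤ y) : cl y = 1 := by
  unfold cl
  rw [min_eq_left h, max_eq_right (by norm_num)]

lemma cl_mono {y y' : ℝ} (h : y ≤ y') : cl y ≤ cl y' := by
  unfold cl
  exact max_le_max le_rfl (min_le_min le_rfl h)

noncomputable def pe (p : ℕ) (x : ℤ) : ℝ := cl ((x + 1) / (p + 1))

noncomputable def po (p : ℕ) (x : ℤ) : ℝ := cl ((x + 2) / (p + 2))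

/-- the probability -/
noncomputable def piv (p : ℕ) (n : ℤ) : ℝ := if n % 2 = 0 then pe p (n / 2) else po p (n / 2)

lemma piv_nonneg (p : ℕ) (n : ℤ) : 0 ≤ piv p n := by
  unfold piv; split_ifs <;> exact cl_nonneg _

lemma piv_le (p : ℕ) (n : ℤ) : piv p n ≤ 1 := by
  unfold piv; split_ifs <;> exact cl_le _

lemma piv_even (p : ℕ) (x : ℤ) : piv p (x + x) = pe p x := by
  unfold piv
  rw [if_pos (by omega)]
  congr 1; omega

lemma piv_odd (p : ℕ) (x : ℤ) : piv p (x + 1 + x) = po p x := by
  unfold piv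
  rw [if_neg (by omega)]
  congr 1; omega

lemma piv_step (p : ℕ) (n : ℤ) : piv p n ≤ piv p (n + 1) := by
  rcases Int.even_or_odd' n with ⟨x, h | h⟩
  · have e1 : piv p n = pe p x := by rw [h, two_mul, piv_even]
    have e2 : piv p (n + 1) = po p x := by
      rw [h, show 2 * x + 1 = x + 1 + x by ring, piv_odd]
    rw [e1, e2]
    unfold pe po
    by_cases hx : x ≤ p
    · apply cl_mono
      have hx' : (x : ℝ) ≤ p := by exact_mod_cast hx
      rw [div_le_div_iff₀ (by positivity) (by positivity)]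
      nlinarith
    · have hx' : (p : ℝ) < x := by exact_mod_cast not_le.1 hx
      rw [cl_one (y := (x + 2) / (p + 2))]
      · exact cl_le _
      · rw [le_div_iff₀ (by positivity)]; linarith
  · have e1 : piv p n = po p x := by rw [h, show 2 * x + 1 = x + 1 + x by ring, piv_odd]
    have e2 : piv p (n + 1) = pe p (x + 1) := by
      rw [h, show 2 * x + 1 + 1 = (x + 1) + (x + 1) by ring, piv_even]
    rw [e1, e2]
    unfold pe po
    by_cases hx : 0 ≤ x + 2
    · apply cl_mono
      have hx' : (0 : ℝ) ≤ x + 2 := by exact_mod_cast hx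
      push_cast
      rw [show (x : ℝ) + 1 + 1 = x + 2 by ring]
      apply div_le_div_of_nonneg_left hx' (by positivity) (by linarith)
    · have hx' : (x : ℝ) + 2 < 0 := by exact_mod_cast not_le.1 hx
      rw [cl_zero (y := (x + 2) / (p + 2))]
      · exact cl_nonneg _
      · exact div_nonpos_of_nonpos_of_nonneg hx'.le (by positivity)

lemma piv_mono (p : ℕ) {n n' : ℤ} (h : n ≤ n') : piv p n ≤ piv p n' := by
  obtain ⟨k, rfl⟩ := Int.le.dest h
  clear h
  induction k with
  | zero => simp
  | succ k ih =>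
    refine ih.trans ?_
    have := piv_step p (n + k)
    rw [show n + (k : ℤ) + 1 = n + ((k + 1 : ℕ) : ℤ) by push_cast; ring] at this
    exact this

lemma kf_neg (p : ℕ) {x : ℤ} (h : x < 0) : kf p x = 0 := by
  unfold kf; rw [cz_neg h]; simp

lemma kf_big (p : ℕ) {x : ℤ} (h : (p : ℤ) < x) : kf p x = 0 := by
  unfold kf; rw [cz_big h]; simp

lemma Gf_neg (p : ℕ) {x : ℤ} (h : x < 0) : Gf p x = 0 := by
  unfold Gf; rw [bz_neg h]; simp

lemma kf_step (p : ℕ) (x : ℤ) : kf p (x + 1) * (x + 1) = kf p x * (p - x) := cz_stepR p x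

lemma pe_rel (p : ℕ) (x : ℤ) : pe p x * (kf p x + kf p (x + 1)) = kf p x := by
  unfold pe
  by_cases h1 : x < -1
  · rw [kf_neg p (by omega), kf_neg p (by omega)]; simp
  · by_cases h2 : (p : ℤ) < x
    · rw [kf_big p h2, kf_big p (by omega)]; simp
    · have h1' : (0 : ℝ) ≤ x + 1 := by
        have : 0 ≤ x + 1 := by omega
        exact_mod_cast this
      have h2' : (x : ℝ) ≤ p := by exact_mod_cast not_lt.1 h2
      have hp : (0 : ℝ) < p + 1 := by positivity
      rw [cl_id (div_nonneg h1' hp.le) (by rw [div_le_one hp]; linarith)]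
      rw [div_mul_eq_mul_div, div_eq_iff hp.ne']
      have := kf_step p x
      linarith

lemma po_rel (p : ℕ) (x : ℤ) :
    po p x * (kf p x + 2 * kf p (x + 1) + kf p (x + 2)) = kf p x + kf p (x + 1) := by
  unfold po
  by_cases h1 : x < -2
  · rw [kf_neg p (show x < 0 by omega), kf_neg p (show x + 1 < 0 by omega),
      kf_neg p (show x + 2 < 0 by omega)]; simp
  · by_cases h2 : (p : ℤ) < x
    · rw [kf_big p h2, kf_big p (show (p : ℤ) < x + 1 by omega),
        kf_big p (show (p : ℤ) < x + 2 by omega)]; simp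
    · have h1' : (0 : ℝ) ≤ x + 2 := by
        have : 0 ≤ x + 2 := by omega
        exact_mod_cast this
      have h2' : (x : ℝ) ≤ p := by exact_mod_cast not_lt.1 h2
      have hp : (0 : ℝ) < p + 2 := by positivity
      rw [cl_id (div_nonneg h1' hp.le) (by rw [div_le_one hp]; linarith)]
      rw [div_mul_eq_mul_div, div_eq_iff hp.ne']
      have e1 := kf_step p x
      have e2 := kf_step p (x + 1)
      rw [show x + 1 + 1 = x + 2 by ring] at e2
      push_cast at e2
      linarith

/-- gain of the antipode of a flat edge -/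
noncomputable def EE (p : ℕ) (x y : ℤ) : ℝ := (1 - pe p x) * kf p (y + 1) - pe p x * kf p y

noncomputable def EN (p : ℕ) (x y : ℤ) : ℝ :=
  (1 - po p x) * (kf p (y + 2) + kf p (y + 1)) - po p x * (kf p (y + 1) + kf p y)

lemma EE_eq (p : ℕ) {x y : ℤ} (hyx : y ≤ x) (h : x + y ≤ p - 1) :
    (y + 1) * EE p x y = (p - 1 - (x + y)) * kf p y := by
  unfold EE pe
  by_cases h1 : x < -1
  · rw [kf_neg p (show y + 1 < 0 by omega), kf_neg p (show y < 0 by omega)]; simp
  · by_cases h2 : (p : ℤ) < x
    · have h2' : (p : ℝ) < x := by exact_mod_cast h2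
      have hp : (0 : ℝ) < p + 1 := by positivity
      rw [cl_one (by rw [le_div_iff₀ hp]; linarith), kf_neg p (show y < 0 by omega)]
      simp
    · have h1' : (0 : ℝ) ≤ x + 1 := by
        have : 0 ≤ x + 1 := by omega
        exact_mod_cast this
      have h2' : (x : ℝ) ≤ p := by exact_mod_cast not_lt.1 h2
      have hp : (0 : ℝ) < p + 1 := by positivity
      rw [cl_id (div_nonneg h1' hp.le) (by rw [div_le_one hp]; linarith)]
      have e1 := kf_step p y
      have e3 : (p + 1) * ((y + 1) * ((1 - (x + 1) / (p + 1 : ℝ)) * kf p (y + 1) -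
          (x + 1) / (p + 1) * kf p y)) = (p - x) * (kf p (y + 1) * (y + 1)) -
            (x + 1) * (y + 1) * kf p y := by
        field_simp
        ring
      apply mul_left_cancel₀ hp.ne'
      rw [e3, e1]
      ring

lemma EE_nonneg (p : ℕ) {x y : ℤ} (hyx : y ≤ x) (h : x + y ≤ p - 1) : 0 ≤ EE p x y := by
  by_cases hy : 0 ≤ y
  · have h1 := EE_eq p hyx h
    have h2 := kf_nonneg p y
    have hy' : (0 : ℝ) < y + 1 := by
      have : (0 : ℝ) ≤ y := by exact_mod_cast hy
      linarith
    have h' : (x : ℝ) + y ≤ p - 1 := by exact_mod_cast h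
    have h3 : 0 ≤ (p - 1 - (x + y : ℝ)) * kf p y := mul_nonneg (by linarith) h2
    rw [← h1] at h3
    by_contra hcon
    push Not at hcon
    have := mul_neg_of_pos_of_neg hy' hcon
    linarith
  · unfold EE
    rw [kf_neg p (show y < 0 by omega), mul_zero, sub_zero]
    exact mul_nonneg (by linarith [cl_le ((x + 1) / (p + 1 : ℝ)), show pe p x = cl ((x + 1) / (p + 1 : ℝ)) from rfl]) (kf_nonneg _ _)

lemma EN_eq (p : ℕ) {x y : ℤ} (hyx : y ≤ x) (h : x + y ≤ p - 2) :
    (y + 2) * EN p x y = (p - 2 - (x + y)) * (kf p y + kf p (y + 1)) := by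
  unfold EN po
  by_cases h1 : x < -2
  · rw [kf_neg p (show y + 2 < 0 by omega), kf_neg p (show y + 1 < 0 by omega),
      kf_neg p (show y < 0 by omega)]; simp
  · by_cases h2 : (p : ℤ) < x
    · have h2' : (p : ℝ) < x := by exact_mod_cast h2
      have hp : (0 : ℝ) < p + 2 := by positivity
      rw [cl_one (by rw [le_div_iff₀ hp]; linarith), kf_neg p (show y < 0 by omega),
        kf_neg p (show y + 1 < 0 by omega)]
      simp
    · have h1' : (0 : ℝ) ≤ x + 2 := by
        have : 0 ≤ x + 2 := by omega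
        exact_mod_cast this
      have h2' : (x : ℝ) ≤ p := by exact_mod_cast not_lt.1 h2
      have hp : (0 : ℝ) < p + 2 := by positivity
      rw [cl_id (div_nonneg h1' hp.le) (by rw [div_le_one hp]; linarith)]
      have e1 := kf_step p y
      have e2 := kf_step p (y + 1)
      rw [show y + 1 + 1 = y + 2 by ring] at e2
      push_cast at e2
      have e3 : (p + 2) * ((y + 2) * ((1 - (x + 2) / (p + 2 : ℝ)) * (kf p (y + 2) + kf p (y + 1)) -
          (x + 2) / (p + 2) * (kf p (y + 1) + kf p y))) =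
          (p - x) * ((y + 2) * (kf p (y + 2) + kf p (y + 1))) -
            (x + 2) * (y + 2) * (kf p (y + 1) + kf p y) := by
        field_simp
        ring
      have e4 : (y + 2) * (kf p (y + 2) + kf p (y + 1)) = (p - y) * (kf p (y + 1) + kf p y) := by
        linarith
      apply mul_left_cancel₀ hp.ne'
      rw [e3, e4]
      ring

lemma EN_nonneg (p : ℕ) {x y : ℤ} (hyx : y ≤ x) (h : x + y ≤ p - 2) : 0 ≤ EN p x y := by
  have k0 := kf_nonneg p y
  have k1 := kf_nonneg p (y + 1)
  have k2 := kf_nonneg p (y + 2)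
  by_cases hy : 0 ≤ y + 1
  · have h1 := EN_eq p hyx h
    have hy' : (0 : ℝ) < y + 2 := by
      have : (0 : ℝ) ≤ y + 1 := by exact_mod_cast hy
      linarith
    have h' : (x : ℝ) + y ≤ p - 2 := by exact_mod_cast h
    have h3 : 0 ≤ (p - 2 - (x + y : ℝ)) * (kf p y + kf p (y + 1)) :=
      mul_nonneg (by linarith) (add_nonneg k0 k1)
    rw [← h1] at h3
    by_contra hcon
    push Not at hcon
    have := mul_neg_of_pos_of_neg hy' hcon
    linarith
  · unfold EN
    rw [kf_neg p (show y < 0 by omega), kf_neg p (show y + 1 < 0 by omega), add_zero, add_zero,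
      mul_zero, sub_zero]
    exact mul_nonneg (by linarith [cl_le ((x + 2) / (p + 2 : ℝ)), show po p x = cl ((x + 2) / (p + 2 : ℝ)) from rfl]) k2

end Pool.Agent.MP_867aae_co.P75
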