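import Mathlib
import Pool.Agent.MP_867aae_co.P75.YM

/-!
The pointwise inequalities, all regions.
-/

namespace Pool.Agent.MP_867aae_co.P75

open Pool.Agent.MP_867aae_co.H75

section
variable {r : ℕ} {m n : ℤ}

/-- the pointwise inequalities -/
lemma YD.main (d : YD r m n) {θ : ℝ} (hθ : 0 < θ) (h : (1 + θ) * muy r m ≤ θ ^ 2) (j : ℤ) :
    YB r m j (alp r m n j) - YC r m j (alp r m n j) ≤ muy r m * HH r m j +
      (1 + alp r m n j) * (θ / (1 + θ)) * (hh r m (j + 1) + hh r m (-j)) ∧
    YB r m j (alp r m n j) - YC r m j (alp r m n j) ≤ muy r m * HH r m j +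
      θ * (hh r m j + hh r m (1 - j)) ∧
    YB r m j (alp r m n j) - YC r m j (alp r m n j) ≤
      (1 + alp r m n j) * (θ / (1 + θ)) * (hh r m (j + 1) + hh r m (-j)) +
      θ * (hh r m j + hh r m (1 - j)) := by
  have hF := d.F j
  have hC := d.C0 j
  have hm := d.mR
  have hn := d.nR
  have hsg := d.sig hθ.le h
  have hmu := mul_nonneg d.mu_nonneg (HH_nonneg r m j)
  have h0 := hh_nonneg r m j
  have h1 := hh_nonneg r m (j + 1)
  have h2 := hh_nonneg r m (-j)
  have h3 := hh_nonneg r m (1 - j)
  have ha := d.alp_pos j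
  have hs := d.step j
  have hγ : 0 < θ / (1 + θ) := by positivity
  have hγn : (n - m : ℝ) ≤ θ / (1 + θ) * n := by
    rw [div_mul_eq_mul_div, le_div_iff₀ (by linarith)]
    linarith
  have hm0 : (0 : ℝ) < m := by linarith
  rcases eq_or_lt_of_le d.hn with hmn | hmn
  · -- q = 0
    rw [d.AC0 hmn]
    refine ⟨by positivity, by positivity, by positivity⟩
  rcases le_or_gt j 0 with hj | hj
  · -- j ≤ 0
    have hj' : (j : ℝ) ≤ 0 := by exact_mod_cast hj
    have hmu2 := d.mu2 hj
    set γ := θ / (1 + θ)
    set D := YB r m j (alp r m n j) - YC r m j (alp r m n j)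
    set α := alp r m n j
    set M := muy r m * HH r m j
    have a1 : M ≤ θ * hh r m j := by
      apply le_of_mul_le_mul_left _ hm0
      have := mul_le_mul_of_nonneg_right hsg h0
      linarith
    have a2 : M ≤ γ * hh r m (j + 1) := by
      apply le_of_mul_le_mul_left _ hm0
      rcases le_or_gt (m + j) 0 with h4 | h4
      · have : hh r m j = 0 := by
          unfold hh; rw [cz_neg (by omega)]; simp
        rw [this] at hmu2
        have : 0 ≤ m * (γ * hh r m (j + 1)) := by positivity
        linarith
      · have h5 : hh r m j * n ≤ hh r m (j + 1) * m := by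
          have e1 : hh r m (j + 1) * (m + j) ≤ hh r m (j + 1) * m :=
            mul_le_mul_of_nonneg_left (by linarith) h1
          have e2 : hh r m j * n ≤ hh r m j * (n - j) :=
            mul_le_mul_of_nonneg_left (by linarith) h0
          linarith
        have h6 := mul_le_mul_of_nonneg_left h5 hγ.le
        have h7 := mul_le_mul_of_nonneg_right hγn h0
        linarith
    have a3 : γ * hh r m (j + 1) ≤ (1 + α) * γ * (hh r m (j + 1) + hh r m (-j)) := by
      have : 0 ≤ α * γ * hh r m (j + 1) + (1 + α) * γ * hh r m (-j) := by positivity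
      linarith
    have a4 : θ * hh r m j ≤ θ * (hh r m j + hh r m (1 - j)) := by
      have : 0 ≤ θ * hh r m (1 - j) := by positivity
      linarith
    refine ⟨by linarith, by linarith, by linarith⟩
  have hj' : (1 : ℝ) ≤ j := by exact_mod_cast hj
  have hmu1 := d.mu1 hj.le
  have b1 : (n - m : ℝ) * hh r m j ≤ m * (θ * hh r m j) := by
    have := mul_le_mul_of_nonneg_right hsg h0
    linarith
  rcases le_or_gt m j with hjm | hjm
  · -- j ≥ m
    have h3' := d.reg3 hjm
    have hjm' : (m : ℝ) ≤ j := by exact_mod_cast hjm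
    set γ := θ / (1 + θ)
    set α := alp r m n j
    set D := YB r m j α - YC r m j α with hD
    set M := muy r m * HH r m j
    have r1 : 0 ≤ (1 + α) * γ * (hh r m (j + 1) + hh r m (-j)) := by positivity
    have r2 : 0 ≤ θ * hh r m (1 - j) := by positivity
    have r3 : 0 ≤ θ * hh r m j := by positivity
    rcases le_or_gt D 0 with hD0 | hD0
    · refine ⟨by linarith, by linarith, by linarith⟩
    · have e1 : (m + j) * D ≤ 2 * (n - m) * hh r m j := by
        have : (m + j) * D ≤ (m + j) * YB r m j α :=
          mul_le_mul_of_nonneg_left (by rw [hD]; linarith) (by linarith)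
        linarith
      have e2 : m * D ≤ (n - m) * hh r m j := by
        have : 0 ≤ (j - m) * D := mul_nonneg (by linarith) hD0.le
        linarith
      have e3 : D ≤ M := le_of_mul_le_mul_left (by linarith) hm0
      have e4 : D ≤ θ * hh r m j := le_of_mul_le_mul_left (by linarith) hm0
      refine ⟨by linarith, by linarith, by linarith⟩
  rcases le_or_gt (kap r m n) (n - m + 2 * j : ℝ) with hk | hk
  · -- region 2
    obtain ⟨g1, -⟩ := d.reg2 hj hjm hk
    have hal := d.alp_mid hjm.le hk
    have hjm' : (j : ℝ) < m := by exact_mod_cast hjm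
    have hP := d.Ppos
    set γ := θ / (1 + θ)
    set α := alp r m n j
    set D := YB r m j α - YC r m j α with hD
    set M := muy r m * HH r m j
    have r1 : 0 ≤ (1 + α) * γ * hh r m (-j) := by positivity
    have r1' : 0 ≤ (1 + α) * γ * hh r m (j + 1) := by positivity
    have r2 : 0 ≤ θ * hh r m (1 - j) := by positivity
    have r3 : 0 ≤ θ * hh r m j := by positivity
    have e1 : (m + j) * D ≤ 2 * (n - m) * hh r m j := by
      have : (m + j) * D ≤ (m + j) * YB r m j α :=
        mul_le_mul_of_nonneg_left (by rw [hD]; linarith) (by linarith)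
      linarith
    have hmj : (0 : ℝ) < m + j := by linarith
    -- main estimate
    have e2 : (m - j) * ((n - m) * hh r m j) ≤ m * ((m + j) * ((1 + α) * γ * hh r m (j + 1))) := by
      have f1 : (m + j) * ((1 + α) * γ * hh r m (j + 1)) =
          (1 + α) * γ * (hh r m (j + 1) * (m + j)) := by ring
      rw [f1, hs]
      have f2 : 1 + α = 2 * (n + j) / (m + n) := by
        rw [hal]; field_simp; ring
      rw [f2]
      have f3 : m * (2 * (n + j) / (m + n) * γ * (hh r m j * (n - j))) =
          (m * (2 * (n + j) * (n - j)) * (γ * hh r m j)) / (m + n) := by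
        field_simp
      rw [f3, le_div_iff₀ hP]
      have hn0 : (0 : ℝ) < n := by linarith
      apply le_of_mul_le_mul_left _ hn0
      have f4 : (m - j : ℝ) * (m + n) * n ≤ m * (2 * (n + j) * (n - j)) := by
        have k1 : 0 ≤ (m - j : ℝ) * (n - m) * n :=
          mul_nonneg (mul_nonneg (by linarith) (by linarith)) hn0.le
        have k2 : 0 ≤ (j : ℝ) * (n * n - m * j) := by
          apply mul_nonneg (by linarith)
          nlinarith
        nlinarith
      have f5 := mul_le_mul_of_nonneg_right hγn h0
      have f6 := mul_le_mul_of_nonneg_right f4 (mul_nonneg (show (0 : ℝ) ≤ n - m by linarith) h0)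
      have f7 : 0 ≤ (m : ℝ) * (2 * (n + j) * (n - j)) :=
        mul_nonneg hm0.le (mul_nonneg (by linarith) (by linarith))
      have f8 := mul_le_mul_of_nonneg_left f5 f7
      calc (n : ℝ) * ((m - j) * ((n - m) * hh r m j) * (m + n))
          = (m - j) * (m + n) * n * ((n - m) * hh r m j) := by ring
        _ ≤ m * (2 * (n + j) * (n - j)) * ((n - m) * hh r m j) := f6
        _ ≤ m * (2 * (n + j) * (n - j)) * (γ * n * hh r m j) := f8
        _ = _ := by ring
    have key : ∀ X : ℝ, (n - m) * hh r m j ≤ m * X → D ≤ X + (1 + α) * γ * hh r m (j + 1) := by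
      intro X hX
      apply le_of_mul_le_mul_left _ (mul_pos hm0 hmj)
      have k1 := mul_le_mul_of_nonneg_left e1 hm0.le
      have k2 := mul_le_mul_of_nonneg_left hX hmj.le
      linarith
    have k1 := key M hmu1
    have k2 := key (θ * hh r m j) b1
    have k3 : D ≤ M + θ * hh r m j := by
      rcases le_or_gt D 0 with hD0 | hD0
      · linarith
      · apply le_of_mul_le_mul_left _ hm0
        have : 0 ≤ j * D := mul_nonneg (by linarith) hD0.le
        linarith
    refine ⟨by linarith, by linarith, by linarith⟩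
  · -- region 1
    obtain ⟨g1, g2⟩ := d.reg1 hmn hj hjm hk.le hθ h
    set γ := θ / (1 + θ)
    set D := YB r m j (alp r m n j) - YC r m j (alp r m n j)
    set α := alp r m n j
    set M := muy r m * HH r m j
    have r2 : 0 ≤ θ * hh r m (1 - j) := by positivity
    refine ⟨by linarith, by linarith, by linarith⟩

/-- comparison of antipodal binomial coefficients -/
lemma YD.Z (d : YD r m n) (j : ℕ) :
    n * (m + (j + 1)) * hh r m (-(j : ℤ)) ≤ m * (n + (j + 1)) * hh r m (j + 1) := by
  have hm := d.mR
  have hn := d.nR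
  have hm0 : (0 : ℝ) < m := by linarith
  induction j with
  | zero =>
    have hs := d.step 0
    have hp := d.pos
    push_cast at hs ⊢
    simp only [zero_add, add_zero, sub_zero, neg_zero] at hs ⊢
    have e : m * ((n : ℝ) + 1) * hh r m 1 = (n + 1) * (hh r m 1 * m) := by ring
    rw [e, hs]
    have : 0 ≤ (n - m : ℝ) * (n * hh r m 0) :=
      mul_nonneg (by linarith) (mul_nonneg (by linarith) hp.le)
    linarith
  | succ j ih =>
    have hs1 := d.step (j + 1)
    have hs2 := d.step (-(j + 1))
    rw [show -((j : ℤ) + 1) + 1 = -(j : ℤ) by ring] at hs2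
    have h0 := hh_nonneg r m ((j : ℤ) + 1)
    have h1 := hh_nonneg r m ((j : ℤ) + 1 + 1)
    push_cast at hs1 hs2 ⊢
    rw [show (-((j : ℤ) + 1)) = -1 + -(j : ℤ) by ring] at hs2 ⊢
    have h2 := hh_nonneg r m (-1 + -(j : ℤ))
    have hj0 : (0 : ℝ) ≤ j := by positivity
    set u := hh r m (-(j : ℤ))
    set u' := hh r m (-1 + -(j : ℤ)) with hu'
    set v := hh r m ((j : ℤ) + 1)
    set v' := hh r m ((j : ℤ) + 1 + 1)
    by_cases hjm : (j : ℤ) + 1 < m
    · have hjm' : (j : ℝ) + 1 < m := by exact_mod_cast hjm
      have d1 : (0 : ℝ) < n + (j + 1) := by linarith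
      have d2 : (0 : ℝ) < m + (j + 1) := by linarith
      -- multiply by (n + j + 1) (m + j + 1)
      apply le_of_mul_le_mul_left _ (mul_pos d1 d2)
      have e1 : (n + (j + 1)) * (m + (j + 1)) * (n * (m + (j + 1 + 1)) * u') =
          (m + (j + 1 + 1)) * (m - (j + 1)) * (n * (m + (j + 1)) * u) := by
        have : (n + (j + 1)) * u' = u * (m - (j + 1)) := by linarith
        calc (n + (j + 1)) * (m + (j + 1)) * (n * (m + (j + 1 + 1)) * u')
            = (m + (j + 1)) * (n * (m + (j + 1 + 1))) * ((n + (j + 1)) * u') := by ring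
          _ = _ := by rw [this]; ring
      have e2 : (n + (j + 1)) * (m + (j + 1)) * (m * (n + (j + 1 + 1)) * v') =
          (n + (j + 1 + 1)) * (n - (j + 1)) * (m * (n + (j + 1)) * v) := by
        have : (m + (j + 1)) * v' = v * (n - (j + 1)) := by linarith
        calc (n + (j + 1)) * (m + (j + 1)) * (m * (n + (j + 1 + 1)) * v')
            = (n + (j + 1)) * (m * (n + (j + 1 + 1))) * ((m + (j + 1)) * v') := by ring
          _ = _ := by rw [this]; ring
      rw [e1, e2]
      have e3 : ((m : ℝ) + (j + 1 + 1)) * (m - (j + 1)) ≤ (n + (j + 1 + 1)) * (n - (j + 1)) := by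
        nlinarith
      have e4 : 0 ≤ ((m : ℝ) + (j + 1 + 1)) * (m - (j + 1)) :=
        mul_nonneg (by linarith) (by linarith)
      have e5 : 0 ≤ m * (n + (j + 1 : ℝ)) * v := by positivity
      calc (m + (j + 1 + 1)) * (m - (j + 1)) * (n * (m + (j + 1)) * u)
          ≤ (m + (j + 1 + 1)) * (m - (j + 1)) * (m * (n + (j + 1)) * v) :=
            mul_le_mul_of_nonneg_left ih e4
        _ ≤ _ := mul_le_mul_of_nonneg_right e3 e5
    · have hz : u' = 0 := by
        rw [hu']
        unfold hh
        rw [cz_neg (by omega)]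
        simp
      rw [hz]
      have : 0 ≤ m * (n + (j + 1 + 1 : ℝ)) * v' := by
        have : (0 : ℝ) ≤ n + (j + 1 + 1) := by linarith
        positivity
      linarith

/-- `(IV)` -/
lemma YD.IV (d : YD r m n) {B c c1 : ℝ} (hB : 0 ≤ B) (h1 : (n - m) * B ≤ n * c)
    (h2 : (n - m) * B ≤ m * c1) (j : ℤ) :
    0 ≤ (B + c1) * hh r m (-j) - (B - c) * hh r m (j + 1) + B * (hh r m j - hh r m (1 - j)) := by
  have hm := d.mR
  have hn := d.nR
  have hm0 : (0 : ℝ) < m := by linarith
  have hn0 : (0 : ℝ) < n := by linarith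
  have hc : 0 ≤ c := by
    by_contra hcon
    push Not at hcon
    have := mul_neg_of_pos_of_neg hn0 hcon
    have := mul_nonneg (show (0 : ℝ) ≤ n - m by linarith) hB
    linarith
  have hc1 : 0 ≤ c1 := by
    by_contra hcon
    push Not at hcon
    have := mul_neg_of_pos_of_neg hm0 hcon
    have := mul_nonneg (show (0 : ℝ) ≤ n - m by linarith) hB
    linarith
  have hs1 := d.step j
  have hs2 := d.step (-j)
  rw [show -j + 1 = 1 - j by ring] at hs2
  push_cast at hs2
  have p1 := hh_nonneg r m j
  have p2 := hh_nonneg r m (1 - j)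
  have p3 := hh_nonneg r m (j + 1)
  have p4 := hh_nonneg r m (-j)
  rcases lt_trichotomy j 0 with hj | hj | hj
  · -- j < 0
    obtain ⟨i, rfl⟩ : ∃ i : ℕ, j = -(i + 1) := ⟨(-j - 1).toNat, by omega⟩
    have hZ := d.Z i
    rw [show -(-((i : ℤ) + 1)) = i + 1 by ring, show 1 - (-((i : ℤ) + 1)) = i + 1 + 1 by ring] at *
    rw [show -((i : ℤ) + 1) + 1 = -i by ring] at *
    push_cast at *
    set v := hh r m ((i : ℤ) + 1)
    set v' := hh r m ((i : ℤ) + 1 + 1)
    set u := hh r m (-(i : ℤ))
    set u' := hh r m (-((i : ℤ) + 1))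
    have hi0 : (0 : ℝ) ≤ i := by positivity
    have d1 : (0 : ℝ) < n + (i + 1) := by linarith
    have d2 : (0 : ℝ) < m + (i + 1) := by linarith
    -- E = (B + c1) v - (B - c) u + B (u' - v')
    apply le_of_mul_le_mul_left _ (mul_pos (mul_pos hm0 hn0) (mul_pos d1 d2))
    have e1 : m * n * ((n + (i + 1)) * (m + (i + 1))) *
        ((B + c1) * v - (B - c) * u + B * (u' - v')) =
        (n * (n + (i + 1)) * v) * (m * ((m + (i + 1)) * (B + c1) - (n - (i + 1)) * B)) -
        (m * (m + (i + 1)) * u) * (n * ((n + (i + 1)) * (B - c) - (m - (i + 1)) * B)) := by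
      have f1 : (n + (i + 1)) * u' = u * (m - (i + 1)) := by linarith
      have f2 : (m + (i + 1)) * v' = v * (n - (i + 1)) := by linarith
      linear_combination (m * n * (m + (i + 1)) * B) * f1 - (m * n * (n + (i + 1)) * B) * f2
    rw [mul_zero, e1]
    have g1 : (i + 1) * (m + n) * B ≤ m * ((m + (i + 1)) * (B + c1) - (n - (i + 1)) * B) := by
      have := mul_le_mul_of_nonneg_left h2 d2.le
      linarith
    have g2 : n * ((n + (i + 1)) * (B - c) - (m - (i + 1)) * B) ≤ (i + 1) * (m + n) * B := by
      have := mul_le_mul_of_nonneg_left h1 d1.le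
      linarith
    have g3 : m * (m + (i + 1)) * u ≤ n * (n + (i + 1)) * v := by
      apply le_of_mul_le_mul_left _ hn0
      have k1 := mul_le_mul_of_nonneg_left hZ hm0.le
      have k2 : 0 ≤ (n * n - m * m : ℝ) * ((n + (i + 1)) * v) := by
        apply mul_nonneg _ (by positivity)
        nlinarith
      linarith
    have g4 : 0 ≤ n * (n + (i + 1)) * v := by positivity
    have g5 : 0 ≤ m * (m + (i + 1)) * u := by positivity
    have g6 : 0 ≤ (i + 1) * (m + n) * B := by
      have := d.Ppos
      positivity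
    have k1 := mul_le_mul_of_nonneg_left g1 g4
    have k2 := mul_le_mul_of_nonneg_left g2 g5
    have k3 := mul_le_mul_of_nonneg_right g3 g6
    linarith
  · -- j = 0
    subst hj
    push_cast at *
    simp only [zero_add, sub_zero, add_zero, neg_zero] at *
    have e1 : (B + c1) * hh r m 0 - (B - c) * hh r m 1 + B * (hh r m 0 - hh r m 1) =
      (B + c1) * hh r m 0 + B * hh r m 0 - (2 * B - c) * hh r m 1 := by ring
    apply le_of_mul_le_mul_left _ hm0
    have e2 : m * ((B + c1) * hh r m 0 - (B - c) * hh r m 1 + B * (hh r m 0 - hh r m 1)) =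
      (m * c1 + n * c - 2 * (n - m) * B) * hh r m 0 := by
      have f : hh r m 1 * m = hh r m 0 * n := hs1
      linear_combination (c - 2 * B) * f
    rw [e2, mul_zero]
    exact mul_nonneg (by linarith) p1
  · -- j > 0
    obtain ⟨i, rfl⟩ : ∃ i : ℕ, j = i + 1 := ⟨(j - 1).toNat, by omega⟩
    have hZ := d.Z i
    rw [show 1 - ((i : ℤ) + 1) = -i by ring] at *
    push_cast at *
    have hi0 : (0 : ℝ) ≤ i := by positivity
    have d1 : (0 : ℝ) < n + (i + 1) := by linarith
    have d2 : (0 : ℝ) < m + (i + 1) := by linarith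
    by_cases hjm : (i : ℤ) + 1 ≤ m
    · have hjm' : (i : ℝ) + 1 ≤ m := by exact_mod_cast hjm
      set v := hh r m ((i : ℤ) + 1)
      set v' := hh r m ((i : ℤ) + 1 + 1)
      set u := hh r m (-(i : ℤ))
      set u' := hh r m (-((i : ℤ) + 1))
      apply le_of_mul_le_mul_left _ (mul_pos (mul_pos hm0 hn0) (mul_pos d1 d2))
      -- E = (B + c1) u' - (B - c) v' + B (v - u)
      have e1 : m * n * ((n + (i + 1)) * (m + (i + 1))) *
          ((B + c1) * u' - (B - c) * v' + B * (v - u)) =
          (m * (n + (i + 1)) * v) * (n * ((m + (i + 1)) * B - (n - (i + 1)) * (B - c))) -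
          (n * (m + (i + 1)) * u) * (m * ((n + (i + 1)) * B - (m - (i + 1)) * (B + c1))) := by
        have f1 : (n + (i + 1)) * u' = u * (m - (i + 1)) := by linarith
        have f2 : (m + (i + 1)) * v' = v * (n - (i + 1)) := by linarith
        linear_combination (m * n * (m + (i + 1)) * (B + c1)) * f1 -
          (m * n * (n + (i + 1)) * (B - c)) * f2
      rw [mul_zero, e1]
      have g1 : (i + 1) * (m + n) * B ≤ n * ((m + (i + 1)) * B - (n - (i + 1)) * (B - c)) := by
        have := mul_le_mul_of_nonneg_left h1 (show (0 : ℝ) ≤ n - (i + 1) by linarith)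
        linarith
      have g2 : m * ((n + (i + 1)) * B - (m - (i + 1)) * (B + c1)) ≤ (i + 1) * (m + n) * B := by
        have := mul_le_mul_of_nonneg_left h2 (show (0 : ℝ) ≤ m - (i + 1) by linarith)
        linarith
      have g4 : 0 ≤ m * (n + (i + 1)) * v := by positivity
      have g5 : 0 ≤ n * (m + (i + 1)) * u := by positivity
      have g6 : 0 ≤ (i + 1) * (m + n) * B := by
        have := d.Ppos
        positivity
      have k1 := mul_le_mul_of_nonneg_left g1 g4
      have k2 := mul_le_mul_of_nonneg_left g2 g5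
      have k3 := mul_le_mul_of_nonneg_right hZ g6
      linarith
    · have z1 : hh r m (-((i : ℤ) + 1)) = 0 := by
        unfold hh; rw [cz_neg (by omega)]; simp
      have z2 : hh r m (-(i : ℤ)) = 0 := by
        unfold hh; rw [cz_neg (by omega)]; simp
      rw [z1, z2]
      have e1 : 0 ≤ (m + (i + 1)) * (B * hh r m ((i : ℤ) + 1) - (B - c) * hh r m ((i : ℤ) + 1 + 1)) := by
        have f2 : (m + (i + 1)) * hh r m ((i : ℤ) + 1 + 1) = hh r m ((i : ℤ) + 1) * (n - (i + 1)) := by
          linarith
        have e2 : (m + (i + 1)) * (B * hh r m ((i : ℤ) + 1) - (B - c) * hh r m ((i : ℤ) + 1 + 1)) =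
            hh r m ((i : ℤ) + 1) * ((m + (i + 1)) * B - (n - (i + 1)) * (B - c)) := by
          linear_combination (-(B - c)) * f2
        rw [e2]
        by_cases hin : (i : ℤ) + 1 ≤ n
        · have hin' : (i : ℝ) + 1 ≤ n := by exact_mod_cast hin
          apply mul_nonneg p1
          apply le_of_mul_le_mul_left _ hn0
          have g1 : (i + 1) * (m + n) * B ≤
              n * ((m + (i + 1)) * B - (n - (i + 1)) * (B - c)) := by
            have := mul_le_mul_of_nonneg_left h1 (show (0 : ℝ) ≤ n - (i + 1) by linarith)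
            linarith
          have g6 : 0 ≤ (i + 1) * (m + n) * B := by
            have := d.Ppos
            positivity
          linarith
        · have : hh r m ((i : ℤ) + 1) = 0 := by
            unfold hh; rw [cz_big (by rw [d.hr]; omega)]; simp
          rw [this]; simp
      by_contra hcon
      push Not at hcon
      have := mul_neg_of_pos_of_neg d2 hcon
      linarith

end

end Pool.Agent.MP_867aae_co.P75
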