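import Mathlib
import Pool.Agent.MP_867aae_co.P75.PI
import Pool.Agent.MP_867aae_co.P75.YN
import Pool.Agent.MP_867aae_co.H75.SConv

/-!
The pointwise inequalities for the types of squares.
-/

namespace Pool.Agent.MP_867aae_co.P75

open Pool.Agent.MP_867aae_co.H75

section
variable {p r : ℕ} {c0 m n : ℤ}

/-- the hypotheses: both centres are nonnegative and the criterion holds -/
structure XD (p r : ℕ) (c0 m n : ℤ) : Prop where
  d : YD r m n
  c : 0 ≤ c0
  A : 2 * c0 ≤ p - 1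
  crit : Gf p c0 * (hh r m 1 - hh r m 0) ≤ (kf p (c0 + 1) - kf p c0) * HH r m 0

lemma Gf_pos (p : ℕ) {x : ℤ} (h : 0 ≤ x) : 0 < Gf p x := by
  have h1 := bz_mono p h
  have h2 : bz p 0 = 1 := by simp [bz, Ball_zero]
  have : 0 < bz p x := by omega
  unfold Gf
  exact_mod_cast this

lemma kf_closer {p : ℕ} {a b : ℤ} (h : a ≤ b) (hab : a + b ≤ p) : kf p a ≤ kf p b := by
  unfold kf
  exact_mod_cast cz_closer h hab

lemma kG (p : ℕ) {K K' : ℤ} (h : K ≤ K') : kf p K' * Gf p K ≤ kf p K * Gf p K' :=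
  czbz_mono p h

lemma XD.mu_le (x : XD p r c0 m n) : Gf p c0 * muy r m ≤ kf p (c0 + 1) - kf p c0 := by
  unfold muy
  rw [← mul_div_assoc, div_le_iff₀ x.d.posH]
  exact x.crit

/-- `(c₁ - c₀)(c0 + 1) = c₀ (p - 1 - 2 c0)` -/
lemma kf_diff (p : ℕ) (c0 : ℤ) :
    (kf p (c0 + 1) - kf p c0) * (c0 + 1) = kf p c0 * (p - 1 - 2 * c0) := by
  have := kf_step p c0
  linarith

lemma XD.t_nonneg (x : XD p r c0 m n) : (0 : ℝ) ≤ p - 1 - 2 * c0 := by
  have : (2 * c0 : ℝ) ≤ p - 1 := by exact_mod_cast x.A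
  linarith

lemma XD.cR (x : XD p r c0 m n) : (0 : ℝ) ≤ c0 := by exact_mod_cast x.c

lemma XD.kpos (x : XD p r c0 m n) : 0 < kf p c0 := by
  have h := x.c
  have h2 := x.A
  unfold kf
  obtain ⟨a, rfl⟩ := Int.eq_ofNat_of_zero_le h
  rw [cz_nat]
  have : 0 < p.choose a := Nat.choose_pos (by omega)
  exact_mod_cast this

lemma XD.EE_ge (x : XD p r c0 m n) {u : ℤ} (hu : c0 ≤ u) :
    muy r m * Gf p (2 * c0 - u) ≤ EE p u (2 * c0 - u) := by
  have hA := x.A
  have h0 := EE_nonneg p (x := u) (y := 2 * c0 - u) (by omega) (by omega)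
  have hc := x.cR
  by_cases hy : 0 ≤ 2 * c0 - u
  · have h1 := EE_eq p (x := u) (y := 2 * c0 - u) (by omega) (by omega)
    have h2 := kG p (show 2 * c0 - u ≤ c0 by omega)
    have h3 := kf_diff p c0
    have h4 := x.mu_le
    have h5 := Gf_nonneg p (2 * c0 - u)
    have h6 := Gf_pos p x.c
    have h7 := x.t_nonneg
    have hyR : (0 : ℝ) ≤ 2 * c0 - u := by exact_mod_cast hy
    have huR : (c0 : ℝ) ≤ u := by exact_mod_cast hu
    push_cast at h1
    set E := EE p u (2 * c0 - u)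
    set b := Gf p (2 * c0 - u)
    set k := kf p (2 * c0 - u)
    set μ := muy r m
    have h8 := mul_le_mul_of_nonneg_right h4 h5
    have h8' := mul_le_mul_of_nonneg_left h8 (show (0 : ℝ) ≤ c0 + 1 by linarith)
    have h9 := mul_le_mul_of_nonneg_right h2 h7
    have e1 : (c0 + 1) * ((kf p (c0 + 1) - kf p c0) * b) = kf p c0 * b * (p - 1 - 2 * c0) := by
      linear_combination b * h3
    have h10 : Gf p c0 * ((c0 + 1) * (μ * b)) ≤ Gf p c0 * ((2 * c0 - u + 1) * E) := by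
      have e2 : (2 * c0 - u + 1) * E = (p - 1 - 2 * c0) * k := by
        rw [h1]; ring
      rw [e2]
      linarith
    have h11 := le_of_mul_le_mul_left h10 h6
    have h12 : (2 * c0 - u + 1) * E ≤ (c0 + 1) * E :=
      mul_le_mul_of_nonneg_right (by linarith) h0
    exact le_of_mul_le_mul_left (h11.trans h12) (by linarith)
  · rw [Gf_neg p (show 2 * c0 - u < 0 by omega), mul_zero]
    exact h0

lemma XD.EN_ge (x : XD p r c0 m n) {u : ℤ} (hu : c0 ≤ u) :
    2 * (muy r m * Gf p (2 * c0 - 1 - u)) ≤ EN p u (2 * c0 - 1 - u) := by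
  have hA := x.A
  have h0 := EN_nonneg p (x := u) (y := 2 * c0 - 1 - u) (by omega) (by omega)
  have hc := x.cR
  by_cases hy : 0 ≤ 2 * c0 - 1 - u
  · have h1 := EN_eq p (x := u) (y := 2 * c0 - 1 - u) (by omega) (by omega)
    have h2 := kG p (show 2 * c0 - 1 - u ≤ c0 by omega)
    have h3 := kf_diff p c0
    have h4 := x.mu_le
    have h5 := Gf_nonneg p (2 * c0 - 1 - u)
    have h6 := Gf_pos p x.c
    have h7 := x.t_nonneg
    have h13 : kf p (2 * c0 - 1 - u) ≤ kf p (2 * c0 - 1 - u + 1) :=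
      kf_closer (by omega) (by omega)
    have hyR : (0 : ℝ) ≤ 2 * c0 - 1 - u := by exact_mod_cast hy
    have huR : (c0 : ℝ) ≤ u := by exact_mod_cast hu
    push_cast at h1
    set E := EN p u (2 * c0 - 1 - u)
    set b := Gf p (2 * c0 - 1 - u)
    set k := kf p (2 * c0 - 1 - u)
    set k1 := kf p (2 * c0 - 1 - u + 1)
    set μ := muy r m
    have h8 := mul_le_mul_of_nonneg_right h4 h5
    have h8' := mul_le_mul_of_nonneg_left h8 (show (0 : ℝ) ≤ c0 + 1 by linarith)
    have h9 := mul_le_mul_of_nonneg_right h2 h7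
    have e1 : (c0 + 1) * ((kf p (c0 + 1) - kf p c0) * b) = kf p c0 * b * (p - 1 - 2 * c0) := by
      linear_combination b * h3
    have h14 := mul_le_mul_of_nonneg_left h13 h7
    have h10 : Gf p c0 * ((c0 + 1) * (2 * (μ * b))) ≤ Gf p c0 * ((2 * c0 - 1 - u + 2) * E) := by
      have e2 : (2 * c0 - 1 - u + 2) * E = (p - 1 - 2 * c0) * (k + k1) := by
        rw [h1]; ring
      rw [e2]
      have h15 := mul_le_mul_of_nonneg_left h14 h6.le
      linarith
    have h11 := le_of_mul_le_mul_left h10 h6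
    have h12 : (2 * c0 - 1 - u + 2) * E ≤ (c0 + 1) * E :=
      mul_le_mul_of_nonneg_right (by linarith) h0
    exact le_of_mul_le_mul_left (h11.trans h12) (by linarith)
  · rw [Gf_neg p (show 2 * c0 - 1 - u < 0 by omega), mul_zero, mul_zero]
    exact h0

/-- facts on `θ` -/
lemma XD.theta (x : XD p r c0 m n) (h1 : 1 ≤ c0) :
    0 < kf p c0 / Gf p (c0 - 1) ∧
    (1 + kf p c0 / Gf p (c0 - 1)) * muy r m ≤ (kf p c0 / Gf p (c0 - 1)) ^ 2 ∧
    (kf p c0 / Gf p (c0 - 1)) / (1 + kf p c0 / Gf p (c0 - 1)) = kf p c0 / Gf p c0 := by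
  have hB : 0 < Gf p (c0 - 1) := Gf_pos p (by omega)
  have hB0 := Gf_pos p x.c
  have hk := x.kpos
  have hs : Gf p (c0 - 1) = Gf p c0 - kf p c0 := Gf_pred p c0
  have hth : 0 < kf p c0 / Gf p (c0 - 1) := div_pos hk hB
  refine ⟨hth, ?_, ?_⟩
  · have hm := x.mu_le
    have hd := kf_diff p c0
    have hov := Ph_nonneg p c0
    unfold Ph at hov
    change 0 ≤ (p - c0) * kf p c0 - (p - 2 * c0) * Gf p c0 at hov
    have ht := x.t_nonneg
    have hc := x.cR
    have h1R : (1 : ℝ) ≤ c0 := by exact_mod_cast h1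
    -- (c₁ - c₀) B₋₁ ≤ c₀²
    have e1 : (kf p (c0 + 1) - kf p c0) * Gf p (c0 - 1) ≤ kf p c0 ^ 2 := by
      have f1 : (p - 2 * c0) * Gf p (c0 - 1) ≤ c0 * kf p c0 := by rw [hs]; linarith
      have f2 : (p - 1 - 2 * c0) * Gf p (c0 - 1) ≤ (c0 + 1) * kf p c0 := by nlinarith
      apply le_of_mul_le_mul_left _ (show (0 : ℝ) < c0 + 1 by linarith)
      have f3 := mul_le_mul_of_nonneg_left f2 hk.le
      calc (c0 + 1) * ((kf p (c0 + 1) - kf p c0) * Gf p (c0 - 1))
          = ((kf p (c0 + 1) - kf p c0) * (c0 + 1)) * Gf p (c0 - 1) := by ring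
        _ = kf p c0 * ((p - 1 - 2 * c0) * Gf p (c0 - 1)) := by rw [hd]; ring
        _ ≤ kf p c0 * ((c0 + 1) * kf p c0) := f3
        _ = _ := by ring
    have e2 : 1 + kf p c0 / Gf p (c0 - 1) = Gf p c0 / Gf p (c0 - 1) := by
      rw [eq_div_iff hB.ne', add_mul, one_mul, div_mul_cancel₀ _ hB.ne', hs]
      ring
    rw [e2, div_pow, div_mul_eq_mul_div, div_le_div_iff₀ hB (by positivity)]
    have e3 := mul_le_mul_of_nonneg_right hm (show 0 ≤ Gf p (c0 - 1) * Gf p (c0 - 1) by positivity)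
    have e4 := mul_le_mul_of_nonneg_right e1 hB.le
    nlinarith
  · have e2 : 1 + kf p c0 / Gf p (c0 - 1) = Gf p c0 / Gf p (c0 - 1) := by
      rw [eq_div_iff hB.ne', add_mul, one_mul, div_mul_cancel₀ _ hB.ne', hs]
      ring
    rw [e2]
    field_simp

/-- shape `S` -/
lemma XD.posS (x : XD p r c0 m n) {u : ℤ} (hu : c0 ≤ u) (j : ℤ) :
    0 ≤ 2 * EE p u (2 * c0 - u) * HH r m j + Gf p u * YC r m j (alp r m n j) -
      Gf p (2 * c0 - u) * YB r m j (alp r m n j) := by
  have hE := x.EE_ge hu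
  have hF := x.d.F j
  have hC := x.d.C0 j
  have hH := HH_nonneg r m j
  have hb := Gf_nonneg p (2 * c0 - u)
  have hG := Gf_mono p (show 2 * c0 - u ≤ u by omega)
  have k1 := mul_le_mul_of_nonneg_right hE hH
  have k2 := mul_le_mul_of_nonneg_left hF hb
  have k3 := mul_le_mul_of_nonneg_right hG hC
  linarith

/-- shape `P1` -/
lemma XD.posP1 (x : XD p r c0 m n) {u : ℤ} (hu : c0 ≤ u) (j : ℤ) :
    0 ≤ EE p u (2 * c0 - u) * HH r m j + Gf p u * YC r m j (alp r m n j) -
      Gf p (2 * c0 - u) * YB r m j (alp r m n j) + (1 + alp r m n j) *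
      (kf p (u + 1) * hh r m (-j) + kf p (2 * c0 - u) * hh r m (j + 1)) ∨ u = c0 := by
  by_cases hu1 : u = c0
  · exact Or.inr hu1
  left
  have hE := x.EE_ge hu
  have hC := x.d.C0 j
  have hH := HH_nonneg r m j
  have hb := Gf_nonneg p (2 * c0 - u)
  have hG := Gf_mono p (show 2 * c0 - u ≤ u by omega)
  have ha := x.d.alp_pos j
  have h1 := hh_nonneg r m (-j)
  have h2 := hh_nonneg r m (j + 1)
  have hA := x.A
  have hc1 : kf p (2 * c0 - u) ≤ kf p (u + 1) := kf_closer (by omega) (by omega)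
  have hk1 := kf_nonneg p (2 * c0 - u)
  rcases hb.eq_or_lt with hb0 | hb0
  · rw [← hb0]
    have hE0 := EE_nonneg p (x := u) (y := 2 * c0 - u) (by omega) (by omega)
    have hGu := Gf_nonneg p u
    have hk2 := kf_nonneg p (u + 1)
    have : 0 ≤ EE p u (2 * c0 - u) * HH r m j + Gf p u * YC r m j (alp r m n j) +
        (1 + alp r m n j) * (kf p (u + 1) * hh r m (-j) + kf p (2 * c0 - u) * hh r m (j + 1)) := by
      positivity
    linarith
  · have hpos : 0 ≤ 2 * c0 - u := by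
      by_contra hcon
      rw [Gf_neg p (by omega)] at hb0
      exact lt_irrefl _ hb0
    obtain ⟨t1, t2, t3⟩ := x.theta (by omega)
    obtain ⟨hP, -, -⟩ := x.d.main t1 t2 j
    rw [t3] at hP
    set b := Gf p (2 * c0 - u)
    set γ := kf p c0 / Gf p c0 with hγ
    have hg : γ * b ≤ kf p (2 * c0 - u) := by
      rw [hγ, div_mul_eq_mul_div, div_le_iff₀ (Gf_pos p x.c)]
      exact kG p (show 2 * c0 - u ≤ c0 by omega)
    have k1 := mul_le_mul_of_nonneg_right hE hH
    have k2 := mul_le_mul_of_nonneg_left hP hb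
    have k3 := mul_le_mul_of_nonneg_right hG hC
    have k4 := mul_le_mul_of_nonneg_right hg h2
    have k5 := mul_le_mul_of_nonneg_right (hg.trans hc1) h1
    have k6 := mul_le_mul_of_nonneg_left (add_le_add k5 k4)
      (show 0 ≤ 1 + alp r m n j by linarith)
    linarith

/-- shape `N`, with `v = u + 1` -/
lemma XD.posN (x : XD p r c0 m n) {u : ℤ} (hu : c0 ≤ u) (j : ℤ) :
    0 ≤ EN p u (2 * c0 - 1 - u) * HH r m j + Gf p (u + 1) * YC r m j (alp r m n j) -
      Gf p (2 * c0 - 1 - u) * YB r m j (alp r m n j) +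
      (kf p (u + 1) * hh r m (1 - j) + kf p (2 * c0 - u) * hh r m j) := by
  have hE := x.EN_ge hu
  have hF := x.d.F j
  have hC := x.d.C0 j
  have hH := HH_nonneg r m j
  have hb := Gf_nonneg p (2 * c0 - 1 - u)
  have hG := Gf_mono p (show 2 * c0 - 1 - u ≤ u + 1 by omega)
  have k1 := mul_le_mul_of_nonneg_right hE hH
  have k2 := mul_le_mul_of_nonneg_left hF hb
  have k3 := mul_le_mul_of_nonneg_right hG hC
  have k4 := mul_nonneg (kf_nonneg p (u + 1)) (hh_nonneg r m (1 - j))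
  have k5 := mul_nonneg (kf_nonneg p (2 * c0 - u)) (hh_nonneg r m j)
  linarith

/-- shape `P2` -/
lemma XD.posP2 (x : XD p r c0 m n) {u : ℤ} (hu : c0 ≤ u) (j : ℤ) :
    0 ≤ EE p (u + 1) (2 * c0 - 1 - u) * HH r m j + Gf p (u + 1) * YC r m j (alp r m n j) -
      Gf p (2 * c0 - 1 - u) * YB r m j (alp r m n j) +
      (kf p (u + 1) * hh r m (1 - j) + kf p (2 * c0 - u) * hh r m j) := by
  have hE := x.EE_ge (show c0 ≤ u + 1 by omega)
  rw [show 2 * c0 - (u + 1) = 2 * c0 - 1 - u by ring] at hE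
  have hC := x.d.C0 j
  have hH := HH_nonneg r m j
  have hb := Gf_nonneg p (2 * c0 - 1 - u)
  have hG := Gf_mono p (show 2 * c0 - 1 - u ≤ u + 1 by omega)
  have h1 := hh_nonneg r m (1 - j)
  have h2 := hh_nonneg r m j
  have hA := x.A
  have hc1 : kf p (2 * c0 - u) ≤ kf p (u + 1) := kf_closer (by omega) (by omega)
  have hk1 := kf_nonneg p (2 * c0 - u)
  rcases hb.eq_or_lt with hb0 | hb0
  · rw [← hb0]
    have hE0 := EE_nonneg p (x := u + 1) (y := 2 * c0 - 1 - u) (by omega) (by omega)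
    have hGu := Gf_nonneg p (u + 1)
    have hk2 := kf_nonneg p (u + 1)
    have : 0 ≤ EE p (u + 1) (2 * c0 - 1 - u) * HH r m j +
        Gf p (u + 1) * YC r m j (alp r m n j) +
        (kf p (u + 1) * hh r m (1 - j) + kf p (2 * c0 - u) * hh r m j) := by
      positivity
    linarith
  · have hpos : 0 ≤ 2 * c0 - 1 - u := by
      by_contra hcon
      rw [Gf_neg p (by omega)] at hb0
      exact lt_irrefl _ hb0
    obtain ⟨t1, t2, t3⟩ := x.theta (by omega)
    obtain ⟨-, hP, -⟩ := x.d.main t1 t2 j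
    set b := Gf p (2 * c0 - 1 - u)
    set θ := kf p c0 / Gf p (c0 - 1) with hθ
    have hg : θ * b ≤ kf p (2 * c0 - u) := by
      rw [hθ, div_mul_eq_mul_div, div_le_iff₀ (Gf_pos p (by omega))]
      have h3 := kG p (show 2 * c0 - u ≤ c0 by omega)
      have h4 := Gf_pred p c0
      have h5 := Gf_pred p (2 * c0 - u)
      rw [show 2 * c0 - u - 1 = 2 * c0 - 1 - u by ring] at h5
      rw [h4, show b = Gf p (2 * c0 - u) - kf p (2 * c0 - u) from h5]
      linarith
    have k1 := mul_le_mul_of_nonneg_right hE hH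
    have k2 := mul_le_mul_of_nonneg_left hP hb
    have k3 := mul_le_mul_of_nonneg_right hG hC
    have k4 := mul_le_mul_of_nonneg_right hg h2
    have k5 := mul_le_mul_of_nonneg_right (hg.trans hc1) h1
    linarith

/-- shape `M` -/
lemma XD.posM (x : XD p r c0 m n) {u : ℤ} (hu : c0 ≤ u) (j : ℤ) :
    0 ≤ Gf p (u + 1) * YC r m j (alp r m n j) -
      Gf p (2 * c0 - 1 - u) * YB r m j (alp r m n j) +
      (1 + alp r m n j) * (kf p (u + 2) * hh r m (-j) + kf p (2 * c0 - 1 - u) * hh r m (j + 1)) +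
      (kf p (u + 1) * hh r m (1 - j) + kf p (2 * c0 - u) * hh r m j) := by
  have hC := x.d.C0 j
  have hb := Gf_nonneg p (2 * c0 - 1 - u)
  have hG := Gf_mono p (show 2 * c0 - 1 - u ≤ u + 1 by omega)
  have h1 := hh_nonneg r m (1 - j)
  have h2 := hh_nonneg r m j
  have h3 := hh_nonneg r m (-j)
  have h4 := hh_nonneg r m (j + 1)
  have ha := x.d.alp_pos j
  have hA := x.A
  have hc1 : kf p (2 * c0 - u) ≤ kf p (u + 1) := kf_closer (by omega) (by omega)
  have hc2 : kf p (2 * c0 - 1 - u) ≤ kf p (u + 2) := kf_closer (by omega) (by omega)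
  have hk1 := kf_nonneg p (2 * c0 - u)
  have hk3 := kf_nonneg p (2 * c0 - 1 - u)
  rcases hb.eq_or_lt with hb0 | hb0
  · rw [← hb0]
    have hGu := Gf_nonneg p (u + 1)
    have hk2 := kf_nonneg p (u + 1)
    have hk4 := kf_nonneg p (u + 2)
    have : 0 ≤ Gf p (u + 1) * YC r m j (alp r m n j) + (1 + alp r m n j) *
        (kf p (u + 2) * hh r m (-j) + kf p (2 * c0 - 1 - u) * hh r m (j + 1)) +
        (kf p (u + 1) * hh r m (1 - j) + kf p (2 * c0 - u) * hh r m j) := by
      positivity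
    linarith
  · have hpos : 0 ≤ 2 * c0 - 1 - u := by
      by_contra hcon
      rw [Gf_neg p (by omega)] at hb0
      exact lt_irrefl _ hb0
    obtain ⟨t1, t2, t3⟩ := x.theta (by omega)
    obtain ⟨-, -, hP⟩ := x.d.main t1 t2 j
    rw [t3] at hP
    set b := Gf p (2 * c0 - 1 - u)
    set θ := kf p c0 / Gf p (c0 - 1) with hθ
    set γ := kf p c0 / Gf p c0 with hγ
    have hg : θ * b ≤ kf p (2 * c0 - u) := by
      rw [hθ, div_mul_eq_mul_div, div_le_iff₀ (Gf_pos p (by omega))]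
      have h3 := kG p (show 2 * c0 - u ≤ c0 by omega)
      have h4 := Gf_pred p c0
      have h5 := Gf_pred p (2 * c0 - u)
      rw [show 2 * c0 - u - 1 = 2 * c0 - 1 - u by ring] at h5
      rw [h4, show b = Gf p (2 * c0 - u) - kf p (2 * c0 - u) from h5]
      linarith
    have hg2 : γ * b ≤ kf p (2 * c0 - 1 - u) := by
      rw [hγ, div_mul_eq_mul_div, div_le_iff₀ (Gf_pos p x.c)]
      exact kG p (show 2 * c0 - 1 - u ≤ c0 by omega)
    have k2 := mul_le_mul_of_nonneg_left hP hb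
    have k3 := mul_le_mul_of_nonneg_right hG hC
    have k4 := mul_le_mul_of_nonneg_right hg h2
    have k5 := mul_le_mul_of_nonneg_right (hg.trans hc1) h1
    have k6 := mul_le_mul_of_nonneg_right hg2 h4
    have k7 := mul_le_mul_of_nonneg_right (hg2.trans hc2) h3
    have k8 := mul_le_mul_of_nonneg_left (add_le_add k7 k6)
      (show 0 ≤ 1 + alp r m n j by linarith)
    linarith

/-- `(IV)` -/
lemma XD.IV (x : XD p r c0 m n) (j : ℤ) :
    0 ≤ Gf p (c0 + 1) * hh r m (-j) - Gf p (c0 - 1) * hh r m (j + 1) +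
      Gf p c0 * (hh r m j - hh r m (1 - j)) := by
  have hB := Gf_pos p x.c
  have hm := x.d.mR
  have hn := x.d.nR
  have hk := x.kpos
  have h0 := x.d.mu_eq
  have hov := x.d.ov 0
  have hH := x.d.posH
  have hmu := x.mu_le
  have hd := kf_diff p c0
  have ht := x.t_nonneg
  push_cast at hov
  simp only [mul_zero, sub_zero] at hov
  have hq : (0 : ℝ) ≤ n - m := by linarith
  -- (n - m) B ≤ n c₀
  have h1 : (n - m) * Gf p c0 ≤ n * kf p c0 := by
    by_cases hc : c0 = 0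
    · subst hc
      have e1 : Gf p 0 = 1 := by simp [Gf, bz, Ball_zero]
      have e2 : kf p 0 = 1 := by simp [kf, cz]
      rw [e1, e2]; linarith
    · have h1c : 1 ≤ c0 := by have := x.c; omega
      obtain ⟨t1, t2, -⟩ := x.theta h1c
      have h3 := x.d.sig t1.le t2
      have hB1 : 0 < Gf p (c0 - 1) := Gf_pos p (by omega)
      rw [div_mul_eq_mul_div, le_div_iff₀ hB1, Gf_pred] at h3
      linarith
  have hn0 : (0 : ℝ) < n := by linarith
  -- (n - m) B ≤ m c₁
  have h2 : (n - m) * Gf p c0 ≤ m * kf p (c0 + 1) := by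
    apply le_of_mul_le_mul_left _ (mul_pos hn0 hH)
    have e1 : (n - m) * (Gf p c0 * hh r m 0) ≤ m * ((kf p (c0 + 1) - kf p c0) * HH r m 0) := by
      have := mul_le_mul_of_nonneg_right hmu hH.le
      have := mul_le_mul_of_nonneg_left this (show (0 : ℝ) ≤ m by linarith)
      calc (n - m) * (Gf p c0 * hh r m 0) = Gf p c0 * ((n - m) * hh r m 0) := by ring
        _ = Gf p c0 * (m * (muy r m * HH r m 0)) := by rw [h0]
        _ = m * (Gf p c0 * muy r m * HH r m 0) := by ring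
        _ ≤ _ := this
    have e2 := mul_le_mul_of_nonneg_left e1 hn0.le
    have e3 : (n - m) * HH r m 0 ≤ n * hh r m 0 := by linarith
    have e4 := mul_le_mul_of_nonneg_left e3 (mul_nonneg hq hB.le)
    have e5 := mul_le_mul_of_nonneg_left h1 (mul_nonneg (show (0 : ℝ) ≤ m by linarith) hH.le)
    nlinarith
  have h3 := x.d.IV hB.le h1 h2 j
  have e1 : Gf p (c0 + 1) = Gf p c0 + kf p (c0 + 1) := Gf_succ p c0
  have e2 : Gf p (c0 - 1) = Gf p c0 - kf p c0 := Gf_pred p c0
  rw [e1, e2]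
  exact h3

end

end Pool.Agent.MP_867aae_co.P75
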