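import Mathlib
import Pool.Agent.MP_867aae_co.P75.XE

/-!
Numeric facts for the half-integral centre.
-/

namespace Pool.Agent.MP_867aae_co.P75

open Pool.Agent.MP_867aae_co.H75

lemma kf_rec (p : ℕ) (x : ℤ) : kf (p + 1) x = kf p x + kf p (x - 1) := by
  unfold kf; exact_mod_cast cz_rec p x

section
variable {p r : ℕ} {c0 m n : ℤ}

/-- the trivial bound -/
lemma YD.T (d : YD r m n) (j : ℤ) : YB r m j (alp r m n j) - YC r m j (alp r m n j) ≤
    (1 + alp r m n j) * hh r m (j + 1) := by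
  have ha := d.alp_pos j
  have ha1 := d.alp_le j
  have h0 := hh_nonneg r m (-j)
  have hC := d.C0 j
  unfold YC at hC
  unfold YB YC
  rcases le_or_gt j 0 with hj | hj
  · have h1 := mul_nonneg (show 0 ≤ 1 - alp r m n j by linarith) (hh_nonneg r m j)
    linarith
  · have h1 : hh r m (1 - j) ≤ hh r m j := by
      unfold hh
      have hm := d.hm
      have hn := d.hn
      have hr := d.hr
      exact_mod_cast cz_closer (show m - 1 + (1 - j) ≤ m - 1 + j by omega) (by omega)
    have h2 := mul_le_mul_of_nonneg_left h1 (show 0 ≤ 1 - alp r m n j by linarith)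
    have h3 := mul_nonneg (show 0 ≤ 1 + alp r m n j by linarith) h0
    linarith

/-- the curvature at level `p + 1` -/
lemma XD.mu1 (x : XD p r c0 m n) : (c0 + 1) * (muy r m * Gf (p + 1) c0) ≤
    (p - 1 - 2 * c0) * kf (p + 1) c0 := by
  have hB := Gf_pos p x.c
  have hk := x.kpos
  have h1 := x.mu_le
  have h2 := kf_diff p c0
  have h3 := kG p (show c0 - 1 ≤ c0 by omega)
  have h4 := Gf_pred p c0
  have ht := x.t_nonneg
  have hc := x.cR
  have e1 : Gf (p + 1) c0 = 2 * Gf p c0 - kf p c0 := by rw [Gf_rec, Gf_pred]; ring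
  have e2 : kf (p + 1) c0 = kf p c0 + kf p (c0 - 1) := kf_rec p c0
  rw [h4] at h3
  rw [e1, e2]
  set B := Gf p c0
  set u := kf p c0
  set w := kf p (c0 - 1)
  set t : ℝ := p - 1 - 2 * c0
  set μ := muy r m
  have hBu : 0 ≤ 2 * B - u := by
    have := Gf_nonneg p (c0 - 1)
    rw [h4] at this
    linarith
  have a1 : (c0 + 1) * (B * μ) ≤ u * t := by
    have := mul_le_mul_of_nonneg_left h1 (show (0 : ℝ) ≤ c0 + 1 by linarith)
    linarith
  apply le_of_mul_le_mul_left _ hB
  have a2 := mul_le_mul_of_nonneg_right a1 hBu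
  have a3 : t * (u * (2 * B - u)) ≤ t * ((u + w) * B) := by
    apply mul_le_mul_of_nonneg_left _ ht
    linarith
  linarith

/-- the data at level `p + 1` -/
lemma XD.up (x : XD p r c0 m n) : XD (p + 1) r c0 m n := by
  have hA := x.A
  refine ⟨x.d, x.c, by push_cast; omega, ?_⟩
  have h1 := x.mu1
  have h2 := kf_diff (p + 1) c0
  have hc := x.cR
  have hk := kf_nonneg (p + 1) c0
  have hH := x.d.posH
  have e : hh r m 1 - hh r m 0 = muy r m * HH r m 0 := by
    unfold muy
    rw [div_mul_cancel₀ _ hH.ne']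
  rw [e]
  have h3 : muy r m * Gf (p + 1) c0 ≤ kf (p + 1) (c0 + 1) - kf (p + 1) c0 := by
    apply le_of_mul_le_mul_left _ (show (0 : ℝ) < c0 + 1 by linarith)
    push_cast at h2
    linarith
  have h4 := mul_le_mul_of_nonneg_right h3 hH.le
  linarith

/-- for `y ≤ c0` -/
lemma XD.muk (x : XD p r c0 m n) {y : ℤ} (hy : y ≤ c0) : (c0 + 1) * (muy r m * Gf (p + 1) y) ≤
    (p - 1 - 2 * c0) * kf (p + 1) y := by
  have h1 := x.mu1
  have h2 := kG (p + 1) hy
  have hB := Gf_pos (p + 1) x.c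
  have hy0 := Gf_nonneg (p + 1) y
  have ht := x.t_nonneg
  apply le_of_mul_le_mul_left _ hB
  have a1 := mul_le_mul_of_nonneg_right h1 hy0
  have a2 := mul_le_mul_of_nonneg_left h2 ht
  linarith

lemma XD.EE1 (x : XD p r c0 m n) {u y : ℤ} (hy : y ≤ c0) (hu : u + y = 2 * c0 + 1) :
    muy r m * Gf (p + 1) y ≤ EE (p + 1) u y := by
  have hA := x.A
  have h0 := EE_nonneg (p + 1) (x := u) (y := y) (by omega) (by push_cast; omega)
  have hc := x.cR
  by_cases hy0 : 0 ≤ y
  · have h1 := EE_eq (p + 1) (x := u) (y := y) (by omega) (by push_cast; omega)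
    have h2 := x.muk hy
    have hyR : (0 : ℝ) ≤ y := by exact_mod_cast hy0
    have hycR : (y : ℝ) ≤ c0 := by exact_mod_cast hy
    have huR : (u : ℝ) + y = 2 * c0 + 1 := by exact_mod_cast hu
    rw [huR] at h1
    push_cast at h1
    have h3 : (y + 1) * EE (p + 1) u y ≤ (c0 + 1) * EE (p + 1) u y :=
      mul_le_mul_of_nonneg_right (by linarith) h0
    apply le_of_mul_le_mul_left _ (show (0 : ℝ) < c0 + 1 by linarith)
    linarith
  · rw [Gf_neg (p + 1) (show y < 0 by omega), mul_zero]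
    exact h0

lemma XD.EN1 (x : XD p r c0 m n) {u y : ℤ} (hy : y ≤ c0) (hu : u + y = 2 * c0 + 1) :
    2 * (muy r m * Gf (p + 1) (y - 1)) ≤ EN (p + 1) u (y - 1) := by
  have hA := x.A
  have h0 := EN_nonneg (p + 1) (x := u) (y := y - 1) (by omega) (by push_cast; omega)
  have hc := x.cR
  by_cases hy0 : 0 ≤ y - 1
  · have h1 := EN_eq (p + 1) (x := u) (y := y - 1) (by omega) (by push_cast; omega)
    have h2 := x.muk (show y - 1 ≤ c0 by omega)
    have hyR : (1 : ℝ) ≤ y := by
      have : 1 ≤ y := by omega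
      exact_mod_cast this
    have hycR : (y : ℝ) ≤ c0 := by exact_mod_cast hy
    have huR : (u : ℝ) + y = 2 * c0 + 1 := by exact_mod_cast hu
    rw [sub_add_cancel] at h1
    push_cast at h1
    have hk : kf (p + 1) (y - 1) ≤ kf (p + 1) y := kf_closer (by omega) (by push_cast; omega)
    have ht := x.t_nonneg
    have h3 : (y + 1) * EN (p + 1) u (y - 1) ≤ (c0 + 1) * EN (p + 1) u (y - 1) :=
      mul_le_mul_of_nonneg_right (by linarith) h0
    have h4 := mul_le_mul_of_nonneg_left hk ht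
    have h5 : (y + 1) * EN (p + 1) u (y - 1) =
        (p - 1 - 2 * c0) * (kf (p + 1) (y - 1) + kf (p + 1) y) := by
      rw [show (y : ℝ) + 1 = y - 1 + 2 by ring, h1]
      have : (u : ℝ) = 2 * c0 + 1 - y := by linarith
      rw [this]
      ring
    apply le_of_mul_le_mul_left _ (show (0 : ℝ) < c0 + 1 by linarith)
    linarith
  · rw [Gf_neg (p + 1) (show y - 1 < 0 by omega), mul_zero, mul_zero]
    exact h0

/-- shape `S` -/
lemma XD.S1 (x : XD p r c0 m n) {u y : ℤ} (hy : y ≤ c0) (hu : u + y = 2 * c0 + 1) (j : ℤ) :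
    0 ≤ 2 * EE (p + 1) u y * HH r m j + Gf (p + 1) u * YC r m j (alp r m n j) -
      Gf (p + 1) y * YB r m j (alp r m n j) := by
  have hE := x.EE1 hy hu
  have hF := x.d.F j
  have hC := x.d.C0 j
  have hH := HH_nonneg r m j
  have hb := Gf_nonneg (p + 1) y
  have hG := Gf_mono (p + 1) (show y ≤ u by omega)
  have k1 := mul_le_mul_of_nonneg_right hE hH
  have k2 := mul_le_mul_of_nonneg_left hF hb
  have k3 := mul_le_mul_of_nonneg_right hG hC
  linarith

/-- shape `P` -/
lemma XD.P1 (x : XD p r c0 m n) {u y : ℤ} (hy : y ≤ c0) (hu : u + y = 2 * c0 + 1) (j : ℤ) :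
    0 ≤ EE (p + 1) u y * HH r m j + Gf (p + 1) u * YC r m j (alp r m n j) -
      Gf (p + 1) y * YB r m j (alp r m n j) + (1 + alp r m n j) *
      (kf (p + 1) (u + 1) * hh r m (-j) + kf (p + 1) y * hh r m (j + 1)) := by
  have hE := x.EE1 hy hu
  have hC := x.d.C0 j
  have hH := HH_nonneg r m j
  have hb := Gf_nonneg (p + 1) y
  have hG := Gf_mono (p + 1) (show y ≤ u by omega)
  have ha := x.d.alp_pos j
  have h1 := hh_nonneg r m (-j)
  have h2 := hh_nonneg r m (j + 1)
  have hA := x.A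
  have hc1 : kf (p + 1) y ≤ kf (p + 1) (u + 1) := kf_closer (by omega) (by push_cast; omega)
  have hk1 := kf_nonneg (p + 1) y
  have hE0 := EE_nonneg (p + 1) (x := u) (y := y) (by omega) (by push_cast; omega)
  rcases hb.eq_or_lt with hb0 | hb0
  · rw [← hb0]
    have hGu := Gf_nonneg (p + 1) u
    have hk2 := kf_nonneg (p + 1) (u + 1)
    have : 0 ≤ EE (p + 1) u y * HH r m j + Gf (p + 1) u * YC r m j (alp r m n j) +
        (1 + alp r m n j) * (kf (p + 1) (u + 1) * hh r m (-j) + kf (p + 1) y * hh r m (j + 1)) := by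
      positivity
    linarith
  · have hpos : 0 ≤ y := by
      by_contra hcon
      rw [Gf_neg (p + 1) (by omega)] at hb0
      exact lt_irrefl _ hb0
    by_cases hc0 : c0 = 0
    · obtain rfl : y = 0 := by omega
      have hT := x.d.T j
      have e1 : Gf (p + 1) 0 = 1 := by simp [Gf, bz, Ball_zero]
      have e2 : kf (p + 1) 0 = 1 := by simp [kf, cz]
      rw [e1] at hG ⊢
      rw [e2]
      have k1 := mul_nonneg hE0 hH
      have k3 := mul_le_mul_of_nonneg_right hG hC
      have k4 := mul_nonneg (mul_nonneg (show 0 ≤ 1 + alp r m n j by linarith)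
        (kf_nonneg (p + 1) (u + 1))) h1
      linarith
    · have hc := x.c
      obtain ⟨t1, t2, t3⟩ := x.up.theta (by omega)
      obtain ⟨hP, -, -⟩ := x.d.main t1 t2 j
      rw [t3] at hP
      set b := Gf (p + 1) y
      set γ := kf (p + 1) c0 / Gf (p + 1) c0 with hγ
      have hg : γ * b ≤ kf (p + 1) y := by
        rw [hγ, div_mul_eq_mul_div, div_le_iff₀ (Gf_pos (p + 1) x.c)]
        exact kG (p + 1) hy
      have k1 := mul_le_mul_of_nonneg_right hE hH
      have k2 := mul_le_mul_of_nonneg_left hP hb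
      have k3 := mul_le_mul_of_nonneg_right hG hC
      have k4 := mul_le_mul_of_nonneg_right hg h2
      have k5 := mul_le_mul_of_nonneg_right (hg.trans hc1) h1
      have k6 := mul_le_mul_of_nonneg_left (add_le_add k5 k4)
        (show 0 ≤ 1 + alp r m n j by linarith)
      linarith

/-- shape `N` -/
lemma XD.N1 (x : XD p r c0 m n) {u y : ℤ} (hy : y ≤ c0) (hu : u + y = 2 * c0 + 1) (j : ℤ) :
    0 ≤ EN (p + 1) u (y - 1) * HH r m j + Gf (p + 1) (u + 1) * YC r m j (alp r m n j) -
      Gf (p + 1) (y - 1) * YB r m j (alp r m n j) +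
      (kf (p + 1) (u + 1) * hh r m (1 - j) + kf (p + 1) y * hh r m j) := by
  have hE := x.EN1 hy hu
  have hF := x.d.F j
  have hC := x.d.C0 j
  have hH := HH_nonneg r m j
  have hb := Gf_nonneg (p + 1) (y - 1)
  have hG := Gf_mono (p + 1) (show y - 1 ≤ u + 1 by omega)
  have k1 := mul_le_mul_of_nonneg_right hE hH
  have k2 := mul_le_mul_of_nonneg_left hF hb
  have k3 := mul_le_mul_of_nonneg_right hG hC
  have k4 := mul_nonneg (kf_nonneg (p + 1) (u + 1)) (hh_nonneg r m (1 - j))
  have k5 := mul_nonneg (kf_nonneg (p + 1) y) (hh_nonneg r m j)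
  linarith

/-- shape `Q` -/
lemma XD.Q1 (x : XD p r c0 m n) {u y : ℤ} (hy : y ≤ c0) (hu : u + y = 2 * c0 + 1) (j : ℤ) :
    0 ≤ EE (p + 1) (u + 1) (y - 1) * HH r m j + Gf (p + 1) (u + 1) * YC r m j (alp r m n j) -
      Gf (p + 1) (y - 1) * YB r m j (alp r m n j) +
      (kf (p + 1) (u + 1) * hh r m (1 - j) + kf (p + 1) y * hh r m j) := by
  have hE := x.EE1 (show y - 1 ≤ c0 by omega) (show u + 1 + (y - 1) = 2 * c0 + 1 by omega)
  have hC := x.d.C0 j
  have hH := HH_nonneg r m j
  have hb := Gf_nonneg (p + 1) (y - 1)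
  have hG := Gf_mono (p + 1) (show y - 1 ≤ u + 1 by omega)
  have h1 := hh_nonneg r m (1 - j)
  have h2 := hh_nonneg r m j
  have hA := x.A
  have hc1 : kf (p + 1) y ≤ kf (p + 1) (u + 1) := kf_closer (by omega) (by push_cast; omega)
  have hk1 := kf_nonneg (p + 1) y
  rcases hb.eq_or_lt with hb0 | hb0
  · rw [← hb0]
    have hE0 := EE_nonneg (p + 1) (x := u + 1) (y := y - 1) (by omega) (by push_cast; omega)
    have hGu := Gf_nonneg (p + 1) (u + 1)
    have hk2 := kf_nonneg (p + 1) (u + 1)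
    have : 0 ≤ EE (p + 1) (u + 1) (y - 1) * HH r m j +
        Gf (p + 1) (u + 1) * YC r m j (alp r m n j) +
        (kf (p + 1) (u + 1) * hh r m (1 - j) + kf (p + 1) y * hh r m j) := by
      positivity
    linarith
  · have hpos : 0 ≤ y - 1 := by
      by_contra hcon
      rw [Gf_neg (p + 1) (by omega)] at hb0
      exact lt_irrefl _ hb0
    obtain ⟨t1, t2, t3⟩ := x.up.theta (by omega)
    obtain ⟨-, hP, -⟩ := x.d.main t1 t2 j
    set b := Gf (p + 1) (y - 1)
    set θ := kf (p + 1) c0 / Gf (p + 1) (c0 - 1) with hθ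
    have hg : θ * b ≤ kf (p + 1) y := by
      rw [hθ, div_mul_eq_mul_div, div_le_iff₀ (Gf_pos (p + 1) (by omega))]
      have h3 := kG (p + 1) hy
      have h4 := Gf_pred (p + 1) c0
      have h5 := Gf_pred (p + 1) y
      rw [h4, show b = Gf (p + 1) y - kf (p + 1) y from h5]
      linarith
    have k1 := mul_le_mul_of_nonneg_right hE hH
    have k2 := mul_le_mul_of_nonneg_left hP hb
    have k3 := mul_le_mul_of_nonneg_right hG hC
    have k4 := mul_le_mul_of_nonneg_right hg h2
    have k5 := mul_le_mul_of_nonneg_right (hg.trans hc1) h1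
    linarith

/-- shape `M` -/
lemma XD.M1 (x : XD p r c0 m n) {u y : ℤ} (hy : y ≤ c0) (hu : u + y = 2 * c0 + 1) (j : ℤ) :
    0 ≤ Gf (p + 1) (u + 1) * YC r m j (alp r m n j) -
      Gf (p + 1) (y - 1) * YB r m j (alp r m n j) +
      (1 + alp r m n j) * (kf (p + 1) (u + 2) * hh r m (-j) +
        kf (p + 1) (y - 1) * hh r m (j + 1)) +
      (kf (p + 1) (u + 1) * hh r m (1 - j) + kf (p + 1) y * hh r m j) := by
  have hC := x.d.C0 j
  have hb := Gf_nonneg (p + 1) (y - 1)
  have hG := Gf_mono (p + 1) (show y - 1 ≤ u + 1 by omega)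
  have h1 := hh_nonneg r m (1 - j)
  have h2 := hh_nonneg r m j
  have h3 := hh_nonneg r m (-j)
  have h4 := hh_nonneg r m (j + 1)
  have ha := x.d.alp_pos j
  have hA := x.A
  have hc1 : kf (p + 1) y ≤ kf (p + 1) (u + 1) := kf_closer (by omega) (by push_cast; omega)
  have hc2 : kf (p + 1) (y - 1) ≤ kf (p + 1) (u + 2) := kf_closer (by omega) (by push_cast; omega)
  have hk1 := kf_nonneg (p + 1) y
  have hk3 := kf_nonneg (p + 1) (y - 1)
  rcases hb.eq_or_lt with hb0 | hb0
  · rw [← hb0]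
    have hGu := Gf_nonneg (p + 1) (u + 1)
    have hk2 := kf_nonneg (p + 1) (u + 1)
    have hk4 := kf_nonneg (p + 1) (u + 2)
    have : 0 ≤ Gf (p + 1) (u + 1) * YC r m j (alp r m n j) + (1 + alp r m n j) *
        (kf (p + 1) (u + 2) * hh r m (-j) + kf (p + 1) (y - 1) * hh r m (j + 1)) +
        (kf (p + 1) (u + 1) * hh r m (1 - j) + kf (p + 1) y * hh r m j) := by
      positivity
    linarith
  · have hpos : 0 ≤ y - 1 := by
      by_contra hcon
      rw [Gf_neg (p + 1) (by omega)] at hb0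
      exact lt_irrefl _ hb0
    obtain ⟨t1, t2, t3⟩ := x.up.theta (by omega)
    obtain ⟨-, -, hP⟩ := x.d.main t1 t2 j
    rw [t3] at hP
    set b := Gf (p + 1) (y - 1)
    set θ := kf (p + 1) c0 / Gf (p + 1) (c0 - 1) with hθ
    set γ := kf (p + 1) c0 / Gf (p + 1) c0 with hγ
    have hg : θ * b ≤ kf (p + 1) y := by
      rw [hθ, div_mul_eq_mul_div, div_le_iff₀ (Gf_pos (p + 1) (by omega))]
      have h3 := kG (p + 1) hy
      have h4 := Gf_pred (p + 1) c0
      have h5 := Gf_pred (p + 1) y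
      rw [h4, show b = Gf (p + 1) y - kf (p + 1) y from h5]
      linarith
    have hg2 : γ * b ≤ kf (p + 1) (y - 1) := by
      rw [hγ, div_mul_eq_mul_div, div_le_iff₀ (Gf_pos (p + 1) x.c)]
      exact kG (p + 1) (show y - 1 ≤ c0 by omega)
    have k2 := mul_le_mul_of_nonneg_left hP hb
    have k3 := mul_le_mul_of_nonneg_right hG hC
    have k4 := mul_le_mul_of_nonneg_right hg h2
    have k5 := mul_le_mul_of_nonneg_right (hg.trans hc1) h1
    have k6 := mul_le_mul_of_nonneg_right hg2 h4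
    have k7 := mul_le_mul_of_nonneg_right (hg2.trans hc2) h3
    have k8 := mul_le_mul_of_nonneg_left (add_le_add k7 k6)
      (show 0 ≤ 1 + alp r m n j by linarith)
    linarith

/-- the bound `P1` at level `p` -/
lemma XD.PB (x : XD p r c0 m n) (j : ℤ) :
    Gf p c0 * (YB r m j (alp r m n j) - YC r m j (alp r m n j)) ≤
      Gf p c0 * muy r m * HH r m j + (1 + alp r m n j) * kf p c0 *
        (hh r m (-j) + hh r m (j + 1)) := by
  have ha := x.d.alp_pos j
  have h1 := hh_nonneg r m (-j)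
  by_cases hc0 : c0 = 0
  · have hT := x.d.T j
    have e1 : Gf p c0 = 1 := by rw [hc0]; simp [Gf, bz, Ball_zero]
    have e2 : kf p c0 = 1 := by rw [hc0]; simp [kf, cz]
    rw [e1, e2]
    have k1 := mul_nonneg x.d.mu_nonneg (HH_nonneg r m j)
    have k2 := mul_nonneg (show 0 ≤ 1 + alp r m n j by linarith) h1
    linarith
  · have hc := x.c
    obtain ⟨t1, t2, t3⟩ := x.theta (by omega)
    obtain ⟨hP, -, -⟩ := x.d.main t1 t2 j
    rw [t3] at hP
    have hB := Gf_pos p x.c
    have k2 := mul_le_mul_of_nonneg_left hP hB.le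
    have e : Gf p c0 * (kf p c0 / Gf p c0) = kf p c0 := mul_div_cancel₀ _ hB.ne'
    calc _ ≤ _ := k2
      _ = Gf p c0 * muy r m * HH r m j + (1 + alp r m n j) * (Gf p c0 * (kf p c0 / Gf p c0)) *
        (hh r m (-j) + hh r m (j + 1)) := by ring
      _ = _ := by rw [e]

end

end Pool.Agent.MP_867aae_co.P75
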