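import Mathlib
import Pool.Agent.MP_867aae_co.P75.OA

/-!
The inequalities for the squares with a half-integral value.
-/

namespace Pool.Agent.MP_867aae_co.P75

open Pool.Agent.MP_867aae_co.H75

/-- the functional of a square of positive type -/
noncomputable def TT (r : ℕ) (m j : ℤ) (α gp gn g11 g10 g00 a11 a10 a00 : ℝ) : ℝ :=
  gp * HH r m (-j) + gn * HH r m j + g11 * hh r m (-j) - g00 * hh r m (1 - j) +
    a00 * hh r m j - a11 * hh r m (j + 1) + α * (g11 * hh r m (-j) + g10 * hh r m (1 - j) -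
      a10 * hh r m j - a11 * hh r m (j + 1))

section
variable {p r : ℕ} {c0 m n : ℤ}

/-- the hypothesis (V) -/
def HV (p r : ℕ) (c0 m : ℤ) : Prop :=
  ∀ j, Gf p c0 * ((hh r m (1 - j) - hh r m (-j)) + (hh r m (j + 1) - hh r m j)) ≤
      (kf p (c0 + 1) - kf p c0) * (HH r m (-j) + HH r m j)

lemma TSh (hV : HV p r c0 m) (j : ℤ) (g10 a10 : ℝ) :
    0 ≤ TT r m j 0 (2 * (kf p (c0 + 1) - kf p c0)) (2 * (kf p (c0 + 1) - kf p c0))
      (2 * Gf p c0) g10 (2 * Gf p c0) (2 * Gf p c0) a10 (2 * Gf p c0) := by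
  have h := hV j
  unfold TT
  linarith

lemma XD.N0' (x : XD p r c0 m n) (j : ℤ) :
    0 ≤ (2 * Gf p c0 + kf p (c0 + 1)) * (hh r m (-j) + hh r m j) -
      (2 * Gf p c0 - kf p c0) * (hh r m (j + 1) + hh r m (1 - j)) := by
  have h1 := x.IV j
  have h2 := x.IV (-j)
  rw [neg_neg, show 1 - -j = j + 1 by ring, show -j + 1 = 1 - j by ring] at h2
  have e1 : Gf p (c0 + 1) = Gf p c0 + kf p (c0 + 1) := Gf_succ p c0
  have e2 : Gf p (c0 - 1) = Gf p c0 - kf p c0 := Gf_pred p c0
  rw [e1, e2] at h1 h2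
  linarith

/-- squares from `c - 1` to at least `c` -/
lemma XD.TN0 (x : XD p r c0 m n) (j : ℤ) {gp gn g11 a11 : ℝ} (g10 a10 : ℝ) (h1 : 0 ≤ gp)
    (h2 : 0 ≤ gn) (h3 : 2 * Gf p c0 + kf p (c0 + 1) ≤ g11) (h4 : a11 ≤ 2 * Gf p c0 - kf p c0) :
    0 ≤ TT r m j 0 gp gn g11 g10 (2 * Gf p c0 - kf p c0) a11 a10
      (2 * Gf p c0 + kf p (c0 + 1)) := by
  have h := x.N0' j
  have k1 := mul_nonneg h1 (HH_nonneg r m (-j))
  have k2 := mul_nonneg h2 (HH_nonneg r m j)
  have k3 := mul_le_mul_of_nonneg_right h3 (hh_nonneg r m (-j))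
  have k4 := mul_le_mul_of_nonneg_right h4 (hh_nonneg r m (j + 1))
  unfold TT
  linarith

/-- squares from `h` to `c` -/
lemma XD.T10 (x : XD p r c0 m n) (hV : HV p r c0 m) (j : ℤ) {gn : ℝ} (g10 a10 : ℝ)
    (h2 : kf p (c0 + 1) - kf p c0 ≤ gn) :
    0 ≤ TT r m j 0 (kf p (c0 + 1) - kf p c0) gn (2 * Gf p c0 + kf p (c0 + 1)) g10
      (2 * Gf p c0) (2 * Gf p c0 - kf p c0) a10 (2 * Gf p c0) := by
  have h := hV j
  have h1 := x.IV j
  have e1 : Gf p (c0 + 1) = Gf p c0 + kf p (c0 + 1) := Gf_succ p c0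
  have e2 : Gf p (c0 - 1) = Gf p c0 - kf p c0 := Gf_pred p c0
  rw [e1, e2] at h1
  have k2 := mul_le_mul_of_nonneg_right h2 (HH_nonneg r m j)
  unfold TT
  linarith

/-- `(c₀ + 1) c₁ = (p - c₀) c₀` -/
lemma XD.va (p : ℕ) (c0 : ℤ) : kf p (c0 + 1) * (c0 + 1) = kf p c0 * (p - c0) := kf_step p c0

lemma XD.vu (x : XD p r c0 m n) : kf p c0 ≤ kf p (c0 + 1) := kf_closer (by omega) (by have := x.A; omega)

/-- the square `(c, c, c, h)` -/
lemma XD.T3 (x : XD p r c0 m n) (j : ℤ) {gn : ℝ}
    (hg : gn * (p + 1 - c0) = kf p (c0 + 1) * (2 * p - 3 * c0) + kf p c0 * (p - 3 * c0 - 3)) :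
    0 ≤ TT r m j (alp r m n j) 0 gn (2 * Gf p c0 + kf p (c0 + 1)) (2 * Gf p c0 + kf p (c0 + 1))
      (2 * Gf p c0) (2 * Gf p c0 - kf p c0) (2 * Gf p c0 - kf p c0) (2 * Gf p c0) := by
  have hB := Gf_pos p x.c
  have hk := x.kpos
  have hvu := x.vu
  have hva := XD.va p c0
  have hmu := x.mu_le
  have ht := x.t_nonneg
  have hc := x.cR
  have ha := x.d.alp_pos j
  have ha1 := x.d.alp_le j
  have hF := x.d.F j
  have hT := x.d.T j
  have hP := x.PB j
  have hH := HH_nonneg r m j
  have i0 := hh_nonneg r m j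
  have i1 := hh_nonneg r m (j + 1)
  have i2 := hh_nonneg r m (-j)
  have i3 := hh_nonneg r m (1 - j)
  have hov := Ph_nonneg p c0
  unfold Ph at hov
  change 0 ≤ (p - c0) * kf p c0 - (p - 2 * c0) * Gf p c0 at hov
  -- the target in terms of `D`
  have key : 2 * (Gf p c0 * (YB r m j (alp r m n j) - YC r m j (alp r m n j))) ≤
      gn * HH r m j + (1 + alp r m n j) * kf p c0 * (hh r m (-j) + hh r m (j + 1)) := by
    set D := YB r m j (alp r m n j) - YC r m j (alp r m n j)
    set B := Gf p c0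
    set u := kf p c0
    set v := kf p (c0 + 1)
    set α := alp r m n j
    set μ := muy r m
    set H := HH r m j
    have hs : (0 : ℝ) < p + 1 - c0 := by linarith
    have hg' : gn * (p + 1 - c0) = (v - u) * (2 * p + 3) := by
      rw [hg]; linear_combination (-3 : ℝ) * hva
    have f1 : B * D ≤ 2 * (B * μ * H) := by
      have := mul_le_mul_of_nonneg_left hF hB.le
      linarith
    have f0 : B * μ * H ≤ (v - u) * H := mul_le_mul_of_nonneg_right hmu hH
    by_cases hcase : (p - 1 - 2 * c0 : ℝ) ≤ c0 - 1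
    · -- small `t`
      have f2 : 3 * (v - u) * H ≤ gn * H := by
        apply mul_le_mul_of_nonneg_right _ hH
        apply le_of_mul_le_mul_right _ hs
        rw [hg']
        have : 0 ≤ (v - u) * ((2 * p + 3) - 3 * (p + 1 - c0)) :=
          mul_nonneg (by linarith) (by linarith)
        linarith
      linarith
    · have hcase' : (c0 : ℝ) ≤ p - 1 - 2 * c0 := by
        have h3 : ¬ ((p : ℤ) - 1 - 2 * c0 ≤ c0 - 1) := by
          intro h; apply hcase; exact_mod_cast h
        have h4 : c0 ≤ (p : ℤ) - 1 - 2 * c0 := by omega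
        exact_mod_cast h4
      have hT' : B * D ≤ B * ((1 + α) * hh r m (j + 1)) := mul_le_mul_of_nonneg_left hT hB.le
      have g1 : B ≤ 2 * u := by
        have : (p - 2 * c0) * B ≤ (p - 2 * c0) * (2 * u) := by
          have : (p - c0) * u ≤ (p - 2 * c0) * (2 * u) := by
            have : 0 ≤ u * (2 * (p - 2 * c0) - (p - c0)) := mul_nonneg hk.le (by linarith)
            linarith
          linarith
        exact le_of_mul_le_mul_left this (by linarith)
      have g2 : (2 * p - 4 * c0 + 1) * B ≤ 2 * (p + 1 - c0) * u := by linarith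
      have g3 : (2 * p - 4 * c0 + 1) * (B * D) ≤
          2 * (p + 1 - c0) * (u * ((1 + α) * hh r m (j + 1))) := by
        have q1 := mul_le_mul_of_nonneg_left hT' (show (0 : ℝ) ≤ 2 * p - 4 * c0 + 1 by linarith)
        have q2 := mul_le_mul_of_nonneg_right g2
          (show 0 ≤ (1 + α) * hh r m (j + 1) from mul_nonneg (by linarith) i1)
        linarith
      have g4 : (2 * p + 3) * (B * D) ≤ 2 * (p + 1 - c0) * (gn * H) := by
        have hp : (0 : ℝ) ≤ 2 * p + 3 := by positivity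
        have q1 := mul_le_mul_of_nonneg_left (f1.trans (mul_le_mul_of_nonneg_left f0 zero_le_two)) hp
        have q2 : (2 * p + 3) * (2 * ((v - u) * H)) = 2 * (p + 1 - c0) * (gn * H) := by
          linear_combination (-2 * H) * hg'
        linarith
      apply le_of_mul_le_mul_left _ (show (0 : ℝ) < 2 * (p + 1 - c0) by linarith)
      have q3 : 0 ≤ 2 * (p + 1 - c0) * ((1 + α) * u * hh r m (-j)) := by
        have : 0 ≤ (1 + α) * u * hh r m (-j) :=
          mul_nonneg (mul_nonneg (by linarith) hk.le) i2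
        exact mul_nonneg (by linarith) this
      linarith
  unfold YB YC at key
  unfold TT
  have m1 := mul_le_mul_of_nonneg_right hvu i2
  have m2 := mul_nonneg ha.le (mul_nonneg (show 0 ≤ kf p (c0 + 1) by linarith) i3)
  have m3 := mul_nonneg ha.le (mul_nonneg hk.le i0)
  have m4 := mul_le_mul_of_nonneg_left m1 (show 0 ≤ 1 + alp r m n j by linarith)
  linarith

/-- the square `(c + 1, c, c, h)` -/
lemma XD.T4 (x : XD p r c0 m n) (j : ℤ) {gn g11 a11 : ℝ}
    (hg : gn * (p + 1 - c0) = kf p (c0 + 1) * (p + 1 - c0) - kf p c0 * (c0 + 2))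
    (hg11 : 2 * Gf p c0 + kf p (c0 + 1) + kf (p + 1) c0 ≤ g11)
    (ha11 : a11 = 2 * Gf p c0 - kf p c0 - kf (p + 1) c0) :
    0 ≤ TT r m j (alp r m n j) 0 gn g11 (2 * Gf p c0 + kf p (c0 + 1))
      (2 * Gf p c0) a11 (2 * Gf p c0 - kf p c0) (2 * Gf p c0) := by
  have hB := Gf_pos p x.c
  have hk := x.kpos
  have hvu := x.vu
  have hva := XD.va p c0
  have hmu := x.mu_le
  have ht := x.t_nonneg
  have hc := x.cR
  have ha := x.d.alp_pos j
  have ha1 := x.d.alp_le j
  have hT := x.d.T j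
  have hP := x.PB j
  have hH := HH_nonneg r m j
  have i0 := hh_nonneg r m j
  have i1 := hh_nonneg r m (j + 1)
  have i2 := hh_nonneg r m (-j)
  have i3 := hh_nonneg r m (1 - j)
  have hov := Ph_nonneg p c0
  unfold Ph at hov
  change 0 ≤ (p - c0) * kf p c0 - (p - 2 * c0) * Gf p c0 at hov
  have hw := kf_step p (c0 - 1)
  rw [sub_add_cancel] at hw
  push_cast at hw
  have ek : kf (p + 1) c0 = kf p c0 + kf p (c0 - 1) := kf_rec p c0
  have hw0 := kf_nonneg p (c0 - 1)
  -- the target in terms of `D`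
  have key : 2 * (Gf p c0 * (YB r m j (alp r m n j) - YC r m j (alp r m n j))) ≤
      gn * HH r m j + (1 + alp r m n j) * (2 * kf p c0 + kf p (c0 - 1)) *
        (hh r m (-j) + hh r m (j + 1)) := by
    set D := YB r m j (alp r m n j) - YC r m j (alp r m n j)
    set B := Gf p c0
    set u := kf p c0
    set v := kf p (c0 + 1)
    set w := kf p (c0 - 1)
    set α := alp r m n j
    set μ := muy r m
    set H := HH r m j
    set S := hh r m (-j) + hh r m (j + 1)
    have hs : (0 : ℝ) < p + 1 - c0 := by linarith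
    have hg' : gn * (p + 1 - c0) = (v - u) * (p + 2) := by
      rw [hg]; linear_combination (-1 : ℝ) * hva
    have f0 : B * μ * H ≤ (v - u) * H := mul_le_mul_of_nonneg_right hmu hH
    have f1 : (p + 2) * (B * D) ≤ (p + 1 - c0) * (gn * H) + (p + 2) * ((1 + α) * u * S) := by
      have q1 := mul_le_mul_of_nonneg_left hP (show (0 : ℝ) ≤ p + 2 by positivity)
      have q2 := mul_le_mul_of_nonneg_left f0 (show (0 : ℝ) ≤ p + 2 by positivity)
      have q3 : (p + 2) * ((v - u) * H) = (p + 1 - c0) * (gn * H) := by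
        linear_combination (-H) * hg'
      linarith
    have f2 : (p - 2 * c0) * (B * D) ≤ (p - c0) * (u * ((1 + α) * S)) := by
      have q1 := mul_le_mul_of_nonneg_left (mul_le_mul_of_nonneg_left hT hB.le)
        (show (0 : ℝ) ≤ p - 2 * c0 by linarith)
      have q2 := mul_le_mul_of_nonneg_right (sub_nonneg.1 hov)
        (show 0 ≤ (1 + α) * hh r m (j + 1) from mul_nonneg (by linarith) i1)
      have q3 : (p - c0) * (u * ((1 + α) * hh r m (j + 1))) ≤ (p - c0) * (u * ((1 + α) * S)) := by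
        apply mul_le_mul_of_nonneg_left _ (by linarith)
        apply mul_le_mul_of_nonneg_left _ hk.le
        apply mul_le_mul_of_nonneg_left _ (by linarith)
        simp only [S]
        linarith
      linarith
    apply le_of_mul_le_mul_left _ hs
    have q : (p + 1 - c0) * ((1 + α) * (2 * u + w) * S) =
        (p + 2) * ((1 + α) * u * S) + (p - c0) * (u * ((1 + α) * S)) := by
      linear_combination (-(1 + α) * S) * hw
    linarith
  unfold YB YC at key
  unfold TT
  rw [ha11, ek]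
  rw [ek] at hg11
  have m1 := mul_le_mul_of_nonneg_right hg11 i2
  have m2 := mul_nonneg ha.le (mul_nonneg (show 0 ≤ kf p (c0 + 1) by linarith) i3)
  have m3 := mul_nonneg ha.le (mul_nonneg hk.le i0)
  have m4 := mul_le_mul_of_nonneg_left m1 (show 0 ≤ 1 + alp r m n j by linarith)
  have m5 := mul_le_mul_of_nonneg_right hvu i2
  have m6 := mul_le_mul_of_nonneg_left m5 (show 0 ≤ 1 + alp r m n j by linarith)
  linarith

end

end Pool.Agent.MP_867aae_co.P75
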