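import Mathlib
import Pool.Agent.MP_867aae_co.P75.PO

/-!
Functions on the cube given by their restrictions to faces.
-/

namespace Pool.Agent.MP_867aae_co.P75

open Finset Function Pool.Agent.MP_867aae_co.H75

/-- unit steps -/
def Up {z : ℕ} (f : (Fin z → Bool) → ℤ) : Prop :=
  ∀ σ i, σ i = false → f (update σ i true) = f σ ∨ f (update σ i true) = f σ + 1

/-- join of two faces -/
def jn {z : ℕ} (g1 g0 : (Fin z → Bool) → ℤ) (σ : Fin (z + 1) → Bool) : ℤ :=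
  if σ 0 then g1 (Fin.tail σ) else g0 (Fin.tail σ)

lemma jn_cons {z : ℕ} (g1 g0 : (Fin z → Bool) → ℤ) (e : Bool) (ρ : Fin z → Bool) :
    jn g1 g0 (Fin.cons e ρ) = if e then g1 ρ else g0 ρ := by
  unfold jn
  simp

lemma tail_ng {z : ℕ} (σ : Fin (z + 1) → Bool) : Fin.tail (ng σ) = ng (Fin.tail σ) := rfl

lemma up_jn {z : ℕ} {g1 g0 : (Fin z → Bool) → ℤ} (h1 : Up g1) (h0 : Up g0)
    (h : ∀ ρ, g1 ρ = g0 ρ ∨ g1 ρ = g0 ρ + 1) : Up (jn g1 g0) := by
  intro σ i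
  refine Fin.cases ?_ (fun k => ?_) i
  · intro hi
    unfold jn
    rw [update_self, hi, Fin.tail_update_zero]
    simp only [if_true, Bool.false_eq_true, if_false]
    exact h _
  · intro hk
    unfold jn
    rw [update_of_ne (Fin.succ_ne_zero k).symm, Fin.tail_update_succ]
    have hk' : Fin.tail σ k = false := hk
    cases σ 0
    · simpa using h0 _ k hk'
    · simpa using h1 _ k hk'

lemma val_jn {z : ℕ} {A : ℤ} {g1 g0 : (Fin z → Bool) → ℤ} (h1 : Up g1) (h0 : Up g0)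
    (h : ∀ ρ, g1 ρ = g0 ρ ∨ g1 ρ = g0 ρ + 1) (hs : ∀ ρ, g1 ρ + g0 (ng ρ) = A) :
    Val A (jn g1 g0) := by
  refine ⟨?_, up_jn h1 h0 h⟩
  intro σ
  unfold jn
  rw [tail_ng, ng_apply]
  cases σ 0
  · simp only [Bool.false_eq_true, if_false, Bool.not_false, if_true]
    have := hs (ng (Fin.tail σ))
    rw [ng_ng] at this
    linarith
  · simp only [Bool.false_eq_true, if_false, Bool.not_true, if_true]
    exact hs _

/-- join of four faces -/
def jn4 {z : ℕ} (g11 g10 g01 g00 : (Fin z → Bool) → ℤ) : (Fin (z + 2) → Bool) → ℤ :=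
  jn (jn g11 g10) (jn g01 g00)

lemma val_jn4 {z : ℕ} {A : ℤ} {g11 g10 g01 g00 : (Fin z → Bool) → ℤ} (h11 : Up g11)
    (h10 : Up g10) (h01 : Up g01) (h00 : Up g00)
    (s1 : ∀ ρ, g10 ρ = g00 ρ ∨ g10 ρ = g00 ρ + 1) (s2 : ∀ ρ, g01 ρ = g00 ρ ∨ g01 ρ = g00 ρ + 1)
    (s3 : ∀ ρ, g11 ρ = g10 ρ ∨ g11 ρ = g10 ρ + 1) (s4 : ∀ ρ, g11 ρ = g01 ρ ∨ g11 ρ = g01 ρ + 1)
    (sd1 : ∀ ρ, g11 ρ + g00 (ng ρ) = A) (sd2 : ∀ ρ, g10 ρ + g01 (ng ρ) = A) :
    Val A (jn4 g11 g10 g01 g00) := by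
  unfold jn4
  apply val_jn (up_jn h11 h10 s3) (up_jn h01 h00 s2)
  · intro σ
    unfold jn
    cases σ 0
    · simpa using s1 _
    · simpa using s4 _
  · intro σ
    unfold jn
    rw [tail_ng, ng_apply]
    cases σ 0
    · simpa using sd2 _
    · simpa using sd1 _

/-- the four faces of a stable function -/
structure SQ {z : ℕ} (A : ℤ) (f11 f10 f01 f00 : (Fin z → Bool) → ℤ) : Prop where
  s1 : ∀ ρ, f10 ρ = f00 ρ ∨ f10 ρ = f00 ρ + 1
  s2 : ∀ ρ, f01 ρ = f00 ρ ∨ f01 ρ = f00 ρ + 1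
  s3 : ∀ ρ, f11 ρ = f10 ρ ∨ f11 ρ = f10 ρ + 1
  s4 : ∀ ρ, f11 ρ = f01 ρ ∨ f11 ρ = f01 ρ + 1
  mo : ∀ ρ, f01 ρ ≤ f10 ρ
  sd1 : ∀ ρ, f11 ρ + f00 (ng ρ) = A
  sd2 : ∀ ρ, f10 ρ + f01 (ng ρ) = A
  u11 : Up f11
  u10 : Up f10
  u01 : Up f01
  u00 : Up f00
  x1 : ∀ ρ i, ρ i = false → f01 (update ρ i true) ≤ f11 ρ
  x2 : ∀ ρ i, ρ i = false → f00 (update ρ i true) ≤ f10 ρ
  x3 : ∀ ρ i, ρ i = false → f10 (update ρ i true) ≤ f11 ρ
  x4 : ∀ ρ i, ρ i = false → f00 (update ρ i true) ≤ f01 ρ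

/-- face -/
def fc {z : ℕ} (f : (Fin (z + 2) → Bool) → ℤ) (e1 e2 : Bool) (ρ : Fin z → Bool) : ℤ :=
  f (Fin.cons e1 (Fin.cons e2 ρ))

lemma sq_of {z : ℕ} {A : ℤ} {f : (Fin (z + 2) → Bool) → ℤ} (hf : Val A f) (hs : Stab f) :
    SQ A (fc f true true) (fc f true false) (fc f false true) (fc f false false) := by
  have hup : ∀ e1 e2, Up (fc f e1 e2) := by
    intro e1 e2 ρ k hk
    have := hf.st (Fin.cons e1 (Fin.cons e2 ρ)) k.succ.succ (by simpa using hk)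
    rwa [← Fin.cons_update, ← Fin.cons_update] at this
  have h0 : ∀ (e2 : Bool) (ρ : Fin z → Bool), fc f true e2 ρ = fc f false e2 ρ ∨
      fc f true e2 ρ = fc f false e2 ρ + 1 := by
    intro e2 ρ
    have := hf.st (Fin.cons false (Fin.cons e2 ρ)) 0 (by simp)
    rwa [Fin.update_cons_zero] at this
  have h1 : ∀ (e1 : Bool) (ρ : Fin z → Bool), fc f e1 true ρ = fc f e1 false ρ ∨
      fc f e1 true ρ = fc f e1 false ρ + 1 := by
    intro e1 ρ
    have := hf.st (Fin.cons e1 (Fin.cons false ρ)) (Fin.succ 0) (by simp)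
    rwa [← Fin.cons_update, Fin.update_cons_zero] at this
  have hsd : ∀ (e1 e2 : Bool) (ρ : Fin z → Bool),
      fc f e1 e2 ρ + fc f (!e1) (!e2) (ng ρ) = A := by
    intro e1 e2 ρ
    have := hf.sd (Fin.cons e1 (Fin.cons e2 ρ))
    rwa [ng_cons, ng_cons] at this
  have hc0 : ∀ (e2 : Bool) (ρ : Fin z → Bool) (k : Fin z), ρ k = false →
      fc f false e2 (update ρ k true) ≤ fc f true e2 ρ := by
    intro e2 ρ k hk
    have := hs 0 k.succ.succ (Fin.succ_pos _) (Fin.cons true (Fin.cons e2 ρ)) (by simp)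
      (by simpa using hk)
    rwa [Fin.update_cons_zero, ← Fin.cons_update, ← Fin.cons_update] at this
  have hc1 : ∀ (e1 : Bool) (ρ : Fin z → Bool) (k : Fin z), ρ k = false →
      fc f e1 false (update ρ k true) ≤ fc f e1 true ρ := by
    intro e1 ρ k hk
    have := hs (Fin.succ 0) k.succ.succ (by
      apply Fin.succ_lt_succ_iff.2; exact Fin.succ_pos _)
      (Fin.cons e1 (Fin.cons true ρ)) (by simp) (by simpa using hk)
    rwa [← Fin.cons_update, Fin.update_cons_zero, ← Fin.cons_update, ← Fin.cons_update] at this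
  have hm : ∀ ρ : Fin z → Bool, fc f false true ρ ≤ fc f true false ρ := by
    intro ρ
    have := hs 0 (Fin.succ 0) (Fin.succ_pos _) (Fin.cons true (Fin.cons false ρ)) (by simp)
      (by simp)
    rwa [Fin.update_cons_zero, ← Fin.cons_update, Fin.update_cons_zero] at this
  exact ⟨h0 false, h1 false, h1 true, h0 true, hm, hsd true true, hsd true false,
    hup _ _, hup _ _, hup _ _, hup _ _, hc0 true, hc0 false, hc1 true, hc1 false⟩

lemma fc_jn4 {z : ℕ} (g11 g10 g01 g00 : (Fin z → Bool) → ℤ) (ρ : Fin z → Bool) :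
    fc (jn4 g11 g10 g01 g00) true true ρ = g11 ρ ∧
    fc (jn4 g11 g10 g01 g00) true false ρ = g10 ρ ∧
    fc (jn4 g11 g10 g01 g00) false true ρ = g01 ρ ∧
    fc (jn4 g11 g10 g01 g00) false false ρ = g00 ρ := by
  unfold fc jn4
  simp only [jn_cons]
  simp

/-- weighted sum over squares -/
lemma PV_sq {z : ℕ} (G H : ℤ → ℝ) (a c : (Fin (z + 2) → Bool) → ℤ) :
    PV G H a c = ∑ ρ : Fin z → Bool,
      (G (fc a true true ρ) * H (fc c true true ρ - 2 - cn ρ) +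
        G (fc a true false ρ) * H (fc c true false ρ - 1 - cn ρ) +
        G (fc a false true ρ) * H (fc c false true ρ - 1 - cn ρ) +
        G (fc a false false ρ) * H (fc c false false ρ - cn ρ)) := by
  unfold PV
  rw [sum_consR, sum_consR]
  apply Finset.sum_congr rfl
  intro ρ _
  unfold fc
  simp only [cn_cons, if_true, Bool.false_eq_true, if_false, zero_add]
  rw [show c (Fin.cons true (Fin.cons true ρ)) - (1 + (1 + cn ρ)) =
      c (Fin.cons true (Fin.cons true ρ)) - 2 - cn ρ by ring,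
    show c (Fin.cons true (Fin.cons false ρ)) - (1 + cn ρ) =
      c (Fin.cons true (Fin.cons false ρ)) - 1 - cn ρ by ring,
    show c (Fin.cons false (Fin.cons true ρ)) - (1 + cn ρ) =
      c (Fin.cons false (Fin.cons true ρ)) - 1 - cn ρ by ring]
  ring

/-- weighted sum over edges -/
lemma PV_jn {z : ℕ} (G H : ℤ → ℝ) (a1 a0 c1 c0 : (Fin z → Bool) → ℤ) :
    PV G H (jn a1 a0) (jn c1 c0) = ∑ ρ : Fin z → Bool,
      (G (a1 ρ) * H (c1 ρ - 1 - cn ρ) + G (a0 ρ) * H (c0 ρ - cn ρ)) := by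
  unfold PV
  rw [sum_consR]
  apply Finset.sum_congr rfl
  intro ρ _
  simp only [jn_cons, cn_cons, if_true, Bool.false_eq_true, if_false, zero_add]
  rw [show c1 ρ - (1 + cn ρ) = c1 ρ - 1 - cn ρ by ring]
  ring

end Pool.Agent.MP_867aae_co.P75
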