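import Mathlib
import Pool.Agent.MP_867aae_co.P75.PJ

/-!
Squares of functions with one half-integral value (all values are doubled): the new values.
-/

namespace Pool.Agent.MP_867aae_co.P75

open Finset Function Pool.Agent.MP_867aae_co.H75

/-- square of doubled values; the only odd value is `2 c0 + 1` -/
structure ESq (c0 x11 x10 x01 x00 : ℤ) : Prop where
  a1 : x00 ≤ x01
  a2 : x01 ≤ x10
  a3 : x10 ≤ x11
  b1 : x10 ≤ x00 + 2
  b2 : x11 ≤ x01 + 2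
  q11 : x11 % 2 = 0 ∨ x11 = 2 * c0 + 1
  q10 : x10 % 2 = 0 ∨ x10 = 2 * c0 + 1
  q01 : x01 % 2 = 0 ∨ x01 = 2 * c0 + 1
  q00 : x00 % 2 = 0 ∨ x00 = 2 * c0 + 1

lemma ESq.anti {c0 x11 x10 x01 x00 : ℤ} (h : ESq c0 x11 x10 x01 x00) :
    ESq c0 (4 * c0 + 2 - x00) (4 * c0 + 2 - x01) (4 * c0 + 2 - x10) (4 * c0 + 2 - x11) := by
  obtain ⟨a1, a2, a3, b1, b2, q11, q10, q01, q00⟩ := h
  refine ⟨by omega, by omega, by omega, by omega, by omega, ?_, ?_, ?_, ?_⟩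
  · rcases q00 with h | h <;> omega
  · rcases q01 with h | h <;> omega
  · rcases q10 with h | h <;> omega
  · rcases q11 with h | h <;> omega

/-- raise of the upper edge -/
def R1 {R : Type*} [Zero R] (c0 : ℤ) (u g : R) (x11 x10 x01 x00 : ℤ) : R :=
  if x11 = x10 then (if x10 = 2 * c0 + 1 then 0 else if x01 = 2 * c0 then 0 else
    if x01 = 2 * c0 + 1 ∧ x00 = 2 * c0 then g else u) else
    (if x10 = 2 * c0 + 1 ∧ x00 = 2 * c0 + 1 then g else 0)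

/-- raise of the lower edge -/
def R0 {R : Type*} [Zero R] [One R] (c0 : ℤ) (u g : R) (x01 x00 : ℤ) : R :=
  if x01 = x00 then (if x01 = 2 * c0 + 1 then 0 else if x01 = 2 * c0 then 1 else u) else
    (if x00 = 2 * c0 + 1 then g else 0)

/-- the shapes of nonnegative squares -/
inductive PS (c0 : ℤ) : ℤ → ℤ → ℤ → ℤ → Prop
  | S (x : ℤ) (h : c0 + 1 ≤ x) : PS c0 (2 * x) (2 * x) (2 * x) (2 * x)
  | P (x : ℤ) (h : c0 + 1 ≤ x) : PS c0 (2 * x + 2) (2 * x) (2 * x) (2 * x)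
  | N (x : ℤ) (h : c0 + 1 ≤ x) : PS c0 (2 * x + 2) (2 * x + 2) (2 * x) (2 * x)
  | N0 : PS c0 (2 * c0 + 2) (2 * c0 + 2) (2 * c0) (2 * c0)
  | Q (x : ℤ) (h : c0 ≤ x) : PS c0 (2 * x + 2) (2 * x + 2) (2 * x + 2) (2 * x)
  | M (x : ℤ) (h : c0 ≤ x) : PS c0 (2 * x + 4) (2 * x + 2) (2 * x + 2) (2 * x)
  | Sh : PS c0 (2 * c0 + 1) (2 * c0 + 1) (2 * c0 + 1) (2 * c0 + 1)
  | Mh : PS c0 (2 * c0 + 2) (2 * c0 + 1) (2 * c0 + 1) (2 * c0)
  | t10 : PS c0 (2 * c0 + 2) (2 * c0 + 1) (2 * c0 + 1) (2 * c0 + 1)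
  | t11 : PS c0 (2 * c0 + 2) (2 * c0 + 2) (2 * c0 + 1) (2 * c0)
  | t12 : PS c0 (2 * c0 + 2) (2 * c0 + 2) (2 * c0 + 1) (2 * c0 + 1)
  | t3 : PS c0 (2 * c0 + 2) (2 * c0 + 2) (2 * c0 + 2) (2 * c0 + 1)
  | t4 : PS c0 (2 * c0 + 4) (2 * c0 + 2) (2 * c0 + 2) (2 * c0 + 1)

lemma ESq.pos {c0 x11 x10 x01 x00 : ℤ} (h : ESq c0 x11 x10 x01 x00)
    (hp : 8 * c0 + 4 ≤ x11 + x10 + x01 + x00) : PS c0 x11 x10 x01 x00 := by
  obtain ⟨a1, a2, a3, b1, b2, q11, q10, q01, q00⟩ := h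
  rcases q00 with h00 | rfl
  · obtain ⟨x, rfl⟩ : ∃ x, x00 = 2 * x := ⟨x00 / 2, by omega⟩
    rcases q01 with h01 | rfl
    · rcases (show x01 = 2 * x ∨ x01 = 2 * x + 2 by omega) with rfl | rfl
      · rcases q10 with h10 | rfl
        · rcases (show x10 = 2 * x ∨ x10 = 2 * x + 2 by omega) with rfl | rfl
          · rcases q11 with h11 | rfl
            · rcases (show x11 = 2 * x ∨ x11 = 2 * x + 2 by omega) with rfl | rfl
              · exact PS.S x (by omega)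
              · exact PS.P x (by omega)
            · omega
          · obtain rfl : x11 = 2 * x + 2 := by omega
            rcases (show c0 + 1 ≤ x ∨ x = c0 by omega) with h | rfl
            · exact PS.N x h
            · exact PS.N0
        · omega
      · obtain rfl : x10 = 2 * x + 2 := by omega
        rcases q11 with h11 | rfl
        · rcases (show x11 = 2 * x + 2 ∨ x11 = 2 * x + 4 by omega) with rfl | rfl
          · exact PS.Q x (by omega)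
          · exact PS.M x (by omega)
        · omega
    · obtain rfl : x = c0 := by omega
      rcases q10 with h10 | rfl
      · obtain rfl : x10 = 2 * x + 2 := by omega
        obtain rfl : x11 = 2 * x + 2 := by omega
        exact PS.t11
      · rcases (show x11 = 2 * x + 1 ∨ x11 = 2 * x + 2 by omega) with rfl | rfl
        · omega
        · exact PS.Mh
  · rcases q01 with h01 | rfl
    · obtain rfl : x01 = 2 * c0 + 2 := by omega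
      obtain rfl : x10 = 2 * c0 + 2 := by omega
      rcases (show x11 = 2 * c0 + 2 ∨ x11 = 2 * c0 + 4 by omega) with rfl | rfl
      · exact PS.t3
      · exact PS.t4
    · rcases (show x10 = 2 * c0 + 1 ∨ x10 = 2 * c0 + 2 by omega) with rfl | rfl
      · rcases (show x11 = 2 * c0 + 1 ∨ x11 = 2 * c0 + 2 by omega) with rfl | rfl
        · exact PS.Sh
        · exact PS.t10
      · obtain rfl : x11 = 2 * c0 + 2 := by omega
        exact PS.t12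

/-- new values for nonnegative squares -/
def N1p (c0 u g x11 x10 x01 x00 : ℤ) : ℤ := (x11 + 1) / 2 + R1 c0 u g x11 x10 x01 x00

def N0p (c0 u g x01 x00 : ℤ) : ℤ := (x01 + 1) / 2 + R0 c0 u g x01 x00

section eval
variable {R : Type*} [Zero R] [One R] (c0 : ℤ) (u g : R)

lemma R1S {x : ℤ} (h : c0 + 1 ≤ x) : R1 c0 u g (2 * x) (2 * x) (2 * x) (2 * x) = u := by
  unfold R1
  rw [if_pos rfl, if_neg (by omega), if_neg (by omega), if_neg (by omega)]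

lemma R0S {x : ℤ} (h : c0 + 1 ≤ x) : R0 c0 u g (2 * x) (2 * x) = u := by
  unfold R0
  rw [if_pos rfl, if_neg (by omega), if_neg (by omega)]

lemma R1P {x : ℤ} : R1 c0 u g (2 * x + 2) (2 * x) (2 * x) (2 * x) = 0 := by
  unfold R1
  rw [if_neg (by omega), if_neg (by omega)]

lemma R1N {x : ℤ} (h : c0 + 1 ≤ x) : R1 c0 u g (2 * x + 2) (2 * x + 2) (2 * x) (2 * x) = u := by
  unfold R1
  rw [if_pos rfl, if_neg (by omega), if_neg (by omega), if_neg (by omega)]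

lemma R1N0 : R1 c0 u g (2 * c0 + 2) (2 * c0 + 2) (2 * c0) (2 * c0) = 0 := by
  unfold R1
  rw [if_pos rfl, if_neg (by omega), if_pos rfl]

lemma R0N0 : R0 c0 u g (2 * c0) (2 * c0) = 1 := by
  unfold R0
  rw [if_pos rfl, if_neg (by omega), if_pos rfl]

lemma R1Q {x : ℤ} (h : c0 ≤ x) :
    R1 c0 u g (2 * x + 2) (2 * x + 2) (2 * x + 2) (2 * x) = u := by
  unfold R1
  rw [if_pos rfl, if_neg (by omega), if_neg (by omega), if_neg (by omega)]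

lemma R0Q {x : ℤ} : R0 c0 u g (2 * x + 2) (2 * x) = 0 := by
  unfold R0
  rw [if_neg (by omega), if_neg (by omega)]

lemma R1M {x : ℤ} : R1 c0 u g (2 * x + 4) (2 * x + 2) (2 * x + 2) (2 * x) = 0 := by
  unfold R1
  rw [if_neg (by omega), if_neg (by omega)]

lemma R1Sh : R1 c0 u g (2 * c0 + 1) (2 * c0 + 1) (2 * c0 + 1) (2 * c0 + 1) = 0 := by
  unfold R1
  rw [if_pos rfl, if_pos rfl]

lemma R0Sh : R0 c0 u g (2 * c0 + 1) (2 * c0 + 1) = 0 := by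
  unfold R0
  rw [if_pos rfl, if_pos rfl]

lemma R1Mh : R1 c0 u g (2 * c0 + 2) (2 * c0 + 1) (2 * c0 + 1) (2 * c0) = 0 := by
  unfold R1
  rw [if_neg (by omega), if_neg (by omega)]

lemma R0Mh : R0 c0 u g (2 * c0 + 1) (2 * c0) = 0 := by
  unfold R0
  rw [if_neg (by omega), if_neg (by omega)]

lemma R1t10 : R1 c0 u g (2 * c0 + 2) (2 * c0 + 1) (2 * c0 + 1) (2 * c0 + 1) = g := by
  unfold R1
  rw [if_neg (by omega), if_pos ⟨rfl, rfl⟩]

lemma R1t11 : R1 c0 u g (2 * c0 + 2) (2 * c0 + 2) (2 * c0 + 1) (2 * c0) = g := by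
  unfold R1
  rw [if_pos rfl, if_neg (by omega), if_neg (by omega), if_pos ⟨rfl, rfl⟩]

lemma R1t12 : R1 c0 u g (2 * c0 + 2) (2 * c0 + 2) (2 * c0 + 1) (2 * c0 + 1) = u := by
  unfold R1
  rw [if_pos rfl, if_neg (by omega), if_neg (by omega), if_neg (by omega)]

lemma R1t3 : R1 c0 u g (2 * c0 + 2) (2 * c0 + 2) (2 * c0 + 2) (2 * c0 + 1) = u := by
  unfold R1
  rw [if_pos rfl, if_neg (by omega), if_neg (by omega), if_neg (by omega)]

lemma R0t3 : R0 c0 u g (2 * c0 + 2) (2 * c0 + 1) = g := by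
  unfold R0
  rw [if_neg (by omega), if_pos rfl]

lemma R1t4 : R1 c0 u g (2 * c0 + 4) (2 * c0 + 2) (2 * c0 + 2) (2 * c0 + 1) = 0 := by
  unfold R1
  rw [if_neg (by omega), if_neg (by omega)]

end eval

/-- linear description of the new values -/
lemma PS.val {c0 x11 x10 x01 x00 : ℤ} (h : PS c0 x11 x10 x01 x00) (u g : ℤ) :
    (∃ x, c0 + 1 ≤ x ∧ x11 = 2 * x ∧ x10 = 2 * x ∧ x01 = 2 * x ∧ x00 = 2 * x ∧
      N1p c0 u g x11 x10 x01 x00 = x + u ∧ N0p c0 u g x01 x00 = x + u) ∨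
    (∃ x, c0 + 1 ≤ x ∧ x11 = 2 * x + 2 ∧ x10 = 2 * x ∧ x01 = 2 * x ∧ x00 = 2 * x ∧
      N1p c0 u g x11 x10 x01 x00 = x + 1 ∧ N0p c0 u g x01 x00 = x + u) ∨
    (∃ x, c0 + 1 ≤ x ∧ x11 = 2 * x + 2 ∧ x10 = 2 * x + 2 ∧ x01 = 2 * x ∧ x00 = 2 * x ∧
      N1p c0 u g x11 x10 x01 x00 = x + 1 + u ∧ N0p c0 u g x01 x00 = x + u) ∨
    (x11 = 2 * c0 + 2 ∧ x10 = 2 * c0 + 2 ∧ x01 = 2 * c0 ∧ x00 = 2 * c0 ∧
      N1p c0 u g x11 x10 x01 x00 = c0 + 1 ∧ N0p c0 u g x01 x00 = c0 + 1) ∨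
    (∃ x, c0 ≤ x ∧ x11 = 2 * x + 2 ∧ x10 = 2 * x + 2 ∧ x01 = 2 * x + 2 ∧ x00 = 2 * x ∧
      N1p c0 u g x11 x10 x01 x00 = x + 1 + u ∧ N0p c0 u g x01 x00 = x + 1) ∨
    (∃ x, c0 ≤ x ∧ x11 = 2 * x + 4 ∧ x10 = 2 * x + 2 ∧ x01 = 2 * x + 2 ∧ x00 = 2 * x ∧
      N1p c0 u g x11 x10 x01 x00 = x + 2 ∧ N0p c0 u g x01 x00 = x + 1) ∨
    (x11 = 2 * c0 + 1 ∧ x10 = 2 * c0 + 1 ∧ x01 = 2 * c0 + 1 ∧ x00 = 2 * c0 + 1 ∧
      N1p c0 u g x11 x10 x01 x00 = c0 + 1 ∧ N0p c0 u g x01 x00 = c0 + 1) ∨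
    (x11 = 2 * c0 + 2 ∧ x10 = 2 * c0 + 1 ∧ x01 = 2 * c0 + 1 ∧ x00 = 2 * c0 ∧
      N1p c0 u g x11 x10 x01 x00 = c0 + 1 ∧ N0p c0 u g x01 x00 = c0 + 1) ∨
    (x11 = 2 * c0 + 2 ∧ x10 = 2 * c0 + 1 ∧ x01 = 2 * c0 + 1 ∧ x00 = 2 * c0 + 1 ∧
      N1p c0 u g x11 x10 x01 x00 = c0 + 1 + g ∧ N0p c0 u g x01 x00 = c0 + 1) ∨
    (x11 = 2 * c0 + 2 ∧ x10 = 2 * c0 + 2 ∧ x01 = 2 * c0 + 1 ∧ x00 = 2 * c0 ∧
      N1p c0 u g x11 x10 x01 x00 = c0 + 1 + g ∧ N0p c0 u g x01 x00 = c0 + 1) ∨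
    (x11 = 2 * c0 + 2 ∧ x10 = 2 * c0 + 2 ∧ x01 = 2 * c0 + 1 ∧ x00 = 2 * c0 + 1 ∧
      N1p c0 u g x11 x10 x01 x00 = c0 + 1 + u ∧ N0p c0 u g x01 x00 = c0 + 1) ∨
    (x11 = 2 * c0 + 2 ∧ x10 = 2 * c0 + 2 ∧ x01 = 2 * c0 + 2 ∧ x00 = 2 * c0 + 1 ∧
      N1p c0 u g x11 x10 x01 x00 = c0 + 1 + u ∧ N0p c0 u g x01 x00 = c0 + 1 + g) ∨
    (x11 = 2 * c0 + 4 ∧ x10 = 2 * c0 + 2 ∧ x01 = 2 * c0 + 2 ∧ x00 = 2 * c0 + 1 ∧
      N1p c0 u g x11 x10 x01 x00 = c0 + 2 ∧ N0p c0 u g x01 x00 = c0 + 1 + g) := by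
  unfold N1p N0p
  cases h with
  | S x h => left; exact ⟨x, h, rfl, rfl, rfl, rfl, by rw [R1S c0 u g h]; omega,
      by rw [R0S c0 u g h]; omega⟩
  | P x h => right; left; exact ⟨x, h, rfl, rfl, rfl, rfl, by rw [R1P]; omega,
      by rw [R0S c0 u g h]; omega⟩
  | N x h => right; right; left; exact ⟨x, h, rfl, rfl, rfl, rfl, by rw [R1N c0 u g h]; omega,
      by rw [R0S c0 u g h]; omega⟩
  | N0 => iterate 3 right
          left; exact ⟨rfl, rfl, rfl, rfl, by rw [R1N0]; omega, by rw [R0N0]; omega⟩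
  | Q x h => iterate 4 right
             left; exact ⟨x, h, rfl, rfl, rfl, rfl, by rw [R1Q c0 u g h]; omega,
               by rw [R0Q]; omega⟩
  | M x h => iterate 5 right
             left; exact ⟨x, h, rfl, rfl, rfl, rfl, by rw [R1M]; omega, by rw [R0Q]; omega⟩
  | Sh => iterate 6 right
          left; exact ⟨rfl, rfl, rfl, rfl, by rw [R1Sh]; omega, by rw [R0Sh]; omega⟩
  | Mh => iterate 7 right
          left; exact ⟨rfl, rfl, rfl, rfl, by rw [R1Mh]; omega, by rw [R0Mh]; omega⟩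
  | t10 => iterate 8 right
           left; exact ⟨rfl, rfl, rfl, rfl, by rw [R1t10]; omega, by rw [R0Sh]; omega⟩
  | t11 => iterate 9 right
           left; exact ⟨rfl, rfl, rfl, rfl, by rw [R1t11]; omega, by rw [R0Mh]; omega⟩
  | t12 => iterate 10 right
           left; exact ⟨rfl, rfl, rfl, rfl, by rw [R1t12]; omega, by rw [R0Sh]; omega⟩
  | t3 => iterate 11 right
          left; exact ⟨rfl, rfl, rfl, rfl, by rw [R1t3]; omega, by rw [R0t3]; omega⟩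
  | t4 => iterate 12 right
          exact ⟨rfl, rfl, rfl, rfl, by rw [R1t4]; omega, by rw [R0t3]; omega⟩

end Pool.Agent.MP_867aae_co.P75
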