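import Mathlib
import Pool.Agent.MP_867aae_co.P75.OC

/-!
Validity of the new values.
-/

namespace Pool.Agent.MP_867aae_co.P75

open Finset Function Pool.Agent.MP_867aae_co.H75

lemma PS.within {c0 u g : ℤ} (_hu : u = 0 ∨ u = 1) (hg : g = 0 ∨ g = 1)
    {x11 x10 x01 x00 : ℤ} (h : PS c0 x11 x10 x01 x00) (k1 : 4 * c0 + 3 ≤ x10 + x01 → g ≤ u) :
    N1p c0 u g x11 x10 x01 x00 = N0p c0 u g x01 x00 ∨
      N1p c0 u g x11 x10 x01 x00 = N0p c0 u g x01 x00 + 1 := by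
  rcases h.val u g with ⟨x, h1⟩ | ⟨x, h1⟩ | ⟨x, h1⟩ | h1 | ⟨x, h1⟩ | ⟨x, h1⟩ | h1 | h1 | h1 | h1 |
    h1 | h1 | h1 <;> omega

set_option maxHeartbeats 8000000 in
lemma PS.step {c0 u u' g : ℤ} (hu : u = 0 ∨ u = 1) (hu' : u' = 0 ∨ u' = 1) (hg : g = 0 ∨ g = 1)
    {x11 x10 x01 x00 : ℤ} (h : PS c0 x11 x10 x01 x00) {y11 y10 y01 y00 : ℤ}
    (h' : PS c0 y11 y10 y01 y00) (m1 : u ≤ u') (k1 : 4 * c0 + 3 ≤ x10 + x01 → g ≤ u)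
    (k2 : 4 * c0 + 3 ≤ y10 + y01 → g ≤ u')
    (l11 : x11 ≤ y11) (l10 : x10 ≤ y10) (l01 : x01 ≤ y01) (l00 : x00 ≤ y00)
    (u11 : y11 ≤ x11 + 2) (u10 : y10 ≤ x10 + 2) (u01 : y01 ≤ x01 + 2) (u00 : y00 ≤ x00 + 2)
    (c1 : y01 ≤ x11) (c2 : y00 ≤ x10) (c3 : y10 ≤ x11) (c4 : y00 ≤ x01) :
    (N1p c0 u' g y11 y10 y01 y00 = N1p c0 u g x11 x10 x01 x00 ∨
      N1p c0 u' g y11 y10 y01 y00 = N1p c0 u g x11 x10 x01 x00 + 1) ∧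
    (N0p c0 u' g y01 y00 = N0p c0 u g x01 x00 ∨
      N0p c0 u' g y01 y00 = N0p c0 u g x01 x00 + 1) := by
  have e := h.val u g
  have e' := h'.val u' g
  clear h h'
  generalize N1p c0 u' g y11 y10 y01 y00 = n1' at *
  generalize N0p c0 u' g y01 y00 = n0' at *
  generalize N1p c0 u g x11 x10 x01 x00 = n1 at *
  generalize N0p c0 u g x01 x00 = n0 at *
  rcases e with ⟨x, h1⟩ | ⟨x, h1⟩ | ⟨x, h1⟩ | h1 | ⟨x, h1⟩ | ⟨x, h1⟩ | h1 | h1 | h1 | h1 |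
    h1 | h1 | h1 <;>
  rcases e' with ⟨y, h2⟩ | ⟨y, h2⟩ | ⟨y, h2⟩ | h2 | ⟨y, h2⟩ | ⟨y, h2⟩ | h2 | h2 | h2 | h2 |
    h2 | h2 | h2 <;>
  omega

set_option maxHeartbeats 8000000 in
lemma PS.cross {c0 v u' g : ℤ} (hv : v = 0 ∨ v = 1) (hu' : u' = 0 ∨ u' = 1) (hg : g = 0 ∨ g = 1)
    {z11 z10 z01 z00 : ℤ} (h : PS c0 z11 z10 z01 z00) {y11 y10 y01 y00 : ℤ}
    (h' : PS c0 y11 y10 y01 y00) (hs : 8 * c0 + 4 < z11 + z10 + z01 + z00)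
    (l11 : 4 * c0 + 2 - z00 ≤ y11) (l10 : 4 * c0 + 2 - z01 ≤ y10)
    (l01 : 4 * c0 + 2 - z10 ≤ y01) (l00 : 4 * c0 + 2 - z11 ≤ y00)
    (u11 : y11 ≤ 4 * c0 + 2 - z00 + 2) (u10 : y10 ≤ 4 * c0 + 2 - z01 + 2)
    (u01 : y01 ≤ 4 * c0 + 2 - z10 + 2) (u00 : y00 ≤ 4 * c0 + 2 - z11 + 2)
    (c1 : y01 ≤ 4 * c0 + 2 - z00) (c2 : y00 ≤ 4 * c0 + 2 - z01) (c3 : y10 ≤ 4 * c0 + 2 - z00)
    (c4 : y00 ≤ 4 * c0 + 2 - z10) :
    (N1p c0 u' g y11 y10 y01 y00 + N0p c0 v g z01 z00 = 2 * c0 + 2 ∨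
      N1p c0 u' g y11 y10 y01 y00 + N0p c0 v g z01 z00 = 2 * c0 + 3) ∧
    (N0p c0 u' g y01 y00 + N1p c0 v g z11 z10 z01 z00 = 2 * c0 + 2 ∨
      N0p c0 u' g y01 y00 + N1p c0 v g z11 z10 z01 z00 = 2 * c0 + 3) := by
  have e := h.val v g
  have e' := h'.val u' g
  clear h h'
  generalize N1p c0 u' g y11 y10 y01 y00 = n1' at *
  generalize N0p c0 u' g y01 y00 = n0' at *
  generalize N1p c0 v g z11 z10 z01 z00 = n1 at *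
  generalize N0p c0 v g z01 z00 = n0 at *
  rcases e with ⟨x, h1⟩ | ⟨x, h1⟩ | ⟨x, h1⟩ | h1 | ⟨x, h1⟩ | ⟨x, h1⟩ | h1 | h1 | h1 | h1 |
    h1 | h1 | h1 <;>
  rcases e' with ⟨y, h2⟩ | ⟨y, h2⟩ | ⟨y, h2⟩ | h2 | ⟨y, h2⟩ | ⟨y, h2⟩ | h2 | h2 | h2 | h2 |
    h2 | h2 | h2 <;>
  omega

/-- at the centre -/
lemma PS.zero {c0 u g : ℤ} {x11 x10 x01 x00 : ℤ} (h : PS c0 x11 x10 x01 x00)
    (hs : x11 + x10 + x01 + x00 = 8 * c0 + 4) :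
    N1p c0 u g x11 x10 x01 x00 = c0 + 1 ∧ N0p c0 u g x01 x00 = c0 + 1 := by
  rcases h.val u g with ⟨x, h1⟩ | ⟨x, h1⟩ | ⟨x, h1⟩ | h1 | ⟨x, h1⟩ | ⟨x, h1⟩ | h1 | h1 | h1 | h1 |
    h1 | h1 | h1 <;> omega

/-- new values -/
def N1 (c0 u g x11 x10 x01 x00 : ℤ) : ℤ :=
  if 8 * c0 + 4 ≤ x11 + x10 + x01 + x00 then N1p c0 u g x11 x10 x01 x00 else
    2 * c0 + 2 - N0p c0 u g (4 * c0 + 2 - x10) (4 * c0 + 2 - x11)

def N0 (c0 u g x11 x10 x01 x00 : ℤ) : ℤ :=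
  if 8 * c0 + 4 ≤ x11 + x10 + x01 + x00 then N0p c0 u g x01 x00 else
    2 * c0 + 2 - N1p c0 u g (4 * c0 + 2 - x00) (4 * c0 + 2 - x01) (4 * c0 + 2 - x10)
      (4 * c0 + 2 - x11)

/-- the argument used -/
def nst2 (c0 x11 x10 x01 x00 : ℤ) : ℤ :=
  if 8 * c0 + 4 ≤ x11 + x10 + x01 + x00 then (x10 + x01 + 1) / 2 else
    (4 * c0 + 2 - x01 + (4 * c0 + 2 - x10) + 1) / 2

section
variable {c0 g : ℤ} {f : ℤ → ℤ}

lemma N_within (hf : ∀ n, f n = 0 ∨ f n = 1) (hg : g = 0 ∨ g = 1)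
    (hfg : ∀ n, 2 * c0 + 2 ≤ n → g ≤ f n) {x11 x10 x01 x00 : ℤ} (h : ESq c0 x11 x10 x01 x00) :
    N1 c0 (f (nst2 c0 x11 x10 x01 x00)) g x11 x10 x01 x00 =
      N0 c0 (f (nst2 c0 x11 x10 x01 x00)) g x11 x10 x01 x00 ∨
    N1 c0 (f (nst2 c0 x11 x10 x01 x00)) g x11 x10 x01 x00 =
      N0 c0 (f (nst2 c0 x11 x10 x01 x00)) g x11 x10 x01 x00 + 1 := by
  unfold N1 N0 nst2
  by_cases hp : 8 * c0 + 4 ≤ x11 + x10 + x01 + x00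
  · simp only [if_pos hp]
    exact (h.pos hp).within (hf _) hg (fun _ => hfg _ (by omega))
  · simp only [if_neg hp]
    have := (h.anti.pos (by omega)).within (hf ((4 * c0 + 2 - x01 + (4 * c0 + 2 - x10) + 1) / 2)) hg
      (fun _ => hfg _ (by omega))
    omega

lemma N_sd {x11 x10 x01 x00 : ℤ} (h : ESq c0 x11 x10 x01 x00) {y11 y10 y01 y00 : ℤ}
    (e1 : x11 + y00 = 4 * c0 + 2) (e2 : x10 + y01 = 4 * c0 + 2) (e3 : x01 + y10 = 4 * c0 + 2)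
    (e4 : x00 + y11 = 4 * c0 + 2) :
    N1 c0 (f (nst2 c0 x11 x10 x01 x00)) g x11 x10 x01 x00 +
      N0 c0 (f (nst2 c0 y11 y10 y01 y00)) g y11 y10 y01 y00 = 2 * c0 + 2 := by
  obtain rfl : y00 = 4 * c0 + 2 - x11 := by omega
  obtain rfl : y01 = 4 * c0 + 2 - x10 := by omega
  obtain rfl : y10 = 4 * c0 + 2 - x01 := by omega
  obtain rfl : y11 = 4 * c0 + 2 - x00 := by omega
  unfold N1 N0 nst2
  simp only [sub_sub_cancel]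
  rcases lt_trichotomy (x11 + x10 + x01 + x00) (8 * c0 + 4) with hp | hp | hp
  · have hp' : ¬ (8 * c0 + 4 ≤ x11 + x10 + x01 + x00) := by omega
    have hq' : 8 * c0 + 4 ≤ 4 * c0 + 2 - x00 + (4 * c0 + 2 - x01) + (4 * c0 + 2 - x10) +
      (4 * c0 + 2 - x11) := by omega
    simp only [if_neg hp', if_pos hq']
    ring
  · have hp' : 8 * c0 + 4 ≤ x11 + x10 + x01 + x00 := by omega
    have hq' : 8 * c0 + 4 ≤ 4 * c0 + 2 - x00 + (4 * c0 + 2 - x01) + (4 * c0 + 2 - x10) +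
      (4 * c0 + 2 - x11) := by omega
    simp only [if_pos hp', if_pos hq']
    rw [((h.pos hp').zero hp).1, ((h.anti.pos hq').zero (by omega)).2]
    ring
  · have hp' : 8 * c0 + 4 ≤ x11 + x10 + x01 + x00 := by omega
    have hq' : ¬ (8 * c0 + 4 ≤ 4 * c0 + 2 - x00 + (4 * c0 + 2 - x01) + (4 * c0 + 2 - x10) +
      (4 * c0 + 2 - x11)) := by omega
    simp only [if_pos hp', if_neg hq']
    ring

lemma N_step (hf : ∀ n, f n = 0 ∨ f n = 1) (hfm : ∀ n n', n ≤ n' → f n ≤ f n')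
    (hg : g = 0 ∨ g = 1) (hfg : ∀ n, 2 * c0 + 2 ≤ n → g ≤ f n)
    {x11 x10 x01 x00 : ℤ} (h : ESq c0 x11 x10 x01 x00) {y11 y10 y01 y00 : ℤ}
    (h' : ESq c0 y11 y10 y01 y00)
    (l11 : x11 ≤ y11) (l10 : x10 ≤ y10) (l01 : x01 ≤ y01) (l00 : x00 ≤ y00)
    (u11 : y11 ≤ x11 + 2) (u10 : y10 ≤ x10 + 2) (u01 : y01 ≤ x01 + 2) (u00 : y00 ≤ x00 + 2)
    (c1 : y01 ≤ x11) (c2 : y00 ≤ x10) (c3 : y10 ≤ x11) (c4 : y00 ≤ x01) :
    (N1 c0 (f (nst2 c0 y11 y10 y01 y00)) g y11 y10 y01 y00 =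
      N1 c0 (f (nst2 c0 x11 x10 x01 x00)) g x11 x10 x01 x00 ∨
      N1 c0 (f (nst2 c0 y11 y10 y01 y00)) g y11 y10 y01 y00 =
      N1 c0 (f (nst2 c0 x11 x10 x01 x00)) g x11 x10 x01 x00 + 1) ∧
    (N0 c0 (f (nst2 c0 y11 y10 y01 y00)) g y11 y10 y01 y00 =
      N0 c0 (f (nst2 c0 x11 x10 x01 x00)) g x11 x10 x01 x00 ∨
      N0 c0 (f (nst2 c0 y11 y10 y01 y00)) g y11 y10 y01 y00 =
      N0 c0 (f (nst2 c0 x11 x10 x01 x00)) g x11 x10 x01 x00 + 1) := by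
  by_cases hp : 8 * c0 + 4 ≤ x11 + x10 + x01 + x00
  · have hq : 8 * c0 + 4 ≤ y11 + y10 + y01 + y00 := by omega
    unfold N1 N0 nst2
    simp only [if_pos hp, if_pos hq]
    exact (h.pos hp).step (hf _) (hf _) hg (h'.pos hq) (hfm _ _ (by omega))
      (fun _ => hfg _ (by omega)) (fun _ => hfg _ (by omega)) l11 l10 l01 l00 u11 u10 u01 u00
      c1 c2 c3 c4
  · by_cases hq : 8 * c0 + 4 ≤ y11 + y10 + y01 + y00
    · unfold N1 N0 nst2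
      simp only [if_neg hp, if_pos hq]
      have := PS.cross (hf ((4 * c0 + 2 - x01 + (4 * c0 + 2 - x10) + 1) / 2))
        (hf ((y10 + y01 + 1) / 2)) hg (h.anti.pos (by omega)) (h'.pos hq)
        (by omega) (by omega) (by omega) (by omega) (by omega) (by omega) (by omega) (by omega)
        (by omega) (by omega) (by omega) (by omega) (by omega)
      omega
    · unfold N1 N0 nst2
      simp only [if_neg hp, if_neg hq]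
      have := (h'.anti.pos (by omega)).step
        (hf ((4 * c0 + 2 - y01 + (4 * c0 + 2 - y10) + 1) / 2))
        (hf ((4 * c0 + 2 - x01 + (4 * c0 + 2 - x10) + 1) / 2)) hg (h.anti.pos (by omega))
        (hfm _ _ (by omega)) (fun _ => hfg _ (by omega)) (fun _ => hfg _ (by omega))
        (by omega) (by omega) (by omega) (by omega) (by omega) (by omega) (by omega) (by omega)
        (by omega) (by omega) (by omega) (by omega)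
      omega

end

end Pool.Agent.MP_867aae_co.P75
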