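import Mathlib
import Pool.Agent.MP_867aae_co.P75.PJ

/-!
The new function `a'` of the even move.
-/

namespace Pool.Agent.MP_867aae_co.P75

open Finset Function Pool.Agent.MP_867aae_co.H75

/-- new value on the upper edge; `u`, `v` are the values of the indicator at `n`, `4 c0 - n` -/
def A1 (c0 u v x11 x10 x01 x00 : ℤ) : ℤ :=
  if x11 = c0 ∧ x00 = c0 then c0 + 1 else x10 + if x11 = x10 then
    (if 2 * c0 < x10 + x01 ∨ (x10 + x01 = 2 * c0 ∧ c0 < x11) then u else 1 - v) else 1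

/-- new value on the lower edge -/
def A0 (c0 u v x11 x10 x01 x00 : ℤ) : ℤ :=
  if x11 = c0 ∧ x00 = c0 then c0 else x01 + if x01 = x00 then
    (if 2 * c0 < x10 + x01 ∨ (x10 + x01 = 2 * c0 ∧ c0 < x11) then u else 1 - v) else 0

/-- square of values -/
structure Sqr (x11 x10 x01 x00 : ℤ) : Prop where
  s1 : x10 = x00 ∨ x10 = x00 + 1
  s2 : x01 = x00 ∨ x01 = x00 + 1
  s3 : x11 = x10 ∨ x11 = x10 + 1
  s4 : x11 = x01 ∨ x11 = x01 + 1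
  mo : x01 ≤ x10

lemma Sqr.cases {x11 x10 x01 x00 : ℤ} (h : Sqr x11 x10 x01 x00) :
    (x10 = x00 ∧ x01 = x00 ∧ x11 = x00) ∨ (x10 = x00 ∧ x01 = x00 ∧ x11 = x00 + 1) ∨
    (x10 = x00 + 1 ∧ x01 = x00 ∧ x11 = x00 + 1) ∨
    (x10 = x00 + 1 ∧ x01 = x00 + 1 ∧ x11 = x00 + 1) ∨
    (x10 = x00 + 1 ∧ x01 = x00 + 1 ∧ x11 = x00 + 2) := by
  obtain ⟨s1, s2, s3, s4, mo⟩ := h
  omega

section
variable (c0 u v x : ℤ)

lemma A1S : A1 c0 u v x x x x = if x = c0 then c0 + 1 else x + if c0 < x then u else 1 - v := by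
  unfold A1; split_ifs <;> omega

lemma A0S : A0 c0 u v x x x x = if x = c0 then c0 else x + if c0 < x then u else 1 - v := by
  unfold A0; split_ifs <;> omega

lemma A1P : A1 c0 u v (x + 1) x x x = x + 1 := by
  unfold A1; split_ifs <;> omega

lemma A0P : A0 c0 u v (x + 1) x x x = x + if c0 ≤ x then u else 1 - v := by
  unfold A0; split_ifs <;> omega

lemma A1N : A1 c0 u v (x + 1) (x + 1) x x = x + 1 + if c0 ≤ x then u else 1 - v := by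
  unfold A1; split_ifs <;> omega

lemma A0N : A0 c0 u v (x + 1) (x + 1) x x = x + if c0 ≤ x then u else 1 - v := by
  unfold A0; split_ifs <;> omega

lemma A1Q : A1 c0 u v (x + 1) (x + 1) (x + 1) x = x + 1 + if c0 ≤ x then u else 1 - v := by
  unfold A1; split_ifs <;> omega

lemma A0Q : A0 c0 u v (x + 1) (x + 1) (x + 1) x = x + 1 := by
  unfold A0; split_ifs <;> omega

lemma A1M : A1 c0 u v (x + 2) (x + 1) (x + 1) x = x + 2 := by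
  unfold A1; split_ifs <;> omega

lemma A0M : A0 c0 u v (x + 2) (x + 1) (x + 1) x = x + 1 := by
  unfold A0; split_ifs <;> omega

end

lemma A_within {c0 u v : ℤ} (hu : u = 0 ∨ u = 1) (hv : v = 0 ∨ v = 1) {x11 x10 x01 x00 : ℤ}
    (h : Sqr x11 x10 x01 x00) :
    A1 c0 u v x11 x10 x01 x00 = A0 c0 u v x11 x10 x01 x00 ∨
      A1 c0 u v x11 x10 x01 x00 = A0 c0 u v x11 x10 x01 x00 + 1 := by
  rcases h.cases with ⟨rfl, rfl, rfl⟩ | ⟨rfl, rfl, rfl⟩ | ⟨rfl, rfl, rfl⟩ | ⟨rfl, rfl, rfl⟩ |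
    ⟨rfl, rfl, rfl⟩
  · rw [A1S, A0S]; split_ifs <;> omega
  · rw [A1P, A0P]; split_ifs <;> omega
  · rw [A1N, A0N]; split_ifs <;> omega
  · rw [A1Q, A0Q]; split_ifs <;> omega
  · rw [A1M, A0M]; omega

lemma A_sd {c0 u v : ℤ} {x11 x10 x01 x00 : ℤ}
    (h : Sqr x11 x10 x01 x00) {y11 y10 y01 y00 : ℤ} (e1 : x11 + y00 = 2 * c0)
    (e2 : x10 + y01 = 2 * c0) (e3 : x01 + y10 = 2 * c0) (e4 : x00 + y11 = 2 * c0)
    (h3 : x10 + x01 = 2 * c0 → u = v) :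
    A1 c0 u v x11 x10 x01 x00 + A0 c0 v u y11 y10 y01 y00 = 2 * c0 + 1 := by
  obtain rfl : y00 = 2 * c0 - x11 := by omega
  obtain rfl : y01 = 2 * c0 - x10 := by omega
  obtain rfl : y10 = 2 * c0 - x01 := by omega
  obtain rfl : y11 = 2 * c0 - x00 := by omega
  rcases h.cases with ⟨rfl, rfl, rfl⟩ | ⟨rfl, rfl, rfl⟩ | ⟨rfl, rfl, rfl⟩ | ⟨rfl, rfl, rfl⟩ |
    ⟨rfl, rfl, rfl⟩
  · rw [A1S]; unfold A0; split_ifs <;> omega
  · rw [A1P]; unfold A0; split_ifs <;> omega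
  · rw [A1N]; unfold A0; split_ifs <;> omega
  · rw [A1Q]; unfold A0; split_ifs <;> omega
  · rw [A1M]; unfold A0; split_ifs <;> omega

lemma A_step {c0 u v u' v' : ℤ} (hu : u = 0 ∨ u = 1) (hv : v = 0 ∨ v = 1) (hu' : u' = 0 ∨ u' = 1)
    (hv' : v' = 0 ∨ v' = 1) {x11 x10 x01 x00 : ℤ}
    (h : Sqr x11 x10 x01 x00) {y11 y10 y01 y00 : ℤ} (h' : Sqr y11 y10 y01 y00)
    (m1 : 2 * c0 ≤ x10 + x01 → u ≤ u') (m2 : y10 + y01 ≤ 2 * c0 → v' ≤ v)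
    (m3 : x10 + x01 = 2 * c0 → v = u) (m4 : y10 + y01 = 2 * c0 → v' = u')
    (u11 : y11 = x11 ∨ y11 = x11 + 1) (u10 : y10 = x10 ∨ y10 = x10 + 1)
    (u01 : y01 = x01 ∨ y01 = x01 + 1) (u00 : y00 = x00 ∨ y00 = x00 + 1)
    (c1 : y01 ≤ x11) (c2 : y00 ≤ x10) (c3 : y10 ≤ x11) (c4 : y00 ≤ x01) :
    (A1 c0 u' v' y11 y10 y01 y00 = A1 c0 u v x11 x10 x01 x00 ∨
      A1 c0 u' v' y11 y10 y01 y00 = A1 c0 u v x11 x10 x01 x00 + 1) ∧
    (A0 c0 u' v' y11 y10 y01 y00 = A0 c0 u v x11 x10 x01 x00 ∨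
      A0 c0 u' v' y11 y10 y01 y00 = A0 c0 u v x11 x10 x01 x00 + 1) := by
  rcases h.cases with ⟨rfl, rfl, rfl⟩ | ⟨rfl, rfl, rfl⟩ | ⟨rfl, rfl, rfl⟩ | ⟨rfl, rfl, rfl⟩ |
      ⟨rfl, rfl, rfl⟩ <;>
    rcases h'.cases with ⟨rfl, rfl, rfl⟩ | ⟨rfl, rfl, rfl⟩ | ⟨rfl, rfl, rfl⟩ | ⟨rfl, rfl, rfl⟩ |
      ⟨rfl, rfl, rfl⟩ <;>
    simp only [A1S, A0S, A1P, A0P, A1N, A0N, A1Q, A0Q, A1M, A0M] <;>
    first
    | (exfalso; omega)
    | (constructor <;> first | omega | (split_ifs <;> omega))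

end Pool.Agent.MP_867aae_co.P75
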