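import Mathlib
import Pool.Agent.MP_867aae_co.P75.PX
import Pool.Agent.MP_867aae_co.P75.PI
import Pool.Agent.MP_867aae_co.H75.SConv

/-!
The expected new weight of a square.
-/

namespace Pool.Agent.MP_867aae_co.P75

open Pool.Agent.MP_867aae_co.H75

/-- the new weight of a square as a function of the indicator values -/
noncomputable def XX (p : ℕ) (c0 : ℤ) (U V : ℝ) (x11 x10 x01 x00 : ℤ) : ℝ :=
  if x11 = c0 ∧ x00 = c0 then Gf (p + 1) (c0 + 1) + Gf (p + 1) c0 else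
    (if x11 = x10 then Gf (p + 1) x10 + (if 2 * c0 < x10 + x01 ∨ (x10 + x01 = 2 * c0 ∧ c0 < x11)
      then U else 1 - V) * (kf p (x10 + 1) + kf p x10) else Gf (p + 1) (x10 + 1)) +
    (if x01 = x00 then Gf (p + 1) x01 + (if 2 * c0 < x10 + x01 ∨ (x10 + x01 = 2 * c0 ∧ c0 < x11)
      then U else 1 - V) * (kf p (x01 + 1) + kf p x01) else Gf (p + 1) x01)

/-- slope -/
noncomputable def XS (p : ℕ) (c0 x11 x10 x01 x00 : ℤ) : ℝ :=
  if x11 = c0 ∧ x00 = c0 then 0 else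
    (if x11 = x10 then (if 2 * c0 < x10 + x01 ∨ (x10 + x01 = 2 * c0 ∧ c0 < x11)
      then 1 else -1) * (kf p (x10 + 1) + kf p x10) else 0) +
    (if x01 = x00 then (if 2 * c0 < x10 + x01 ∨ (x10 + x01 = 2 * c0 ∧ c0 < x11)
      then 1 else -1) * (kf p (x01 + 1) + kf p x01) else 0)

/-- the argument used -/
def nst (c0 x11 x10 x01 : ℤ) : ℤ :=
  if 2 * c0 < x10 + x01 ∨ (x10 + x01 = 2 * c0 ∧ c0 < x11) then x10 + x01 else
    4 * c0 - (x10 + x01)

lemma XX_diff (p : ℕ) (c0 : ℤ) (f g : ℤ → ℝ) (x11 x10 x01 x00 : ℤ) :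
    XX p c0 (f (x10 + x01)) (f (4 * c0 - (x10 + x01))) x11 x10 x01 x00 =
      XX p c0 (g (x10 + x01)) (g (4 * c0 - (x10 + x01))) x11 x10 x01 x00 +
      (f (nst c0 x11 x10 x01) - g (nst c0 x11 x10 x01)) * XS p c0 x11 x10 x01 x00 := by
  unfold XX XS nst
  by_cases h1 : x11 = c0 ∧ x00 = c0
  · rw [if_pos h1, if_pos h1, if_pos h1]; ring
  · rw [if_neg h1, if_neg h1, if_neg h1]
    by_cases h2 : 2 * c0 < x10 + x01 ∨ (x10 + x01 = 2 * c0 ∧ c0 < x11)
    · simp only [if_pos h2]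
      split_ifs <;> ring
    · simp only [if_neg h2]
      split_ifs <;> ring

lemma G'_succ (p : ℕ) (x : ℤ) :
    Gf (p + 1) (x + 1) = Gf (p + 1) x + (kf p (x + 1) + kf p x) := by
  rw [Gf_rec, Gf_rec, add_sub_cancel_right, Gf_succ, Gf_pred]; ring

lemma XX_int (p : ℕ) (c0 : ℤ) {u v : ℤ} (hu : u = 0 ∨ u = 1) (hv : v = 0 ∨ v = 1)
    (x11 x10 x01 x00 : ℤ) :
    XX p c0 u v x11 x10 x01 x00 =
      Gf (p + 1) (A1 c0 u v x11 x10 x01 x00) + Gf (p + 1) (A0 c0 u v x11 x10 x01 x00) := by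
  unfold XX A1 A0
  by_cases h1 : x11 = c0 ∧ x00 = c0
  · rw [if_pos h1, if_pos h1, if_pos h1]
  · rw [if_neg h1, if_neg h1, if_neg h1]
    by_cases h2 : 2 * c0 < x10 + x01 ∨ (x10 + x01 = 2 * c0 ∧ c0 < x11)
    · simp only [if_pos h2]
      rcases hu with rfl | rfl
      · split_ifs <;> simp
      · split_ifs <;> simp [G'_succ]
    · simp only [if_neg h2]
      rcases hv with rfl | rfl
      · split_ifs <;> simp [G'_succ]
      · split_ifs <;> simp

/-- expected new weight -/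
noncomputable def XP (p : ℕ) (c0 x11 x10 x01 x00 : ℤ) : ℝ :=
  XX p c0 (piv p (x10 + x01)) (piv p (4 * c0 - (x10 + x01))) x11 x10 x01 x00

section
variable (p : ℕ) (c0 x : ℤ)

lemma G'_eq : Gf (p + 1) x = 2 * Gf p x - kf p x := by
  rw [Gf_rec, Gf_pred]; ring

lemma XS_pos (h : c0 < x) : XP p c0 x x x x = 4 * Gf p x := by
  unfold XP XX
  rw [if_neg (by omega), if_pos rfl, if_pos rfl, if_pos (by omega), piv_even, G'_eq]
  have := pe_rel p x
  linarith

lemma XS_zero : XP p c0 c0 c0 c0 c0 = 4 * Gf p c0 + (kf p (c0 + 1) - kf p c0) := by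
  unfold XP XX
  rw [if_pos ⟨rfl, rfl⟩, G'_succ, G'_eq]
  ring

lemma XS_neg (h : x < c0) : XP p c0 x x x x = 4 * Gf p x + 2 * EE p (2 * c0 - x) x := by
  unfold XP XX
  rw [if_neg (by omega), if_pos rfl, if_pos rfl, if_neg (by omega),
    show 4 * c0 - (x + x) = (2 * c0 - x) + (2 * c0 - x) by ring, piv_even, G'_eq]
  unfold EE
  ring

lemma XP_pos (h : c0 ≤ x) : XP p c0 (x + 1) x x x = Gf p (x + 1) + 3 * Gf p x := by
  unfold XP XX
  rw [if_neg (by omega), if_neg (by omega), if_pos rfl, if_pos (by omega), piv_even, G'_succ,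
    G'_eq, Gf_succ]
  have := pe_rel p x
  linarith

lemma XP_neg (h : x < c0) :
    XP p c0 (x + 1) x x x = Gf p (x + 1) + 3 * Gf p x + EE p (2 * c0 - x) x := by
  unfold XP XX
  rw [if_neg (by omega), if_neg (by omega), if_pos rfl, if_neg (by omega),
    show 4 * c0 - (x + x) = (2 * c0 - x) + (2 * c0 - x) by ring, piv_even, G'_succ, G'_eq, Gf_succ]
  unfold EE
  ring

lemma XN_pos (h : c0 ≤ x) : XP p c0 (x + 1) (x + 1) x x = 2 * Gf p (x + 1) + 2 * Gf p x := by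
  unfold XP XX
  rw [if_neg (by omega), if_pos rfl, if_pos rfl, if_pos (by omega), piv_odd, G'_succ, G'_eq,
    Gf_succ]
  have := po_rel p x
  rw [show x + 1 + 1 = x + 2 by ring]
  linarith

lemma XN_neg (h : x < c0) : XP p c0 (x + 1) (x + 1) x x =
    2 * Gf p (x + 1) + 2 * Gf p x + EN p (2 * c0 - 1 - x) x := by
  unfold XP XX
  rw [if_neg (by omega), if_pos rfl, if_pos rfl, if_neg (by omega),
    show 4 * c0 - (x + 1 + x) = (2 * c0 - 1 - x) + 1 + (2 * c0 - 1 - x) by ring, piv_odd,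
    G'_succ, G'_eq, Gf_succ]
  unfold EN
  rw [show x + 1 + 1 = x + 2 by ring]
  ring

lemma XQ_pos (h : c0 ≤ x) :
    XP p c0 (x + 1) (x + 1) (x + 1) x = 3 * Gf p (x + 1) + Gf p x := by
  unfold XP XX
  rw [if_neg (by omega), if_pos rfl, if_pos (by omega), if_neg (by omega), piv_even, G'_eq,
    Gf_succ]
  have := pe_rel p (x + 1)
  linarith

lemma XQ_neg (h : x < c0) : XP p c0 (x + 1) (x + 1) (x + 1) x =
    3 * Gf p (x + 1) + Gf p x + EE p (2 * c0 - 1 - x) (x + 1) := by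
  unfold XP XX
  rw [if_neg (by omega), if_pos rfl, if_neg (by omega), if_neg (by omega),
    show 4 * c0 - (x + 1 + (x + 1)) = (2 * c0 - 1 - x) + (2 * c0 - 1 - x) by ring, piv_even,
    G'_eq, Gf_succ]
  unfold EE
  ring

lemma XM_eq : XP p c0 (x + 2) (x + 1) (x + 1) x = Gf p (x + 2) + 2 * Gf p (x + 1) + Gf p x := by
  unfold XP XX
  rw [if_neg (by omega), if_neg (by omega), if_neg (by omega), G'_succ, G'_eq,
    show x + 2 = x + 1 + 1 by ring, Gf_succ p (x + 1), Gf_succ p x]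
  ring

end

/-- the expected new weight is at least the sum -/
lemma XP_ge {p : ℕ} {c0 : ℤ} (hA : 2 * c0 ≤ p - 1) {x11 x10 x01 x00 : ℤ}
    (h : Sqr x11 x10 x01 x00) :
    Gf p x11 + Gf p x10 + Gf p x01 + Gf p x00 ≤ XP p c0 x11 x10 x01 x00 := by
  rcases h.cases with ⟨rfl, rfl, rfl⟩ | ⟨rfl, rfl, rfl⟩ | ⟨rfl, rfl, rfl⟩ | ⟨rfl, rfl, rfl⟩ |
    ⟨rfl, rfl, rfl⟩
  · rcases lt_trichotomy x11 c0 with h1 | h1 | h1
    · rw [XS_neg p c0 x11 h1]
      have := EE_nonneg p (x := 2 * c0 - x11) (y := x11) (by omega) (by omega)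
      linarith
    · subst h1
      rw [XS_zero]
      have : kf p x11 ≤ kf p (x11 + 1) := (by unfold kf; exact_mod_cast cz_closer (by omega) (by omega))
      linarith
    · rw [XS_pos p c0 x11 h1]; linarith
  · rcases lt_or_ge x01 c0 with h1 | h1
    · rw [XP_neg p c0 x01 h1]
      have := EE_nonneg p (x := 2 * c0 - x01) (y := x01) (by omega) (by omega)
      linarith
    · rw [XP_pos p c0 x01 h1]; linarith
  · rcases lt_or_ge x01 c0 with h1 | h1
    · rw [XN_neg p c0 x01 h1]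
      have := EN_nonneg p (x := 2 * c0 - 1 - x01) (y := x01) (by omega) (by omega)
      linarith
    · rw [XN_pos p c0 x01 h1]; linarith
  · rcases lt_or_ge x00 c0 with h1 | h1
    · rw [XQ_neg p c0 x00 h1]
      have := EE_nonneg p (x := 2 * c0 - 1 - x00) (y := x00 + 1) (by omega) (by omega)
      linarith
    · rw [XQ_pos p c0 x00 h1]; linarith
  · rw [XM_eq]; linarith

end Pool.Agent.MP_867aae_co.P75
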