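import Mathlib
import Pool.Agent.MP_867aae_co.P75.OB
import Pool.Agent.MP_867aae_co.P75.OD
import Pool.Agent.MP_867aae_co.P75.PE

/-!
Expected new weights of squares with a half-integral value.
-/

namespace Pool.Agent.MP_867aae_co.P75

open Finset Function Pool.Agent.MP_867aae_co.H75

/-- weight of a doubled value -/
noncomputable def Gx (p : ℕ) (c0 X : ℤ) : ℝ :=
  if X = 2 * c0 + 1 then 2 * Gf p c0 else Gf (p + 1) (X / 2)

lemma Gx_half (p : ℕ) (c0 : ℤ) {X : ℤ} (h : X = 2 * c0 + 1) : Gx p c0 X = 2 * Gf p c0 := if_pos h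

lemma Gx_int (p : ℕ) (c0 : ℤ) {X x : ℤ} (h : X = 2 * x) : Gx p c0 X = Gf (p + 1) x := by
  unfold Gx
  rw [if_neg (by omega)]
  congr 1; omega

lemma G1_c (p : ℕ) (c0 : ℤ) : Gf (p + 1) c0 = 2 * Gf p c0 - kf p c0 := by
  rw [Gf_rec, Gf_pred]; ring

lemma G1_c1 (p : ℕ) (c0 : ℤ) : Gf (p + 1) (c0 + 1) = 2 * Gf p c0 + kf p (c0 + 1) := by
  rw [Gf_rec, add_sub_cancel_right, Gf_succ]; ring

lemma Gx_mono (p : ℕ) (c0 : ℤ) : Monotone (Gx p c0) := by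
  intro X Y h
  unfold Gx
  split_ifs with h1 h2 h2
  · exact le_rfl
  · have := Gf_mono (p + 1) (show c0 + 1 ≤ Y / 2 by omega)
    rw [G1_c1 p c0] at this
    linarith [kf_nonneg p (c0 + 1)]
  · have := Gf_mono (p + 1) (show X / 2 ≤ c0 by omega)
    rw [G1_c p c0] at this
    linarith [kf_nonneg p c0]
  · exact Gf_mono (p + 1) (by omega)

lemma Gx_nonneg (p : ℕ) (c0 X : ℤ) : 0 ≤ Gx p c0 X := by
  unfold Gx
  split_ifs
  · linarith [Gf_nonneg p c0]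
  · exact Gf_nonneg _ _

/-- weight for nonnegative squares -/
noncomputable def WP (p : ℕ) (c0 : ℤ) (U g : ℝ) (x11 x10 x01 x00 : ℤ) : ℝ :=
  Gf (p + 1 + 1) ((x11 + 1) / 2) +
    R1 c0 U g x11 x10 x01 x00 * kf (p + 1 + 1) ((x11 + 1) / 2 + 1) +
    (Gf (p + 1 + 1) ((x01 + 1) / 2) + R0 c0 U g x01 x00 * kf (p + 1 + 1) ((x01 + 1) / 2 + 1))

/-- weight of the antipode of a nonnegative square -/
noncomputable def WN (p : ℕ) (c0 : ℤ) (U g : ℝ) (x11 x10 x01 x00 : ℤ) : ℝ :=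
  Gf (p + 1 + 1) (2 * c0 + 2 - (x11 + 1) / 2) -
    R1 c0 U g x11 x10 x01 x00 * kf (p + 1 + 1) (2 * c0 + 2 - (x11 + 1) / 2) +
    (Gf (p + 1 + 1) (2 * c0 + 2 - (x01 + 1) / 2) -
      R0 c0 U g x01 x00 * kf (p + 1 + 1) (2 * c0 + 2 - (x01 + 1) / 2))

noncomputable def WX (p : ℕ) (c0 : ℤ) (U g : ℝ) (x11 x10 x01 x00 : ℤ) : ℝ :=
  if 8 * c0 + 4 ≤ x11 + x10 + x01 + x00 then WP p c0 U g x11 x10 x01 x00 else
    WN p c0 U g (4 * c0 + 2 - x00) (4 * c0 + 2 - x01) (4 * c0 + 2 - x10) (4 * c0 + 2 - x11)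

lemma R1_aff (c0 : ℤ) (U g : ℝ) (x11 x10 x01 x00 : ℤ) : R1 c0 U g x11 x10 x01 x00 =
    R1 c0 (0 : ℝ) 0 x11 x10 x01 x00 +
      U * (R1 c0 (1 : ℝ) 0 x11 x10 x01 x00 - R1 c0 (0 : ℝ) 0 x11 x10 x01 x00) +
      g * (R1 c0 (0 : ℝ) 1 x11 x10 x01 x00 - R1 c0 (0 : ℝ) 0 x11 x10 x01 x00) := by
  unfold R1; split_ifs <;> ring

lemma R0_aff (c0 : ℤ) (U g : ℝ) (x01 x00 : ℤ) : R0 c0 U g x01 x00 =
    R0 c0 (0 : ℝ) 0 x01 x00 + U * (R0 c0 (1 : ℝ) 0 x01 x00 - R0 c0 (0 : ℝ) 0 x01 x00) +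
      g * (R0 c0 (0 : ℝ) 1 x01 x00 - R0 c0 (0 : ℝ) 0 x01 x00) := by
  unfold R0; split_ifs <;> ring

lemma WX_aff (p : ℕ) (c0 : ℤ) (U g : ℝ) (x11 x10 x01 x00 : ℤ) : WX p c0 U g x11 x10 x01 x00 =
    WX p c0 0 0 x11 x10 x01 x00 +
      U * (WX p c0 1 0 x11 x10 x01 x00 - WX p c0 0 0 x11 x10 x01 x00) +
      g * (WX p c0 0 1 x11 x10 x01 x00 - WX p c0 0 0 x11 x10 x01 x00) := by
  unfold WX
  split_ifs
  · unfold WP
    rw [R1_aff c0 U g, R0_aff c0 U g]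
    ring
  · unfold WN
    rw [R1_aff c0 U g, R0_aff c0 U g]
    ring

lemma R1_cast (c0 u g x11 x10 x01 x00 : ℤ) : R1 c0 (u : ℝ) (g : ℝ) x11 x10 x01 x00 =
    ((R1 c0 u g x11 x10 x01 x00 : ℤ) : ℝ) := by
  unfold R1; split_ifs <;> simp

lemma R0_cast (c0 u g x01 x00 : ℤ) : R0 c0 (u : ℝ) (g : ℝ) x01 x00 =
    ((R0 c0 u g x01 x00 : ℤ) : ℝ) := by
  unfold R0; split_ifs <;> simp

lemma R1_bd {u g : ℤ} (hu : u = 0 ∨ u = 1) (hg : g = 0 ∨ g = 1) (c0 x11 x10 x01 x00 : ℤ) :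
    R1 c0 u g x11 x10 x01 x00 = 0 ∨ R1 c0 u g x11 x10 x01 x00 = 1 := by
  unfold R1; split_ifs <;> first | exact hu | exact hg | exact Or.inl rfl

lemma R0_bd {u g : ℤ} (hu : u = 0 ∨ u = 1) (hg : g = 0 ∨ g = 1) (c0 x01 x00 : ℤ) :
    R0 c0 u g x01 x00 = 0 ∨ R0 c0 u g x01 x00 = 1 := by
  unfold R0; split_ifs <;> first | exact hu | exact hg | exact Or.inl rfl | exact Or.inr rfl

lemma Gf_add_bit (q : ℕ) (b : ℤ) {e : ℤ} (h : e = 0 ∨ e = 1) :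
    Gf q (b + e) = Gf q b + e * kf q (b + 1) := by
  rcases h with rfl | rfl
  · simp
  · rw [Gf_succ]; simp

lemma Gf_sub_bit (q : ℕ) (b : ℤ) {e : ℤ} (h : e = 0 ∨ e = 1) :
    Gf q (b - e) = Gf q b - e * kf q b := by
  rcases h with rfl | rfl
  · simp
  · rw [Gf_pred]; simp

lemma WX_int (p : ℕ) (c0 : ℤ) {u g : ℤ} (hu : u = 0 ∨ u = 1) (hg : g = 0 ∨ g = 1)
    (x11 x10 x01 x00 : ℤ) : WX p c0 u g x11 x10 x01 x00 =
      Gf (p + 1 + 1) (N1 c0 u g x11 x10 x01 x00) + Gf (p + 1 + 1) (N0 c0 u g x11 x10 x01 x00) := by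
  unfold WX N1 N0
  split_ifs
  · unfold WP N1p N0p
    rw [Gf_add_bit _ _ (R1_bd hu hg c0 x11 x10 x01 x00), Gf_add_bit _ _ (R0_bd hu hg c0 x01 x00),
      R1_cast, R0_cast]
  · unfold WN N1p N0p
    rw [← sub_sub, ← sub_sub, Gf_sub_bit _ _ (R1_bd hu hg c0 _ _ _ _),
      Gf_sub_bit _ _ (R0_bd hu hg c0 _ _), R1_cast, R0_cast]
    ring

/-- the threshold of the half-integral value -/
noncomputable def pz (p : ℕ) (c0 : ℤ) : ℝ := kf p c0 / kf (p + 1 + 1) (c0 + 2)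

/-- expected new weight -/
noncomputable def EX (p : ℕ) (c0 x11 x10 x01 x00 : ℤ) : ℝ :=
  WX p c0 (piv (p + 1) (nst2 c0 x11 x10 x01 x00)) (pz p c0) x11 x10 x01 x00

/-- sum of the old weights -/
noncomputable def SG (p : ℕ) (c0 x11 x10 x01 x00 : ℤ) : ℝ :=
  Gx p c0 x11 + Gx p c0 x10 + Gx p c0 x01 + Gx p c0 x00

section
variable {p r : ℕ} {c0 m n : ℤ}

lemma k2_c (p : ℕ) (y : ℤ) : kf (p + 1 + 1) (y + 1) = kf (p + 1) (y + 1) + kf (p + 1) y := by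
  rw [kf_rec (p + 1), add_sub_cancel_right]

lemma G2_lo (p : ℕ) (y : ℤ) : Gf (p + 1 + 1) y = 2 * Gf (p + 1) y - kf (p + 1) y := by
  rw [Gf_rec (p + 1), Gf_pred (p + 1)]; ring

lemma G2_hi (p : ℕ) (y : ℤ) :
    Gf (p + 1 + 1) (y + 1) = 2 * Gf (p + 1) y + kf (p + 1) (y + 1) := by
  rw [Gf_rec (p + 1), add_sub_cancel_right, Gf_succ (p + 1)]; ring

lemma XD.pz_rel (x : XD p r c0 m n) : pz p c0 * kf (p + 1 + 1) (c0 + 2) = kf p c0 := by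
  unfold pz
  have h : 0 < kf (p + 1 + 1) (c0 + 2) := by
    have h := x.c
    have h2 := x.A
    unfold kf
    obtain ⟨a, ha⟩ := Int.eq_ofNat_of_zero_le (show 0 ≤ c0 + 2 by omega)
    rw [ha, cz_nat]
    have : 0 < (p + 1 + 1).choose a := Nat.choose_pos (by omega)
    exact_mod_cast this
  rw [div_mul_cancel₀ _ h.ne']

lemma XD.rr (x : XD p r c0 m n) :
    pz p c0 * kf (p + 1 + 1) (c0 + 1) * (p + 1 - c0) = kf p c0 * (c0 + 2) := by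
  have h1 := x.pz_rel
  have h2 := kf_step (p + 1 + 1) (c0 + 1)
  rw [show c0 + 1 + 1 = c0 + 2 by ring] at h2
  push_cast at h2
  rw [← h1]
  linear_combination (-pz p c0) * h2

lemma XD.re (_x : XD p r c0 m n) :
    pe (p + 1) (c0 + 1) * kf (p + 1 + 1) (c0 + 1) * (p + 1 - c0) =
      (kf p c0 + kf p (c0 + 1)) * (c0 + 2) := by
  have h1 := pe_rel (p + 1) (c0 + 1)
  have h2 := kf_step (p + 1 + 1) (c0 + 1)
  have h3 := k2_c p (c0 + 1)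
  have h4 := kf_rec p (c0 + 1)
  rw [add_sub_cancel_right] at h4
  rw [show c0 + 1 + 1 = c0 + 2 by ring] at h1 h2 h3
  push_cast at h2
  have h5 : pe (p + 1) (c0 + 1) * kf (p + 1 + 1) (c0 + 2) = kf p c0 + kf p (c0 + 1) := by
    rw [h3]; linarith
  rw [← h5]
  linear_combination (-pe (p + 1) (c0 + 1)) * h2

lemma XD.rr_le (x : XD p r c0 m n) : pz p c0 * kf (p + 1 + 1) (c0 + 1) ≤ kf p c0 := by
  have h := x.rr
  have ht := x.t_nonneg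
  have hc := x.cR
  have hk := x.kpos
  apply le_of_mul_le_mul_right _ (show (0 : ℝ) < p + 1 - c0 by linarith)
  rw [h]
  have : 0 ≤ kf p c0 * (p + 1 - c0 - (c0 + 2)) := mul_nonneg hk.le (by linarith)
  linarith

lemma XD.re_le (x : XD p r c0 m n) :
    pe (p + 1) (c0 + 1) * kf (p + 1 + 1) (c0 + 1) ≤ kf p c0 + kf p (c0 + 1) := by
  have h := x.re
  have ht := x.t_nonneg
  have hc := x.cR
  have hk := x.kpos
  have hk1 := kf_nonneg p (c0 + 1)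
  apply le_of_mul_le_mul_right _ (show (0 : ℝ) < p + 1 - c0 by linarith)
  rw [h]
  have : 0 ≤ (kf p c0 + kf p (c0 + 1)) * (p + 1 - c0 - (c0 + 2)) :=
    mul_nonneg (by linarith) (by linarith)
  linarith

/-- evaluation of the expected weights, in terms of gains -/
def Ev (p : ℕ) (c0 x11 x10 x01 x00 : ℤ) (gp gn : ℝ) : Prop :=
  EX p c0 x11 x10 x01 x00 - SG p c0 x11 x10 x01 x00 = gp ∧
  WN p c0 (piv (p + 1) (nst2 c0 x11 x10 x01 x00)) (pz p c0) x11 x10 x01 x00 -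
    SG p c0 (4 * c0 + 2 - x00) (4 * c0 + 2 - x01) (4 * c0 + 2 - x10) (4 * c0 + 2 - x11) = gn

lemma evS {x : ℤ} (h : c0 + 1 ≤ x) :
    Ev p c0 (2 * x) (2 * x) (2 * x) (2 * x) 0 (2 * EE (p + 1) x (2 * c0 + 1 - x)) := by
  have e1 := pe_rel (p + 1) x
  have hn : nst2 c0 (2 * x) (2 * x) (2 * x) (2 * x) = x + x := by
    unfold nst2; rw [if_pos (by omega)]; omega
  obtain ⟨y, hy⟩ : ∃ y, y = 2 * c0 + 1 - x := ⟨_, rfl⟩
  unfold Ev EX SG WX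
  rw [if_pos (by omega), hn, piv_even]
  unfold WP WN
  rw [R1S c0 _ _ h, R0S c0 _ _ h, show (2 * x + 1) / 2 = x by omega,
    show 2 * c0 + 2 - x = y + 1 by omega, ← hy, Gx_int p c0 (X := 2 * x) rfl,
    Gx_int p c0 (X := 4 * c0 + 2 - 2 * x) (x := y) (by omega), k2_c, k2_c, G2_lo p x, G2_hi p y]
  unfold EE
  constructor
  · linarith
  · ring

lemma evP {x : ℤ} (h : c0 + 1 ≤ x) :
    Ev p c0 (2 * x + 2) (2 * x) (2 * x) (2 * x) 0 (EE (p + 1) x (2 * c0 + 1 - x)) := by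
  have e1 := pe_rel (p + 1) x
  have hn : nst2 c0 (2 * x + 2) (2 * x) (2 * x) (2 * x) = x + x := by
    unfold nst2; rw [if_pos (by omega)]; omega
  obtain ⟨y, hy⟩ : ∃ y, y = 2 * c0 + 1 - x := ⟨_, rfl⟩
  have e2 := Gf_succ (p + 1) x
  have e3 := Gf_pred (p + 1) y
  unfold Ev EX SG WX
  rw [if_pos (by omega), hn, piv_even]
  unfold WP WN
  rw [R1P c0, R0S c0 _ _ h, show (2 * x + 1) / 2 = x by omega,
    show (2 * x + 2 + 1) / 2 = x + 1 by omega,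
    show 2 * c0 + 2 - x = y + 1 by omega, show 2 * c0 + 2 - (x + 1) = y by omega, ← hy,
    Gx_int p c0 (X := 2 * x) rfl, Gx_int p c0 (X := 2 * x + 2) (x := x + 1) (by omega),
    Gx_int p c0 (X := 4 * c0 + 2 - 2 * x) (x := y) (by omega),
    Gx_int p c0 (X := 4 * c0 + 2 - (2 * x + 2)) (x := y - 1) (by omega),
    k2_c p x, k2_c p y, G2_lo p x, G2_hi p x, G2_hi p y, G2_lo p y]
  unfold EE
  constructor
  · linarith
  · linarith

lemma evN {x : ℤ} (h : c0 + 1 ≤ x) :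
    Ev p c0 (2 * x + 2) (2 * x + 2) (2 * x) (2 * x) 0 (EN (p + 1) x (2 * c0 + 1 - x - 1)) := by
  have e1 := po_rel (p + 1) x
  have hn : nst2 c0 (2 * x + 2) (2 * x + 2) (2 * x) (2 * x) = x + 1 + x := by
    unfold nst2; rw [if_pos (by omega)]; omega
  obtain ⟨y, hy⟩ : ∃ y, y = 2 * c0 + 1 - x := ⟨_, rfl⟩
  have e2 := Gf_succ (p + 1) x
  have e3 := Gf_pred (p + 1) y
  have k3 := k2_c p (y - 1)
  rw [sub_add_cancel] at k3
  unfold Ev EX SG WX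
  rw [if_pos (by omega), hn, piv_odd]
  unfold WP WN
  rw [R1N c0 _ _ h, R0S c0 _ _ h, show (2 * x + 1) / 2 = x by omega,
    show (2 * x + 2 + 1) / 2 = x + 1 by omega,
    show 2 * c0 + 2 - x = y + 1 by omega, show 2 * c0 + 2 - (x + 1) = y by omega, ← hy,
    Gx_int p c0 (X := 2 * x) rfl, Gx_int p c0 (X := 2 * x + 2) (x := x + 1) (by omega),
    Gx_int p c0 (X := 4 * c0 + 2 - 2 * x) (x := y) (by omega),
    Gx_int p c0 (X := 4 * c0 + 2 - (2 * x + 2)) (x := y - 1) (by omega),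
    k2_c p x, k2_c p y, k2_c p (x + 1), k3, G2_lo p x, G2_hi p x, G2_hi p y, G2_lo p y]
  unfold EN
  rw [show y - 1 + 2 = y + 1 by ring, sub_add_cancel, show x + 1 + 1 = x + 2 by ring]
  constructor
  · linarith
  · linarith

lemma evN0 : Ev p c0 (2 * c0 + 2) (2 * c0 + 2) (2 * c0) (2 * c0) 0 0 := by
  have e2 := Gf_succ (p + 1) c0
  have e3 := k2_c p c0
  have e4 := k2_c p (c0 + 1)
  have e5 := Gf_succ (p + 1) (c0 + 1)
  have e6 := G2_lo p c0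
  have e7 := G2_hi p c0
  have e8 := G2_hi p (c0 + 1)
  rw [show c0 + 1 + 1 = c0 + 2 by ring] at e4 e5 e8
  unfold Ev EX SG WX
  rw [if_pos (by omega)]
  unfold WP WN
  rw [R1N0 c0, R0N0 c0, show (2 * c0 + 1) / 2 = c0 by omega,
    show (2 * c0 + 2 + 1) / 2 = c0 + 1 by omega,
    show 2 * c0 + 2 - (c0 + 1) = c0 + 1 by omega, show 2 * c0 + 2 - c0 = c0 + 2 by omega,
    Gx_int p c0 (X := 2 * c0) rfl, Gx_int p c0 (X := 2 * c0 + 2) (x := c0 + 1) (by omega),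
    Gx_int p c0 (X := 4 * c0 + 2 - 2 * c0) (x := c0 + 1) (by omega),
    Gx_int p c0 (X := 4 * c0 + 2 - (2 * c0 + 2)) (x := c0) (by omega)]
  constructor
  · linarith
  · linarith

lemma evQ {x : ℤ} (h : c0 ≤ x) :
    Ev p c0 (2 * x + 2) (2 * x + 2) (2 * x + 2) (2 * x) 0
      (EE (p + 1) (x + 1) (2 * c0 + 1 - x - 1)) := by
  have e1 := pe_rel (p + 1) (x + 1)
  have hn : nst2 c0 (2 * x + 2) (2 * x + 2) (2 * x + 2) (2 * x) = (x + 1) + (x + 1) := by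
    unfold nst2; rw [if_pos (by omega)]; omega
  obtain ⟨y, hy⟩ : ∃ y, y = 2 * c0 + 1 - x := ⟨_, rfl⟩
  have e2 := Gf_succ (p + 1) x
  have e3 := Gf_pred (p + 1) y
  have k3 := k2_c p (y - 1)
  rw [sub_add_cancel] at k3
  unfold Ev EX SG WX
  rw [if_pos (by omega), hn, piv_even]
  unfold WP WN
  rw [R1Q c0 _ _ h, R0Q c0, show (2 * x + 2 + 1) / 2 = x + 1 by omega,
    show 2 * c0 + 2 - (x + 1) = y by omega, ← hy,
    Gx_int p c0 (X := 2 * x) rfl, Gx_int p c0 (X := 2 * x + 2) (x := x + 1) (by omega),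
    Gx_int p c0 (X := 4 * c0 + 2 - 2 * x) (x := y) (by omega),
    Gx_int p c0 (X := 4 * c0 + 2 - (2 * x + 2)) (x := y - 1) (by omega),
    k2_c p (x + 1), k3, G2_hi p x, G2_lo p y]
  unfold EE
  rw [sub_add_cancel]
  constructor
  · linarith
  · linarith

lemma evM {x : ℤ} (h : c0 ≤ x) :
    Ev p c0 (2 * x + 4) (2 * x + 2) (2 * x + 2) (2 * x) 0 0 := by
  obtain ⟨y, hy⟩ : ∃ y, y = 2 * c0 + 1 - x := ⟨_, rfl⟩
  have e2 := Gf_rec (p + 1) (x + 1)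
  have e3 := Gf_rec (p + 1) (x + 2)
  have e4 := Gf_rec (p + 1) y
  have e5 := Gf_rec (p + 1) (y - 1)
  rw [show x + 1 - 1 = x by ring] at e2
  rw [show x + 2 - 1 = x + 1 by ring] at e3
  rw [show y - 1 - 1 = y - 2 by ring] at e5
  unfold Ev EX SG WX
  rw [if_pos (by omega)]
  unfold WP WN
  rw [R1M c0, R0Q c0, show (2 * x + 2 + 1) / 2 = x + 1 by omega,
    show (2 * x + 4 + 1) / 2 = x + 2 by omega,
    show 2 * c0 + 2 - (x + 1) = y by omega, show 2 * c0 + 2 - (x + 2) = y - 1 by omega,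
    Gx_int p c0 (X := 2 * x) rfl, Gx_int p c0 (X := 2 * x + 2) (x := x + 1) (by omega),
    Gx_int p c0 (X := 2 * x + 4) (x := x + 2) (by omega),
    Gx_int p c0 (X := 4 * c0 + 2 - 2 * x) (x := y) (by omega),
    Gx_int p c0 (X := 4 * c0 + 2 - (2 * x + 2)) (x := y - 1) (by omega),
    Gx_int p c0 (X := 4 * c0 + 2 - (2 * x + 4)) (x := y - 2) (by omega)]
  constructor
  · linarith
  · linarith

lemma G2_c1 (p : ℕ) (c0 : ℤ) :
    Gf (p + 1 + 1) (c0 + 1) = 4 * Gf p c0 + kf p (c0 + 1) - kf p c0 := by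
  rw [Gf_rec (p + 1), add_sub_cancel_right, G1_c p c0, G1_c1 p c0]; ring

lemma evSh : Ev p c0 (2 * c0 + 1) (2 * c0 + 1) (2 * c0 + 1) (2 * c0 + 1)
    (2 * (kf p (c0 + 1) - kf p c0)) (2 * (kf p (c0 + 1) - kf p c0)) := by
  have e1 := G2_c1 p c0
  have g5 := G1_c p c0
  have g6 := G1_c1 p c0
  unfold Ev EX SG WX
  rw [if_pos (by omega)]
  unfold WP WN
  rw [R1Sh c0, R0Sh c0, show (2 * c0 + 1 + 1) / 2 = c0 + 1 by omega,
    show 2 * c0 + 2 - (c0 + 1) = c0 + 1 by omega, Gx_half p c0 (X := 2 * c0 + 1) rfl,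
    Gx_half p c0 (X := 4 * c0 + 2 - (2 * c0 + 1)) (by omega)]
  constructor
  · linarith
  · linarith

lemma evMh : Ev p c0 (2 * c0 + 2) (2 * c0 + 1) (2 * c0 + 1) (2 * c0)
    (kf p (c0 + 1) - kf p c0) (kf p (c0 + 1) - kf p c0) := by
  have e1 := G2_c1 p c0
  have g5 := G1_c p c0
  have g6 := G1_c1 p c0
  unfold Ev EX SG WX
  rw [if_pos (by omega)]
  unfold WP WN
  rw [R1Mh c0, R0Mh c0, show (2 * c0 + 1 + 1) / 2 = c0 + 1 by omega,
    show (2 * c0 + 2 + 1) / 2 = c0 + 1 by omega,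
    show 2 * c0 + 2 - (c0 + 1) = c0 + 1 by omega, Gx_half p c0 (X := 2 * c0 + 1) rfl,
    Gx_half p c0 (X := 4 * c0 + 2 - (2 * c0 + 1)) (by omega),
    Gx_int p c0 (X := 2 * c0) rfl, Gx_int p c0 (X := 2 * c0 + 2) (x := c0 + 1) (by omega),
    Gx_int p c0 (X := 4 * c0 + 2 - 2 * c0) (x := c0 + 1) (by omega),
    Gx_int p c0 (X := 4 * c0 + 2 - (2 * c0 + 2)) (x := c0) (by omega)]
  constructor
  · linarith
  · linarith

lemma XD.ev10 (x : XD p r c0 m n) :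
    Ev p c0 (2 * c0 + 2) (2 * c0 + 1) (2 * c0 + 1) (2 * c0 + 1) (kf p (c0 + 1) - kf p c0)
      (2 * kf p (c0 + 1) - kf p c0 - pz p c0 * kf (p + 1 + 1) (c0 + 1)) := by
  have e1 := G2_c1 p c0
  have g5 := G1_c p c0
  have g6 := G1_c1 p c0
  have e2 := x.pz_rel
  unfold Ev EX SG WX
  rw [if_pos (by omega)]
  unfold WP WN
  rw [R1t10 c0, R0Sh c0, show (2 * c0 + 1 + 1) / 2 = c0 + 1 by omega,
    show (2 * c0 + 2 + 1) / 2 = c0 + 1 by omega,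
    show 2 * c0 + 2 - (c0 + 1) = c0 + 1 by omega, Gx_half p c0 (X := 2 * c0 + 1) rfl,
    Gx_half p c0 (X := 4 * c0 + 2 - (2 * c0 + 1)) (by omega),
    Gx_int p c0 (X := 2 * c0 + 2) (x := c0 + 1) (by omega),
    Gx_int p c0 (X := 4 * c0 + 2 - (2 * c0 + 2)) (x := c0) (by omega),
    show c0 + 1 + 1 = c0 + 2 by ring]
  constructor
  · linarith
  · linarith

lemma XD.ev11 (x : XD p r c0 m n) :
    Ev p c0 (2 * c0 + 2) (2 * c0 + 2) (2 * c0 + 1) (2 * c0) 0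
      (kf p (c0 + 1) - pz p c0 * kf (p + 1 + 1) (c0 + 1)) := by
  have e1 := G2_c1 p c0
  have g5 := G1_c p c0
  have g6 := G1_c1 p c0
  have e2 := x.pz_rel
  unfold Ev EX SG WX
  rw [if_pos (by omega)]
  unfold WP WN
  rw [R1t11 c0, R0Mh c0, show (2 * c0 + 1 + 1) / 2 = c0 + 1 by omega,
    show (2 * c0 + 2 + 1) / 2 = c0 + 1 by omega,
    show 2 * c0 + 2 - (c0 + 1) = c0 + 1 by omega, Gx_half p c0 (X := 2 * c0 + 1) rfl,
    Gx_half p c0 (X := 4 * c0 + 2 - (2 * c0 + 1)) (by omega),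
    Gx_int p c0 (X := 2 * c0) rfl, Gx_int p c0 (X := 2 * c0 + 2) (x := c0 + 1) (by omega),
    Gx_int p c0 (X := 4 * c0 + 2 - 2 * c0) (x := c0 + 1) (by omega),
    Gx_int p c0 (X := 4 * c0 + 2 - (2 * c0 + 2)) (x := c0) (by omega),
    show c0 + 1 + 1 = c0 + 2 by ring]
  constructor
  · linarith
  · linarith

lemma nst_t12 : nst2 c0 (2 * c0 + 2) (2 * c0 + 2) (2 * c0 + 1) (2 * c0 + 1) =
    (c0 + 1) + (c0 + 1) := by
  unfold nst2; rw [if_pos (by omega)]; omega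

lemma nst_t3 : nst2 c0 (2 * c0 + 2) (2 * c0 + 2) (2 * c0 + 2) (2 * c0 + 1) =
    (c0 + 1) + (c0 + 1) := by
  unfold nst2; rw [if_pos (by omega)]; omega

lemma pe_c (p : ℕ) (c0 : ℤ) : pe (p + 1) (c0 + 1) * kf (p + 1 + 1) (c0 + 2) =
    kf p c0 + kf p (c0 + 1) := by
  have h1 := pe_rel (p + 1) (c0 + 1)
  have h3 := k2_c p (c0 + 1)
  have h4 := kf_rec p (c0 + 1)
  rw [add_sub_cancel_right] at h4
  rw [show c0 + 1 + 1 = c0 + 2 by ring] at h1 h3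
  rw [h3]; linarith

lemma ev12 :
    Ev p c0 (2 * c0 + 2) (2 * c0 + 2) (2 * c0 + 1) (2 * c0 + 1) (kf p (c0 + 1) - kf p c0)
      (2 * kf p (c0 + 1) - pe (p + 1) (c0 + 1) * kf (p + 1 + 1) (c0 + 1)) := by
  have e1 := G2_c1 p c0
  have g5 := G1_c p c0
  have g6 := G1_c1 p c0
  have e2 := pe_c p c0
  unfold Ev EX SG WX
  rw [if_pos (by omega), nst_t12, piv_even]
  unfold WP WN
  rw [R1t12 c0, R0Sh c0, show (2 * c0 + 1 + 1) / 2 = c0 + 1 by omega,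
    show (2 * c0 + 2 + 1) / 2 = c0 + 1 by omega,
    show 2 * c0 + 2 - (c0 + 1) = c0 + 1 by omega, Gx_half p c0 (X := 2 * c0 + 1) rfl,
    Gx_half p c0 (X := 4 * c0 + 2 - (2 * c0 + 1)) (by omega),
    Gx_int p c0 (X := 2 * c0 + 2) (x := c0 + 1) (by omega),
    Gx_int p c0 (X := 4 * c0 + 2 - (2 * c0 + 2)) (x := c0) (by omega),
    show c0 + 1 + 1 = c0 + 2 by ring]
  constructor
  · linarith
  · linarith

lemma XD.ev3 (x : XD p r c0 m n) :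
    Ev p c0 (2 * c0 + 2) (2 * c0 + 2) (2 * c0 + 2) (2 * c0 + 1) 0
      (2 * kf p (c0 + 1) + kf p c0 - pe (p + 1) (c0 + 1) * kf (p + 1 + 1) (c0 + 1) -
        pz p c0 * kf (p + 1 + 1) (c0 + 1)) := by
  have e1 := G2_c1 p c0
  have g5 := G1_c p c0
  have g6 := G1_c1 p c0
  have e2 := pe_c p c0
  have e3 := x.pz_rel
  unfold Ev EX SG WX
  rw [if_pos (by omega), nst_t3, piv_even]
  unfold WP WN
  rw [R1t3 c0, R0t3 c0, 
    show (2 * c0 + 2 + 1) / 2 = c0 + 1 by omega,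
    show 2 * c0 + 2 - (c0 + 1) = c0 + 1 by omega, Gx_half p c0 (X := 2 * c0 + 1) rfl,
    Gx_half p c0 (X := 4 * c0 + 2 - (2 * c0 + 1)) (by omega),
    Gx_int p c0 (X := 2 * c0 + 2) (x := c0 + 1) (by omega),
    Gx_int p c0 (X := 4 * c0 + 2 - (2 * c0 + 2)) (x := c0) (by omega),
    show c0 + 1 + 1 = c0 + 2 by ring]
  constructor
  · linarith
  · linarith

lemma XD.ev4 (x : XD p r c0 m n) :
    Ev p c0 (2 * c0 + 4) (2 * c0 + 2) (2 * c0 + 2) (2 * c0 + 1) 0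
      (kf p (c0 + 1) - pz p c0 * kf (p + 1 + 1) (c0 + 1)) := by
  have e1 := G2_c1 p c0
  have g5 := G1_c p c0
  have g6 := G1_c1 p c0
  have e2 := x.pz_rel
  have e3 := Gf_rec (p + 1) (c0 + 2)
  have e4 := Gf_rec (p + 1) c0
  rw [show c0 + 2 - 1 = c0 + 1 by ring] at e3
  have e5 := G1_c p c0
  have e6 := G1_c1 p c0
  unfold Ev EX SG WX
  rw [if_pos (by omega)]
  unfold WP WN
  rw [R1t4 c0, R0t3 c0, show (2 * c0 + 4 + 1) / 2 = c0 + 2 by omega,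
    show (2 * c0 + 2 + 1) / 2 = c0 + 1 by omega,
    show 2 * c0 + 2 - (c0 + 1) = c0 + 1 by omega, show 2 * c0 + 2 - (c0 + 2) = c0 by omega,
    Gx_half p c0 (X := 2 * c0 + 1) rfl,
    Gx_half p c0 (X := 4 * c0 + 2 - (2 * c0 + 1)) (by omega),
    Gx_int p c0 (X := 2 * c0 + 2) (x := c0 + 1) (by omega),
    Gx_int p c0 (X := 2 * c0 + 4) (x := c0 + 2) (by omega),
    Gx_int p c0 (X := 4 * c0 + 2 - (2 * c0 + 2)) (x := c0) (by omega),
    Gx_int p c0 (X := 4 * c0 + 2 - (2 * c0 + 4)) (x := c0 - 1) (by omega),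
    show c0 + 1 + 1 = c0 + 2 by ring]
  constructor
  · linarith
  · linarith

end

end Pool.Agent.MP_867aae_co.P75
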