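import Mathlib
import Pool.Agent.MP_867aae_co.P75.OE

/-!
The inequality for every square with its antipode, half-integral centre.
-/

namespace Pool.Agent.MP_867aae_co.P75

open Finset Function Pool.Agent.MP_867aae_co.H75

section
variable {p r : ℕ} {c0 m n : ℤ}

/-- the up-set of squares where the weight `α` is used -/
def PP (c0 x01 x00 : ℤ) : Prop := 2 * c0 + 1 ≤ x00 ∧ 2 * c0 + 2 ≤ x01

instance (c0 x01 x00 : ℤ) : Decidable (PP c0 x01 x00) := by unfold PP; infer_instance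

lemma XD.main13 (x : XD p r c0 m n) (hV : HV p r c0 m) {x11 x10 x01 x00 : ℤ}
    (h : PS c0 x11 x10 x01 x00) (j : ℤ) : ∃ gp gn, Ev p c0 x11 x10 x01 x00 gp gn ∧
      0 ≤ gp ∧ 0 ≤ gn ∧ 0 ≤ TT r m j (if PP c0 x01 x00 then alp r m n j else 0) gp gn
        (Gx p c0 x11) (Gx p c0 x10) (Gx p c0 x00) (Gx p c0 (4 * c0 + 2 - x11))
        (Gx p c0 (4 * c0 + 2 - x10)) (Gx p c0 (4 * c0 + 2 - x00)) := by
  have hA := x.A
  have hvu := x.vu
  have hrr := x.rr_le
  have hre := x.re_le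
  have hk := x.kpos
  have g5 := G1_c p c0
  have g6 := G1_c1 p c0
  cases h with
  | S y h =>
    obtain ⟨v, hv⟩ : ∃ v, v = 2 * c0 + 1 - y := ⟨_, rfl⟩
    refine ⟨_, _, evS h, le_rfl, ?_, ?_⟩
    · have := EE_nonneg (p + 1) (x := y) (y := 2 * c0 + 1 - y) (by omega) (by push_cast; omega)
      linarith
    · rw [if_pos (show PP c0 (2 * y) (2 * y) from ⟨by omega, by omega⟩)]
      have h1 := x.S1 (u := y) (y := v) (by omega) (by omega) j
      rw [← hv, Gx_int p c0 (X := 2 * y) rfl, Gx_int p c0 (X := 4 * c0 + 2 - 2 * y) (x := v) (by omega)]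
      unfold YC YB at h1
      unfold TT
      linarith
  | P y h =>
    obtain ⟨v, hv⟩ : ∃ v, v = 2 * c0 + 1 - y := ⟨_, rfl⟩
    refine ⟨_, _, evP h, le_rfl, ?_, ?_⟩
    · exact EE_nonneg (p + 1) (x := y) (y := 2 * c0 + 1 - y) (by omega) (by push_cast; omega)
    · rw [if_pos (show PP c0 (2 * y) (2 * y) from ⟨by omega, by omega⟩)]
      have h1 := x.P1 (u := y) (y := v) (by omega) (by omega) j
      have e2 := Gf_succ (p + 1) y
      have e3 := Gf_pred (p + 1) v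
      rw [← hv, Gx_int p c0 (X := 2 * y) rfl, Gx_int p c0 (X := 2 * y + 2) (x := y + 1) (by omega),
        Gx_int p c0 (X := 4 * c0 + 2 - 2 * y) (x := v) (by omega),
        Gx_int p c0 (X := 4 * c0 + 2 - (2 * y + 2)) (x := v - 1) (by omega), e2, e3]
      unfold YC YB at h1
      unfold TT
      linarith
  | N y h =>
    obtain ⟨v, hv⟩ : ∃ v, v = 2 * c0 + 1 - y := ⟨_, rfl⟩
    refine ⟨_, _, evN h, le_rfl, ?_, ?_⟩
    · exact EN_nonneg (p + 1) (x := y) (y := 2 * c0 + 1 - y - 1) (by omega) (by push_cast; omega)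
    · rw [if_pos (show PP c0 (2 * y) (2 * y) from ⟨by omega, by omega⟩)]
      have h1 := x.N1 (u := y) (y := v) (by omega) (by omega) j
      have e2 := Gf_pred (p + 1) (y + 1)
      rw [add_sub_cancel_right] at e2
      have e3 := Gf_succ (p + 1) (v - 1)
      rw [sub_add_cancel] at e3
      rw [← hv, Gx_int p c0 (X := 2 * y) rfl, Gx_int p c0 (X := 2 * y + 2) (x := y + 1) (by omega),
        Gx_int p c0 (X := 4 * c0 + 2 - 2 * y) (x := v) (by omega),
        Gx_int p c0 (X := 4 * c0 + 2 - (2 * y + 2)) (x := v - 1) (by omega), e2, e3]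
      unfold YC YB at h1
      unfold TT
      linarith
  | N0 =>
    refine ⟨_, _, evN0, le_rfl, le_rfl, ?_⟩
    rw [if_neg (show ¬ PP c0 (2 * c0) (2 * c0) from fun h => by have := h.1; omega)]
    rw [Gx_int p c0 (X := 2 * c0) rfl, Gx_int p c0 (X := 2 * c0 + 2) (x := c0 + 1) (by omega),
      Gx_int p c0 (X := 4 * c0 + 2 - 2 * c0) (x := c0 + 1) (by omega),
      Gx_int p c0 (X := 4 * c0 + 2 - (2 * c0 + 2)) (x := c0) (by omega), g5, g6]
    exact x.TN0 j _ _ le_rfl le_rfl le_rfl le_rfl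
  | Q y h =>
    obtain ⟨v, hv⟩ : ∃ v, v = 2 * c0 + 1 - y := ⟨_, rfl⟩
    have hE : 0 ≤ EE (p + 1) (y + 1) (2 * c0 + 1 - y - 1) :=
      EE_nonneg (p + 1) (x := y + 1) (y := 2 * c0 + 1 - y - 1) (by omega) (by push_cast; omega)
    refine ⟨_, _, evQ h, le_rfl, hE, ?_⟩
    rcases h.eq_or_lt with rfl | h'
    · rw [if_neg (show ¬ PP c0 (2 * c0 + 2) (2 * c0) from fun h => by have := h.1; omega)]
      rw [Gx_int p c0 (X := 2 * c0) rfl, Gx_int p c0 (X := 2 * c0 + 2) (x := c0 + 1) (by omega),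
        Gx_int p c0 (X := 4 * c0 + 2 - 2 * c0) (x := c0 + 1) (by omega),
        Gx_int p c0 (X := 4 * c0 + 2 - (2 * c0 + 2)) (x := c0) (by omega), g5, g6]
      exact x.TN0 j _ _ le_rfl hE le_rfl le_rfl
    · rw [if_pos (show PP c0 (2 * y + 2) (2 * y) from ⟨by omega, by omega⟩)]
      have h1 := x.Q1 (u := y) (y := v) (by omega) (by omega) j
      have e2 := Gf_pred (p + 1) (y + 1)
      rw [add_sub_cancel_right] at e2
      have e3 := Gf_succ (p + 1) (v - 1)
      rw [sub_add_cancel] at e3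
      rw [← hv, Gx_int p c0 (X := 2 * y) rfl, Gx_int p c0 (X := 2 * y + 2) (x := y + 1) (by omega),
        Gx_int p c0 (X := 4 * c0 + 2 - 2 * y) (x := v) (by omega),
        Gx_int p c0 (X := 4 * c0 + 2 - (2 * y + 2)) (x := v - 1) (by omega), e2, e3]
      unfold YC YB at h1
      unfold TT
      linarith
  | M y h =>
    obtain ⟨v, hv⟩ : ∃ v, v = 2 * c0 + 1 - y := ⟨_, rfl⟩
    refine ⟨_, _, evM h, le_rfl, le_rfl, ?_⟩
    rcases h.eq_or_lt with rfl | h'
    · rw [if_neg (show ¬ PP c0 (2 * c0 + 2) (2 * c0) from fun h => by have := h.1; omega)]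
      rw [Gx_int p c0 (X := 2 * c0) rfl, Gx_int p c0 (X := 2 * c0 + 4) (x := c0 + 1 + 1) (by omega),
        Gx_int p c0 (X := 4 * c0 + 2 - 2 * c0) (x := c0 + 1) (by omega),
        Gx_int p c0 (X := 4 * c0 + 2 - (2 * c0 + 4)) (x := c0 - 1) (by omega), g5, g6]
      have e1 := Gf_succ (p + 1) (c0 + 1)
      have e2 := Gf_pred (p + 1) c0
      rw [g6] at e1
      rw [g5] at e2
      exact x.TN0 j _ _ le_rfl le_rfl (by rw [e1]; linarith [kf_nonneg (p + 1) (c0 + 1 + 1)])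
        (by rw [e2]; linarith [kf_nonneg (p + 1) c0])
    · rw [if_pos (show PP c0 (2 * y + 2) (2 * y) from ⟨by omega, by omega⟩)]
      have h1 := x.M1 (u := y) (y := v) (by omega) (by omega) j
      have e2 := Gf_pred (p + 1) (y + 1)
      rw [add_sub_cancel_right] at e2
      have e3 := Gf_succ (p + 1) (v - 1)
      rw [sub_add_cancel] at e3
      have e4 := Gf_succ (p + 1) (y + 1)
      rw [show y + 1 + 1 = y + 2 by ring] at e4
      have e5 := Gf_pred (p + 1) (v - 1)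
      rw [show v - 1 - 1 = v - 2 by ring] at e5
      rw [Gx_int p c0 (X := 2 * y) rfl, Gx_int p c0 (X := 2 * y + 2) (x := y + 1) (by omega),
        Gx_int p c0 (X := 2 * y + 4) (x := y + 2) (by omega),
        Gx_int p c0 (X := 4 * c0 + 2 - 2 * y) (x := v) (by omega),
        Gx_int p c0 (X := 4 * c0 + 2 - (2 * y + 2)) (x := v - 1) (by omega),
        Gx_int p c0 (X := 4 * c0 + 2 - (2 * y + 4)) (x := v - 2) (by omega), e2, e3, e4, e5]
      unfold YC YB at h1
      unfold TT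
      linarith
  | Sh =>
    refine ⟨_, _, evSh, by linarith, by linarith, ?_⟩
    rw [if_neg (show ¬ PP c0 (2 * c0 + 1) (2 * c0 + 1) from fun h => by have := h.2; omega)]
    rw [Gx_half p c0 (X := 2 * c0 + 1) rfl, Gx_half p c0 (X := 4 * c0 + 2 - (2 * c0 + 1)) (by omega)]
    exact TSh hV j _ _
  | Mh =>
    refine ⟨_, _, evMh, by linarith, by linarith, ?_⟩
    rw [if_neg (show ¬ PP c0 (2 * c0 + 1) (2 * c0) from fun h => by have := h.1; omega)]
    rw [Gx_half p c0 (X := 2 * c0 + 1) rfl, Gx_half p c0 (X := 4 * c0 + 2 - (2 * c0 + 1)) (by omega),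
      Gx_int p c0 (X := 2 * c0) rfl, Gx_int p c0 (X := 2 * c0 + 2) (x := c0 + 1) (by omega),
      Gx_int p c0 (X := 4 * c0 + 2 - 2 * c0) (x := c0 + 1) (by omega),
      Gx_int p c0 (X := 4 * c0 + 2 - (2 * c0 + 2)) (x := c0) (by omega), g5, g6]
    exact x.TN0 j _ _ (by linarith) (by linarith) le_rfl le_rfl
  | t10 =>
    refine ⟨_, _, x.ev10, by linarith, by linarith, ?_⟩
    rw [if_neg (show ¬ PP c0 (2 * c0 + 1) (2 * c0 + 1) from fun h => by have := h.2; omega)]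
    rw [Gx_half p c0 (X := 2 * c0 + 1) rfl, Gx_half p c0 (X := 4 * c0 + 2 - (2 * c0 + 1)) (by omega),
      Gx_int p c0 (X := 2 * c0 + 2) (x := c0 + 1) (by omega),
      Gx_int p c0 (X := 4 * c0 + 2 - (2 * c0 + 2)) (x := c0) (by omega), g5, g6]
    exact x.T10 hV j _ _ (by linarith)
  | t11 =>
    refine ⟨_, _, x.ev11, by linarith, by linarith, ?_⟩
    rw [if_neg (show ¬ PP c0 (2 * c0 + 1) (2 * c0) from fun h => by have := h.1; omega)]
    rw [Gx_int p c0 (X := 2 * c0) rfl, Gx_int p c0 (X := 2 * c0 + 2) (x := c0 + 1) (by omega),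
      Gx_int p c0 (X := 4 * c0 + 2 - 2 * c0) (x := c0 + 1) (by omega),
      Gx_int p c0 (X := 4 * c0 + 2 - (2 * c0 + 2)) (x := c0) (by omega), g5, g6]
    exact x.TN0 j _ _ (by linarith) (by linarith) le_rfl le_rfl
  | t12 =>
    refine ⟨_, _, ev12, by linarith, by linarith, ?_⟩
    rw [if_neg (show ¬ PP c0 (2 * c0 + 1) (2 * c0 + 1) from fun h => by have := h.2; omega)]
    rw [Gx_half p c0 (X := 2 * c0 + 1) rfl, Gx_half p c0 (X := 4 * c0 + 2 - (2 * c0 + 1)) (by omega),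
      Gx_int p c0 (X := 2 * c0 + 2) (x := c0 + 1) (by omega),
      Gx_int p c0 (X := 4 * c0 + 2 - (2 * c0 + 2)) (x := c0) (by omega), g5, g6]
    exact x.T10 hV j _ _ (by linarith)
  | t3 =>
    refine ⟨_, _, x.ev3, by linarith, by linarith, ?_⟩
    rw [if_pos (show PP c0 (2 * c0 + 2) (2 * c0 + 1) from ⟨by omega, by omega⟩)]
    rw [Gx_half p c0 (X := 2 * c0 + 1) rfl, Gx_half p c0 (X := 4 * c0 + 2 - (2 * c0 + 1)) (by omega),
      Gx_int p c0 (X := 2 * c0 + 2) (x := c0 + 1) (by omega),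
      Gx_int p c0 (X := 4 * c0 + 2 - (2 * c0 + 2)) (x := c0) (by omega), g5, g6]
    refine x.T3 j ?_
    have e1 := x.rr
    have e2 := x.re
    linear_combination -e1 - e2
  | t4 =>
    refine ⟨_, _, x.ev4, by linarith, by linarith, ?_⟩
    rw [if_pos (show PP c0 (2 * c0 + 2) (2 * c0 + 1) from ⟨by omega, by omega⟩)]
    rw [Gx_half p c0 (X := 2 * c0 + 1) rfl, Gx_half p c0 (X := 4 * c0 + 2 - (2 * c0 + 1)) (by omega),
      Gx_int p c0 (X := 2 * c0 + 2) (x := c0 + 1) (by omega),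
      Gx_int p c0 (X := 2 * c0 + 4) (x := c0 + 1 + 1) (by omega),
      Gx_int p c0 (X := 4 * c0 + 2 - (2 * c0 + 2)) (x := c0) (by omega),
      Gx_int p c0 (X := 4 * c0 + 2 - (2 * c0 + 4)) (x := c0 - 1) (by omega), g5, g6]
    have e1 := Gf_succ (p + 1) (c0 + 1)
    have e2 := Gf_pred (p + 1) c0
    rw [g6] at e1
    rw [g5] at e2
    have e3 : kf (p + 1) c0 ≤ kf (p + 1) (c0 + 1 + 1) := kf_closer (by omega) (by push_cast; omega)
    refine x.T4 j ?_ (by rw [e1]; linarith) e2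
    have e4 := x.rr
    linear_combination -e4

/-- the antipode of a nonnegative square -/
lemma PS.anti_ev {x11 x10 x01 x00 : ℤ} (h : PS c0 x11 x10 x01 x00) :
    EX p c0 (4 * c0 + 2 - x00) (4 * c0 + 2 - x01) (4 * c0 + 2 - x10) (4 * c0 + 2 - x11) =
      WN p c0 (piv (p + 1) (nst2 c0 x11 x10 x01 x00)) (pz p c0) x11 x10 x01 x00 := by
  have hs : 8 * c0 + 4 ≤ x11 + x10 + x01 + x00 := by
    cases h <;> omega
  rcases hs.eq_or_lt with h1 | h1
  · cases h with
    | S y h => omega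
    | P y h => omega
    | N y h => omega
    | N0 =>
      have e := evN0 (p := p) (c0 := c0)
      unfold Ev at e
      rw [show 4 * c0 + 2 - 2 * c0 = 2 * c0 + 2 by ring,
        show 4 * c0 + 2 - (2 * c0 + 2) = 2 * c0 by ring] at e ⊢
      linarith
    | Q y h => omega
    | M y h => omega
    | Sh =>
      have e := evSh (p := p) (c0 := c0)
      unfold Ev at e
      rw [show 4 * c0 + 2 - (2 * c0 + 1) = 2 * c0 + 1 by ring] at e ⊢
      linarith
    | Mh =>
      have e := evMh (p := p) (c0 := c0)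
      unfold Ev at e
      rw [show 4 * c0 + 2 - 2 * c0 = 2 * c0 + 2 by ring,
        show 4 * c0 + 2 - (2 * c0 + 2) = 2 * c0 by ring,
        show 4 * c0 + 2 - (2 * c0 + 1) = 2 * c0 + 1 by ring] at e ⊢
      linarith
    | t10 => omega
    | t11 => omega
    | t12 => omega
    | t3 => omega
    | t4 => omega
  · unfold EX WX
    rw [if_neg (by omega)]
    simp only [sub_sub_cancel]
    congr 2
    unfold nst2
    rw [if_neg (by omega), if_pos hs]
    simp only [sub_sub_cancel]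

/-- the facts for a nonnegative square and its antipode -/
lemma XD.fin13 (x : XD p r c0 m n) (hV : HV p r c0 m) {x11 x10 x01 x00 : ℤ}
    (h : ESq c0 x11 x10 x01 x00) (hp : 8 * c0 + 4 ≤ x11 + x10 + x01 + x00) (j : ℤ) :
    SG p c0 x11 x10 x01 x00 ≤ EX p c0 x11 x10 x01 x00 ∧
    SG p c0 (4 * c0 + 2 - x00) (4 * c0 + 2 - x01) (4 * c0 + 2 - x10) (4 * c0 + 2 - x11) ≤
      EX p c0 (4 * c0 + 2 - x00) (4 * c0 + 2 - x01) (4 * c0 + 2 - x10) (4 * c0 + 2 - x11) ∧
    0 ≤ TT r m j (if PP c0 x01 x00 then alp r m n j else 0)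
        (EX p c0 x11 x10 x01 x00 - SG p c0 x11 x10 x01 x00)
        (EX p c0 (4 * c0 + 2 - x00) (4 * c0 + 2 - x01) (4 * c0 + 2 - x10) (4 * c0 + 2 - x11) -
          SG p c0 (4 * c0 + 2 - x00) (4 * c0 + 2 - x01) (4 * c0 + 2 - x10) (4 * c0 + 2 - x11))
        (Gx p c0 x11) (Gx p c0 x10) (Gx p c0 x00) (Gx p c0 (4 * c0 + 2 - x11))
        (Gx p c0 (4 * c0 + 2 - x10)) (Gx p c0 (4 * c0 + 2 - x00)) := by
  obtain ⟨gp, gn, ⟨e1, e2⟩, h1, h2, h3⟩ := x.main13 hV (h.pos hp) j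
  rw [(h.pos hp).anti_ev, e1, e2]
  exact ⟨by linarith, by linarith, h3⟩

end

end Pool.Agent.MP_867aae_co.P75
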