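import Mathlib
import Pool.Agent.MP_867aae_co.P75.PB

/-!
Functions with one half-integral value (doubled), and best pairs.
-/

namespace Pool.Agent.MP_867aae_co.P75

open Finset Function Pool.Agent.MP_867aae_co.H75

/-- doubled self-dual functions with steps at most one; the only half-integral value is the
centre -/
structure EV {z : ℕ} (c0 : ℤ) (b : (Fin z → Bool) → ℤ) : Prop where
  sd : ∀ σ, b σ + b (ng σ) = 4 * c0 + 2
  lo : ∀ σ i, σ i = false → b σ ≤ b (update σ i true)
  hi : ∀ σ i, σ i = false → b (update σ i true) ≤ b σ + 2
  pa : ∀ σ, b σ % 2 = 0 ∨ b σ = 2 * c0 + 1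

lemma ng_up {z : ℕ} {σ : Fin z → Bool} {i : Fin z} (hi : σ i = false) :
    update (ng (update σ i true)) i true = ng σ := by
  rw [ng_update, update_idem]
  funext k
  by_cases h : k = i
  · subst h; simp [ng, hi]
  · simp [h]

lemma bd_ng {z : ℕ} {d S : ℤ} {b : (Fin z → Bool) → ℤ}
    (lo : ∀ σ i, σ i = false → b σ ≤ b (update σ i true))
    (hi : ∀ σ i, σ i = false → b (update σ i true) ≤ b σ + d)
    (sd : ∀ σ, b σ + b (ng σ) = S) (σ : Fin z → Bool) : 2 * b σ ≤ S + d * z := by
  have key : ∀ s : Finset (Fin z), ∀ σ : Fin z → Bool, 0 ≤ d →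
      b σ ≤ b (fun i => if i ∈ s then false else σ i) + d * s.card := by
    intro s
    induction s using Finset.induction_on with
    | empty => intro σ _; simp
    | insert j s hj ih =>
      intro σ hd
      have h1 := ih σ hd
      set τ : Fin z → Bool := fun i => if i ∈ s then false else σ i with hτ
      have h2 : (fun i => if i ∈ insert j s then false else σ i) = update τ j false := by
        funext i
        by_cases h : i = j
        · subst h; simp
        · simp [h, hτ]
      rw [h2, Finset.card_insert_of_notMem hj]
      have h3 : b τ ≤ b (update τ j false) + d := by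
        rcases h4 : τ j with _ | _
        · have : update τ j false = τ := by rw [← h4, update_eq_self]
          rw [this]; omega
        · have h5 := hi (update τ j false) j (by simp)
          rw [update_idem] at h5
          have : update τ j true = τ := by rw [← h4, update_eq_self]
          rw [this] at h5
          exact h5
      push_cast
      linarith
  have key2 : ∀ s : Finset (Fin z), ∀ σ : Fin z → Bool,
      b (fun i => if i ∈ s then false else σ i) ≤ b σ := by
    intro s
    induction s using Finset.induction_on with
    | empty => intro σ; simp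
    | insert j s hj ih =>
      intro σ
      have h1 := ih σ
      set τ : Fin z → Bool := fun i => if i ∈ s then false else σ i with hτ
      have h2 : (fun i => if i ∈ insert j s then false else σ i) = update τ j false := by
        funext i
        by_cases h : i = j
        · subst h; simp
        · simp [h, hτ]
      rw [h2]
      have h3 : b (update τ j false) ≤ b τ := by
        rcases h4 : τ j with _ | _
        · have : update τ j false = τ := by rw [← h4, update_eq_self]
          rw [this]
        · have h5 := lo (update τ j false) j (by simp)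
          rw [update_idem] at h5
          have : update τ j true = τ := by rw [← h4, update_eq_self]
          rw [this] at h5
          exact h5
      exact h3.trans h1
  have h0 := sd σ
  rcases Nat.eq_zero_or_pos z with hz | hz
  · subst hz
    have : ng σ = σ := by funext i; exact i.elim0
    rw [this] at h0
    simp only [Nat.cast_zero, mul_zero, add_zero]
    omega
  · have hd : 0 ≤ d := by
      have a1 := lo (fun _ => false) ⟨0, hz⟩ rfl
      have a2 := hi (fun _ => false) ⟨0, hz⟩ rfl
      omega
    have h1 := key univ σ hd
    have h2 := key2 univ (ng σ)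
    have h3 : (fun i => if i ∈ (univ : Finset (Fin z)) then false else σ i) =
        (fun i => if i ∈ (univ : Finset (Fin z)) then false else ng σ i) := by
      funext i; simp
    rw [h3] at h1
    rw [Finset.card_univ, Fintype.card_fin] at h1
    linarith

lemma EV.finite {z : ℕ} (c0 : ℤ) : {b : (Fin z → Bool) → ℤ | EV c0 b}.Finite := by
  apply Set.Finite.subset (Set.Finite.pi (fun _ : Fin z → Bool =>
    Set.finite_Icc (-(|4 * c0 + 2| + 2 * (z : ℤ))) (|4 * c0 + 2| + 2 * z)))
  intro b hb
  rw [Set.mem_pi]
  intro σ _
  have h1 := bd_ng hb.lo hb.hi hb.sd σ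
  have h2 := bd_ng hb.lo hb.hi hb.sd (ng σ)
  have h3 := hb.sd σ
  have h4 := le_abs_self (4 * c0 + 2)
  have h5 := neg_abs_le (4 * c0 + 2)
  constructor
  · omega
  · omega

section
variable {z : ℕ} (i j : Fin z)

lemma rrp_mem (b : (Fin z → Bool) → ℤ) (σ : Fin z → Bool) :
    rrp i j b σ = b σ ∨ rrp i j b σ = b (swp i j σ) := by
  unfold rrp
  split_ifs
  · exact Or.inl rfl
  · exact max_choice _ _
  · exact min_choice _ _

lemma rrp_EV (hij : i ≠ j) {c0 : ℤ} {a : (Fin z → Bool) → ℤ} (ha : EV c0 a) :
    EV c0 (rrp i j a) := by
  have hst : ∀ σ l, σ l = false → rrp i j a σ ≤ rrp i j a (update σ l true) ∧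
      rrp i j a (update σ l true) ≤ rrp i j a σ + 2 := by
    intro σ l hl
    by_cases h1 : l = i
    · subst h1
      rcases hk : σ j with _ | _
      · -- (0,0) → (1,0)
        have e1 : update σ l true l = true := by simp
        have e2 : update σ l true j = false := by
          rw [update_of_ne (Ne.symm hij), hk]
        rw [rrp_true l j e1 e2, rrp_eq l j (σ := σ) (by rw [hl, hk])]
        have s1 := ha.lo σ l hl
        have s2 := ha.lo σ j hk
        have s3 := ha.hi σ l hl
        have s4 := ha.hi σ j hk
        have : swp l j (update σ l true) = update σ j true := by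
          funext k
          by_cases hk1 : k = l
          · subst hk1
            rw [swp_i, e2, update_of_ne hij, hl]
          · by_cases hk2 : k = j
            · subst hk2
              rw [swp_j, e1, update_self]
            · rw [swp_of_ne l j _ hk1 hk2, update_of_ne hk1, update_of_ne hk2]
        rw [this]
        omega
      · -- (0,1) → (1,1)
        have e1 : update σ l true l = true := by simp
        have e2 : update σ l true j = true := by
          rw [update_of_ne (Ne.symm hij), hk]
        rw [rrp_eq l j (σ := update σ l true) (by rw [e1, e2]), rrp_false l j hl hk]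
        have s1 := ha.lo σ l hl
        have s2 := ha.lo (swp l j σ) j (by rw [swp_j, hl])
        have s3 := ha.hi σ l hl
        have s4 := ha.hi (swp l j σ) j (by rw [swp_j, hl])
        have : update (swp l j σ) j true = update σ l true := by
          funext k
          by_cases hk1 : k = l
          · subst hk1
            rw [e1, update_of_ne hij, swp_i, hk]
          · by_cases hk2 : k = j
            · subst hk2
              rw [update_self, e2]
            · rw [update_of_ne hk2, swp_of_ne l j _ hk1 hk2, update_of_ne hk1]
        rw [this] at s2 s4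
        omega
    · by_cases h2 : l = j
      · subst h2
        rcases h0 : σ i with _ | _
        · -- (0,0) → (0,1)
          have e1 : update σ l true l = true := by simp
          have e2 : update σ l true i = false := by
            rw [update_of_ne hij, h0]
          rw [rrp_false i l e2 e1, rrp_eq i l (σ := σ) (by rw [hl, h0])]
          have s1 := ha.lo σ i h0
          have s2 := ha.lo σ l hl
          have s3 := ha.hi σ i h0
          have s4 := ha.hi σ l hl
          have : swp i l (update σ l true) = update σ i true := by
            funext k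
            by_cases hk1 : k = i
            · subst hk1
              rw [swp_i, e1, update_self]
            · by_cases hk2 : k = l
              · subst hk2
                rw [swp_j, e2, update_of_ne (Ne.symm hij), hl]
              · rw [swp_of_ne i l _ hk1 hk2, update_of_ne hk1, update_of_ne hk2]
          rw [this]
          omega
        · -- (1,0) → (1,1)
          have e1 : update σ l true l = true := by simp
          have e2 : update σ l true i = true := by
            rw [update_of_ne hij, h0]
          rw [rrp_eq i l (σ := update σ l true) (by rw [e1, e2]), rrp_true i l h0 hl]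
          have s1 := ha.lo σ l hl
          have s2 := ha.lo (swp i l σ) i (by rw [swp_i, hl])
          have s3 := ha.hi σ l hl
          have s4 := ha.hi (swp i l σ) i (by rw [swp_i, hl])
          have : update (swp i l σ) i true = update σ l true := by
            funext k
            by_cases hk1 : k = i
            · subst hk1
              rw [e2, update_self]
            · by_cases hk2 : k = l
              · subst hk2
                rw [update_self, update_of_ne (Ne.symm hij), swp_j, h0]
              · rw [update_of_ne hk2, update_of_ne hk1, swp_of_ne i l _ hk1 hk2]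
          rw [this] at s2 s4
          omega
      · have e0 : update σ l true i = σ i := by rw [update_of_ne (Ne.symm h1)]
        have ek : update σ l true j = σ j := by rw [update_of_ne (Ne.symm h2)]
        have s1 := ha.lo σ l hl
        have s2 := ha.lo (swp i j σ) l (by rw [swp_of_ne i j σ h1 h2, hl])
        have s3 := ha.hi σ l hl
        have s4 := ha.hi (swp i j σ) l (by rw [swp_of_ne i j σ h1 h2, hl])
        rw [← swp_update_of_ne i j h1 h2] at s2 s4
        rcases h0 : σ i with _ | _ <;> rcases hk : σ j with _ | _
        · rw [rrp_eq i j (σ := σ) (by rw [h0, hk]),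
            rrp_eq i j (σ := update σ l true) (by rw [e0, ek, h0, hk])]
          exact ⟨s1, s3⟩
        · rw [rrp_false i j (σ := σ) h0 hk,
            rrp_false i j (σ := update σ l true) (by rw [e0, h0]) (by rw [ek, hk])]
          omega
        · rw [rrp_true i j (σ := σ) h0 hk,
            rrp_true i j (σ := update σ l true) (by rw [e0, h0]) (by rw [ek, hk])]
          omega
        · rw [rrp_eq i j (σ := σ) (by rw [h0, hk]),
            rrp_eq i j (σ := update σ l true) (by rw [e0, ek, h0, hk])]
          exact ⟨s1, s3⟩
  refine ⟨?_, fun σ l hl => (hst σ l hl).1, fun σ l hl => (hst σ l hl).2, ?_⟩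
  · intro σ
    have h1 := ha.sd σ
    have h2 := ha.sd (swp i j σ)
    rcases h0 : σ i with _ | _ <;> rcases hk : σ j with _ | _
    · rw [rrp_eq i j (by rw [h0, hk]), rrp_eq i j (by rw [ng_apply, ng_apply, h0, hk])]
      exact h1
    · rw [rrp_false i j h0 hk, rrp_true i j (by rw [ng_apply, h0]; rfl)
        (by rw [ng_apply, hk]; rfl), swp_ng]
      omega
    · rw [rrp_true i j h0 hk, rrp_false i j (by rw [ng_apply, h0]; rfl)
        (by rw [ng_apply, hk]; rfl), swp_ng]
      omega
    · rw [rrp_eq i j (by rw [h0, hk]), rrp_eq i j (by rw [ng_apply, ng_apply, h0, hk])]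
      exact h1
  · intro σ
    rcases rrp_mem i j a σ with h | h <;> rw [h]
    · exact ha.pa _
    · exact ha.pa _

end

/-- best pairs in classes closed under rearrangement -/
lemma exists_best2 {z : ℕ} {A C : Set ((Fin z → Bool) → ℤ)} (fA : A.Finite) (fC : C.Finite)
    (cA : ∀ i j : Fin z, i ≠ j → ∀ a ∈ A, rrp i j a ∈ A)
    (cC : ∀ i j : Fin z, i ≠ j → ∀ a ∈ C, rrp i j a ∈ C)
    {G H : ℤ → ℝ} (hG : Monotone G) (hH : Monotone H)
    {a c : (Fin z → Bool) → ℤ} (ha : a ∈ A) (hc : c ∈ C) :
    ∃ a' c' : (Fin z → Bool) → ℤ, a' ∈ A ∧ c' ∈ C ∧ PV G H a c ≤ PV G H a' c' ∧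
      (∀ a'' ∈ A, ∀ c'' ∈ C, PV G H a'' c'' ≤ PV G H a' c') ∧ Stab a' ∧ Stab c' := by
  let S : Set (((Fin z → Bool) → ℤ) × ((Fin z → Bool) → ℤ)) := A ×ˢ C
  have hS : S.Finite := fA.prod fC
  have hmem : ∀ a'' ∈ A, ∀ c'' ∈ C, (a'', c'') ∈ S := fun a'' h1 c'' h2 => ⟨h1, h2⟩
  obtain ⟨⟨a1, c1⟩, hq1, hmax1⟩ := Set.exists_max_image S (fun q => PV G H q.1 q.2) hS
    ⟨(a, c), hmem a ha c hc⟩
  let S' : Set (((Fin z → Bool) → ℤ) × ((Fin z → Bool) → ℤ)) :=
    S ∩ {q | PV G H q.1 q.2 = PV G H a1 c1}
  have hS' : S'.Finite := hS.inter_of_left _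
  obtain ⟨⟨a2, c2⟩, hq2, hmax2⟩ := Set.exists_max_image S' (fun q => Pot q.1 + Pot q.2) hS'
    ⟨(a1, c1), hq1, rfl⟩
  have hV : PV G H a2 c2 = PV G H a1 c1 := hq2.2
  have hval : a2 ∈ A ∧ c2 ∈ C := hq2.1
  have hst : ∀ i j : Fin z, i < j → Pot (rrp i j a2) + Pot (rrp i j c2) ≤ Pot a2 + Pot c2 := by
    intro i j hij
    apply hmax2 (rrp i j a2, rrp i j c2)
    have hm := hmem _ (cA i j hij.ne _ hval.1) _ (cC i j hij.ne _ hval.2)
    refine ⟨hm, le_antisymm (hmax1 _ hm) ?_⟩
    rw [← hV]
    exact rrp_PV i j hG hH a2 c2
  refine ⟨a2, c2, hval.1, hval.2, ?_, ?_, ?_, ?_⟩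
  · rw [hV]; exact hmax1 (a, c) (hmem a ha c hc)
  · intro a'' h1 c'' h2
    rw [hV]; exact hmax1 (a'', c'') (hmem _ h1 _ h2)
  · intro i j hij σ hi hj
    by_contra hcon
    push Not at hcon
    rw [← swp_upd hij.ne hi hj] at hcon
    have h1 := Pot_lt i j hij a2 hi hj hcon
    have h2 := Pot_le i j hij c2
    have h3 := hst i j hij
    linarith
  · intro i j hij σ hi hj
    by_contra hcon
    push Not at hcon
    rw [← swp_upd hij.ne hi hj] at hcon
    have h1 := Pot_lt i j hij c2 hi hj hcon
    have h2 := Pot_le i j hij a2
    have h3 := hst i j hij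
    linarith

/-- best pairs, first function with a half-integral value -/
lemma exists_bestE {z : ℕ} {c0 C : ℤ} {G H : ℤ → ℝ} (hG : Monotone G) (hH : Monotone H)
    {a c : (Fin z → Bool) → ℤ} (ha : EV c0 a) (hc : Val C c) :
    ∃ a' c' : (Fin z → Bool) → ℤ, EV c0 a' ∧ Val C c' ∧ PV G H a c ≤ PV G H a' c' ∧
      (∀ a'' c'' : (Fin z → Bool) → ℤ, EV c0 a'' → Val C c'' →
        PV G H a'' c'' ≤ PV G H a' c') ∧ Stab a' ∧ Stab c' := by
  obtain ⟨a', c', h1, h2, h3, h4, h5, h6⟩ := exists_best2 (A := {b | EV c0 b}) (C := {c | Val C c})
    (EV.finite c0) (val_finite C) (fun i j hij a ha => rrp_EV i j hij ha)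
    (fun i j hij a ha => rrp_val i j hij ha) hG hH ha hc
  exact ⟨a', c', h1, h2, h3, fun a'' c'' k1 k2 => h4 a'' k1 c'' k2, h5, h6⟩

end Pool.Agent.MP_867aae_co.P75
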