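import Mathlib
import Pool.Agent.MP_867aae_co.P75.PX

/-!
The modified function `c♯`: pointwise facts.
-/

namespace Pool.Agent.MP_867aae_co.P75

open Finset Function Pool.Agent.MP_867aae_co.H75

/-- faces of `c♯` -/
def c1s (K s y : ℤ) : ℤ := if s = 1 then K + 2 else if s = -1 then K + 1 else y

def c0s (K s y : ℤ) : ℤ := if s = 1 then K + 1 else if s = -1 then K else y

lemma c1s_1 (K y : ℤ) : c1s K 1 y = K + 2 := by simp [c1s]
lemma c1s_m (K y : ℤ) : c1s K (-1) y = K + 1 := by simp [c1s]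
lemma c1s_0 (K y : ℤ) : c1s K 0 y = y := by simp [c1s]
lemma c0s_1 (K y : ℤ) : c0s K 1 y = K + 1 := by simp [c0s]
lemma c0s_m (K y : ℤ) : c0s K (-1) y = K := by simp [c0s]
lemma c0s_0 (K y : ℤ) : c0s K 0 y = y := by simp [c0s]

/-- compatibility of a status with the values -/
structure Sta (K s y11 y10 y01 y00 : ℤ) : Prop where
  h1 : s = 1 → (y10 = K + 1 ∧ y01 = K + 1 ∧ y00 = K + 1 ∧ (y11 = K + 1 ∨ y11 = K + 2))
  h2 : s = -1 → (y10 = K + 1 ∧ y01 = K + 1 ∧ y11 = K + 1 ∧ (y00 = K + 1 ∨ y00 = K))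
  h3 : (y10 = K + 1 ∧ y01 = K + 1 ∧ y00 = K + 1 ∧ y11 = K + 2) → s = 1
  h4 : (y10 = K + 1 ∧ y01 = K + 1 ∧ y11 = K + 1 ∧ y00 = K) → s = -1
  h5 : s = 1 ∨ s = -1 ∨ s = 0

lemma cs_step {K s t : ℤ} {x11 x10 x01 x00 : ℤ}
    (h : Sqr x11 x10 x01 x00) {y11 y10 y01 y00 : ℤ} (h' : Sqr y11 y10 y01 y00)
    (hs : Sta K s x11 x10 x01 x00) (ht : Sta K t y11 y10 y01 y00)
    (hm : x11 = K + 1 → x00 = K + 1 → y11 = K + 1 → y00 = K + 1 → s ≤ t)
    (u11 : y11 = x11 ∨ y11 = x11 + 1) (u10 : y10 = x10 ∨ y10 = x10 + 1)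
    (u01 : y01 = x01 ∨ y01 = x01 + 1) (u00 : y00 = x00 ∨ y00 = x00 + 1)
    (c1 : y01 ≤ x11) (c2 : y00 ≤ x10) (c3 : y10 ≤ x11) (c4 : y00 ≤ x01) :
    (c1s K t y11 = c1s K s x11 ∨ c1s K t y11 = c1s K s x11 + 1) ∧
    (c1s K t y10 = c1s K s x10 ∨ c1s K t y10 = c1s K s x10 + 1) ∧
    (c0s K t y01 = c0s K s x01 ∨ c0s K t y01 = c0s K s x01 + 1) ∧
    (c0s K t y00 = c0s K s x00 ∨ c0s K t y00 = c0s K s x00 + 1) := by
  rcases hs.h5 with rfl | rfl | rfl <;> rcases ht.h5 with rfl | rfl | rfl <;>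
    simp only [c1s_1, c1s_m, c1s_0, c0s_1, c0s_m, c0s_0]
  · refine ⟨?_, ?_, ?_, ?_⟩ <;> first | simp | omega
  · -- (1, -1)
    exfalso
    obtain ⟨a1, a2, a3, a4⟩ := hs.h1 rfl
    obtain ⟨b1, b2, b3, b4⟩ := ht.h2 rfl
    have := hm (by omega) (by omega) (by omega) (by omega)
    omega
  · -- (1, 0)
    obtain ⟨a1, a2, a3, a4⟩ := hs.h1 rfl
    have k1 : y10 = K + 2 := by
      by_contra hcon
      have e1 : y10 = K + 1 := by omega
      have e2 : y01 = K + 1 := by have := h'.mo; omega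
      have e3 : y00 = K + 1 := by have := h'.s1; omega
      have e4 : y11 = K + 1 ∨ y11 = K + 2 := by have := h'.s3; omega
      rcases e4 with e4 | e4
      · have := hm (by omega) a3 e4 e3
        omega
      · have := ht.h3 ⟨e1, e2, e3, e4⟩
        omega
    have k2 : y11 = K + 2 ∨ y11 = K + 3 := by have := h'.s3; omega
    refine ⟨by omega, by omega, by omega, by omega⟩
  · -- (-1, 1)
    refine ⟨?_, ?_, ?_, ?_⟩ <;> first | omega | simp
  · refine ⟨?_, ?_, ?_, ?_⟩ <;> first | simp | omega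
  · -- (-1, 0)
    obtain ⟨a1, a2, a3, a4⟩ := hs.h2 rfl
    refine ⟨by omega, by omega, by omega, by omega⟩
  · -- (0, 1)
    obtain ⟨a1, a2, a3, a4⟩ := ht.h1 rfl
    refine ⟨by omega, by omega, by omega, by omega⟩
  · -- (0, -1)
    obtain ⟨a1, a2, a3, a4⟩ := ht.h2 rfl
    have k1 : x01 = K := by
      by_contra hcon
      have e1 : x01 = K + 1 := by omega
      have e2 : x10 = K + 1 := by have := h.mo; omega
      have e3 : x11 = K + 1 := by have := h.s3; omega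
      have e4 : x00 = K + 1 ∨ x00 = K := by have := h.s2; omega
      rcases e4 with e4 | e4
      · have := hm e3 e4 a3 (by omega)
        omega
      · have := hs.h4 ⟨e2, e1, e3, e4⟩
        omega
    have k2 : x00 = K ∨ x00 = K - 1 := by have := h.s2; omega
    refine ⟨by omega, by omega, by omega, by omega⟩
  · exact ⟨u11, u10, u01, u00⟩

lemma cs_within {K s : ℤ} {x11 x10 x01 x00 : ℤ}
    (h : Sqr x11 x10 x01 x00) (hs : Sta K s x11 x10 x01 x00) :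
    (c1s K s x10 = c0s K s x00 ∨ c1s K s x10 = c0s K s x00 + 1) ∧
    (c0s K s x01 = c0s K s x00 ∨ c0s K s x01 = c0s K s x00 + 1) ∧
    (c1s K s x11 = c1s K s x10 ∨ c1s K s x11 = c1s K s x10 + 1) ∧
    (c1s K s x11 = c0s K s x01 ∨ c1s K s x11 = c0s K s x01 + 1) := by
  obtain ⟨s1, s2, s3, s4, mo⟩ := h
  rcases hs.h5 with rfl | rfl | rfl <;> simp only [c1s_1, c1s_m, c1s_0, c0s_1, c0s_m, c0s_0]
  · refine ⟨?_, ?_, ?_, ?_⟩ <;> first | omega | simp
  · refine ⟨?_, ?_, ?_, ?_⟩ <;> first | omega | simp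
  · exact ⟨s1, s2, s3, s4⟩

lemma cs_sd {K s y z : ℤ} (h5 : s = 1 ∨ s = -1 ∨ s = 0) (e : y + z = 2 * K + 2) :
    c1s K s y + c0s K (-s) z = 2 * K + 2 := by
  rcases h5 with rfl | rfl | rfl
  · rw [c1s_1, c0s_m]; ring
  · rw [neg_neg, c1s_m, c0s_1]; ring
  · rw [neg_zero, c1s_0, c0s_0]; exact e

end Pool.Agent.MP_867aae_co.P75
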