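import Mathlib

/-!
Layer lemma: a weighted sum is at most a superlevel sum.
-/

namespace Pool.Agent.MP_867aae_co.P75

open Finset

lemma layer_aux {ι : Type*} [Fintype ι] (δ : ι → ℝ) (n : ℕ) : ∀ (h : ℝ) (π : ι → ℝ), 0 < h →
    (∀ i, 0 ≤ π i) → (∀ i, π i ≤ h) → (univ.filter (fun i => 0 < π i)).card = n →
    ∃ l : ℝ, 0 ≤ l ∧ l < h ∧ ∑ i, π i * δ i ≤ h * ∑ i, if l < π i then δ i else 0 := by
  classical
  induction n using Nat.strong_induction_on with
  | _ n ih =>
    intro h π hh h0 h1 hn
    set S := ∑ i, π i * δ i with hS
    set D0 := ∑ i, if 0 < π i then δ i else 0 with hD0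
    by_cases hc : S ≤ h * D0
    · exact ⟨0, le_rfl, hh, hc⟩
    · push Not at hc
      have hne : (univ.filter (fun i => 0 < π i)).Nonempty := by
        by_contra hcon
        rw [Finset.not_nonempty_iff_eq_empty] at hcon
        have hz : ∀ i, π i = 0 := by
          intro i
          by_contra hi
          have : i ∈ univ.filter (fun i => 0 < π i) := by
            rw [Finset.mem_filter]
            exact ⟨Finset.mem_univ _, lt_of_le_of_ne (h0 i) (Ne.symm hi)⟩
          rw [hcon] at this
          exact absurd this (Finset.notMem_empty _)
        have e1 : S = 0 := by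
          rw [hS]; apply Finset.sum_eq_zero; intro i _; rw [hz i, zero_mul]
        have e2 : D0 = 0 := by
          rw [hD0]; apply Finset.sum_eq_zero; intro i _; rw [hz i]; simp
        rw [e1, e2] at hc
        simp at hc
      obtain ⟨i0, hi0, hmin⟩ := Finset.exists_min_image _ π hne
      have hpos : 0 < π i0 := (Finset.mem_filter.1 hi0).2
      set μ := π i0 with hμ
      have hge : ∀ i, 0 < π i → μ ≤ π i := fun i hi =>
        hmin i (Finset.mem_filter.2 ⟨Finset.mem_univ _, hi⟩)
      have hμh : μ < h := by
        rcases (h1 i0).lt_or_eq with h2 | h2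
        · exact h2
        · exfalso
          have : S = h * D0 := by
            rw [hS, hD0, Finset.mul_sum]
            apply Finset.sum_congr rfl
            intro i _
            by_cases hi : 0 < π i
            · rw [if_pos hi]
              have : π i = h := le_antisymm (h1 i) (h2 ▸ hge i hi)
              rw [this]
            · rw [if_neg hi]
              have : π i = 0 := le_antisymm (not_lt.1 hi) (h0 i)
              rw [this]; simp
          linarith
      let π' : ι → ℝ := fun i => if 0 < π i then π i - μ else 0
      have hπ' : ∀ i, 0 ≤ π' i := by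
        intro i
        simp only [π']
        split_ifs with hi
        · linarith [hge i hi]
        · exact le_rfl
      have hπ'h : ∀ i, π' i ≤ h - μ := by
        intro i
        simp only [π']
        split_ifs with hi
        · linarith [h1 i]
        · linarith
      have hlt : (univ.filter (fun i => 0 < π' i)).card < n := by
        rw [← hn]
        apply Finset.card_lt_card
        constructor
        · intro i hi
          rw [Finset.mem_filter] at hi ⊢
          refine ⟨Finset.mem_univ _, ?_⟩
          by_contra hcon
          have := hi.2
          simp only [π', if_neg hcon, lt_irrefl] at this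
        · intro hsub
          have := hsub hi0
          rw [Finset.mem_filter] at this
          have := this.2
          simp only [π', if_pos hpos, ← hμ, sub_self, lt_irrefl] at this
      obtain ⟨l', hl0, hl1, hl2⟩ := ih _ hlt (h - μ) π' (by linarith) hπ' hπ'h rfl
      refine ⟨l' + μ, by linarith, by linarith, ?_⟩
      have e1 : ∑ i, π' i * δ i = S - μ * D0 := by
        rw [hS, hD0, Finset.mul_sum, ← Finset.sum_sub_distrib]
        apply Finset.sum_congr rfl
        intro i _
        simp only [π']
        by_cases hi : 0 < π i
        · rw [if_pos hi, if_pos hi]; ring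
        · rw [if_neg hi, if_neg hi]
          have : π i = 0 := le_antisymm (not_lt.1 hi) (h0 i)
          rw [this]; ring
      have e2 : ∀ i, (l' < π' i) ↔ (l' + μ < π i) := by
        intro i
        simp only [π']
        by_cases hi : 0 < π i
        · rw [if_pos hi]
          constructor <;> intro _ <;> linarith
        · rw [if_neg hi]
          have : π i = 0 := le_antisymm (not_lt.1 hi) (h0 i)
          rw [this]
          constructor <;> intro _ <;> linarith
      have e3 : (∑ i, if l' < π' i then δ i else 0) = ∑ i, if l' + μ < π i then δ i else 0 := by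
        apply Finset.sum_congr rfl
        intro i _
        simp only [e2 i]
      rw [e1, e3] at hl2
      set X := ∑ i, if l' + μ < π i then δ i else 0
      have hd : 0 < h - μ := by linarith
      apply le_of_mul_le_mul_left _ hd
      have k1 := mul_le_mul_of_nonneg_left hl2 hh.le
      have k2 := mul_le_mul_of_nonneg_left hc.le hpos.le
      linarith

/-- the layer lemma -/
lemma layer {ι : Type*} [Fintype ι] (π δ : ι → ℝ) (h0 : ∀ i, 0 ≤ π i) (h1 : ∀ i, π i ≤ 1) :
    ∃ l : ℝ, 0 ≤ l ∧ l < 1 ∧ ∑ i, π i * δ i ≤ ∑ i, if l < π i then δ i else 0 := by
  obtain ⟨l, a, b, c⟩ := layer_aux δ _ 1 π one_pos h0 h1 rfl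
  rw [one_mul] at c
  exact ⟨l, a, b, c⟩

end Pool.Agent.MP_867aae_co.P75
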