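import Mathlib
import Pool.Agent.MP_867aae_co.P75.PD
import Pool.Agent.MP_867aae_co.P75.PL

/-!
Consequence of maximality: the weighted sum of the gains of the modification is nonpositive.
-/

namespace Pool.Agent.MP_867aae_co.P75

open Finset Function Pool.Agent.MP_867aae_co.H75

/-- weight of a square -/
noncomputable def wv (α : ℤ → ℝ) (c0 K j x11 x10 x01 x00 y11 y10 y01 y00 : ℤ) : ℝ :=
  if y10 = K + 1 ∧ y01 = K + 1 ∧ y00 = K + 1 ∧ y11 = K + 2 then 1 else
    if (y10 = K + 1 ∧ y01 = K + 1 ∧ y00 = K + 1 ∧ y11 = K + 1) ∧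
      4 * c0 + 2 ≤ x11 + x10 + x01 + x00 then α j else 0

/-- change at a square with status `1` -/
noncomputable def dP (G H : ℤ → ℝ) (K k x11 x10 x01 x00 y11 y10 y01 y00 : ℤ) : ℝ :=
  G x11 * (H (K + 2 - 2 - k) - H (y11 - 2 - k)) + G x10 * (H (K + 2 - 1 - k) - H (y10 - 1 - k)) +
    G x01 * (H (K + 1 - 1 - k) - H (y01 - 1 - k)) + G x00 * (H (K + 1 - k) - H (y00 - k))

/-- change at a square with status `-1` -/
noncomputable def dM (G H : ℤ → ℝ) (K k x11 x10 x01 x00 y11 y10 y01 y00 : ℤ) : ℝ :=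
  G x11 * (H (K + 1 - 2 - k) - H (y11 - 2 - k)) + G x10 * (H (K + 1 - 1 - k) - H (y10 - 1 - k)) +
    G x01 * (H (K - 1 - k) - H (y01 - 1 - k)) + G x00 * (H (K - k) - H (y00 - k))

section
variable {z : ℕ}

/-- the weight as a function on the cube -/
noncomputable def wf (α : ℤ → ℝ) (c0 K w : ℤ) (a c : (Fin (z + 2) → Bool) → ℤ)
    (ρ : Fin z → Bool) : ℝ :=
  wv α c0 K (cn ρ - w) (fc a true true ρ) (fc a true false ρ) (fc a false true ρ)
    (fc a false false ρ) (fc c true true ρ) (fc c true false ρ) (fc c false true ρ)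
    (fc c false false ρ)

noncomputable def dPf (G H : ℤ → ℝ) (K : ℤ) (a c : (Fin (z + 2) → Bool) → ℤ)
    (ρ : Fin z → Bool) : ℝ :=
  dP G H K (cn ρ) (fc a true true ρ) (fc a true false ρ) (fc a false true ρ)
    (fc a false false ρ) (fc c true true ρ) (fc c true false ρ) (fc c false true ρ)
    (fc c false false ρ)

noncomputable def dMf (G H : ℤ → ℝ) (K : ℤ) (a c : (Fin (z + 2) → Bool) → ℤ)
    (ρ : Fin z → Bool) : ℝ :=
  dM G H K (cn ρ) (fc a true true ρ) (fc a true false ρ) (fc a false true ρ)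
    (fc a false false ρ) (fc c true true ρ) (fc c true false ρ) (fc c false true ρ)
    (fc c false false ρ)

/-- the status -/
noncomputable def stf (l : ℝ) (W : (Fin z → Bool) → ℝ) (ρ : Fin z → Bool) : ℤ :=
  if l < W ρ then 1 else if l < W (ng ρ) then -1 else 0

lemma vmax {G H : ℤ → ℝ} {c0 K w : ℤ} {α : ℤ → ℝ} (hα : Monotone α)
    {a c : (Fin (z + 2) → Bool) → ℤ}
    (ha : Val (2 * c0) a) (hc : Val (2 * K + 2) c) (sa : Stab a) (sc : Stab c)
    (hmax : ∀ c' : (Fin (z + 2) → Bool) → ℤ, Val (2 * K + 2) c' → PV G H a c' ≤ PV G H a c)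
    {l : ℝ} (hl0 : 0 ≤ l) (hl1 : l < 1) :
    ∑ ρ : Fin z → Bool, (if l < wf α c0 K w a c ρ then
      dPf G H K a c ρ + dMf G H K a c (ng ρ) else 0) ≤ 0 := by
  have qa := sq_of ha sa
  have qc := sq_of hc sc
  set W := wf α c0 K w a c with hW
  -- facts on the weight
  have w1 : ∀ ρ, l < W ρ → (fc c true false ρ = K + 1 ∧ fc c false true ρ = K + 1 ∧
      fc c false false ρ = K + 1 ∧ (fc c true true ρ = K + 1 ∨ fc c true true ρ = K + 2)) := by
    intro ρ h
    rw [hW] at h
    unfold wf wv at h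
    split_ifs at h with h1 h2
    · exact ⟨h1.1, h1.2.1, h1.2.2.1, Or.inr h1.2.2.2⟩
    · exact ⟨h2.1.1, h2.1.2.1, h2.1.2.2.1, Or.inl h2.1.2.2.2⟩
    · exact absurd h (not_lt.2 hl0)
  have w2 : ∀ ρ, l < W ρ → fc c true true ρ = K + 1 →
      4 * c0 + 2 ≤ fc a true true ρ + fc a true false ρ + fc a false true ρ +
        fc a false false ρ ∧ l < α (cn ρ - w) := by
    intro ρ h h3
    rw [hW] at h
    unfold wf wv at h
    split_ifs at h with h1 h2
    · omega
    · exact ⟨h2.2, h⟩
    · exact absurd h (not_lt.2 hl0)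
  have w3 : ∀ ρ, (fc c true false ρ = K + 1 ∧ fc c false true ρ = K + 1 ∧
      fc c false false ρ = K + 1 ∧ fc c true true ρ = K + 2) → l < W ρ := by
    intro ρ h
    rw [hW]
    unfold wf wv
    rw [if_pos h]
    exact hl1
  have w4 : ∀ ρ, (fc c true false ρ = K + 1 ∧ fc c false true ρ = K + 1 ∧
      fc c false false ρ = K + 1 ∧ fc c true true ρ = K + 1) →
      4 * c0 + 2 ≤ fc a true true ρ + fc a true false ρ + fc a false true ρ +
        fc a false false ρ → l < α (cn ρ - w) → l < W ρ := by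
    intro ρ h h2 h3
    rw [hW]
    unfold wf wv
    rw [if_neg (by omega), if_pos ⟨h, h2⟩]
    exact h3
  have hx : ∀ ρ, ¬ (l < W ρ ∧ l < W (ng ρ)) := by
    rintro ρ ⟨h1, h2⟩
    have k1 := w1 ρ h1
    have k2 := w1 (ng ρ) h2
    have e1 := qc.sd1 ρ
    have e2 := qc.sd1 (ng ρ)
    rw [ng_ng] at e2
    have k3 := w2 ρ h1 (by omega)
    have k4 := w2 (ng ρ) h2 (by omega)
    have f1 := qa.sd1 ρ
    have f2 := qa.sd1 (ng ρ)
    have f3 := qa.sd2 ρ
    have f4 := qa.sd2 (ng ρ)
    rw [ng_ng] at f2 f4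
    omega
  set s := stf l W with hs
  have s1 : ∀ ρ, s ρ = 1 ↔ l < W ρ := by
    intro ρ
    rw [hs]; unfold stf
    split_ifs with h1 h2 <;> simp [h1]
  have sm : ∀ ρ, s ρ = -1 ↔ l < W (ng ρ) := by
    intro ρ
    rw [hs]; unfold stf
    by_cases h1 : l < W ρ
    · rw [if_pos h1]
      constructor
      · intro h; omega
      · intro h; exact absurd ⟨h1, h⟩ (hx ρ)
    · rw [if_neg h1]
      split_ifs with h2 <;> simp [h2]
  have s5 : ∀ ρ, s ρ = 1 ∨ s ρ = -1 ∨ s ρ = 0 := by
    intro ρ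
    rw [hs]; unfold stf
    split_ifs <;> simp
  have sng : ∀ ρ, s (ng ρ) = -s ρ := by
    intro ρ
    have a1 := s1 ρ
    have a2 := sm ρ
    have a3 := s1 (ng ρ)
    have a4 := sm (ng ρ)
    rw [ng_ng] at a4
    rcases s5 ρ with h | h | h
    · rw [h, a4]; exact a1.1 h
    · rw [h, neg_neg, a3]; exact a2.1 h
    · rcases s5 (ng ρ) with h' | h' | h'
      · have := a2.2 (a3.1 h'); omega
      · have := a1.2 (a4.1 h'); omega
      · rw [h, h']; rfl
  have hsta : ∀ ρ, Sta K (s ρ) (fc c true true ρ) (fc c true false ρ) (fc c false true ρ)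
      (fc c false false ρ) := by
    intro ρ
    have e1 := qc.sd1 ρ
    have e2 := qc.sd1 (ng ρ)
    have e3 := qc.sd2 ρ
    have e4 := qc.sd2 (ng ρ)
    rw [ng_ng] at e2 e4
    refine ⟨?_, ?_, ?_, ?_, s5 ρ⟩
    · intro h; exact w1 ρ ((s1 ρ).1 h)
    · intro h
      have := w1 (ng ρ) ((sm ρ).1 h)
      omega
    · intro h; exact (s1 ρ).2 (w3 ρ h)
    · intro h
      apply (sm ρ).2
      apply w3
      omega
  have hmono : ∀ ρ i, ρ i = false → fc c true true ρ = K + 1 → fc c false false ρ = K + 1 →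
      fc c true true (update ρ i true) = K + 1 → fc c false false (update ρ i true) = K + 1 →
      s ρ ≤ s (update ρ i true) := by
    have up : ∀ ρ i, ρ i = false → fc c true true ρ = K + 1 → fc c false false ρ = K + 1 →
      fc c true true (update ρ i true) = K + 1 → fc c false false (update ρ i true) = K + 1 →
      s ρ = 1 → s (update ρ i true) = 1 := by
      intro ρ i hi h1 h2 h3 h4 h5
      rw [s1] at h5 ⊢
      obtain ⟨k1, k2⟩ := w2 ρ h5 h1
      have g1 := qc.s1 (update ρ i true)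
      have g2 := qc.s2 (update ρ i true)
      have g3 := qc.s3 (update ρ i true)
      have g4 := qc.s4 (update ρ i true)
      apply w4
      · omega
      · have u1 := qa.u11 ρ i hi
        have u2 := qa.u10 ρ i hi
        have u3 := qa.u01 ρ i hi
        have u4 := qa.u00 ρ i hi
        omega
      · apply k2.trans_le
        apply hα
        rw [cn_update hi]
        omega
    intro ρ i hi h1 h2 h3 h4
    rcases s5 ρ with h | h | h
    · rw [h, up ρ i hi h1 h2 h3 h4 h]
    · rcases s5 (update ρ i true) with h' | h' | h' <;> omega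
    · rcases s5 (update ρ i true) with h' | h' | h'
      · omega
      · exfalso
        -- go to the antipode
        have hi' : ng (update ρ i true) i = false := by simp [ng]
        have e0 : update (ng (update ρ i true)) i true = ng ρ := by
          rw [ng_update, update_idem]
          funext k
          by_cases hk : k = i
          · subst hk; simp [ng, hi]
          · simp [hk]
        have e1 := qc.sd1 ρ
        have e2 := qc.sd1 (ng ρ)
        have e3 := qc.sd1 (update ρ i true)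
        have e4 := qc.sd1 (ng (update ρ i true))
        rw [ng_ng] at e2 e4
        have h6 : s (ng (update ρ i true)) = 1 := by rw [sng, h']; rfl
        have := up (ng (update ρ i true)) i hi' (by omega) (by omega) (by rw [e0]; omega)
          (by rw [e0]; omega) h6
        rw [e0, sng, h] at this
        omega
      · omega
  have hsq : ∀ ρ, Sqr (fc c true true ρ) (fc c true false ρ) (fc c false true ρ)
      (fc c false false ρ) := fun ρ => ⟨qc.s1 ρ, qc.s2 ρ, qc.s3 ρ, qc.s4 ρ, qc.mo ρ⟩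
  have hstep := fun ρ i hi => cs_step (hsq ρ) (hsq (update ρ i true)) (hsta ρ)
    (hsta (update ρ i true)) (hmono ρ i hi) (qc.u11 ρ i hi) (qc.u10 ρ i hi) (qc.u01 ρ i hi)
    (qc.u00 ρ i hi) (qc.x1 ρ i hi) (qc.x2 ρ i hi) (qc.x3 ρ i hi) (qc.x4 ρ i hi)
  have hwith := fun ρ => cs_within (hsq ρ) (hsta ρ)
  set g11 : (Fin z → Bool) → ℤ := fun ρ => c1s K (s ρ) (fc c true true ρ) with hg11
  set g10 : (Fin z → Bool) → ℤ := fun ρ => c1s K (s ρ) (fc c true false ρ) with hg10
  set g01 : (Fin z → Bool) → ℤ := fun ρ => c0s K (s ρ) (fc c false true ρ) with hg01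
  set g00 : (Fin z → Bool) → ℤ := fun ρ => c0s K (s ρ) (fc c false false ρ) with hg00
  have hval : Val (2 * K + 2) (jn4 g11 g10 g01 g00) := by
    apply val_jn4
    · intro ρ i hi; exact (hstep ρ i hi).1
    · intro ρ i hi; exact (hstep ρ i hi).2.1
    · intro ρ i hi; exact (hstep ρ i hi).2.2.1
    · intro ρ i hi; exact (hstep ρ i hi).2.2.2
    · intro ρ; exact (hwith ρ).1
    · intro ρ; exact (hwith ρ).2.1
    · intro ρ; exact (hwith ρ).2.2.1
    · intro ρ; exact (hwith ρ).2.2.2
    · intro ρ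
      simp only [hg11, hg00]
      rw [sng]
      exact cs_sd (s5 ρ) (qc.sd1 ρ)
    · intro ρ
      simp only [hg10, hg01]
      rw [sng]
      exact cs_sd (s5 ρ) (qc.sd2 ρ)
  have hle := hmax _ hval
  rw [PV_sq, PV_sq] at hle
  have e1 : ∀ ρ, (G (fc a true true ρ) * H (fc (jn4 g11 g10 g01 g00) true true ρ - 2 - cn ρ) +
        G (fc a true false ρ) * H (fc (jn4 g11 g10 g01 g00) true false ρ - 1 - cn ρ) +
        G (fc a false true ρ) * H (fc (jn4 g11 g10 g01 g00) false true ρ - 1 - cn ρ) +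
        G (fc a false false ρ) * H (fc (jn4 g11 g10 g01 g00) false false ρ - cn ρ)) -
      (G (fc a true true ρ) * H (fc c true true ρ - 2 - cn ρ) +
        G (fc a true false ρ) * H (fc c true false ρ - 1 - cn ρ) +
        G (fc a false true ρ) * H (fc c false true ρ - 1 - cn ρ) +
        G (fc a false false ρ) * H (fc c false false ρ - cn ρ)) =
      (if s ρ = 1 then dPf G H K a c ρ else 0) + (if s ρ = -1 then dMf G H K a c ρ else 0) := by
    intro ρ
    obtain ⟨f1, f2, f3, f4⟩ := fc_jn4 g11 g10 g01 g00 ρ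
    rw [f1, f2, f3, f4]
    simp only [hg11, hg10, hg01, hg00]
    unfold dPf dMf dP dM
    rcases s5 ρ with h | h | h
    · rw [h, if_pos rfl, if_neg (by omega), c1s_1, c1s_1, c0s_1, c0s_1]
      ring
    · rw [h, if_pos rfl, if_neg (by omega), c1s_m, c1s_m, c0s_m, c0s_m]
      ring
    · rw [h, if_neg (by omega), if_neg (by omega), c1s_0, c1s_0, c0s_0, c0s_0]
      ring
  have e2 : ∑ ρ : Fin z → Bool, ((if s ρ = 1 then dPf G H K a c ρ else 0) +
      (if s ρ = -1 then dMf G H K a c ρ else 0)) ≤ 0 := by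
    rw [← Finset.sum_congr rfl (fun ρ _ => e1 ρ), Finset.sum_sub_distrib]
    linarith
  rw [Finset.sum_add_distrib, ← sum_ngR (fun ρ => if s ρ = -1 then dMf G H K a c ρ else 0),
    ← Finset.sum_add_distrib] at e2
  refine le_trans (le_of_eq ?_) e2
  apply Finset.sum_congr rfl
  intro ρ _
  simp only [sng]
  by_cases h : l < W ρ
  · have h' := (s1 ρ).2 h
    rw [if_pos h, if_pos h', if_pos (by rw [h'])]
  · have h' : s ρ ≠ 1 := fun k => h ((s1 ρ).1 k)
    rw [if_neg h, if_neg h', if_neg (by omega)]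
    simp

/-- weighted form -/
lemma vmax_w {G H : ℤ → ℝ} {c0 K w : ℤ} {α : ℤ → ℝ} (hα : Monotone α)
    (hα0 : ∀ j, 0 ≤ α j) (hα1 : ∀ j, α j ≤ 1)
    {a c : (Fin (z + 2) → Bool) → ℤ}
    (ha : Val (2 * c0) a) (hc : Val (2 * K + 2) c) (sa : Stab a) (sc : Stab c)
    (hmax : ∀ c' : (Fin (z + 2) → Bool) → ℤ, Val (2 * K + 2) c' → PV G H a c' ≤ PV G H a c) :
    ∑ ρ : Fin z → Bool, wf α c0 K w a c ρ * (dPf G H K a c ρ + dMf G H K a c (ng ρ)) ≤ 0 := by
  obtain ⟨l, hl0, hl1, h⟩ := layer (wf α c0 K w a c)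
    (fun ρ => dPf G H K a c ρ + dMf G H K a c (ng ρ))
    (fun ρ => by
      unfold wf wv
      split_ifs
      · norm_num
      · exact hα0 _
      · norm_num)
    (fun ρ => by
      unfold wf wv
      split_ifs
      · norm_num
      · exact hα1 _
      · norm_num)
  exact h.trans (vmax hα ha hc sa sc hmax hl0 hl1)

end

end Pool.Agent.MP_867aae_co.P75
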