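import Mathlib
import Pool.Agent.MP_867aae_co.P75.OG
import Pool.Agent.MP_867aae_co.P75.OC
import Pool.Agent.MP_867aae_co.P75.PS

/-!
Faces of functions with one half-integral value; consequence of maximality, general form.
-/

namespace Pool.Agent.MP_867aae_co.P75

open Finset Function Pool.Agent.MP_867aae_co.H75

/-- the four faces -/
structure EQ {z : ℕ} (c0 : ℤ) (f11 f10 f01 f00 : (Fin z → Bool) → ℤ) : Prop where
  sq : ∀ ρ, ESq c0 (f11 ρ) (f10 ρ) (f01 ρ) (f00 ρ)
  sd1 : ∀ ρ, f11 ρ + f00 (ng ρ) = 4 * c0 + 2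
  sd2 : ∀ ρ, f10 ρ + f01 (ng ρ) = 4 * c0 + 2
  l11 : ∀ ρ i, ρ i = false → f11 ρ ≤ f11 (update ρ i true)
  l10 : ∀ ρ i, ρ i = false → f10 ρ ≤ f10 (update ρ i true)
  l01 : ∀ ρ i, ρ i = false → f01 ρ ≤ f01 (update ρ i true)
  l00 : ∀ ρ i, ρ i = false → f00 ρ ≤ f00 (update ρ i true)
  u11 : ∀ ρ i, ρ i = false → f11 (update ρ i true) ≤ f11 ρ + 2
  u10 : ∀ ρ i, ρ i = false → f10 (update ρ i true) ≤ f10 ρ + 2
  u01 : ∀ ρ i, ρ i = false → f01 (update ρ i true) ≤ f01 ρ + 2
  u00 : ∀ ρ i, ρ i = false → f00 (update ρ i true) ≤ f00 ρ + 2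
  x1 : ∀ ρ i, ρ i = false → f01 (update ρ i true) ≤ f11 ρ
  x2 : ∀ ρ i, ρ i = false → f00 (update ρ i true) ≤ f10 ρ
  x3 : ∀ ρ i, ρ i = false → f10 (update ρ i true) ≤ f11 ρ
  x4 : ∀ ρ i, ρ i = false → f00 (update ρ i true) ≤ f01 ρ

lemma eq_of {z : ℕ} {c0 : ℤ} {f : (Fin (z + 2) → Bool) → ℤ} (hf : EV c0 f) (hs : Stab f) :
    EQ c0 (fc f true true) (fc f true false) (fc f false true) (fc f false false) := by
  have hlo : ∀ e1 e2 (ρ : Fin z → Bool) i, ρ i = false →
      fc f e1 e2 ρ ≤ fc f e1 e2 (update ρ i true) := by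
    intro e1 e2 ρ k hk
    have := hf.lo (Fin.cons e1 (Fin.cons e2 ρ)) k.succ.succ (by simpa using hk)
    rwa [← Fin.cons_update, ← Fin.cons_update] at this
  have hhi : ∀ e1 e2 (ρ : Fin z → Bool) i, ρ i = false →
      fc f e1 e2 (update ρ i true) ≤ fc f e1 e2 ρ + 2 := by
    intro e1 e2 ρ k hk
    have := hf.hi (Fin.cons e1 (Fin.cons e2 ρ)) k.succ.succ (by simpa using hk)
    rwa [← Fin.cons_update, ← Fin.cons_update] at this
  have h0 : ∀ (e2 : Bool) (ρ : Fin z → Bool), fc f false e2 ρ ≤ fc f true e2 ρ ∧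
      fc f true e2 ρ ≤ fc f false e2 ρ + 2 := by
    intro e2 ρ
    have h1 := hf.lo (Fin.cons false (Fin.cons e2 ρ)) 0 (by simp)
    have h2 := hf.hi (Fin.cons false (Fin.cons e2 ρ)) 0 (by simp)
    rw [Fin.update_cons_zero] at h1 h2
    exact ⟨h1, h2⟩
  have h1 : ∀ (e1 : Bool) (ρ : Fin z → Bool), fc f e1 false ρ ≤ fc f e1 true ρ ∧
      fc f e1 true ρ ≤ fc f e1 false ρ + 2 := by
    intro e1 ρ
    have h1 := hf.lo (Fin.cons e1 (Fin.cons false ρ)) (Fin.succ 0) (by simp)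
    have h2 := hf.hi (Fin.cons e1 (Fin.cons false ρ)) (Fin.succ 0) (by simp)
    rw [← Fin.cons_update, Fin.update_cons_zero] at h1 h2
    exact ⟨h1, h2⟩
  have hsd : ∀ (e1 e2 : Bool) (ρ : Fin z → Bool),
      fc f e1 e2 ρ + fc f (!e1) (!e2) (ng ρ) = 4 * c0 + 2 := by
    intro e1 e2 ρ
    have := hf.sd (Fin.cons e1 (Fin.cons e2 ρ))
    rwa [ng_cons, ng_cons] at this
  have hc0 : ∀ (e2 : Bool) (ρ : Fin z → Bool) (k : Fin z), ρ k = false →
      fc f false e2 (update ρ k true) ≤ fc f true e2 ρ := by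
    intro e2 ρ k hk
    have := hs 0 k.succ.succ (Fin.succ_pos _) (Fin.cons true (Fin.cons e2 ρ)) (by simp)
      (by simpa using hk)
    rwa [Fin.update_cons_zero, ← Fin.cons_update, ← Fin.cons_update] at this
  have hc1 : ∀ (e1 : Bool) (ρ : Fin z → Bool) (k : Fin z), ρ k = false →
      fc f e1 false (update ρ k true) ≤ fc f e1 true ρ := by
    intro e1 ρ k hk
    have := hs (Fin.succ 0) k.succ.succ (by
      apply Fin.succ_lt_succ_iff.2; exact Fin.succ_pos _)
      (Fin.cons e1 (Fin.cons true ρ)) (by simp) (by simpa using hk)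
    rwa [← Fin.cons_update, Fin.update_cons_zero, ← Fin.cons_update, ← Fin.cons_update] at this
  have hm : ∀ ρ : Fin z → Bool, fc f false true ρ ≤ fc f true false ρ := by
    intro ρ
    have := hs 0 (Fin.succ 0) (Fin.succ_pos _) (Fin.cons true (Fin.cons false ρ)) (by simp)
      (by simp)
    rwa [Fin.update_cons_zero, ← Fin.cons_update, Fin.update_cons_zero] at this
  refine ⟨fun ρ => ⟨(h1 false ρ).1, hm ρ, (h1 true ρ).1, (h0 false ρ).2, (h0 true ρ).2,
    hf.pa _, hf.pa _, hf.pa _, hf.pa _⟩, hsd true true, hsd true false,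
    hlo _ _, hlo _ _, hlo _ _, hlo _ _, hhi _ _, hhi _ _, hhi _ _, hhi _ _,
    hc0 true, hc0 false, hc1 true, hc1 false⟩

section
variable {z : ℕ}

open Classical in
/-- the weight as a function on the cube, general form -/
noncomputable def wg (α : ℤ → ℝ) (P : (Fin z → Bool) → Prop) (K w : ℤ)
    (c : (Fin (z + 2) → Bool) → ℤ) (ρ : Fin z → Bool) : ℝ :=
  if fc c true false ρ = K + 1 ∧ fc c false true ρ = K + 1 ∧ fc c false false ρ = K + 1 ∧
      fc c true true ρ = K + 2 then 1 else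
    if (fc c true false ρ = K + 1 ∧ fc c false true ρ = K + 1 ∧ fc c false false ρ = K + 1 ∧
      fc c true true ρ = K + 1) ∧ P ρ then α (cn ρ - w) else 0

lemma vmax2 {G H : ℤ → ℝ} {K w : ℤ} {α : ℤ → ℝ} (hα : Monotone α)
    {P : (Fin z → Bool) → Prop} (hP : ∀ ρ i, ρ i = false → P ρ → P (update ρ i true))
    (hPn : ∀ ρ, P ρ → ¬ P (ng ρ))
    {a c : (Fin (z + 2) → Bool) → ℤ} (hc : Val (2 * K + 2) c) (sc : Stab c)
    (hmax : ∀ c' : (Fin (z + 2) → Bool) → ℤ, Val (2 * K + 2) c' → PV G H a c' ≤ PV G H a c)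
    {l : ℝ} (hl0 : 0 ≤ l) (hl1 : l < 1) :
    ∑ ρ : Fin z → Bool, (if l < wg α P K w c ρ then
      dPf G H K a c ρ + dMf G H K a c (ng ρ) else 0) ≤ 0 := by
  have qc := sq_of hc sc
  set W := wg α P K w c with hW
  -- facts on the weight
  have w1 : ∀ ρ, l < W ρ → (fc c true false ρ = K + 1 ∧ fc c false true ρ = K + 1 ∧
      fc c false false ρ = K + 1 ∧ (fc c true true ρ = K + 1 ∨ fc c true true ρ = K + 2)) := by
    intro ρ h
    rw [hW] at h
    unfold wg at h
    split_ifs at h with h1 h2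
    · exact ⟨h1.1, h1.2.1, h1.2.2.1, Or.inr h1.2.2.2⟩
    · exact ⟨h2.1.1, h2.1.2.1, h2.1.2.2.1, Or.inl h2.1.2.2.2⟩
    · exact absurd h (not_lt.2 hl0)
  have w2 : ∀ ρ, l < W ρ → fc c true true ρ = K + 1 → P ρ ∧ l < α (cn ρ - w) := by
    intro ρ h h3
    rw [hW] at h
    unfold wg at h
    split_ifs at h with h1 h2
    · omega
    · exact ⟨h2.2, h⟩
    · exact absurd h (not_lt.2 hl0)
  have w3 : ∀ ρ, (fc c true false ρ = K + 1 ∧ fc c false true ρ = K + 1 ∧
      fc c false false ρ = K + 1 ∧ fc c true true ρ = K + 2) → l < W ρ := by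
    intro ρ h
    rw [hW]
    unfold wg
    rw [if_pos h]
    exact hl1
  have w4 : ∀ ρ, (fc c true false ρ = K + 1 ∧ fc c false true ρ = K + 1 ∧
      fc c false false ρ = K + 1 ∧ fc c true true ρ = K + 1) →
      P ρ → l < α (cn ρ - w) → l < W ρ := by
    intro ρ h h2 h3
    rw [hW]
    unfold wg
    rw [if_neg (by omega), if_pos ⟨h, h2⟩]
    exact h3
  have hx : ∀ ρ, ¬ (l < W ρ ∧ l < W (ng ρ)) := by
    rintro ρ ⟨h1, h2⟩
    have k1 := w1 ρ h1
    have k2 := w1 (ng ρ) h2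
    have e1 := qc.sd1 ρ
    have e2 := qc.sd1 (ng ρ)
    rw [ng_ng] at e2
    have k3 := w2 ρ h1 (by omega)
    have k4 := w2 (ng ρ) h2 (by omega)
    exact hPn ρ k3.1 k4.1
  set s := stf l W with hs
  have s1 : ∀ ρ, s ρ = 1 ↔ l < W ρ := by
    intro ρ
    rw [hs]; unfold stf
    split_ifs with h1 h2 <;> simp [h1]
  have sm : ∀ ρ, s ρ = -1 ↔ l < W (ng ρ) := by
    intro ρ
    rw [hs]; unfold stf
    by_cases h1 : l < W ρ
    · rw [if_pos h1]
      constructor
      · intro h; omega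
      · intro h; exact absurd ⟨h1, h⟩ (hx ρ)
    · rw [if_neg h1]
      split_ifs with h2 <;> simp [h2]
  have s5 : ∀ ρ, s ρ = 1 ∨ s ρ = -1 ∨ s ρ = 0 := by
    intro ρ
    rw [hs]; unfold stf
    split_ifs <;> simp
  have sng : ∀ ρ, s (ng ρ) = -s ρ := by
    intro ρ
    have a1 := s1 ρ
    have a2 := sm ρ
    have a3 := s1 (ng ρ)
    have a4 := sm (ng ρ)
    rw [ng_ng] at a4
    rcases s5 ρ with h | h | h
    · rw [h, a4]; exact a1.1 h
    · rw [h, neg_neg, a3]; exact a2.1 h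
    · rcases s5 (ng ρ) with h' | h' | h'
      · have := a2.2 (a3.1 h'); omega
      · have := a1.2 (a4.1 h'); omega
      · rw [h, h']; rfl
  have hsta : ∀ ρ, Sta K (s ρ) (fc c true true ρ) (fc c true false ρ) (fc c false true ρ)
      (fc c false false ρ) := by
    intro ρ
    have e1 := qc.sd1 ρ
    have e2 := qc.sd1 (ng ρ)
    have e3 := qc.sd2 ρ
    have e4 := qc.sd2 (ng ρ)
    rw [ng_ng] at e2 e4
    refine ⟨?_, ?_, ?_, ?_, s5 ρ⟩
    · intro h; exact w1 ρ ((s1 ρ).1 h)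
    · intro h
      have := w1 (ng ρ) ((sm ρ).1 h)
      omega
    · intro h; exact (s1 ρ).2 (w3 ρ h)
    · intro h
      apply (sm ρ).2
      apply w3
      omega
  have hmono : ∀ ρ i, ρ i = false → fc c true true ρ = K + 1 → fc c false false ρ = K + 1 →
      fc c true true (update ρ i true) = K + 1 → fc c false false (update ρ i true) = K + 1 →
      s ρ ≤ s (update ρ i true) := by
    have up : ∀ ρ i, ρ i = false → fc c true true ρ = K + 1 → fc c false false ρ = K + 1 →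
      fc c true true (update ρ i true) = K + 1 → fc c false false (update ρ i true) = K + 1 →
      s ρ = 1 → s (update ρ i true) = 1 := by
      intro ρ i hi h1 h2 h3 h4 h5
      rw [s1] at h5 ⊢
      obtain ⟨k1, k2⟩ := w2 ρ h5 h1
      have g1 := qc.s1 (update ρ i true)
      have g2 := qc.s2 (update ρ i true)
      have g3 := qc.s3 (update ρ i true)
      have g4 := qc.s4 (update ρ i true)
      apply w4
      · omega
      · exact hP ρ i hi k1
      · apply k2.trans_le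
        apply hα
        rw [cn_update hi]
        omega
    intro ρ i hi h1 h2 h3 h4
    rcases s5 ρ with h | h | h
    · rw [h, up ρ i hi h1 h2 h3 h4 h]
    · rcases s5 (update ρ i true) with h' | h' | h' <;> omega
    · rcases s5 (update ρ i true) with h' | h' | h'
      · omega
      · exfalso
        -- go to the antipode
        have hi' : ng (update ρ i true) i = false := by simp [ng]
        have e0 : update (ng (update ρ i true)) i true = ng ρ := ng_up hi
        have e1 := qc.sd1 ρ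
        have e2 := qc.sd1 (ng ρ)
        have e3 := qc.sd1 (update ρ i true)
        have e4 := qc.sd1 (ng (update ρ i true))
        rw [ng_ng] at e2 e4
        have h6 : s (ng (update ρ i true)) = 1 := by rw [sng, h']; rfl
        have := up (ng (update ρ i true)) i hi' (by omega) (by omega) (by rw [e0]; omega)
          (by rw [e0]; omega) h6
        rw [e0, sng, h] at this
        omega
      · omega
  have hsq : ∀ ρ, Sqr (fc c true true ρ) (fc c true false ρ) (fc c false true ρ)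
      (fc c false false ρ) := fun ρ => ⟨qc.s1 ρ, qc.s2 ρ, qc.s3 ρ, qc.s4 ρ, qc.mo ρ⟩
  have hstep := fun ρ i hi => cs_step (hsq ρ) (hsq (update ρ i true)) (hsta ρ)
    (hsta (update ρ i true)) (hmono ρ i hi) (qc.u11 ρ i hi) (qc.u10 ρ i hi) (qc.u01 ρ i hi)
    (qc.u00 ρ i hi) (qc.x1 ρ i hi) (qc.x2 ρ i hi) (qc.x3 ρ i hi) (qc.x4 ρ i hi)
  have hwith := fun ρ => cs_within (hsq ρ) (hsta ρ)
  set g11 : (Fin z → Bool) → ℤ := fun ρ => c1s K (s ρ) (fc c true true ρ) with hg11
  set g10 : (Fin z → Bool) → ℤ := fun ρ => c1s K (s ρ) (fc c true false ρ) with hg10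
  set g01 : (Fin z → Bool) → ℤ := fun ρ => c0s K (s ρ) (fc c false true ρ) with hg01
  set g00 : (Fin z → Bool) → ℤ := fun ρ => c0s K (s ρ) (fc c false false ρ) with hg00
  have hval : Val (2 * K + 2) (jn4 g11 g10 g01 g00) := by
    apply val_jn4
    · intro ρ i hi; exact (hstep ρ i hi).1
    · intro ρ i hi; exact (hstep ρ i hi).2.1
    · intro ρ i hi; exact (hstep ρ i hi).2.2.1
    · intro ρ i hi; exact (hstep ρ i hi).2.2.2
    · intro ρ; exact (hwith ρ).1
    · intro ρ; exact (hwith ρ).2.1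
    · intro ρ; exact (hwith ρ).2.2.1
    · intro ρ; exact (hwith ρ).2.2.2
    · intro ρ
      simp only [hg11, hg00]
      rw [sng]
      exact cs_sd (s5 ρ) (qc.sd1 ρ)
    · intro ρ
      simp only [hg10, hg01]
      rw [sng]
      exact cs_sd (s5 ρ) (qc.sd2 ρ)
  have hle := hmax _ hval
  rw [PV_sq, PV_sq] at hle
  have e1 : ∀ ρ, (G (fc a true true ρ) * H (fc (jn4 g11 g10 g01 g00) true true ρ - 2 - cn ρ) +
        G (fc a true false ρ) * H (fc (jn4 g11 g10 g01 g00) true false ρ - 1 - cn ρ) +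
        G (fc a false true ρ) * H (fc (jn4 g11 g10 g01 g00) false true ρ - 1 - cn ρ) +
        G (fc a false false ρ) * H (fc (jn4 g11 g10 g01 g00) false false ρ - cn ρ)) -
      (G (fc a true true ρ) * H (fc c true true ρ - 2 - cn ρ) +
        G (fc a true false ρ) * H (fc c true false ρ - 1 - cn ρ) +
        G (fc a false true ρ) * H (fc c false true ρ - 1 - cn ρ) +
        G (fc a false false ρ) * H (fc c false false ρ - cn ρ)) =
      (if s ρ = 1 then dPf G H K a c ρ else 0) + (if s ρ = -1 then dMf G H K a c ρ else 0) := by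
    intro ρ
    obtain ⟨f1, f2, f3, f4⟩ := fc_jn4 g11 g10 g01 g00 ρ
    rw [f1, f2, f3, f4]
    simp only [hg11, hg10, hg01, hg00]
    unfold dPf dMf dP dM
    rcases s5 ρ with h | h | h
    · rw [h, if_pos rfl, if_neg (by omega), c1s_1, c1s_1, c0s_1, c0s_1]
      ring
    · rw [h, if_pos rfl, if_neg (by omega), c1s_m, c1s_m, c0s_m, c0s_m]
      ring
    · rw [h, if_neg (by omega), if_neg (by omega), c1s_0, c1s_0, c0s_0, c0s_0]
      ring
  have e2 : ∑ ρ : Fin z → Bool, ((if s ρ = 1 then dPf G H K a c ρ else 0) +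
      (if s ρ = -1 then dMf G H K a c ρ else 0)) ≤ 0 := by
    rw [← Finset.sum_congr rfl (fun ρ _ => e1 ρ), Finset.sum_sub_distrib]
    linarith
  rw [Finset.sum_add_distrib, ← sum_ngR (fun ρ => if s ρ = -1 then dMf G H K a c ρ else 0),
    ← Finset.sum_add_distrib] at e2
  refine le_trans (le_of_eq ?_) e2
  apply Finset.sum_congr rfl
  intro ρ _
  simp only [sng]
  by_cases h : l < W ρ
  · have h' := (s1 ρ).2 h
    rw [if_pos h, if_pos h', if_pos (by rw [h'])]
  · have h' : s ρ ≠ 1 := fun k => h ((s1 ρ).1 k)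
    rw [if_neg h, if_neg h', if_neg (by omega)]
    simp

/-- weighted form -/
lemma vmax2_w {G H : ℤ → ℝ} {K w : ℤ} {α : ℤ → ℝ} (hα : Monotone α)
    (hα0 : ∀ j, 0 ≤ α j) (hα1 : ∀ j, α j ≤ 1)
    {P : (Fin z → Bool) → Prop} (hP : ∀ ρ i, ρ i = false → P ρ → P (update ρ i true))
    (hPn : ∀ ρ, P ρ → ¬ P (ng ρ))
    {a c : (Fin (z + 2) → Bool) → ℤ} (hc : Val (2 * K + 2) c) (sc : Stab c)
    (hmax : ∀ c' : (Fin (z + 2) → Bool) → ℤ, Val (2 * K + 2) c' → PV G H a c' ≤ PV G H a c) :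
    ∑ ρ : Fin z → Bool, wg α P K w c ρ * (dPf G H K a c ρ + dMf G H K a c (ng ρ)) ≤ 0 := by
  obtain ⟨l, hl0, hl1, h⟩ := layer (wg α P K w c)
    (fun ρ => dPf G H K a c ρ + dMf G H K a c (ng ρ))
    (fun ρ => by
      unfold wg
      split_ifs
      · norm_num
      · exact hα0 _
      · norm_num)
    (fun ρ => by
      unfold wg
      split_ifs
      · norm_num
      · exact hα1 _
      · norm_num)
  exact h.trans (vmax2 hα hP hPn hc sc hmax hl0 hl1)

end

end Pool.Agent.MP_867aae_co.P75
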