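import Mathlib
import Pool.Agent.MP_867aae_co.P75.PX

/-!
The new function `c'` of the even move, and the modified function `c♯`.
-/

namespace Pool.Agent.MP_867aae_co.P75

open Finset Function Pool.Agent.MP_867aae_co.H75

/-- new value of `c` -/
def ch (K : ℤ) (θ : Fin 4) (y11 y10 y01 y00 : ℤ) : ℤ :=
  if 4 * K + 6 ≤ y11 + y10 + y01 + y00 then
    (match θ with | 0 => y11 - 2 | 1 => y01 - 1 | 2 => y10 - 1 | 3 => y00)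
  else if y11 + y10 + y01 + y00 ≤ 4 * K + 2 then
    (match θ with | 0 => y00 | 1 => y10 - 1 | 2 => y01 - 1 | 3 => y11 - 2)
  else K

lemma ch_sd {K : ℤ} (θ : Fin 4) {y11 y10 y01 y00 z11 z10 z01 z00 : ℤ}
    (e1 : y11 + z00 = 2 * K + 2) (e2 : y10 + z01 = 2 * K + 2) (e3 : y01 + z10 = 2 * K + 2)
    (e4 : y00 + z11 = 2 * K + 2) : ch K θ y11 y10 y01 y00 + ch K θ z11 z10 z01 z00 = 2 * K := by
  unfold ch
  fin_cases θ <;> simp only <;> split_ifs <;> omega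

lemma ch_step {K : ℤ} (θ : Fin 4) {x11 x10 x01 x00 : ℤ}
    (h : Sqr x11 x10 x01 x00) {y11 y10 y01 y00 : ℤ} (h' : Sqr y11 y10 y01 y00)
    (u11 : y11 = x11 ∨ y11 = x11 + 1) (u10 : y10 = x10 ∨ y10 = x10 + 1)
    (u01 : y01 = x01 ∨ y01 = x01 + 1) (u00 : y00 = x00 ∨ y00 = x00 + 1)
    (c1 : y01 ≤ x11) (c2 : y00 ≤ x10) (c3 : y10 ≤ x11) (c4 : y00 ≤ x01) :
    ch K θ y11 y10 y01 y00 = ch K θ x11 x10 x01 x00 ∨
      ch K θ y11 y10 y01 y00 = ch K θ x11 x10 x01 x00 + 1 := by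
  rcases h.cases with ⟨rfl, rfl, rfl⟩ | ⟨rfl, rfl, rfl⟩ | ⟨rfl, rfl, rfl⟩ | ⟨rfl, rfl, rfl⟩ |
      ⟨rfl, rfl, rfl⟩ <;>
    rcases h'.cases with ⟨rfl, rfl, rfl⟩ | ⟨rfl, rfl, rfl⟩ | ⟨rfl, rfl, rfl⟩ | ⟨rfl, rfl, rfl⟩ |
      ⟨rfl, rfl, rfl⟩ <;>
    clear h h' <;> unfold ch <;>
    first
    | (exfalso; omega)
    | (fin_cases θ <;> simp only <;> omega)

end Pool.Agent.MP_867aae_co.P75
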