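import Mathlib
import Pool.Agent.MP_867aae_co.P75.PE
import Pool.Agent.MP_867aae_co.P75.PC
import Pool.Agent.MP_867aae_co.P75.PS
import Pool.Agent.MP_867aae_co.P75.XE

/-!
The inequality for a square and its antipode.
-/

namespace Pool.Agent.MP_867aae_co.P75

open Finset Pool.Agent.MP_867aae_co.H75

/-- old weight of a square -/
noncomputable def od (G H : ℤ → ℝ) (k x11 x10 x01 x00 y11 y10 y01 y00 : ℤ) : ℝ :=
  G x11 * H (y11 - 2 - k) + G x10 * H (y10 - 1 - k) + G x01 * H (y01 - 1 - k) + G x00 * H (y00 - k)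

/-- four times the mean of the new second factor -/
noncomputable def M4 (H : ℤ → ℝ) (K k y11 y10 y01 y00 : ℤ) : ℝ :=
  H (ch K 0 y11 y10 y01 y00 - k) + H (ch K 1 y11 y10 y01 y00 - k) +
    H (ch K 2 y11 y10 y01 y00 - k) + H (ch K 3 y11 y10 y01 y00 - k)

lemma M4_far (H : ℤ → ℝ) {K k y11 y10 y01 y00 : ℤ}
    (h : 4 * K + 6 ≤ y11 + y10 + y01 + y00 ∨ y11 + y10 + y01 + y00 ≤ 4 * K + 2) :
    M4 H K k y11 y10 y01 y00 =
      H (y11 - 2 - k) + H (y10 - 1 - k) + H (y01 - 1 - k) + H (y00 - k) := by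
  unfold M4 ch
  rcases h with h | h
  · simp only [if_pos h]; ring
  · simp only [if_neg (show ¬ (4 * K + 6 ≤ y11 + y10 + y01 + y00) by omega), if_pos h]; ring

lemma M4_near (H : ℤ → ℝ) {K k y11 y10 y01 y00 : ℤ}
    (h1 : y11 + y10 + y01 + y00 < 4 * K + 6) (h2 : 4 * K + 2 < y11 + y10 + y01 + y00) :
    M4 H K k y11 y10 y01 y00 = 4 * H (K - k) := by
  unfold M4 ch
  simp only [if_neg (show ¬ (4 * K + 6 ≤ y11 + y10 + y01 + y00) by omega),
    if_neg (show ¬ (y11 + y10 + y01 + y00 ≤ 4 * K + 2) by omega)]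
  ring

/-- Chebyshev -/
lemma chev {G H : ℤ → ℝ} (hG : Monotone G) (hH : Monotone H) {x11 x10 x01 x00 : ℤ}
    (hx : Sqr x11 x10 x01 x00) {y11 y10 y01 y00 : ℤ} (hy : Sqr y11 y10 y01 y00) (k : ℤ) :
    4 * od G H k x11 x10 x01 x00 y11 y10 y01 y00 ≤ (G x11 + G x10 + G x01 + G x00) *
      (H (y11 - 2 - k) + H (y10 - 1 - k) + H (y01 - 1 - k) + H (y00 - k)) := by
  obtain ⟨a1, a2, a3, a4, am⟩ := hx
  obtain ⟨b1, b2, b3, b4, bm⟩ := hy
  have g1 : G x10 ≤ G x11 := hG (by omega)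
  have g2 : G x01 ≤ G x11 := hG (by omega)
  have g3 : G x00 ≤ G x10 := hG (by omega)
  have g4 : G x00 ≤ G x01 := hG (by omega)
  have h1 : H (y11 - 2 - k) ≤ H (y10 - 1 - k) := hH (by omega)
  have h2 : H (y11 - 2 - k) ≤ H (y01 - 1 - k) := hH (by omega)
  have h3 : H (y10 - 1 - k) ≤ H (y00 - k) := hH (by omega)
  have h4 : H (y01 - 1 - k) ≤ H (y00 - k) := hH (by omega)
  unfold od
  by_cases hc : x10 = x01 ∨ y10 = y01
  · have h0 : (G x10 - G x01) * (H (y10 - 1 - k) - H (y01 - 1 - k)) = 0 := by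
      rcases hc with h | h <;> rw [h] <;> ring
    have k1 := mul_nonneg (sub_nonneg.2 g1) (sub_nonneg.2 h1)
    have k2 := mul_nonneg (sub_nonneg.2 g2) (sub_nonneg.2 h2)
    have k3 := mul_nonneg (sub_nonneg.2 g3) (sub_nonneg.2 h3)
    have k4 := mul_nonneg (sub_nonneg.2 g4) (sub_nonneg.2 h4)
    have k5 := mul_nonneg (sub_nonneg.2 (g3.trans g1)) (sub_nonneg.2 (h1.trans h3))
    linarith
  · push Not at hc
    have e1 : x11 = x10 := by omega
    have e2 : x00 = x01 := by omega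
    have e3 : y11 - 2 - k = y01 - 1 - k := by omega
    have e4 : y10 - 1 - k = y00 - k := by omega
    rw [e1, e2, e3, e4]
    apply le_of_eq
    ring

/-- gain of a square -/
noncomputable def T1 (p r : ℕ) (c0 K k x11 x10 x01 x00 y11 y10 y01 y00 : ℤ) : ℝ :=
  XP p c0 x11 x10 x01 x00 * M4 (Gf r) K k y11 y10 y01 y00 -
    4 * od (Gf p) (Gf r) k x11 x10 x01 x00 y11 y10 y01 y00

lemma T1_far {p r : ℕ} {c0 K k : ℤ} (hA : 2 * c0 ≤ p - 1) {x11 x10 x01 x00 : ℤ}
    (hx : Sqr x11 x10 x01 x00) {y11 y10 y01 y00 : ℤ} (hy : Sqr y11 y10 y01 y00)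
    (h : 4 * K + 6 ≤ y11 + y10 + y01 + y00 ∨ y11 + y10 + y01 + y00 ≤ 4 * K + 2) :
    0 ≤ T1 p r c0 K k x11 x10 x01 x00 y11 y10 y01 y00 := by
  unfold T1
  rw [M4_far _ h]
  have h1 := XP_ge hA hx
  have h2 := chev (Gf_mono p) (Gf_mono r) hx hy k
  have h3 : 0 ≤ Gf r (y11 - 2 - k) + Gf r (y10 - 1 - k) + Gf r (y01 - 1 - k) + Gf r (y00 - k) := by
    have := Gf_nonneg r (y11 - 2 - k)
    have := Gf_nonneg r (y10 - 1 - k)
    have := Gf_nonneg r (y01 - 1 - k)
    have := Gf_nonneg r (y00 - k)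
    linarith
  have h4 := mul_le_mul_of_nonneg_right h1 h3
  linarith

lemma T1_M {p r : ℕ} {c0 K k : ℤ} (hA : 2 * c0 ≤ p - 1) {x11 x10 x01 x00 : ℤ}
    (hx : Sqr x11 x10 x01 x00) :
    0 ≤ T1 p r c0 K k x11 x10 x01 x00 (K + 2) (K + 1) (K + 1) K := by
  unfold T1 od
  rw [M4_near _ (by omega) (by omega), show K + 2 - 2 - k = K - k by ring,
    show K + 1 - 1 - k = K - k by ring]
  have h1 := XP_ge hA hx
  have h4 := mul_le_mul_of_nonneg_right h1 (Gf_nonneg r (K - k))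
  linarith

/-- the function `F` -/
noncomputable def Fj (p r : ℕ) (c0 m a j : ℤ) : ℝ :=
  Gf p a * hh r m (-j) - Gf p (2 * c0 - a) * hh r m (j + 1)

/-- surplus of a square -/
noncomputable def Xg (p : ℕ) (c0 x11 x10 x01 x00 : ℤ) : ℝ :=
  XP p c0 x11 x10 x01 x00 - (Gf p x11 + Gf p x10 + Gf p x01 + Gf p x00)

/-- the hypotheses of the even move -/
structure EvH (p r : ℕ) (c0 m : ℤ) (α : ℤ → ℝ) : Prop where
  hA : 2 * c0 ≤ p - 1
  mono : Monotone α
  a0 : ∀ j, 0 ≤ α j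
  a1 : ∀ j, α j ≤ 1
  pos : ∀ x11 x10 x01 x00, Sqr x11 x10 x01 x00 → 4 * c0 + 2 ≤ x11 + x10 + x01 + x00 → ∀ j,
    0 ≤ Xg p c0 (2 * c0 - x00) (2 * c0 - x01) (2 * c0 - x10) (2 * c0 - x11) * HH r m j +
      (1 + α j) * Fj p r c0 m x11 j + α j * Fj p r c0 m x10 (j - 1) - Fj p r c0 m x00 (j - 1)
  zer : ∀ x11 x10 x01 x00, Sqr x11 x10 x01 x00 →
    (x11 + x10 + x01 + x00 = 4 * c0 ∨ x11 + x10 + x01 + x00 = 4 * c0 + 1) → ∀ j,
    0 ≤ Xg p c0 x11 x10 x01 x00 * HH r m (-j) +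
      Xg p c0 (2 * c0 - x00) (2 * c0 - x01) (2 * c0 - x10) (2 * c0 - x11) * HH r m j +
      Fj p r c0 m x11 j - Fj p r c0 m x00 (j - 1)

/-- the pair inequality -/
lemma pair_ineq {p r : ℕ} {c0 m K w : ℤ} {α : ℤ → ℝ} (e : EvH p r c0 m α) (hK : K = m - 1 + w)
    {x11 x10 x01 x00 : ℤ} (hx : Sqr x11 x10 x01 x00) {y11 y10 y01 y00 : ℤ}
    (hy : Sqr y11 y10 y01 y00) {x11' x10' x01' x00' : ℤ} (hx' : Sqr x11' x10' x01' x00')
    {y11' y10' y01' y00' : ℤ} (hy' : Sqr y11' y10' y01' y00') {k k' : ℤ}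
    (hk : k + k' = 2 * w)
    (f1 : x11 + x00' = 2 * c0) (f2 : x10 + x01' = 2 * c0) (f3 : x01 + x10' = 2 * c0)
    (f4 : x00 + x11' = 2 * c0)
    (g1 : y11 + y00' = 2 * K + 2) (g2 : y10 + y01' = 2 * K + 2) (g3 : y01 + y10' = 2 * K + 2)
    (g4 : y00 + y11' = 2 * K + 2)
    (hc : 4 * K + 5 ≤ y11 + y10 + y01 + y00 ∨
      (y11 + y10 + y01 + y00 = 4 * K + 4 ∧ 4 * c0 ≤ x11 + x10 + x01 + x00)) :
    0 ≤ (T1 p r c0 K k x11 x10 x01 x00 y11 y10 y01 y00 +
        4 * (wv α c0 K (k - w) x11 x10 x01 x00 y11 y10 y01 y00 *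
          (dP (Gf p) (Gf r) K k x11 x10 x01 x00 y11 y10 y01 y00 +
            dM (Gf p) (Gf r) K k' x11' x10' x01' x00' y11' y10' y01' y00'))) +
      (T1 p r c0 K k' x11' x10' x01' x00' y11' y10' y01' y00' +
        4 * (wv α c0 K (k' - w) x11' x10' x01' x00' y11' y10' y01' y00' *
          (dP (Gf p) (Gf r) K k' x11' x10' x01' x00' y11' y10' y01' y00' +
            dM (Gf p) (Gf r) K k x11 x10 x01 x00 y11 y10 y01 y00))) := by
  -- the antipodal weight vanishes
  have hw' : wv α c0 K (k' - w) x11' x10' x01' x00' y11' y10' y01' y00' = 0 := by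
    unfold wv
    rw [if_neg (by omega), if_neg (by omega)]
  rw [hw']
  by_cases hfar : 4 * K + 6 ≤ y11 + y10 + y01 + y00
  · have hw : wv α c0 K (k - w) x11 x10 x01 x00 y11 y10 y01 y00 = 0 := by
      unfold wv
      rw [if_neg (by omega), if_neg (by omega)]
    rw [hw]
    have h1 := T1_far (r := r) (K := K) (k := k) e.hA hx hy (Or.inl hfar)
    have h2 := T1_far (r := r) (K := K) (k := k') e.hA hx' hy' (Or.inr (by omega))
    linarith
  by_cases hP : y11 + y10 + y01 + y00 = 4 * K + 5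
  · -- type P
    have q1 : y11 = K + 2 ∧ y10 = K + 1 ∧ y01 = K + 1 ∧ y00 = K + 1 := by
      rcases hy.cases with h | h | h | h | h <;> omega
    obtain ⟨rfl, rfl, rfl, rfl⟩ := q1
    obtain rfl : K = y00' := by omega
    obtain rfl : y01' = K + 1 := by omega
    obtain rfl : y10' = K + 1 := by omega
    obtain rfl : y11' = K + 1 := by omega
    have hw : wv α c0 K (k - w) x11 x10 x01 x00 (K + 2) (K + 1) (K + 1) (K + 1) = 1 := by
      unfold wv
      rw [if_pos (by omega)]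
    rw [hw]
    unfold T1 od dP dM
    rw [M4_near _ (by omega) (by omega), M4_near _ (by omega) (by omega)]
    rw [show K + 2 - 2 - k = K - k by ring, show K + 1 - 1 - k = K - k by ring,
      show K + 2 - 1 - k = K + 1 - k by ring, show K + 1 - 2 - k' = K - 1 - k' by ring,
      show K + 1 - 1 - k' = K - k' by ring]
    have i1 := XP_ge e.hA hx
    have i2 := XP_ge e.hA hx'
    have i3 := mul_le_mul_of_nonneg_right i1 (Gf_nonneg r (K - k))
    have i4 := mul_le_mul_of_nonneg_right i2 (Gf_nonneg r (K - k'))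
    have i5 := Gf_mono r (show K - k ≤ K + 1 - k by omega)
    have i6 := Gf_mono r (show K - 1 - k' ≤ K - k' by omega)
    have i7 := Gf_mono p (show x00 ≤ x10 by have := hx.s1; omega)
    have i8 := Gf_mono p (show x01' ≤ x11' by have := hx'.s4; omega)
    have i9 := mul_nonneg (sub_nonneg.2 i5) (sub_nonneg.2 i7)
    have i10 := mul_nonneg (sub_nonneg.2 i6) (sub_nonneg.2 i8)
    linarith
  have hsum : y11 + y10 + y01 + y00 = 4 * K + 4 ∧ 4 * c0 ≤ x11 + x10 + x01 + x00 := by omega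
  obtain ⟨hsum, hxs⟩ := hsum
  have q1 : (y11 = K + 1 ∧ y10 = K + 1 ∧ y01 = K + 1 ∧ y00 = K + 1) ∨
      (y11 = K + 2 ∧ y10 = K + 1 ∧ y01 = K + 1 ∧ y00 = K) := by
    rcases hy.cases with h | h | h | h | h <;> omega
  rcases q1 with ⟨rfl, rfl, rfl, rfl⟩ | ⟨rfl, rfl, rfl, h4⟩
  · -- type S
    obtain rfl : y00' = K + 1 := by omega
    obtain rfl : y01' = K + 1 := by omega
    obtain rfl : y10' = K + 1 := by omega
    obtain rfl : y11' = K + 1 := by omega
    obtain ⟨j, hj⟩ : ∃ j, j = k - w := ⟨_, rfl⟩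
    have ek : K - k = m - 1 + -j := by omega
    have ek' : K - k' = m - 1 + j := by omega
    have P0 : Gf r (K - k) = HH r m (-j) := by rw [ek]; rfl
    have Q0 : Gf r (K - k') = HH r m j := by rw [ek']; rfl
    have P1 : Gf r (K - 1 - k) = HH r m (-j) - hh r m (-j) := by
      rw [show K - 1 - k = (K - k) - 1 by ring, Gf_pred, P0, ek]; rfl
    have Q1 : Gf r (K - 1 - k') = HH r m j - hh r m j := by
      rw [show K - 1 - k' = (K - k') - 1 by ring, Gf_pred, Q0, ek']; rfl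
    have P2 : Gf r (K + 1 - k) = HH r m (-j) + hh r m (1 - j) := by
      rw [show K + 1 - k = (K - k) + 1 by ring, Gf_succ, P0, ek]
      unfold kf hh
      rw [show m - 1 + -j + 1 = m - 1 + (1 - j) by ring]
    have Q2 : Gf r (K + 1 - k') = HH r m j + hh r m (j + 1) := by
      rw [show K + 1 - k' = (K - k') + 1 by ring, Gf_succ, Q0, ek']
      unfold kf hh
      rw [show m - 1 + j + 1 = m - 1 + (j + 1) by ring]
    obtain rfl : x00' = 2 * c0 - x11 := by omega
    obtain rfl : x01' = 2 * c0 - x10 := by omega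
    obtain rfl : x10' = 2 * c0 - x01 := by omega
    obtain rfl : x11' = 2 * c0 - x00 := by omega
    have eT : T1 p r c0 K k x11 x10 x01 x00 (K + 1) (K + 1) (K + 1) (K + 1) =
        4 * (Xg p c0 x11 x10 x01 x00 * HH r m (-j) + Gf p x11 * hh r m (-j) -
          Gf p x00 * hh r m (1 - j)) := by
      unfold T1 od Xg
      rw [M4_near _ (by omega) (by omega)]
      rw [show K + 1 - 2 - k = K - 1 - k by ring, show K + 1 - 1 - k = K - k by ring, P0, P1, P2]
      ring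
    have eT' : T1 p r c0 K k' (2 * c0 - x00) (2 * c0 - x01) (2 * c0 - x10) (2 * c0 - x11)
        (K + 1) (K + 1) (K + 1) (K + 1) =
        4 * (Xg p c0 (2 * c0 - x00) (2 * c0 - x01) (2 * c0 - x10) (2 * c0 - x11) * HH r m j +
          Gf p (2 * c0 - x00) * hh r m j - Gf p (2 * c0 - x11) * hh r m (j + 1)) := by
      unfold T1 od Xg
      rw [M4_near _ (by omega) (by omega)]
      rw [show K + 1 - 2 - k' = K - 1 - k' by ring, show K + 1 - 1 - k' = K - k' by ring,
        Q0, Q1, Q2]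
      ring
    have eP : dP (Gf p) (Gf r) K k x11 x10 x01 x00 (K + 1) (K + 1) (K + 1) (K + 1) =
        Gf p x11 * hh r m (-j) + Gf p x10 * hh r m (1 - j) := by
      unfold dP
      rw [show K + 1 - 2 - k = K - 1 - k by ring, show K + 1 - 1 - k = K - k by ring,
        show K + 2 - 2 - k = K - k by ring, show K + 2 - 1 - k = K + 1 - k by ring, P0, P1, P2]
      ring
    have eM : dM (Gf p) (Gf r) K k' (2 * c0 - x00) (2 * c0 - x01) (2 * c0 - x10) (2 * c0 - x11)
        (K + 1) (K + 1) (K + 1) (K + 1) =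
        -(Gf p (2 * c0 - x10) * hh r m j) - Gf p (2 * c0 - x11) * hh r m (j + 1) := by
      unfold dM
      rw [show K + 1 - 2 - k' = K - 1 - k' by ring, show K + 1 - 1 - k' = K - k' by ring,
        Q0, Q1, Q2]
      ring
    rw [eT, eT', eP, eM]
    by_cases hpos : 4 * c0 + 2 ≤ x11 + x10 + x01 + x00
    · have hw : wv α c0 K (k - w) x11 x10 x01 x00 (K + 1) (K + 1) (K + 1) (K + 1) = α j := by
        unfold wv
        rw [if_neg (by omega), if_pos (by omega), hj]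
      rw [hw]
      have h1 := e.pos x11 x10 x01 x00 hx hpos j
      have h2 : 0 ≤ Xg p c0 x11 x10 x01 x00 * HH r m (-j) := by
        apply mul_nonneg _ (HH_nonneg _ _ _)
        unfold Xg
        linarith [XP_ge e.hA hx]
      unfold Fj at h1
      rw [show -(j - 1) = 1 - j by ring, show j - 1 + 1 = j by ring] at h1
      linarith
    · have hw : wv α c0 K (k - w) x11 x10 x01 x00 (K + 1) (K + 1) (K + 1) (K + 1) = 0 := by
        unfold wv
        rw [if_neg (by omega), if_neg (by omega)]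
      rw [hw]
      have h1 := e.zer x11 x10 x01 x00 hx (by omega) j
      unfold Fj at h1
      rw [show -(j - 1) = 1 - j by ring, show j - 1 + 1 = j by ring] at h1
      linarith
  · -- type M
    subst h4
    obtain rfl : y00' = y00 := by omega
    obtain rfl : y01' = y00' + 1 := by omega
    obtain rfl : y10' = y00' + 1 := by omega
    obtain rfl : y11' = y00' + 2 := by omega
    have hw : wv α c0 y00' (k - w) x11 x10 x01 x00 (y00' + 2) (y00' + 1) (y00' + 1) y00' = 0 := by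
      unfold wv
      rw [if_neg (by omega), if_neg (by omega)]
    rw [hw]
    have h1 := T1_M (r := r) (K := y00') (k := k) e.hA hx
    have h2 := T1_M (r := r) (K := y00') (k := k') e.hA hx'
    linarith

end Pool.Agent.MP_867aae_co.P75
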