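import Mathlib
import Pool.Agent.MP_867aae_co.P75.OF
import Pool.Agent.MP_867aae_co.P75.OH
import Pool.Agent.MP_867aae_co.P75.PF

/-!
The inequality for a square and its antipode, general form.
-/

namespace Pool.Agent.MP_867aae_co.P75

open Finset Function Pool.Agent.MP_867aae_co.H75

/-- Chebyshev for sorted values -/
lemma chev2 {G H : ℤ → ℝ} (hG : Monotone G) (hH : Monotone H) {x11 x10 x01 x00 : ℤ}
    (a1 : x00 ≤ x01) (a2 : x01 ≤ x10) (a3 : x10 ≤ x11) {y11 y10 y01 y00 : ℤ}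
    (hy : Sqr y11 y10 y01 y00) (k : ℤ) :
    4 * od G H k x11 x10 x01 x00 y11 y10 y01 y00 ≤ (G x11 + G x10 + G x01 + G x00) *
      (H (y11 - 2 - k) + H (y10 - 1 - k) + H (y01 - 1 - k) + H (y00 - k)) := by
  obtain ⟨b1, b2, b3, b4, bm⟩ := hy
  have g1 : G x10 ≤ G x11 := hG a3
  have g2 : G x01 ≤ G x10 := hG a2
  have g3 : G x00 ≤ G x01 := hG a1
  have h1 : H (y11 - 2 - k) ≤ H (y10 - 1 - k) := hH (by omega)
  have h2 : H (y11 - 2 - k) ≤ H (y01 - 1 - k) := hH (by omega)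
  have h3 : H (y10 - 1 - k) ≤ H (y00 - k) := hH (by omega)
  have h4 : H (y01 - 1 - k) ≤ H (y00 - k) := hH (by omega)
  unfold od
  by_cases hc : y10 = y01
  · subst hc
    have k1 := mul_nonneg (sub_nonneg.2 g1) (sub_nonneg.2 h1)
    have k2 := mul_nonneg (sub_nonneg.2 (g2.trans g1)) (sub_nonneg.2 h2)
    have k3 := mul_nonneg (sub_nonneg.2 (g3.trans g2)) (sub_nonneg.2 h3)
    have k4 := mul_nonneg (sub_nonneg.2 g3) (sub_nonneg.2 h4)
    have k5 := mul_nonneg (sub_nonneg.2 ((g3.trans g2).trans g1)) (sub_nonneg.2 (h1.trans h3))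
    linarith
  · have e3 : y11 - 2 - k = y01 - 1 - k := by omega
    have e4 : y10 - 1 - k = y00 - k := by omega
    rw [e3, e4]
    have k1 := mul_nonneg (sub_nonneg.2 h4) (sub_nonneg.2 (add_le_add g1 g3))
    linarith

lemma T2_far {G : ℤ → ℝ} (hG : Monotone G) {r : ℕ} {K k : ℤ} {e : ℝ} {x11 x10 x01 x00 : ℤ}
    (a1 : x00 ≤ x01) (a2 : x01 ≤ x10) (a3 : x10 ≤ x11) (he : G x11 + G x10 + G x01 + G x00 ≤ e)
    {y11 y10 y01 y00 : ℤ} (hy : Sqr y11 y10 y01 y00)
    (h : 4 * K + 6 ≤ y11 + y10 + y01 + y00 ∨ y11 + y10 + y01 + y00 ≤ 4 * K + 2) :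
    0 ≤ e * M4 (Gf r) K k y11 y10 y01 y00 -
      4 * od G (Gf r) k x11 x10 x01 x00 y11 y10 y01 y00 := by
  rw [M4_far _ h]
  have h2 := chev2 hG (Gf_mono r) a1 a2 a3 hy k
  have h3 : 0 ≤ Gf r (y11 - 2 - k) + Gf r (y10 - 1 - k) + Gf r (y01 - 1 - k) + Gf r (y00 - k) := by
    have := Gf_nonneg r (y11 - 2 - k)
    have := Gf_nonneg r (y10 - 1 - k)
    have := Gf_nonneg r (y01 - 1 - k)
    have := Gf_nonneg r (y00 - k)
    linarith
  have h4 := mul_le_mul_of_nonneg_right he h3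
  linarith

lemma T2_M {G : ℤ → ℝ} {r : ℕ} {K k : ℤ} {e : ℝ} {x11 x10 x01 x00 : ℤ}
    (he : G x11 + G x10 + G x01 + G x00 ≤ e) :
    0 ≤ e * M4 (Gf r) K k (K + 2) (K + 1) (K + 1) K -
      4 * od G (Gf r) k x11 x10 x01 x00 (K + 2) (K + 1) (K + 1) K := by
  unfold od
  rw [M4_near _ (by omega) (by omega), show K + 2 - 2 - k = K - k by ring,
    show K + 1 - 1 - k = K - k by ring]
  have h4 := mul_le_mul_of_nonneg_right he (Gf_nonneg r (K - k))
  linarith

/-- the pair inequality, general form -/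
lemma pair2 {G : ℤ → ℝ} (hG : Monotone G) {r : ℕ} {m K w : ℤ} (hK : K = m - 1 + w)
    {x11 x10 x01 x00 : ℤ} (a1 : x00 ≤ x01) (a2 : x01 ≤ x10) (a3 : x10 ≤ x11)
    {y11 y10 y01 y00 : ℤ} (hy : Sqr y11 y10 y01 y00)
    {x11' x10' x01' x00' : ℤ} (a1' : x00' ≤ x01') (a2' : x01' ≤ x10') (a3' : x10' ≤ x11')
    {y11' y10' y01' y00' : ℤ} (hy' : Sqr y11' y10' y01' y00') {k k' : ℤ}
    (hk : k + k' = 2 * w)
    (g1 : y11 + y00' = 2 * K + 2) (g2 : y10 + y01' = 2 * K + 2) (g3 : y01 + y10' = 2 * K + 2)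
    (g4 : y00 + y11' = 2 * K + 2) {e e' : ℝ}
    (he : G x11 + G x10 + G x01 + G x00 ≤ e) (he' : G x11' + G x10' + G x01' + G x00' ≤ e')
    {W W' α : ℝ} (hW' : W' = 0)
    (w1 : y10 = K + 1 → y01 = K + 1 → y00 = K + 1 → y11 = K + 2 → W = 1)
    (w2 : y10 = K + 1 → y01 = K + 1 → y00 = K + 1 → y11 = K + 1 → W = α)
    (w3 : ¬ (y10 = K + 1 ∧ y01 = K + 1 ∧ y00 = K + 1 ∧ (y11 = K + 1 ∨ y11 = K + 2)) → W = 0)
    (hc : 4 * K + 5 ≤ y11 + y10 + y01 + y00 ∨ (y11 + y10 + y01 + y00 = 4 * K + 4 ∧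
      0 ≤ TT r m (k - w) α (e - (G x11 + G x10 + G x01 + G x00))
        (e' - (G x11' + G x10' + G x01' + G x00')) (G x11) (G x10) (G x00) (G x00') (G x01')
        (G x11'))) :
    0 ≤ (e * M4 (Gf r) K k y11 y10 y01 y00 - 4 * od G (Gf r) k x11 x10 x01 x00 y11 y10 y01 y00 +
        4 * (W * (dP G (Gf r) K k x11 x10 x01 x00 y11 y10 y01 y00 +
            dM G (Gf r) K k' x11' x10' x01' x00' y11' y10' y01' y00'))) +
      (e' * M4 (Gf r) K k' y11' y10' y01' y00' -
        4 * od G (Gf r) k' x11' x10' x01' x00' y11' y10' y01' y00' +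
        4 * (W' * (dP G (Gf r) K k' x11' x10' x01' x00' y11' y10' y01' y00' +
            dM G (Gf r) K k x11 x10 x01 x00 y11 y10 y01 y00))) := by
  rw [hW']
  by_cases hfar : 4 * K + 6 ≤ y11 + y10 + y01 + y00
  · rw [w3 (by omega)]
    have h1 := T2_far (r := r) (K := K) (k := k) hG a1 a2 a3 he hy (Or.inl hfar)
    have h2 := T2_far (r := r) (K := K) (k := k') hG a1' a2' a3' he' hy' (Or.inr (by omega))
    linarith
  by_cases hP : y11 + y10 + y01 + y00 = 4 * K + 5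
  · -- type P
    have q1 : y11 = K + 2 ∧ y10 = K + 1 ∧ y01 = K + 1 ∧ y00 = K + 1 := by
      rcases hy.cases with h | h | h | h | h <;> omega
    obtain ⟨rfl, rfl, rfl, rfl⟩ := q1
    obtain rfl : K = y00' := by omega
    obtain rfl : y01' = K + 1 := by omega
    obtain rfl : y10' = K + 1 := by omega
    obtain rfl : y11' = K + 1 := by omega
    rw [w1 rfl rfl rfl rfl]
    unfold od dP dM
    rw [M4_near _ (by omega) (by omega), M4_near _ (by omega) (by omega)]
    rw [show K + 2 - 2 - k = K - k by ring, show K + 1 - 1 - k = K - k by ring,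
      show K + 2 - 1 - k = K + 1 - k by ring, show K + 1 - 2 - k' = K - 1 - k' by ring,
      show K + 1 - 1 - k' = K - k' by ring]
    have i3 := mul_le_mul_of_nonneg_right he (Gf_nonneg r (K - k))
    have i4 := mul_le_mul_of_nonneg_right he' (Gf_nonneg r (K - k'))
    have i5 := Gf_mono r (show K - k ≤ K + 1 - k by omega)
    have i6 := Gf_mono r (show K - 1 - k' ≤ K - k' by omega)
    have i7 := hG (a1.trans a2)
    have i8 := hG (a2'.trans a3')
    have i9 := mul_nonneg (sub_nonneg.2 i5) (sub_nonneg.2 i7)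
    have i10 := mul_nonneg (sub_nonneg.2 i6) (sub_nonneg.2 i8)
    linarith
  obtain ⟨hsum, hTT⟩ : y11 + y10 + y01 + y00 = 4 * K + 4 ∧
      0 ≤ TT r m (k - w) α (e - (G x11 + G x10 + G x01 + G x00))
        (e' - (G x11' + G x10' + G x01' + G x00')) (G x11) (G x10) (G x00) (G x00') (G x01')
        (G x11') := by
    rcases hc with h | h
    · omega
    · exact h
  have q1 : (y11 = K + 1 ∧ y10 = K + 1 ∧ y01 = K + 1 ∧ y00 = K + 1) ∨
      (y11 = K + 2 ∧ y10 = K + 1 ∧ y01 = K + 1 ∧ y00 = K) := by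
    rcases hy.cases with h | h | h | h | h <;> omega
  rcases q1 with ⟨rfl, rfl, rfl, rfl⟩ | ⟨rfl, rfl, rfl, h4⟩
  · -- type S
    obtain rfl : y00' = K + 1 := by omega
    obtain rfl : y01' = K + 1 := by omega
    obtain rfl : y10' = K + 1 := by omega
    obtain rfl : y11' = K + 1 := by omega
    obtain ⟨j, hj⟩ : ∃ j, j = k - w := ⟨_, rfl⟩
    rw [← hj] at hTT
    have ek : K - k = m - 1 + -j := by omega
    have ek' : K - k' = m - 1 + j := by omega
    have P0 : Gf r (K - k) = HH r m (-j) := by rw [ek]; rfl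
    have Q0 : Gf r (K - k') = HH r m j := by rw [ek']; rfl
    have P1 : Gf r (K - 1 - k) = HH r m (-j) - hh r m (-j) := by
      rw [show K - 1 - k = (K - k) - 1 by ring, Gf_pred, P0, ek]; rfl
    have Q1 : Gf r (K - 1 - k') = HH r m j - hh r m j := by
      rw [show K - 1 - k' = (K - k') - 1 by ring, Gf_pred, Q0, ek']; rfl
    have P2 : Gf r (K + 1 - k) = HH r m (-j) + hh r m (1 - j) := by
      rw [show K + 1 - k = (K - k) + 1 by ring, Gf_succ, P0, ek]
      unfold kf hh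
      rw [show m - 1 + -j + 1 = m - 1 + (1 - j) by ring]
    have Q2 : Gf r (K + 1 - k') = HH r m j + hh r m (j + 1) := by
      rw [show K + 1 - k' = (K - k') + 1 by ring, Gf_succ, Q0, ek']
      unfold kf hh
      rw [show m - 1 + j + 1 = m - 1 + (j + 1) by ring]
    rw [w2 rfl rfl rfl rfl]
    unfold od dP dM
    rw [M4_near _ (by omega) (by omega), M4_near _ (by omega) (by omega)]
    rw [show K + 1 - 2 - k = K - 1 - k by ring, show K + 1 - 1 - k = K - k by ring,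
      show K + 2 - 2 - k = K - k by ring, show K + 2 - 1 - k = K + 1 - k by ring,
      show K + 1 - 2 - k' = K - 1 - k' by ring, show K + 1 - 1 - k' = K - k' by ring,
      P0, P1, P2, Q0, Q1, Q2]
    unfold TT at hTT
    linarith
  · -- type M
    subst h4
    obtain rfl : y00' = y00 := by omega
    obtain rfl : y01' = y00' + 1 := by omega
    obtain rfl : y10' = y00' + 1 := by omega
    obtain rfl : y11' = y00' + 2 := by omega
    rw [w3 (by omega)]
    have h1 := T2_M (r := r) (K := y00') (k := k) he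
    have h2 := T2_M (r := r) (K := y00') (k := k') he'
    linarith

end Pool.Agent.MP_867aae_co.P75
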