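import Mathlib
import Pool.Agent.MP_867aae_co.P75.OI

/-!
The move from a half-integral centre to an even centre.
-/

namespace Pool.Agent.MP_867aae_co.P75

open Finset Function Pool.Agent.MP_867aae_co.H75

lemma XD.gain {p r : ℕ} {c0 m n : ℤ} (x : XD p r c0 m n) (hV : HV p r c0 m)
    {x11 x10 x01 x00 : ℤ} (h : ESq c0 x11 x10 x01 x00) :
    SG p c0 x11 x10 x01 x00 ≤ EX p c0 x11 x10 x01 x00 := by
  by_cases hp : 8 * c0 + 4 ≤ x11 + x10 + x01 + x00
  · exact (x.fin13 hV h hp 0).1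
  · have := (x.fin13 hV h.anti (by omega) 0).2.1
    simp only [sub_sub_cancel] at this
    exact this

lemma XD.pz_le {p r : ℕ} {c0 m n : ℤ} (x : XD p r c0 m n) {k : ℤ} (hk : 2 * c0 + 2 ≤ k) :
    pz p c0 ≤ piv (p + 1) k := by
  have h1 : pz p c0 ≤ pe (p + 1) (c0 + 1) := by
    have e1 := x.pz_rel
    have e2 := pe_c p c0
    have h : 0 < kf (p + 1 + 1) (c0 + 2) := by
      have h := x.c
      have h2 := x.A
      unfold kf
      obtain ⟨a, ha⟩ := Int.eq_ofNat_of_zero_le (show 0 ≤ c0 + 2 by omega)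
      rw [ha, cz_nat]
      have : 0 < (p + 1 + 1).choose a := Nat.choose_pos (by omega)
      exact_mod_cast this
    apply le_of_mul_le_mul_right _ h
    rw [e1, e2]
    linarith [kf_nonneg p (c0 + 1)]
  have h2 := piv_mono (p + 1) hk
  rw [show 2 * c0 + 2 = (c0 + 1) + (c0 + 1) by ring, piv_even] at h2
  exact h1.trans h2

lemma XD.pz0 {p r : ℕ} {c0 m n : ℤ} (_x : XD p r c0 m n) : 0 ≤ pz p c0 :=
  div_nonneg (kf_nonneg _ _) (kf_nonneg _ _)

/-- the half move -/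
lemma half_move {z p r : ℕ} {c0 m n K w : ℤ} (x : XD p r c0 m n) (hV : HV p r c0 m)
    (hz : (z : ℤ) = 2 * w) (hK : K = m - 1 + w) {a c : (Fin (z + 2) → Bool) → ℤ}
    (ha : EV c0 a) (hc : Val (2 * K + 2) c) (sa : Stab a) (sc : Stab c)
    (hmax : ∀ c' : (Fin (z + 2) → Bool) → ℤ, Val (2 * K + 2) c' →
      PV (Gx p c0) (Gf r) a c' ≤ PV (Gx p c0) (Gf r) a c) :
    ∃ a' c' : (Fin (z + 1) → Bool) → ℤ, Val (2 * c0 + 2) a' ∧ Val (2 * K + 1) c' ∧
      PV (Gx p c0) (Gf r) a c ≤ PV (Gf (p + 1 + 1)) (Gf r) a' c' := by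
  have qa := eq_of ha sa
  have qc := sq_of hc sc
  have hsa := qa.sq
  have hsc : ∀ ρ, Sqr (fc c true true ρ) (fc c true false ρ) (fc c false true ρ)
      (fc c false false ρ) := fun ρ => ⟨qc.s1 ρ, qc.s2 ρ, qc.s3 ρ, qc.s4 ρ, qc.mo ρ⟩
  -- abbreviations
  set x11 := fc a true true with hx11
  set x10 := fc a true false with hx10
  set x01 := fc a false true with hx01
  set x00 := fc a false false with hx00
  set y11 := fc c true true with hy11
  set y10 := fc c true false with hy10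
  set y01 := fc c false true with hy01
  set y00 := fc c false false with hy00
  let MM : (Fin z → Bool) → ℝ := fun ρ => M4 (Gf r) K (cn ρ) (y11 ρ) (y10 ρ) (y01 ρ) (y00 ρ)
  let ns : (Fin z → Bool) → ℤ := fun ρ => nst2 c0 (x11 ρ) (x10 ρ) (x01 ρ) (x00 ρ)
  let W00 : (Fin z → Bool) → ℝ := fun ρ => WX p c0 0 0 (x11 ρ) (x10 ρ) (x01 ρ) (x00 ρ)
  let W10 : (Fin z → Bool) → ℝ := fun ρ => WX p c0 1 0 (x11 ρ) (x10 ρ) (x01 ρ) (x00 ρ)
  let W01 : (Fin z → Bool) → ℝ := fun ρ => WX p c0 0 1 (x11 ρ) (x10 ρ) (x01 ρ) (x00 ρ)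
  have hpz1 : pz p c0 ≤ 1 := (x.pz_le le_rfl).trans (piv_le _ _)
  -- the threshold
  obtain ⟨l, hl0, hl1, hl⟩ := layer
    (fun q : (Fin z → Bool) × Bool => if q.2 then piv (p + 1) (ns q.1) else pz p c0)
    (fun q : (Fin z → Bool) × Bool => if q.2 then (W10 q.1 - W00 q.1) * MM q.1 else
      (W01 q.1 - W00 q.1) * MM q.1)
    (fun q => by
      split_ifs
      · exact piv_nonneg _ _
      · exact x.pz0)
    (fun q => by
      split_ifs
      · exact piv_le _ _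
      · exact hpz1)
  rw [Fintype.sum_prod_type, Fintype.sum_prod_type] at hl
  simp only [Fintype.sum_bool, if_true, Bool.false_eq_true, if_false] at hl
  let f : ℤ → ℤ := fun n => if l < piv (p + 1) n then 1 else 0
  obtain ⟨g, hg⟩ : ∃ g : ℤ, g = if l < pz p c0 then 1 else 0 := ⟨_, rfl⟩
  have hg01 : g = 0 ∨ g = 1 := by rw [hg]; split_ifs <;> simp
  have hf : ∀ n, f n = 0 ∨ f n = 1 := by
    intro n; simp only [f]; split_ifs <;> simp
  have hfm : ∀ n n', n ≤ n' → f n ≤ f n' := by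
    intro n n' h
    simp only [f]
    have := piv_mono (p + 1) h
    split_ifs with h1 h2
    · exact le_rfl
    · exact absurd (h1.trans_le this) h2
    · exact zero_le_one
    · exact le_rfl
  have hfg : ∀ n, 2 * c0 + 2 ≤ n → g ≤ f n := by
    intro n h
    rw [hg]
    simp only [f]
    have := x.pz_le h
    split_ifs with h1 h2
    · exact le_rfl
    · exact absurd (h1.trans_le this) h2
    · exact zero_le_one
    · exact le_rfl
  let n1 : (Fin z → Bool) → ℤ := fun ρ => N1 c0 (f (ns ρ)) g (x11 ρ) (x10 ρ) (x01 ρ) (x00 ρ)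
  let n0 : (Fin z → Bool) → ℤ := fun ρ => N0 c0 (f (ns ρ)) g (x11 ρ) (x10 ρ) (x01 ρ) (x00 ρ)
  have hstep : ∀ ρ i, ρ i = false →
      (n1 (update ρ i true) = n1 ρ ∨ n1 (update ρ i true) = n1 ρ + 1) ∧
      (n0 (update ρ i true) = n0 ρ ∨ n0 (update ρ i true) = n0 ρ + 1) := by
    intro ρ i hi
    exact N_step hf hfm hg01 hfg (hsa ρ) (hsa (update ρ i true))
      (qa.l11 ρ i hi) (qa.l10 ρ i hi) (qa.l01 ρ i hi) (qa.l00 ρ i hi)
      (qa.u11 ρ i hi) (qa.u10 ρ i hi) (qa.u01 ρ i hi) (qa.u00 ρ i hi)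
      (qa.x1 ρ i hi) (qa.x2 ρ i hi) (qa.x3 ρ i hi) (qa.x4 ρ i hi)
  have hvala : Val (2 * c0 + 2) (jn n1 n0) := by
    apply val_jn
    · intro ρ i hi; exact (hstep ρ i hi).1
    · intro ρ i hi; exact (hstep ρ i hi).2
    · intro ρ; exact N_within hf hg01 hfg (hsa ρ)
    · intro ρ
      have e1 := qa.sd1 ρ
      have e2 := qa.sd2 ρ
      have e3 := qa.sd2 (ng ρ)
      have e4 := qa.sd1 (ng ρ)
      rw [ng_ng] at e3 e4
      simp only [n1, n0, ns]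
      exact N_sd (hsa ρ) (by omega) (by omega) (by omega) (by omega)
  -- the second function
  let ct : Fin 4 → (Fin z → Bool) → ℤ := fun θ ρ => ch K θ (y11 ρ) (y10 ρ) (y01 ρ) (y00 ρ)
  have hvalc : ∀ θ, Val (2 * K + 1) (jn (fun ρ => ct θ ρ + 1) (ct θ)) := by
    intro θ
    have hst : Up (ct θ) := fun ρ i hi => ch_step θ (hsc ρ) (hsc (update ρ i true))
      (qc.u11 ρ i hi) (qc.u10 ρ i hi) (qc.u01 ρ i hi) (qc.u00 ρ i hi)
      (qc.x1 ρ i hi) (qc.x2 ρ i hi) (qc.x3 ρ i hi) (qc.x4 ρ i hi)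
    apply val_jn
    · intro ρ i hi
      have := hst ρ i hi
      simp only
      omega
    · exact hst
    · intro ρ; right; rfl
    · intro ρ
      have e1 := qc.sd1 ρ
      have e2 := qc.sd2 ρ
      have e3 := qc.sd2 (ng ρ)
      have e4 := qc.sd1 (ng ρ)
      rw [ng_ng] at e3 e4
      have := ch_sd (K := K) θ (y11 := y11 ρ) (y10 := y10 ρ) (y01 := y01 ρ) (y00 := y00 ρ)
        (z11 := y11 (ng ρ)) (z10 := y10 (ng ρ)) (z01 := y01 (ng ρ)) (z00 := y00 (ng ρ))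
        (by omega) (by omega) (by omega) (by omega)
      simp only [ct]
      linarith
  have hPV : ∀ θ, PV (Gf (p + 1 + 1)) (Gf r) (jn n1 n0) (jn (fun ρ => ct θ ρ + 1) (ct θ)) =
      ∑ ρ : Fin z → Bool, WX p c0 (f (ns ρ)) g (x11 ρ) (x10 ρ) (x01 ρ) (x00 ρ) *
        Gf r (ct θ ρ - cn ρ) := by
    intro θ
    rw [PV_jn]
    apply Finset.sum_congr rfl
    intro ρ _
    rw [WX_int p c0 (hf _) hg01]
    simp only [n1, n0]
    rw [add_sub_cancel_right]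
    ring
  have hsum4 : ∑ θ : Fin 4, PV (Gf (p + 1 + 1)) (Gf r) (jn n1 n0)
      (jn (fun ρ => ct θ ρ + 1) (ct θ)) =
      ∑ ρ : Fin z → Bool, WX p c0 (f (ns ρ)) g (x11 ρ) (x10 ρ) (x01 ρ) (x00 ρ) * MM ρ := by
    rw [Finset.sum_congr rfl (fun θ _ => hPV θ), Finset.sum_comm]
    apply Finset.sum_congr rfl
    intro ρ _
    rw [← Finset.mul_sum]
    congr 1
    simp only [MM, M4, ct]
    rw [Fin.sum_univ_four]
  -- expected value
  have hexp : ∑ ρ : Fin z → Bool, EX p c0 (x11 ρ) (x10 ρ) (x01 ρ) (x00 ρ) * MM ρ ≤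
      ∑ ρ : Fin z → Bool, WX p c0 (f (ns ρ)) g (x11 ρ) (x10 ρ) (x01 ρ) (x00 ρ) * MM ρ := by
    have e1 : ∀ ρ : Fin z → Bool,
        WX p c0 (f (ns ρ)) g (x11 ρ) (x10 ρ) (x01 ρ) (x00 ρ) * MM ρ =
        EX p c0 (x11 ρ) (x10 ρ) (x01 ρ) (x00 ρ) * MM ρ +
        (((if l < piv (p + 1) (ns ρ) then (W10 ρ - W00 ρ) * MM ρ else 0) +
          (if l < pz p c0 then (W01 ρ - W00 ρ) * MM ρ else 0)) -
          (piv (p + 1) (ns ρ) * ((W10 ρ - W00 ρ) * MM ρ) +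
            pz p c0 * ((W01 ρ - W00 ρ) * MM ρ))) := by
      intro ρ
      unfold EX
      rw [WX_aff p c0 (f (ns ρ)) g, WX_aff p c0 (piv (p + 1) _) (pz p c0)]
      simp only [f, hg, W00, W10, W01, ns]
      split_ifs
      · push_cast; ring
      · push_cast; ring
      · push_cast; ring
      · push_cast; ring
    rw [Finset.sum_congr rfl (fun ρ _ => e1 ρ), Finset.sum_add_distrib, Finset.sum_sub_distrib]
    linarith
  -- maximality
  have hPup : ∀ (ρ : Fin z → Bool) (i : Fin z), ρ i = false → PP c0 (x01 ρ) (x00 ρ) →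
      PP c0 (x01 (update ρ i true)) (x00 (update ρ i true)) := by
    intro ρ i hi h
    have e1 := qa.l01 ρ i hi
    have e2 := qa.l00 ρ i hi
    unfold PP at h ⊢
    omega
  have hPanti : ∀ ρ, PP c0 (x01 ρ) (x00 ρ) → ¬ PP c0 (x01 (ng ρ)) (x00 (ng ρ)) := by
    intro ρ h h'
    have e1 := qa.sd1 ρ
    have e2 := (hsa ρ).a2
    have e3 := (hsa ρ).a3
    unfold PP at h h'
    omega
  have hvm := vmax2_w (w := w) (fun _ _ h => x.d.alp_mono h) (fun j => (x.d.alp_pos j).le)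
    x.d.alp_le (P := fun ρ => PP c0 (x01 ρ) (x00 ρ)) hPup hPanti hc sc hmax
  -- pairs
  let Wt : (Fin z → Bool) → ℝ := wg (alp r m n) (fun ρ => PP c0 (x01 ρ) (x00 ρ)) K w c
  let T : (Fin z → Bool) → ℝ := fun ρ =>
    EX p c0 (x11 ρ) (x10 ρ) (x01 ρ) (x00 ρ) * M4 (Gf r) K (cn ρ) (y11 ρ) (y10 ρ) (y01 ρ) (y00 ρ) -
      4 * od (Gx p c0) (Gf r) (cn ρ) (x11 ρ) (x10 ρ) (x01 ρ) (x00 ρ) (y11 ρ) (y10 ρ) (y01 ρ)
        (y00 ρ) +
      4 * (Wt ρ * (dPf (Gx p c0) (Gf r) K a c ρ + dMf (Gx p c0) (Gf r) K a c (ng ρ)))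
  have hpair : ∀ ρ, 0 ≤ T ρ + T (ng ρ) := by
    intro ρ
    have key : ∀ ρ : Fin z → Bool, (4 * K + 5 ≤ y11 ρ + y10 ρ + y01 ρ + y00 ρ ∨
      (y11 ρ + y10 ρ + y01 ρ + y00 ρ = 4 * K + 4 ∧
        8 * c0 + 4 ≤ x11 ρ + x10 ρ + x01 ρ + x00 ρ)) → 0 ≤ T ρ + T (ng ρ) := by
      intro ρ hcond
      have e1 := qc.sd1 ρ
      have e2 := qc.sd2 ρ
      have e3 := qc.sd2 (ng ρ)
      have e4 := qc.sd1 (ng ρ)
      have e1' := qa.sd1 ρ
      have e2' := qa.sd2 ρ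
      have e3' := qa.sd2 (ng ρ)
      have e4' := qa.sd1 (ng ρ)
      rw [ng_ng] at e3 e4 e3' e4'
      have hk := cn_ng ρ
      have hW' : Wt (ng ρ) = 0 := by
        simp only [Wt]
        unfold wg
        rw [← hy11, ← hy10, ← hy01, ← hy00]
        rw [if_neg (by omega), if_neg]
        rintro ⟨h1, h2⟩
        unfold PP at h2
        have b1 := (hsa (ng ρ)).a2
        have b2 := (hsa (ng ρ)).a3
        omega
      have h := pair2 (Gx_mono p c0) (r := r) (K := K) (m := m) (w := w) hK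
        (hsa ρ).a1 (hsa ρ).a2 (hsa ρ).a3 (hsc ρ)
        (hsa (ng ρ)).a1 (hsa (ng ρ)).a2 (hsa (ng ρ)).a3 (hsc (ng ρ)) (k := cn ρ)
        (k' := cn (ng ρ)) (by omega) e1 e2 (by linarith) (by linarith)
        (x.gain hV (hsa ρ)) (x.gain hV (hsa (ng ρ))) (W := Wt ρ) hW'
        (α := if PP c0 (x01 ρ) (x00 ρ) then alp r m n (cn ρ - w) else 0)
        (fun h1 h2 h3 h4 => by
          simp only [Wt]; unfold wg; rw [← hy11, ← hy10, ← hy01, ← hy00]
          rw [if_pos ⟨h1, h2, h3, h4⟩])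
        (fun h1 h2 h3 h4 => by
          simp only [Wt]; unfold wg; rw [← hy11, ← hy10, ← hy01, ← hy00]
          rw [if_neg (by omega)]
          by_cases hP : PP c0 (x01 ρ) (x00 ρ)
          · rw [if_pos ⟨⟨h1, h2, h3, h4⟩, hP⟩, if_pos hP]
          · rw [if_neg (fun h => hP h.2), if_neg hP])
        (fun h1 => by
          simp only [Wt]; unfold wg; rw [← hy11, ← hy10, ← hy01, ← hy00]
          rw [if_neg (fun h => h1 ⟨h.1, h.2.1, h.2.2.1, Or.inr h.2.2.2⟩),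
            if_neg (fun h => h1 ⟨h.1.1, h.1.2.1, h.1.2.2.1, Or.inl h.1.2.2.2⟩)])
        (by
          rcases hcond with h1 | ⟨h1, h2⟩
          · exact Or.inl h1
          · right
            refine ⟨h1, ?_⟩
            have h3 := (x.fin13 hV (hsa ρ) h2 (cn ρ - w)).2.2
            rw [show 4 * c0 + 2 - x00 ρ = x11 (ng ρ) by omega,
              show 4 * c0 + 2 - x01 ρ = x10 (ng ρ) by omega,
              show 4 * c0 + 2 - x10 ρ = x01 (ng ρ) by omega,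
              show 4 * c0 + 2 - x11 ρ = x00 (ng ρ) by omega] at h3
            exact h3)
      simp only [T, dPf, dMf]
      rw [ng_ng]
      exact h
    have e1 := qc.sd1 ρ
    have e2 := qc.sd2 ρ
    have e3 := qc.sd2 (ng ρ)
    have e4 := qc.sd1 (ng ρ)
    have e1' := qa.sd1 ρ
    have e2' := qa.sd2 ρ
    have e3' := qa.sd2 (ng ρ)
    have e4' := qa.sd1 (ng ρ)
    rw [ng_ng] at e3 e4 e3' e4'
    by_cases hcond : (4 * K + 5 ≤ y11 ρ + y10 ρ + y01 ρ + y00 ρ ∨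
      (y11 ρ + y10 ρ + y01 ρ + y00 ρ = 4 * K + 4 ∧
        8 * c0 + 4 ≤ x11 ρ + x10 ρ + x01 ρ + x00 ρ))
    · exact key ρ hcond
    · have := key (ng ρ) (by omega)
      rw [ng_ng] at this
      linarith
  have hT : 0 ≤ ∑ ρ, T ρ := by
    have h1 : 0 ≤ ∑ ρ, (T ρ + T (ng ρ)) := Finset.sum_nonneg (fun ρ _ => hpair ρ)
    rw [Finset.sum_add_distrib, sum_ngR] at h1
    linarith
  have hTs : ∑ ρ, T ρ = ∑ ρ : Fin z → Bool, EX p c0 (x11 ρ) (x10 ρ) (x01 ρ) (x00 ρ) * MM ρ -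
      4 * PV (Gx p c0) (Gf r) a c + 4 * ∑ ρ : Fin z → Bool, Wt ρ *
        (dPf (Gx p c0) (Gf r) K a c ρ + dMf (Gx p c0) (Gf r) K a c (ng ρ)) := by
    simp only [T]
    rw [Finset.sum_add_distrib, ← Finset.mul_sum]
    congr 1
    rw [Finset.sum_sub_distrib, ← Finset.mul_sum, PV_sq]
    rfl
  have hfin : 4 * PV (Gx p c0) (Gf r) a c ≤
      ∑ θ : Fin 4, PV (Gf (p + 1 + 1)) (Gf r) (jn n1 n0) (jn (fun ρ => ct θ ρ + 1) (ct θ)) := by
    rw [hsum4]
    linarith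
  have hex : ∃ θ, PV (Gx p c0) (Gf r) a c ≤
      PV (Gf (p + 1 + 1)) (Gf r) (jn n1 n0) (jn (fun ρ => ct θ ρ + 1) (ct θ)) := by
    by_contra hcon
    push Not at hcon
    have h1 : ∑ θ : Fin 4, PV (Gf (p + 1 + 1)) (Gf r) (jn n1 n0)
        (jn (fun ρ => ct θ ρ + 1) (ct θ)) < ∑ _θ : Fin 4, PV (Gx p c0) (Gf r) a c :=
      Finset.sum_lt_sum_of_nonempty ⟨0, Finset.mem_univ _⟩ (fun θ _ => hcon θ)
    rw [Finset.sum_const, Finset.card_univ, Fintype.card_fin] at h1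
    simp only [nsmul_eq_mul, Nat.cast_ofNat] at h1
    linarith
  obtain ⟨θ, hθ⟩ := hex
  exact ⟨jn n1 n0, jn (fun ρ => ct θ ρ + 1) (ct θ), hvala, hvalc θ, hθ⟩

end Pool.Agent.MP_867aae_co.P75
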