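import Mathlib
import Pool.Agent.MP_867aae_co.P75.OJ

/-!
From an even centre to a half-integral centre.
-/

namespace Pool.Agent.MP_867aae_co.P75

open Finset Function Pool.Agent.MP_867aae_co.H75

section
variable {z : ℕ}

/-- new doubled values -/
def bE (c0 : ℤ) (a : (Fin (z + 1) → Bool) → ℤ) (w : (Fin z → Bool) → Bool) (τ : Fin z → Bool) : ℤ :=
  if a (Fin.cons false τ) = a (Fin.cons true τ) then
    (if a (Fin.cons false τ) = c0 then 2 * c0 + 1 else
      2 * (a (Fin.cons false τ) + if w τ then 1 else 0)) else 2 * (a (Fin.cons false τ) + 1)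

lemma bE_ev {c0 : ℤ} {a : (Fin (z + 1) → Bool) → ℤ} (ha : Val (2 * c0) a)
    (hs : ∀ (τ : Fin z → Bool) (k : Fin z), τ k = false →
      a (Fin.cons false (update τ k true)) ≤ a (Fin.cons true τ))
    (w : (Fin z → Bool) → Bool)
    (w1 : ∀ τ, a (Fin.cons false τ) = a (Fin.cons true τ) → a (Fin.cons false τ) ≠ c0 →
      w (ng τ) = !w τ)
    (w2 : ∀ τ i, τ i = false → a (Fin.cons false τ) = a (Fin.cons true τ) →
      a (Fin.cons false τ) ≠ c0 →
      a (Fin.cons false (update τ i true)) = a (Fin.cons true (update τ i true)) →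
      a (Fin.cons false (update τ i true)) = a (Fin.cons false τ) →
      w τ = true → w (update τ i true) = true) : EV c0 (bE c0 a w) := by
  have hst : ∀ τ i, τ i = false → bE c0 a w τ ≤ bE c0 a w (update τ i true) ∧
      bE c0 a w (update τ i true) ≤ bE c0 a w τ + 2 := by
    intro τ i hi
    have h1 := stS ha false τ hi
    have h2 := stS ha true τ hi
    have h3 := H75.st0 ha τ
    have h4 := H75.st0 ha (update τ i true)
    have h5 := hs τ i hi
    unfold bE
    by_cases hf : a (Fin.cons false τ) = a (Fin.cons true τ)
    · rw [if_pos hf]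
      by_cases hc : a (Fin.cons false τ) = c0
      · rw [if_pos hc]
        by_cases hf' : a (Fin.cons false (update τ i true)) = a (Fin.cons true (update τ i true))
        · have hc' : a (Fin.cons false (update τ i true)) = c0 := by omega
          rw [if_pos hf', if_pos hc']
          omega
        · rw [if_neg hf']
          omega
      · rw [if_neg hc]
        by_cases hf' : a (Fin.cons false (update τ i true)) = a (Fin.cons true (update τ i true))
        · have he : a (Fin.cons false (update τ i true)) = a (Fin.cons false τ) := by omega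
          have hc' : ¬ a (Fin.cons false (update τ i true)) = c0 := by omega
          rw [if_pos hf', if_neg hc']
          have hw := w2 τ i hi hf hc hf' he
          rw [he]
          rcases h6 : w τ with _ | _
          · rcases w (update τ i true) with _ | _
            · simp
            · simp only [Bool.false_eq_true, if_false, if_true]; omega
          · rw [hw h6]; simp
        · rw [if_neg hf']
          rcases w τ with _ | _
          · simp only [Bool.false_eq_true, if_false]; omega
          · simp only [if_true]; omega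
    · rw [if_neg hf]
      by_cases hf' : a (Fin.cons false (update τ i true)) = a (Fin.cons true (update τ i true))
      · rw [if_pos hf']
        by_cases hc' : a (Fin.cons false (update τ i true)) = c0
        · rw [if_pos hc']; omega
        · rw [if_neg hc']
          rcases w (update τ i true) with _ | _
          · simp only [Bool.false_eq_true, if_false]; omega
          · simp only [if_true]; omega
      · rw [if_neg hf']; omega
  refine ⟨?_, fun τ i hi => (hst τ i hi).1, fun τ i hi => (hst τ i hi).2, ?_⟩
  · intro τ
    have h1 := sd0 ha τ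
    have h2 := sd1 ha τ
    have h3 := H75.st0 ha τ
    unfold bE
    by_cases hf : a (Fin.cons false τ) = a (Fin.cons true τ)
    · have hf' : a (Fin.cons false (ng τ)) = a (Fin.cons true (ng τ)) := by omega
      rw [if_pos hf, if_pos hf']
      by_cases hc : a (Fin.cons false τ) = c0
      · have hc' : a (Fin.cons false (ng τ)) = c0 := by omega
        rw [if_pos hc, if_pos hc']; ring
      · have hc' : ¬ a (Fin.cons false (ng τ)) = c0 := by omega
        rw [if_neg hc, if_neg hc', w1 τ hf hc]
        rcases w τ with _ | _
        · simp only [Bool.false_eq_true, if_false, Bool.not_false, if_true]; omega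
        · simp only [Bool.false_eq_true, if_false, Bool.not_true, if_true]; omega
    · have hf' : ¬ a (Fin.cons false (ng τ)) = a (Fin.cons true (ng τ)) := by omega
      rw [if_neg hf, if_neg hf']; omega
  · intro τ
    unfold bE
    split_ifs
    · right; rfl
    · left; omega
    · left; omega
    · left; omega

/-- the first step -/
lemma step_one {c0 C : ℤ} (p : ℕ) {H : ℤ → ℝ} (hH : Monotone H) (hH0 : ∀ b, 0 ≤ H b)
    (hA : 2 * c0 ≤ p - 1) {a c : (Fin (z + 1) → Bool) → ℤ} (ha : Val (2 * c0) a) (hc : Val C c)
    (hCo : C % 2 = 1) (sa : Stab a) (sc : Stab c) :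
    ∃ a' c' : (Fin z → Bool) → ℤ, EV c0 a' ∧ Val (C - 1) c' ∧
      PV (Gf p) H a c ≤ PV (Gx p c0) H a' c' := by
  classical
  -- weights
  let W : (Fin z → Bool) → ℝ := fun τ =>
    H (c (Fin.cons true τ) - 1 - cn τ) + H (c (Fin.cons false τ) - cn τ)
  have hW : ∀ τ, 0 ≤ W τ := fun τ => add_nonneg (hH0 _) (hH0 _)
  have hlev : ∀ m : ℤ, ∃ e : Bool, 0 ≤ ∑ τ ∈ univ.filter (fun τ : Fin z → Bool =>
      a (Fin.cons false τ) = a (Fin.cons true τ) ∧ a (Fin.cons false τ) = m),
      (W τ * sg p e m + W (ng τ) * sg p (!e) (2 * c0 - m)) := fun m =>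
    lvl hA _ W (fun τ => W (ng τ)) hW (fun τ => hW (ng τ))
  choose ε hε using hlev
  let w : (Fin z → Bool) → Bool := fun τ =>
    if c0 < a (Fin.cons false τ) then ε (a (Fin.cons false τ)) else
      !ε (2 * c0 - a (Fin.cons false τ))
  have hflat : ∀ τ : Fin z → Bool, a (Fin.cons false τ) = a (Fin.cons true τ) →
      a (Fin.cons false (ng τ)) = 2 * c0 - a (Fin.cons false τ) ∧
      a (Fin.cons false (ng τ)) = a (Fin.cons true (ng τ)) := by
    intro τ h
    have h1 := sd0 ha τ
    have h2 := sd1 ha τ
    omega
  have w1 : ∀ τ, a (Fin.cons false τ) = a (Fin.cons true τ) → a (Fin.cons false τ) ≠ c0 →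
      w (ng τ) = !w τ := by
    intro τ hf hc
    obtain ⟨h1, -⟩ := hflat τ hf
    simp only [w]
    rw [h1]
    rcases lt_trichotomy (a (Fin.cons false τ)) c0 with h | h | h
    · rw [if_pos (by omega), if_neg (by omega), Bool.not_not]
    · exact absurd h hc
    · rw [if_neg (by omega), if_pos (by omega), sub_sub_cancel]
  have w2 : ∀ τ i, τ i = false → a (Fin.cons false τ) = a (Fin.cons true τ) →
      a (Fin.cons false τ) ≠ c0 →
      a (Fin.cons false (update τ i true)) = a (Fin.cons true (update τ i true)) →
      a (Fin.cons false (update τ i true)) = a (Fin.cons false τ) →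
      w τ = true → w (update τ i true) = true := by
    intro τ i hi hf hc hf' he hw
    simp only [w] at hw ⊢
    rw [he]
    exact hw
  have hval := bE_ev ha sa.st0 w w1 w2
  -- the comparison
  have key : 2 * PV (Gf p) H a c ≤ PV (Gx p c0) H (bE c0 a w) (nc C c true) +
      PV (Gx p c0) H (bE c0 a w) (nc C c false) := by
    unfold PV
    rw [sum_consR, ← Finset.sum_add_distrib, Finset.mul_sum]
    have hpt : ∀ τ : Fin z → Bool,
        2 * (Gf p (a (Fin.cons false τ)) * H (c (Fin.cons false τ) - cn (Fin.cons false τ)) +
          Gf p (a (Fin.cons true τ)) * H (c (Fin.cons true τ) - cn (Fin.cons true τ))) +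
        (if a (Fin.cons false τ) = a (Fin.cons true τ) ∧ a (Fin.cons false τ) ≠ c0 then
          W τ * sg p (w τ) (a (Fin.cons false τ)) else 0) ≤
        Gx p c0 (bE c0 a w τ) * H (nc C c true τ - cn τ) +
          Gx p c0 (bE c0 a w τ) * H (nc C c false τ - cn τ) := by
      intro τ
      have h3 := H75.st0 ha τ
      have h3c := H75.st0 hc τ
      rw [cn_cons, cn_cons]
      simp only [Bool.false_eq_true, if_false, if_true, zero_add]
      have e1 : Gx p c0 (bE c0 a w τ) * H (nc C c true τ - cn τ) +
          Gx p c0 (bE c0 a w τ) * H (nc C c false τ - cn τ) = Gx p c0 (bE c0 a w τ) * W τ := by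
        simp only [W]
        unfold nc
        simp only [Bool.false_eq_true, if_false, if_true]
        split_ifs
        · ring
        · ring
      rw [e1, show c (Fin.cons true τ) - (1 + cn τ) = c (Fin.cons true τ) - 1 - cn τ by ring]
      simp only [W]
      have hh : H (c (Fin.cons true τ) - 1 - cn τ) ≤ H (c (Fin.cons false τ) - cn τ) :=
        hH (by omega)
      set u := H (c (Fin.cons true τ) - 1 - cn τ)
      set v := H (c (Fin.cons false τ) - cn τ)
      unfold bE
      by_cases hf : a (Fin.cons false τ) = a (Fin.cons true τ)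
      · rw [if_pos hf, ← hf]
        by_cases hc : a (Fin.cons false τ) = c0
        · rw [if_pos hc, if_neg (fun h => h.2 hc), hc, Gx_half p c0 rfl]
          apply le_of_eq
          ring
        · rw [if_neg hc, if_pos ⟨rfl, hc⟩, Gx_int p c0 rfl]
          set x := a (Fin.cons false τ)
          rcases w τ with _ | _
          · simp only [Bool.false_eq_true, if_false, add_zero, sg]
            rw [Gf_rec, Gf_pred]
            apply le_of_eq
            ring
          · simp only [if_true, sg]
            rw [Gf_rec, add_sub_cancel_right, Gf_succ]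
            apply le_of_eq
            ring
      · rw [if_neg hf, if_neg (fun h => hf h.1), Gx_int p c0 rfl]
        have h4 : a (Fin.cons true τ) = a (Fin.cons false τ) + 1 := by omega
        rw [h4, Gf_rec, add_sub_cancel_right]
        have h5 := Gf_mono p (show a (Fin.cons false τ) ≤ a (Fin.cons false τ) + 1 by omega)
        have h6 := mul_nonneg (sub_nonneg.2 h5) (sub_nonneg.2 hh)
        linarith
    have hsum := Finset.sum_le_sum (fun τ (_ : τ ∈ (univ : Finset (Fin z → Bool))) => hpt τ)
    rw [Finset.sum_add_distrib] at hsum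
    suffices h : 0 ≤ ∑ τ, (if a (Fin.cons false τ) = a (Fin.cons true τ) ∧
          a (Fin.cons false τ) ≠ c0 then
          W τ * sg p (w τ) (a (Fin.cons false τ)) else 0) by linarith
    -- levels
    let F1 : (Fin z → Bool) → ℝ := fun τ =>
      if a (Fin.cons false τ) = a (Fin.cons true τ) ∧ c0 < a (Fin.cons false τ) then
        W τ * sg p (w τ) (a (Fin.cons false τ)) else 0
    let F2 : (Fin z → Bool) → ℝ := fun τ =>
      if a (Fin.cons false τ) = a (Fin.cons true τ) ∧ a (Fin.cons false τ) < c0 then
        W τ * sg p (w τ) (a (Fin.cons false τ)) else 0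
    have hsplit : ∀ τ, (if a (Fin.cons false τ) = a (Fin.cons true τ) ∧
          a (Fin.cons false τ) ≠ c0 then
          W τ * sg p (w τ) (a (Fin.cons false τ)) else 0) = F1 τ + F2 τ := by
      intro τ
      simp only [F1, F2]
      by_cases hf : a (Fin.cons false τ) = a (Fin.cons true τ)
      · rcases lt_trichotomy (a (Fin.cons false τ)) c0 with h | h | h
        · rw [if_pos ⟨hf, by omega⟩, if_neg (by omega), if_pos ⟨hf, h⟩]; simp
        · rw [if_neg (by omega), if_neg (by omega), if_neg (by omega)]; simp
        · rw [if_pos ⟨hf, by omega⟩, if_pos ⟨hf, h⟩, if_neg (by omega)]; simp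
      · rw [if_neg (fun h => hf h.1), if_neg (fun h => hf h.1), if_neg (fun h => hf h.1)]
        simp
    rw [Finset.sum_congr rfl (fun τ _ => hsplit τ), Finset.sum_add_distrib]
    rw [← sum_ngR F2, ← Finset.sum_add_distrib]
    have e1 : ∀ τ, F1 τ + F2 (ng τ) =
        if a (Fin.cons false τ) = a (Fin.cons true τ) ∧ c0 < a (Fin.cons false τ) then
        (W τ * sg p (ε (a (Fin.cons false τ))) (a (Fin.cons false τ)) +
          W (ng τ) * sg p (!ε (a (Fin.cons false τ))) (2 * c0 - a (Fin.cons false τ))) else 0 := by
      intro τ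
      simp only [F1, F2]
      by_cases hf : a (Fin.cons false τ) = a (Fin.cons true τ)
      · obtain ⟨h1, h2⟩ := hflat τ hf
        by_cases h : c0 < a (Fin.cons false τ)
        · rw [if_pos ⟨hf, h⟩, if_pos ⟨h2, by omega⟩, if_pos ⟨hf, h⟩]
          have hw1 : w τ = ε (a (Fin.cons false τ)) := by simp only [w]; rw [if_pos h]
          rw [w1 τ hf (by omega), hw1, h1]
        · rw [if_neg (fun h' => h h'.2), if_neg (by omega), if_neg (fun h' => h h'.2)]; simp
      · have h2 : ¬ a (Fin.cons false (ng τ)) = a (Fin.cons true (ng τ)) := by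
          have h1 := sd0 ha τ
          have h2 := sd1 ha τ
          omega
        rw [if_neg (fun h' => hf h'.1), if_neg (fun h' => h2 h'.1), if_neg (fun h' => hf h'.1)]
        simp
    rw [Finset.sum_congr rfl (fun τ _ => e1 τ), ← Finset.sum_filter]
    rw [← Finset.sum_fiberwise_of_maps_to (g := fun τ : Fin z → Bool => a (Fin.cons false τ))
      (t := (univ.filter (fun τ : Fin z → Bool => a (Fin.cons false τ) = a (Fin.cons true τ) ∧
        c0 < a (Fin.cons false τ))).image (fun τ : Fin z → Bool => a (Fin.cons false τ)))
      (fun x hx => Finset.mem_image_of_mem _ hx)]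
    apply Finset.sum_nonneg
    intro m hm
    obtain ⟨τ0, hτ0, rfl⟩ := Finset.mem_image.1 hm
    have hm0 : c0 < a (Fin.cons false τ0) := (Finset.mem_filter.1 hτ0).2.2
    set m := a (Fin.cons false τ0)
    refine (hε m).trans_eq ?_
    rw [Finset.filter_filter]
    have : (univ.filter (fun τ : Fin z → Bool =>
        a (Fin.cons false τ) = a (Fin.cons true τ) ∧ a (Fin.cons false τ) = m)) =
        (univ.filter (fun τ : Fin z → Bool => (a (Fin.cons false τ) = a (Fin.cons true τ) ∧
          c0 < a (Fin.cons false τ)) ∧ a (Fin.cons false τ) = m)) := by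
      ext τ
      simp only [Finset.mem_filter, Finset.mem_univ, true_and]
      constructor
      · rintro ⟨h1, h2⟩; exact ⟨⟨h1, by omega⟩, h2⟩
      · rintro ⟨⟨h1, _⟩, h2⟩; exact ⟨h1, h2⟩
    rw [this]
    apply Finset.sum_congr rfl
    intro τ hτ
    have h1 : a (Fin.cons false τ) = m := (Finset.mem_filter.1 hτ).2.2
    rw [h1]
  rcases le_total (PV (Gx p c0) H (bE c0 a w) (nc C c true))
    (PV (Gx p c0) H (bE c0 a w) (nc C c false)) with h | h
  · exact ⟨bE c0 a w, nc C c false, hval, nc_val hc hCo sc false, by linarith⟩
  · exact ⟨bE c0 a w, nc C c true, hval, nc_val hc hCo sc true, by linarith⟩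

end

end Pool.Agent.MP_867aae_co.P75
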