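import Mathlib
import Pool.Agent.MP_867aae_co.P75.OK

/-!
The move for a negative centre.
-/

namespace Pool.Agent.MP_867aae_co.P75

open Finset Function Pool.Agent.MP_867aae_co.H75

section
variable {z : ℕ}

/-- new second function -/
def nc2 (C : ℤ) (c : (Fin (z + 1) → Bool) → ℤ) (ω : (Fin z → Bool) → ℤ) (θ : Bool)
    (τ : Fin z → Bool) : ℤ :=
  if C < c (Fin.cons true τ) + c (Fin.cons false τ) then
    (if θ then c (Fin.cons true τ) - 1 else c (Fin.cons false τ)) else
    if c (Fin.cons true τ) + c (Fin.cons false τ) < C then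
      (if θ then c (Fin.cons false τ) else c (Fin.cons true τ) - 1) else
      (if c (Fin.cons true τ) = c (Fin.cons false τ) then c (Fin.cons false τ) - 1 + ω τ else
        c (Fin.cons false τ))

lemma nc2_val {C : ℤ} {c : (Fin (z + 1) → Bool) → ℤ} (hc : Val C c)
    (hs : Stab c) {ω : (Fin z → Bool) → ℤ} (hω : ∀ τ, ω τ = 0 ∨ ω τ = 1)
    (hω1 : ∀ τ, ω (ng τ) = 1 - ω τ) (hω2 : ∀ τ i, τ i = false → ω τ ≤ ω (update τ i true))
    (θ : Bool) : Val (C - 1) (nc2 C c ω θ) := by
  refine ⟨?_, ?_⟩
  · intro τ
    have h1 := sd0 hc τ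
    have h2 := sd1 hc τ
    have h3 := H75.st0 hc τ
    have h4 := hω1 τ
    unfold nc2
    cases θ <;> simp only [Bool.false_eq_true, if_false, if_true] <;> split_ifs <;> omega
  · intro τ i hi
    have h1 := stS hc false τ hi
    have h2 := stS hc true τ hi
    have h3 := H75.st0 hc τ
    have h4 := H75.st0 hc (update τ i true)
    have h5 := hs.st0 τ i hi
    have h6 := hω τ
    have h7 := hω (update τ i true)
    have h8 := hω2 τ i hi
    unfold nc2
    cases θ <;> simp only [Bool.false_eq_true, if_false, if_true] <;> split_ifs <;> omega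

/-- the move for a negative centre -/
lemma neg_move {A C : ℤ} (p : ℕ) {H : ℤ → ℝ} (hH : Monotone H) (hH0 : ∀ b, 0 ≤ H b)
    (hA : A < 0) {a c : (Fin (z + 2) → Bool) → ℤ} (ha : Val A a) (hc : Val C c)
    (sa : Stab a) (sc : Stab c) :
    ∃ a' c' : (Fin (z + 1) → Bool) → ℤ, Val (A + 1) a' ∧ Val (C - 1) c' ∧
      PV (Gf p) H a c ≤ PV (Gf (p + 1)) H a' c' := by
  let w : (Fin (z + 1) → Bool) → Bool := fun τ =>
    if A < 2 * a (Fin.cons false τ) then true else
      if 2 * a (Fin.cons false τ) = A then τ 0 else false
  have w1 : ∀ τ, a (Fin.cons false τ) = a (Fin.cons true τ) → w (ng τ) = !w τ := by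
    intro τ hf
    have h1 := sd0 ha τ
    have h2 := sd1 ha τ
    have h3 : a (Fin.cons false (ng τ)) = A - a (Fin.cons false τ) := by omega
    simp only [w]
    rw [h3]
    rcases lt_trichotomy (2 * a (Fin.cons false τ)) A with h | h | h
    · rw [if_pos (by omega), if_neg (by omega), if_neg (by omega)]; rfl
    · rw [if_neg (by omega), if_pos (by omega), if_neg (by omega), if_pos h]; rfl
    · rw [if_neg (by omega), if_neg (by omega), if_pos h]; rfl
  have up0 : ∀ (τ : Fin (z + 1) → Bool) i, τ 0 = true → update τ i true 0 = true := by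
    intro τ i h
    by_cases hi : (0 : Fin (z + 1)) = i
    · subst hi; simp
    · rw [update_of_ne hi]; exact h
  have w2 : ∀ τ i, τ i = false → a (Fin.cons false τ) = a (Fin.cons true τ) →
      a (Fin.cons false (update τ i true)) = a (Fin.cons true (update τ i true)) →
      a (Fin.cons false (update τ i true)) = a (Fin.cons false τ) →
      w τ = true → w (update τ i true) = true := by
    intro τ i hi hf hf' he hw
    simp only [w] at hw ⊢
    rw [he]
    split_ifs at hw ⊢ with h1 h2
    · rfl
    · exact up0 τ i hw
  have hval := nf_val ha sa.st0 w w1 w2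
  let ω : (Fin (z + 1) → Bool) → ℤ := fun τ =>
    if A < a (Fin.cons false τ) + a (Fin.cons true τ) then 1 else
      if a (Fin.cons false τ) + a (Fin.cons true τ) = A then (if τ 0 then 1 else 0) else 0
  have hω : ∀ τ, ω τ = 0 ∨ ω τ = 1 := by
    intro τ; simp only [ω]; split_ifs <;> simp
  have hω1 : ∀ τ, ω (ng τ) = 1 - ω τ := by
    intro τ
    have h1 := sd0 ha τ
    have h2 := sd1 ha τ
    simp only [ω]
    rcases lt_trichotomy (a (Fin.cons false τ) + a (Fin.cons true τ)) A with h | h | h
    · rw [if_pos (by omega), if_neg (by omega), if_neg (by omega)]; rfl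
    · have k1 : ¬ A < a (Fin.cons false (ng τ)) + a (Fin.cons true (ng τ)) := by omega
      have k2 : a (Fin.cons false (ng τ)) + a (Fin.cons true (ng τ)) = A := by omega
      have k3 : ¬ A < a (Fin.cons false τ) + a (Fin.cons true τ) := by omega
      rw [if_neg k1, if_pos k2, if_neg k3, if_pos h, ng_apply]
      rcases τ 0 with _ | _ <;> simp
    · rw [if_neg (by omega), if_neg (by omega), if_pos h]; rfl
  have hω2 : ∀ τ i, τ i = false → ω τ ≤ ω (update τ i true) := by
    intro τ i hi
    have h1 := stS ha false τ hi
    have h2 := stS ha true τ hi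
    have h3 := up0 τ i
    have h4 : (if τ 0 = true then (1 : ℤ) else 0) ≤
        if update τ i true 0 = true then (1 : ℤ) else 0 := by
      by_cases h : τ 0 = true
      · rw [if_pos h, if_pos (h3 h)]
      · rw [if_neg h]; split_ifs <;> simp
    have h5 : (if τ 0 = true then (1 : ℤ) else 0) ≤ 1 := by split_ifs <;> simp
    have h6 : 0 ≤ (if update τ i true 0 = true then (1 : ℤ) else 0) := by split_ifs <;> simp
    simp only [ω]
    generalize (if τ 0 = true then (1 : ℤ) else 0) = p1 at *
    generalize (if update τ i true 0 = true then (1 : ℤ) else 0) = p2 at *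
    split_ifs <;> omega
  -- pointwise comparison
  have key : 2 * PV (Gf p) H a c ≤ PV (Gf (p + 1)) H (nf a w) (nc2 C c ω true) +
      PV (Gf (p + 1)) H (nf a w) (nc2 C c ω false) := by
    unfold PV
    rw [sum_consR, ← Finset.sum_add_distrib, Finset.mul_sum]
    apply Finset.sum_le_sum
    intro τ _
    have h3 := H75.st0 ha τ
    have h3c := H75.st0 hc τ
    rw [cn_cons, cn_cons]
    simp only [Bool.false_eq_true, if_false, if_true, zero_add]
    rw [show c (Fin.cons true τ) - (1 + cn τ) = c (Fin.cons true τ) - 1 - cn τ by ring]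
    have hh : H (c (Fin.cons true τ) - 1 - cn τ) ≤ H (c (Fin.cons false τ) - cn τ) :=
      hH (by omega)
    have hu0 := hH0 (c (Fin.cons true τ) - 1 - cn τ)
    have hv0 := hH0 (c (Fin.cons false τ) - cn τ)
    -- the new weight
    have hG : Gf p (a (Fin.cons false τ)) + Gf p (a (Fin.cons true τ)) ≤
        Gf (p + 1) (nf a w τ) := by
      unfold nf
      by_cases hf : a (Fin.cons false τ) = a (Fin.cons true τ)
      · rw [if_pos hf, ← hf]
        rcases hw : w τ with _ | _
        · simp only [Bool.false_eq_true, if_false, add_zero]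
          have : a (Fin.cons false τ) < 0 := by
            simp only [w] at hw
            split_ifs at hw with h1 h2
            · omega
            · omega
          rw [Gf_neg p this]
          simpa using Gf_nonneg (p + 1) _
        · simp only [if_true]
          rw [Gf_rec, add_sub_cancel_right]
          have := Gf_mono p (show a (Fin.cons false τ) ≤ a (Fin.cons false τ) + 1 by omega)
          linarith
      · rw [if_neg hf]
        have h4 : a (Fin.cons true τ) = a (Fin.cons false τ) + 1 := by omega
        rw [h4, Gf_rec, add_sub_cancel_right]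
        linarith
    have hG0 := Gf_nonneg p (a (Fin.cons false τ))
    have hG1 := Gf_nonneg p (a (Fin.cons true τ))
    have hGm := Gf_mono p (show a (Fin.cons false τ) ≤ a (Fin.cons true τ) by omega)
    set g := Gf (p + 1) (nf a w τ)
    set g0 := Gf p (a (Fin.cons false τ))
    set g1 := Gf p (a (Fin.cons true τ))
    by_cases hcen : c (Fin.cons true τ) + c (Fin.cons false τ) = C ∧
        c (Fin.cons true τ) = c (Fin.cons false τ)
    · obtain ⟨hc1, hc2⟩ := hcen
      have e : ∀ θ, nc2 C c ω θ τ = c (Fin.cons false τ) - 1 + ω τ := by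
        intro θ
        unfold nc2
        rw [if_neg (by omega), if_neg (by omega), if_pos hc2]
      rw [e, e, hc2]
      rw [hc2] at hu0 hh
      rcases hω τ with h0 | h0
      · rw [h0, add_zero]
        have hneg : a (Fin.cons false τ) < 0 := by
          simp only [ω] at h0
          split_ifs at h0 <;> omega
        have hz : g0 = 0 := Gf_neg p hneg
        rw [hz, zero_add] at hG
        rw [hz]
        have := mul_le_mul_of_nonneg_right hG hu0
        linarith
      · rw [h0, sub_add_cancel]
        have k1 := mul_le_mul_of_nonneg_right hG hv0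
        have k2 := mul_le_mul_of_nonneg_left hh hG1
        linarith
    · set u := H (c (Fin.cons true τ) - 1 - cn τ) with hu
      set v := H (c (Fin.cons false τ) - cn τ) with hv
      have e : H (nc2 C c ω true τ - cn τ) + H (nc2 C c ω false τ - cn τ) = u + v := by
        unfold nc2
        by_cases h1 : C < c (Fin.cons true τ) + c (Fin.cons false τ)
        · simp only [if_pos h1, if_true, Bool.false_eq_true, if_false]
          rw [hu, hv]
        · by_cases h2 : c (Fin.cons true τ) + c (Fin.cons false τ) < C
          · simp only [if_neg h1, if_pos h2, if_true, Bool.false_eq_true, if_false]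
            rw [hu, hv]; ring
          · have h5 : ¬ c (Fin.cons true τ) = c (Fin.cons false τ) := fun h =>
              hcen ⟨by omega, h⟩
            simp only [if_neg h1, if_neg h2, if_neg h5]
            rw [hu, hv, show c (Fin.cons true τ) - 1 - cn τ = c (Fin.cons false τ) - cn τ by omega]
      have e2 : g * H (nc2 C c ω true τ - cn τ) + g * H (nc2 C c ω false τ - cn τ) =
          g * (u + v) := by rw [← mul_add, e]
      rw [e2]
      have k1 := mul_le_mul_of_nonneg_right hG (show 0 ≤ u + v by linarith)
      have k2 := mul_nonneg (sub_nonneg.2 hGm) (sub_nonneg.2 hh)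
      linarith
  rcases le_total (PV (Gf (p + 1)) H (nf a w) (nc2 C c ω true))
    (PV (Gf (p + 1)) H (nf a w) (nc2 C c ω false)) with h | h
  · exact ⟨nf a w, nc2 C c ω false, hval, nc2_val hc sc hω hω1 hω2 false, by linarith⟩
  · exact ⟨nf a w, nc2 C c ω true, hval, nc2_val hc sc hω hω1 hω2 true, by linarith⟩

end

end Pool.Agent.MP_867aae_co.P75
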