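import Mathlib
import Pool.Agent.MP_867aae_co.H75.SExt

/-!
Families of subsets of `Fin n` and characteristic strings; the two factors of the product families.
-/

namespace Pool.Agent.MP_867aae_co.P75

open Finset Function Pool.Agent.MP_867aae_co.H75

/-- characteristic string -/
def chr {n : ℕ} (A : Finset (Fin n)) : Fin n → Bool := fun i => decide (i ∈ A)

lemma chr_inj {n : ℕ} : Injective (chr (n := n)) := by
  intro A B h
  ext i
  have := congrFun h i
  simpa [chr] using this

lemma sum_chr {n : ℕ} (T : Finset (Fin n)) : (∑ i, if i ∈ T then (1 : ℤ) else 0) = T.card := by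
  rw [Finset.card_eq_sum_ones, ← Finset.sum_filter]
  simp

lemma cn_chr {n : ℕ} (A : Finset (Fin n)) : cn (chr A) = A.card := by
  rw [← sum_chr]
  unfold cn chr
  apply Finset.sum_congr rfl
  intro i _
  simp

lemma df_chr {n : ℕ} (A B : Finset (Fin n)) : df (chr A) (ng (chr B)) = (A ∩ B).card := by
  rw [← sum_chr]
  unfold df chr ng
  apply Finset.sum_congr rfl
  intro i _
  simp

lemma card_small_fin2 (N k : ℕ) :
    ((univ : Finset (Finset (Fin N))).filter (fun A => A.card ≤ k)).card = Ball N k := by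
  classical
  rw [Finset.card_eq_sum_card_fiberwise (f := fun A : Finset (Fin N) => A.card)
    (t := range (k + 1))]
  · unfold Ball
    apply Finset.sum_congr rfl
    intro j hj
    have h1 : ((univ : Finset (Finset (Fin N))).filter (fun A => A.card ≤ k)).filter
        (fun A => A.card = j) = powersetCard j univ := by
      ext A
      simp only [mem_filter, mem_univ, true_and, mem_powersetCard, subset_univ]
      constructor
      · rintro ⟨_, h⟩; exact h
      · intro h
        rw [mem_range] at hj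
        exact ⟨by omega, h⟩
    rw [h1, card_powersetCard, card_univ, Fintype.card_fin]
  · intro A hA
    simp only [coe_filter, mem_univ, true_and, Set.mem_setOf_eq] at hA
    simp only [coe_range, Set.mem_Iio]
    omega

lemma exists_G2 (t i q : ℕ) (hq : q = t + 2 * i) : ∃ G : Finset (Finset (Fin q)),
    (∀ A ∈ G, ∀ B ∈ G, t ≤ (A ∩ B).card) ∧ Ball (t + 2 * i) i ≤ G.card := by
  refine ⟨((univ : Finset (Finset (Fin q))).filter (fun A => A.card ≤ i)).image (fun A => Aᶜ),
    ?_, ?_⟩
  · intro A hA B hB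
    obtain ⟨A0, hA0, rfl⟩ := mem_image.1 hA
    obtain ⟨B0, hB0, rfl⟩ := mem_image.1 hB
    rw [mem_filter] at hA0 hB0
    rw [← compl_union, card_compl, Fintype.card_fin]
    have := card_union_le A0 B0
    omega
  · rw [card_image_of_injective _ compl_injective, card_small_fin2, hq]

lemma exists_H2 (s j r : ℕ) (hr : r = s + 2 * j) : ∃ H : Finset (Finset (Fin r)),
    (∀ A ∈ H, ∀ B ∈ H, (A ∪ B).card + s ≤ r) ∧ Ball (s + 2 * j) j ≤ H.card := by
  refine ⟨(univ : Finset (Finset (Fin r))).filter (fun A => A.card ≤ j), ?_, ?_⟩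
  · intro A hA B hB
    rw [mem_filter] at hA hB
    have := card_union_le A B
    omega
  · rw [card_small_fin2, hr]

/-- conclusion from a numerical bound -/
lemma conclude2 {n t s h : ℕ} (hn : n = t + s + 2 * h) (F : Finset (Finset (Fin n)))
    (hb : ∃ i j, i + j = h ∧ F.card ≤ Ball (t + 2 * i) i * Ball (s + 2 * j) j) :
    ∃ q : ℕ, q ≤ n ∧
      ∃ G : Finset (Finset (Fin q)),
        (∀ A ∈ G, ∀ B ∈ G, t ≤ (A ∩ B).card) ∧
        ∃ H : Finset (Finset (Fin (n - q))),
          (∀ A ∈ H, ∀ B ∈ H, (A ∪ B).card + s ≤ n - q) ∧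
          F.card ≤ G.card * H.card := by
  obtain ⟨i, j, hij, hle⟩ := hb
  obtain ⟨G, hG1, hG2⟩ := exists_G2 t i (t + 2 * i) rfl
  obtain ⟨H, hH1, hH2⟩ := exists_H2 s j (n - (t + 2 * i)) (by omega)
  exact ⟨t + 2 * i, by omega, G, hG1, H, hH1, hle.trans (Nat.mul_le_mul hG2 hH2)⟩

end Pool.Agent.MP_867aae_co.P75
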