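import Mathlib
import Pool.Agent.MP_867aae_co.P75.PF

/-!
Verification of the hypotheses of the even move.
-/

namespace Pool.Agent.MP_867aae_co.P75

open Finset Pool.Agent.MP_867aae_co.H75

section
variable {p : ℕ} {c0 u : ℤ}

lemma antiS (h : c0 < u) : Xg p c0 (2 * c0 - u) (2 * c0 - u) (2 * c0 - u) (2 * c0 - u) =
    2 * EE p u (2 * c0 - u) := by
  unfold Xg
  rw [XS_neg p c0 (2 * c0 - u) (by omega), sub_sub_cancel]
  ring

lemma antiP (h : c0 ≤ u) : Xg p c0 (2 * c0 - u) (2 * c0 - u) (2 * c0 - u) (2 * c0 - (u + 1)) =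
    EE p u (2 * c0 - u) := by
  unfold Xg
  have h1 := XQ_neg p c0 (2 * c0 - (u + 1)) (by omega)
  rw [show 2 * c0 - (u + 1) + 1 = 2 * c0 - u by ring,
    show 2 * c0 - 1 - (2 * c0 - (u + 1)) = u by ring] at h1
  rw [h1]
  ring

lemma antiN (h : c0 ≤ u) :
    Xg p c0 (2 * c0 - u) (2 * c0 - u) (2 * c0 - (u + 1)) (2 * c0 - (u + 1)) =
    EN p u (2 * c0 - 1 - u) := by
  unfold Xg
  have h1 := XN_neg p c0 (2 * c0 - (u + 1)) (by omega)
  rw [show 2 * c0 - (u + 1) + 1 = 2 * c0 - u by ring,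
    show 2 * c0 - 1 - (2 * c0 - (u + 1)) = u by ring] at h1
  rw [h1, show 2 * c0 - (u + 1) = 2 * c0 - 1 - u by ring]
  ring

lemma antiQ (h : c0 ≤ u) :
    Xg p c0 (2 * c0 - u) (2 * c0 - (u + 1)) (2 * c0 - (u + 1)) (2 * c0 - (u + 1)) =
    EE p (u + 1) (2 * c0 - 1 - u) := by
  unfold Xg
  have h1 := XP_neg p c0 (2 * c0 - (u + 1)) (by omega)
  rw [show 2 * c0 - (u + 1) + 1 = 2 * c0 - u by ring,
    show 2 * c0 - (2 * c0 - (u + 1)) = u + 1 by ring] at h1
  rw [h1, show 2 * c0 - (u + 1) = 2 * c0 - 1 - u by ring]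
  ring

lemma antiM :
    Xg p c0 (2 * c0 - u) (2 * c0 - (u + 1)) (2 * c0 - (u + 1)) (2 * c0 - (u + 2)) = 0 := by
  unfold Xg
  have h1 := XM_eq p c0 (2 * c0 - (u + 2))
  rw [show 2 * c0 - (u + 2) + 1 = 2 * c0 - (u + 1) by ring,
    show 2 * c0 - (u + 2) + 2 = 2 * c0 - u by ring] at h1
  rw [h1]
  ring

end

/-- the main instance -/
lemma evH_main {p r : ℕ} {c0 m n : ℤ} (x : XD p r c0 m n)
    (hV : ∀ j, Gf p c0 * ((hh r m (1 - j) - hh r m (-j)) + (hh r m (j + 1) - hh r m j)) ≤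
      (kf p (c0 + 1) - kf p c0) * (HH r m (-j) + HH r m j)) :
    EvH p r c0 m (alp r m n) := by
  refine ⟨x.A, fun _ _ h => x.d.alp_mono h, fun j => (x.d.alp_pos j).le, x.d.alp_le, ?_, ?_⟩
  · intro x11 x10 x01 x00 hx hs j
    unfold Fj
    rw [show -(j - 1) = 1 - j by ring, show j - 1 + 1 = j by ring]
    rcases hx.cases with ⟨rfl, rfl, rfl⟩ | ⟨rfl, rfl, rfl⟩ | ⟨rfl, rfl, rfl⟩ | ⟨rfl, rfl, rfl⟩ |
      ⟨rfl, rfl, rfl⟩
    · -- S
      rw [antiS (by omega)]
      have h1 := x.posS (u := x11) (by omega) j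
      unfold YC YB at h1
      linarith
    · -- P
      rw [antiP (by omega)]
      have h1 := x.posP1 (u := x01) (by omega) j
      rcases h1 with h1 | h1
      · unfold YC YB at h1
        have e1 := Gf_succ p x01
        have e2 := Gf_pred p (2 * c0 - x01)
        rw [show 2 * c0 - x01 - 1 = 2 * c0 - (x01 + 1) by ring] at e2
        rw [e1, e2]
        linarith
      · omega
    · -- N
      rw [antiN (by omega)]
      have h1 := x.posN (u := x01) (by omega) j
      unfold YC YB at h1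
      have e1 : Gf p x01 = Gf p (x01 + 1) - kf p (x01 + 1) := by rw [Gf_succ]; ring
      have e2 := Gf_succ p (2 * c0 - (x01 + 1))
      rw [show 2 * c0 - (x01 + 1) + 1 = 2 * c0 - x01 by ring] at e2
      rw [e1, e2, show 2 * c0 - (x01 + 1) = 2 * c0 - 1 - x01 by ring]
      linarith
    · -- Q
      rw [antiQ (by omega)]
      have h1 := x.posP2 (u := x00) (by omega) j
      unfold YC YB at h1
      have e1 : Gf p x00 = Gf p (x00 + 1) - kf p (x00 + 1) := by rw [Gf_succ]; ring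
      have e2 := Gf_succ p (2 * c0 - (x00 + 1))
      rw [show 2 * c0 - (x00 + 1) + 1 = 2 * c0 - x00 by ring] at e2
      rw [e1, e2, show 2 * c0 - (x00 + 1) = 2 * c0 - 1 - x00 by ring]
      linarith
    · -- M
      rw [antiM]
      have h1 := x.posM (u := x00) (by omega) j
      unfold YC YB at h1
      have e1 : Gf p x00 = Gf p (x00 + 1) - kf p (x00 + 1) := by rw [Gf_succ]; ring
      have e2 := Gf_succ p (2 * c0 - (x00 + 1))
      rw [show 2 * c0 - (x00 + 1) + 1 = 2 * c0 - x00 by ring] at e2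
      have e3 := Gf_succ p (x00 + 1)
      rw [show x00 + 1 + 1 = x00 + 2 by ring] at e3
      have e4 := Gf_pred p (2 * c0 - (x00 + 1))
      rw [show 2 * c0 - (x00 + 1) - 1 = 2 * c0 - (x00 + 2) by ring] at e4
      rw [e1, e2, e3, e4, show 2 * c0 - (x00 + 1) = 2 * c0 - 1 - x00 by ring]
      linarith
  · intro x11 x10 x01 x00 hx hs j
    have hIV := x.IV j
    have hH1 := HH_nonneg r m j
    unfold Fj
    rw [show -(j - 1) = 1 - j by ring, show j - 1 + 1 = j by ring]
    rcases hx.cases with ⟨rfl, rfl, rfl⟩ | ⟨rfl, rfl, rfl⟩ | ⟨rfl, rfl, rfl⟩ | ⟨rfl, rfl, rfl⟩ |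
      ⟨rfl, rfl, rfl⟩
    · -- S
      obtain rfl : c0 = x11 := by omega
      rw [show 2 * c0 - c0 = c0 by ring]
      have h1 := hV j
      have e1 : Xg p c0 c0 c0 c0 c0 = kf p (c0 + 1) - kf p c0 := by
        unfold Xg
        rw [XS_zero]; ring
      rw [e1]
      linarith
    · -- P
      obtain rfl : c0 = x01 := by omega
      rw [antiP le_rfl]
      have e1 : Xg p c0 (c0 + 1) c0 c0 c0 = 0 := by
        unfold Xg
        rw [XP_pos p c0 c0 le_rfl]; ring
      rw [e1, show 2 * c0 - c0 = c0 by ring, show 2 * c0 - (c0 + 1) = c0 - 1 by ring]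
      have h2 := EE_nonneg p (x := c0) (y := c0) le_rfl (by have := x.A; omega)
      have h3 := mul_nonneg h2 hH1
      linarith
    · omega
    · omega
    · -- M
      obtain rfl : x00 = c0 - 1 := by omega
      rw [antiM, show c0 - 1 + 1 = c0 by ring, show c0 - 1 + 2 = c0 + 1 by ring,
        show 2 * c0 - (c0 + 1) = c0 - 1 by ring, show 2 * c0 - (c0 - 1) = c0 + 1 by ring]
      have e1 : Xg p c0 (c0 + 1) c0 c0 (c0 - 1) = 0 := by
        unfold Xg
        have := XM_eq p c0 (c0 - 1)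
        rw [show c0 - 1 + 1 = c0 by ring, show c0 - 1 + 2 = c0 + 1 by ring] at this
        rw [this]; ring
      rw [e1]
      have e2 := Gf_succ p c0
      have e3 := Gf_pred p c0
      have h1 := mul_nonneg (kf_nonneg p c0) (hh_nonneg r m (1 - j))
      have h2 := mul_nonneg (kf_nonneg p (c0 + 1)) (hh_nonneg r m j)
      rw [e2, e3] at hIV ⊢
      linarith

/-- the trivial instance -/
lemma evH_neg {p r : ℕ} {c0 m : ℤ} (hA : 2 * c0 ≤ p - 1) (hc : c0 < 0) :
    EvH p r c0 m (fun _ => 1) := by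
  refine ⟨hA, fun _ _ _ => le_rfl, fun _ => zero_le_one, fun _ => le_rfl, ?_, ?_⟩
  · intro x11 x10 x01 x00 hx hs j
    have h0 : c0 ≤ x00 := by rcases hx.cases with h | h | h | h | h <;> omega
    have h0' := hx.s1
    have h0'' := hx.s3
    have hx' : Sqr (2 * c0 - x00) (2 * c0 - x01) (2 * c0 - x10) (2 * c0 - x11) := by
      obtain ⟨s1, s2, s3, s4, mo⟩ := hx
      refine ⟨by omega, by omega, by omega, by omega, by omega⟩
    have h1 : 0 ≤ Xg p c0 (2 * c0 - x00) (2 * c0 - x01) (2 * c0 - x10) (2 * c0 - x11) := by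
      unfold Xg
      linarith [XP_ge hA hx']
    have h2 := mul_nonneg h1 (HH_nonneg r m j)
    unfold Fj
    rw [show -(j - 1) = 1 - j by ring, show j - 1 + 1 = j by ring,
      Gf_neg p (show 2 * c0 - x11 < 0 by omega), Gf_neg p (show 2 * c0 - x10 < 0 by omega),
      Gf_neg p (show 2 * c0 - x00 < 0 by omega)]
    have h3 := mul_nonneg (Gf_nonneg p x11) (hh_nonneg r m (-j))
    have h4 := mul_le_mul_of_nonneg_right (Gf_mono p (show x00 ≤ x10 by omega))
      (hh_nonneg r m (1 - j))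
    linarith
  · intro x11 x10 x01 x00 hx hs j
    have hx' : Sqr (2 * c0 - x00) (2 * c0 - x01) (2 * c0 - x10) (2 * c0 - x11) := by
      obtain ⟨s1, s2, s3, s4, mo⟩ := hx
      refine ⟨by omega, by omega, by omega, by omega, by omega⟩
    have h1 : 0 ≤ Xg p c0 (2 * c0 - x00) (2 * c0 - x01) (2 * c0 - x10) (2 * c0 - x11) := by
      unfold Xg
      linarith [XP_ge hA hx']
    have h1' : 0 ≤ Xg p c0 x11 x10 x01 x00 := by
      unfold Xg
      linarith [XP_ge hA hx]
    have h2 := mul_nonneg h1 (HH_nonneg r m j)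
    have h2' := mul_nonneg h1' (HH_nonneg r m (-j))
    have hle : x00 ≤ c0 ∧ c0 ≤ x11 := by rcases hx.cases with h | h | h | h | h <;> omega
    have h3 : 0 ≤ Fj p r c0 m x11 j := by
      unfold Fj
      rw [Gf_neg p (show 2 * c0 - x11 < 0 by omega), zero_mul, sub_zero]
      exact mul_nonneg (Gf_nonneg _ _) (hh_nonneg _ _ _)
    have h4 : Fj p r c0 m x00 (j - 1) ≤ 0 := by
      unfold Fj
      rw [Gf_neg p (show x00 < 0 by omega), zero_mul, zero_sub, neg_nonpos]
      exact mul_nonneg (Gf_nonneg _ _) (hh_nonneg _ _ _)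
    linarith

end Pool.Agent.MP_867aae_co.P75
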