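import Mathlib
import Pool.Agent.MP_867aae_co.P75.PG
import Pool.Agent.MP_867aae_co.H75.SMain

/-!
The even move and the strong theorem for pairs.
-/

namespace Pool.Agent.MP_867aae_co.P75

open Finset Function Pool.Agent.MP_867aae_co.H75

/-- the even move -/
lemma even_move {z p r : ℕ} {c0 m K w : ℤ} {α : ℤ → ℝ} (e : EvH p r c0 m α)
    (hz : (z : ℤ) = 2 * w) (hK : K = m - 1 + w) {a c : (Fin (z + 2) → Bool) → ℤ}
    (ha : Val (2 * c0) a) (hc : Val (2 * K + 2) c) (sa : Stab a) (sc : Stab c)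
    (hmax : ∀ c' : (Fin (z + 2) → Bool) → ℤ, Val (2 * K + 2) c' →
      PV (Gf p) (Gf r) a c' ≤ PV (Gf p) (Gf r) a c) :
    ∃ a' c' : (Fin (z + 1) → Bool) → ℤ, Val (2 * c0 + 1) a' ∧ Val (2 * K + 1) c' ∧
      PV (Gf p) (Gf r) a c ≤ PV (Gf (p + 1)) (Gf r) a' c' := by
  have qa := sq_of ha sa
  have qc := sq_of hc sc
  have hsa : ∀ ρ, Sqr (fc a true true ρ) (fc a true false ρ) (fc a false true ρ)
      (fc a false false ρ) := fun ρ => ⟨qa.s1 ρ, qa.s2 ρ, qa.s3 ρ, qa.s4 ρ, qa.mo ρ⟩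
  have hsc : ∀ ρ, Sqr (fc c true true ρ) (fc c true false ρ) (fc c false true ρ)
      (fc c false false ρ) := fun ρ => ⟨qc.s1 ρ, qc.s2 ρ, qc.s3 ρ, qc.s4 ρ, qc.mo ρ⟩
  -- abbreviations
  set x11 := fc a true true with hx11
  set x10 := fc a true false with hx10
  set x01 := fc a false true with hx01
  set x00 := fc a false false with hx00
  set y11 := fc c true true with hy11
  set y10 := fc c true false with hy10
  set y01 := fc c false true with hy01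
  set y00 := fc c false false with hy00
  let MM : (Fin z → Bool) → ℝ := fun ρ => M4 (Gf r) K (cn ρ) (y11 ρ) (y10 ρ) (y01 ρ) (y00 ρ)
  -- the threshold
  obtain ⟨l, hl0, hl1, hl⟩ := layer (fun ρ : Fin z → Bool => piv p (nst c0 (x11 ρ) (x10 ρ) (x01 ρ)))
    (fun ρ => XS p c0 (x11 ρ) (x10 ρ) (x01 ρ) (x00 ρ) * MM ρ)
    (fun ρ => piv_nonneg _ _) (fun ρ => piv_le _ _)
  let f : ℤ → ℤ := fun n => if l < piv p n then 1 else 0
  have hf : ∀ n, f n = 0 ∨ f n = 1 := by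
    intro n; simp only [f]; split_ifs <;> simp
  have hfm : ∀ n n', n ≤ n' → f n ≤ f n' := by
    intro n n' h
    simp only [f]
    have := piv_mono p h
    split_ifs with h1 h2
    · exact le_rfl
    · exact absurd (h1.trans_le this) h2
    · exact zero_le_one
    · exact le_rfl
  let u : (Fin z → Bool) → ℤ := fun ρ => f (x10 ρ + x01 ρ)
  let v : (Fin z → Bool) → ℤ := fun ρ => f (4 * c0 - (x10 ρ + x01 ρ))
  let n1 : (Fin z → Bool) → ℤ := fun ρ => A1 c0 (u ρ) (v ρ) (x11 ρ) (x10 ρ) (x01 ρ) (x00 ρ)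
  let n0 : (Fin z → Bool) → ℤ := fun ρ => A0 c0 (u ρ) (v ρ) (x11 ρ) (x10 ρ) (x01 ρ) (x00 ρ)
  have hstep : ∀ ρ i, ρ i = false →
      (n1 (update ρ i true) = n1 ρ ∨ n1 (update ρ i true) = n1 ρ + 1) ∧
      (n0 (update ρ i true) = n0 ρ ∨ n0 (update ρ i true) = n0 ρ + 1) := by
    intro ρ i hi
    have g1 := qa.u10 ρ i hi
    have g2 := qa.u01 ρ i hi
    exact A_step (hf _) (hf _) (hf _) (hf _) (hsa ρ) (hsa (update ρ i true))
      (fun _ => hfm _ _ (by omega)) (fun _ => hfm _ _ (by omega))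
      (fun h => by rw [h]; congr 1; omega)
      (fun h => by rw [h]; congr 1; omega)
      (qa.u11 ρ i hi) (qa.u10 ρ i hi) (qa.u01 ρ i hi) (qa.u00 ρ i hi)
      (qa.x1 ρ i hi) (qa.x2 ρ i hi) (qa.x3 ρ i hi) (qa.x4 ρ i hi)
  have hvala : Val (2 * c0 + 1) (jn n1 n0) := by
    apply val_jn
    · intro ρ i hi; exact (hstep ρ i hi).1
    · intro ρ i hi; exact (hstep ρ i hi).2
    · intro ρ; exact A_within (hf _) (hf _) (hsa ρ)
    · intro ρ
      have e1 := qa.sd1 ρ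
      have e2 := qa.sd2 ρ
      have e3 := qa.sd2 (ng ρ)
      have e4 := qa.sd1 (ng ρ)
      rw [ng_ng] at e3 e4
      have k1 : v (ng ρ) = u ρ := by
        simp only [u, v]; congr 1; omega
      have k2 : u (ng ρ) = v ρ := by
        simp only [u, v]; congr 1; omega
      simp only [n1, n0]
      rw [k1, k2]
      exact A_sd (hsa ρ) (by omega) (by omega) (by omega) (by omega)
        (fun h => by simp only [u, v]; rw [h]; congr 1; omega)
  -- the second function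
  let ct : Fin 4 → (Fin z → Bool) → ℤ := fun θ ρ => ch K θ (y11 ρ) (y10 ρ) (y01 ρ) (y00 ρ)
  have hvalc : ∀ θ, Val (2 * K + 1) (jn (fun ρ => ct θ ρ + 1) (ct θ)) := by
    intro θ
    have hst : Up (ct θ) := fun ρ i hi => ch_step θ (hsc ρ) (hsc (update ρ i true))
      (qc.u11 ρ i hi) (qc.u10 ρ i hi) (qc.u01 ρ i hi) (qc.u00 ρ i hi)
      (qc.x1 ρ i hi) (qc.x2 ρ i hi) (qc.x3 ρ i hi) (qc.x4 ρ i hi)
    apply val_jn
    · intro ρ i hi
      have := hst ρ i hi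
      simp only
      omega
    · exact hst
    · intro ρ; right; rfl
    · intro ρ
      have e1 := qc.sd1 ρ
      have e2 := qc.sd2 ρ
      have e3 := qc.sd2 (ng ρ)
      have e4 := qc.sd1 (ng ρ)
      rw [ng_ng] at e3 e4
      have := ch_sd (K := K) θ (y11 := y11 ρ) (y10 := y10 ρ) (y01 := y01 ρ) (y00 := y00 ρ)
        (z11 := y11 (ng ρ)) (z10 := y10 (ng ρ)) (z01 := y01 (ng ρ)) (z00 := y00 (ng ρ))
        (by omega) (by omega) (by omega) (by omega)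
      simp only [ct]
      linarith
  have hPV : ∀ θ, PV (Gf (p + 1)) (Gf r) (jn n1 n0) (jn (fun ρ => ct θ ρ + 1) (ct θ)) =
      ∑ ρ : Fin z → Bool, XX p c0 (u ρ) (v ρ) (x11 ρ) (x10 ρ) (x01 ρ) (x00 ρ) *
        Gf r (ct θ ρ - cn ρ) := by
    intro θ
    rw [PV_jn]
    apply Finset.sum_congr rfl
    intro ρ _
    rw [XX_int p c0 (hf _) (hf _)]
    simp only [n1, n0]
    rw [add_sub_cancel_right]
    ring
  have hsum4 : ∑ θ : Fin 4, PV (Gf (p + 1)) (Gf r) (jn n1 n0) (jn (fun ρ => ct θ ρ + 1) (ct θ)) =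
      ∑ ρ : Fin z → Bool, XX p c0 (u ρ) (v ρ) (x11 ρ) (x10 ρ) (x01 ρ) (x00 ρ) * MM ρ := by
    rw [Finset.sum_congr rfl (fun θ _ => hPV θ), Finset.sum_comm]
    apply Finset.sum_congr rfl
    intro ρ _
    rw [← Finset.mul_sum]
    congr 1
    simp only [MM, M4, ct]
    rw [Fin.sum_univ_four]
  -- expected value
  have hexp : ∑ ρ : Fin z → Bool, XP p c0 (x11 ρ) (x10 ρ) (x01 ρ) (x00 ρ) * MM ρ ≤
      ∑ ρ : Fin z → Bool, XX p c0 (u ρ) (v ρ) (x11 ρ) (x10 ρ) (x01 ρ) (x00 ρ) * MM ρ := by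
    have e1 : ∀ ρ : Fin z → Bool, XX p c0 (u ρ) (v ρ) (x11 ρ) (x10 ρ) (x01 ρ) (x00 ρ) * MM ρ =
        XP p c0 (x11 ρ) (x10 ρ) (x01 ρ) (x00 ρ) * MM ρ +
        ((if l < piv p (nst c0 (x11 ρ) (x10 ρ) (x01 ρ)) then
          XS p c0 (x11 ρ) (x10 ρ) (x01 ρ) (x00 ρ) * MM ρ else 0) -
          piv p (nst c0 (x11 ρ) (x10 ρ) (x01 ρ)) *
            (XS p c0 (x11 ρ) (x10 ρ) (x01 ρ) (x00 ρ) * MM ρ)) := by
      intro ρ
      have h1 := XX_diff p c0 (fun n => (f n : ℝ)) (piv p) (x11 ρ) (x10 ρ) (x01 ρ) (x00 ρ)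
      simp only [u, v]
      rw [h1]
      simp only [f, XP]
      split_ifs
      · push_cast; ring
      · push_cast; ring
    rw [Finset.sum_congr rfl (fun ρ _ => e1 ρ), Finset.sum_add_distrib, Finset.sum_sub_distrib]
    linarith
  -- maximality
  have hvm := vmax_w e.mono e.a0 e.a1 ha hc sa sc hmax (w := w)
  -- pairs
  let T : (Fin z → Bool) → ℝ := fun ρ =>
    T1 p r c0 K (cn ρ) (x11 ρ) (x10 ρ) (x01 ρ) (x00 ρ) (y11 ρ) (y10 ρ) (y01 ρ) (y00 ρ) +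
      4 * (wf α c0 K w a c ρ * (dPf (Gf p) (Gf r) K a c ρ + dMf (Gf p) (Gf r) K a c (ng ρ)))
  have hpair : ∀ ρ, 0 ≤ T ρ + T (ng ρ) := by
    intro ρ
    have key : ∀ ρ : Fin z → Bool, (4 * K + 5 ≤ y11 ρ + y10 ρ + y01 ρ + y00 ρ ∨
      (y11 ρ + y10 ρ + y01 ρ + y00 ρ = 4 * K + 4 ∧
        4 * c0 ≤ x11 ρ + x10 ρ + x01 ρ + x00 ρ)) → 0 ≤ T ρ + T (ng ρ) := by
      intro ρ hcond
      have e1 := qc.sd1 ρ
      have e2 := qc.sd2 ρ
      have e3 := qc.sd2 (ng ρ)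
      have e4 := qc.sd1 (ng ρ)
      have e1' := qa.sd1 ρ
      have e2' := qa.sd2 ρ
      have e3' := qa.sd2 (ng ρ)
      have e4' := qa.sd1 (ng ρ)
      rw [ng_ng] at e3 e4 e3' e4'
      have hk := cn_ng ρ
      have h := pair_ineq e hK (hsa ρ) (hsc ρ) (hsa (ng ρ)) (hsc (ng ρ)) (k := cn ρ)
        (k' := cn (ng ρ)) (by omega) e1' e2' (by linarith) (by linarith) e1 e2 (by linarith)
        (by linarith) hcond
      simp only [T, wf, dPf, dMf]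
      rw [ng_ng]
      exact h
    have e1 := qc.sd1 ρ
    have e2 := qc.sd2 ρ
    have e3 := qc.sd2 (ng ρ)
    have e4 := qc.sd1 (ng ρ)
    have e1' := qa.sd1 ρ
    have e2' := qa.sd2 ρ
    have e3' := qa.sd2 (ng ρ)
    have e4' := qa.sd1 (ng ρ)
    rw [ng_ng] at e3 e4 e3' e4'
    by_cases hcond : (4 * K + 5 ≤ y11 ρ + y10 ρ + y01 ρ + y00 ρ ∨
      (y11 ρ + y10 ρ + y01 ρ + y00 ρ = 4 * K + 4 ∧
        4 * c0 ≤ x11 ρ + x10 ρ + x01 ρ + x00 ρ))
    · exact key ρ hcond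
    · have := key (ng ρ) (by omega)
      rw [ng_ng] at this
      linarith
  have hT : 0 ≤ ∑ ρ, T ρ := by
    have h1 : 0 ≤ ∑ ρ, (T ρ + T (ng ρ)) := Finset.sum_nonneg (fun ρ _ => hpair ρ)
    rw [Finset.sum_add_distrib, sum_ngR] at h1
    linarith
  have hTs : ∑ ρ, T ρ = ∑ ρ : Fin z → Bool, XP p c0 (x11 ρ) (x10 ρ) (x01 ρ) (x00 ρ) * MM ρ -
      4 * PV (Gf p) (Gf r) a c + 4 * ∑ ρ : Fin z → Bool, wf α c0 K w a c ρ *
        (dPf (Gf p) (Gf r) K a c ρ + dMf (Gf p) (Gf r) K a c (ng ρ)) := by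
    simp only [T]
    rw [Finset.sum_add_distrib, ← Finset.mul_sum]
    congr 1
    unfold T1
    rw [Finset.sum_sub_distrib, ← Finset.mul_sum, PV_sq]
    rfl
  have hfin : 4 * PV (Gf p) (Gf r) a c ≤
      ∑ θ : Fin 4, PV (Gf (p + 1)) (Gf r) (jn n1 n0) (jn (fun ρ => ct θ ρ + 1) (ct θ)) := by
    rw [hsum4]
    linarith
  have hex : ∃ θ, PV (Gf p) (Gf r) a c ≤
      PV (Gf (p + 1)) (Gf r) (jn n1 n0) (jn (fun ρ => ct θ ρ + 1) (ct θ)) := by
    by_contra hcon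
    push Not at hcon
    have h1 : ∑ θ : Fin 4, PV (Gf (p + 1)) (Gf r) (jn n1 n0) (jn (fun ρ => ct θ ρ + 1) (ct θ)) <
        ∑ _θ : Fin 4, PV (Gf p) (Gf r) a c :=
      Finset.sum_lt_sum_of_nonempty ⟨0, Finset.mem_univ _⟩ (fun θ _ => hcon θ)
    rw [Finset.sum_const, Finset.card_univ, Fintype.card_fin] at h1
    simp only [nsmul_eq_mul, Nat.cast_ofNat] at h1
    linarith
  obtain ⟨θ, hθ⟩ := hex
  exact ⟨jn n1 n0, jn (fun ρ => ct θ ρ + 1) (ct θ), hvala, hvalc θ, hθ⟩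

end Pool.Agent.MP_867aae_co.P75
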