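import Mathlib
import Pool.Agent.MP_867aae_co.P75.PM
import Pool.Agent.MP_867aae_co.P75.FB

/-!
The strong theorem for pairs and the even-parity theorem for families.
-/

namespace Pool.Agent.MP_867aae_co.P75

open Finset Function Pool.Agent.MP_867aae_co.H75

/-- the criterion gives the hypotheses of the even move -/
lemma evH_crit {p r : ℕ} {c0 β : ℤ} (hA : 2 * c0 ≤ p - 1) (hR : 2 * β ≤ r - 1) (hc0 : 0 ≤ c0)
    (hβ : 0 ≤ β) (h : Crit (bz p) c0 (bz r) (2 * β)) :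
    EvH p r c0 (β + 1) (alp r (β + 1) (r - β)) := by
  have hV : ∀ j, Gf p c0 * ((hh r (β + 1) (1 - j) - hh r (β + 1) (-j)) +
      (hh r (β + 1) (j + 1) - hh r (β + 1) j)) ≤
      (kf p (c0 + 1) - kf p c0) * (HH r (β + 1) (-j) + HH r (β + 1) j) := by
    intro j
    have h1 := h (β + j)
    have h1R : (bz p c0 : ℝ) * (bz r (β + j - 1) + bz r (2 * β - (β + j) + 1) +
        bz r (β + j + 1) + bz r (2 * β - (β + j) - 1)) ≤
        (bz p (c0 + 1) + bz p (c0 - 1)) * (bz r (β + j) + bz r (2 * β - (β + j))) := by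
      exact_mod_cast h1
    have a1 : (bz r (β + j) : ℝ) = HH r (β + 1) j := by
      unfold HH; rw [show β + 1 - 1 + j = β + j by ring]
    have a2 : (bz r (2 * β - (β + j)) : ℝ) = HH r (β + 1) (-j) := by
      unfold HH; rw [show β + 1 - 1 + -j = 2 * β - (β + j) by ring]
    have a3 : (bz r (β + j + 1) : ℝ) = HH r (β + 1) j + hh r (β + 1) (j + 1) := by
      rw [← HH_succ]; unfold HH; rw [show β + 1 - 1 + (j + 1) = β + j + 1 by ring]
    have a4 : (bz r (β + j - 1) : ℝ) = HH r (β + 1) j - hh r (β + 1) j := by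
      have := HH_pred r (β + 1) j
      rw [this, add_sub_cancel_right]
      unfold HH; rw [show β + 1 - 1 + (j - 1) = β + j - 1 by ring]
    have a5 : (bz r (2 * β - (β + j) + 1) : ℝ) = HH r (β + 1) (-j) + hh r (β + 1) (1 - j) := by
      rw [show 1 - j = -j + 1 by ring, ← HH_succ]
      unfold HH; rw [show β + 1 - 1 + (-j + 1) = 2 * β - (β + j) + 1 by ring]
    have a6 : (bz r (2 * β - (β + j) - 1) : ℝ) = HH r (β + 1) (-j) - hh r (β + 1) (-j) := by
      have := HH_pred r (β + 1) (-j)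
      rw [this, add_sub_cancel_right]
      unfold HH; rw [show β + 1 - 1 + (-j - 1) = 2 * β - (β + j) - 1 by ring]
    have a7 : (bz p (c0 + 1) : ℝ) = Gf p c0 + kf p (c0 + 1) := Gf_succ p c0
    have a8 : (bz p (c0 - 1) : ℝ) = Gf p c0 - kf p c0 := Gf_pred p c0
    have a9 : (bz p c0 : ℝ) = Gf p c0 := rfl
    rw [a1, a2, a3, a4, a5, a6, a7, a8, a9] at h1R
    linarith
  have x : XD p r c0 (β + 1) (r - β) := by
    refine ⟨⟨by omega, by omega, by ring⟩, hc0, hA, ?_⟩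
    have := hV 0
    simp only [sub_zero, neg_zero, zero_add] at this
    linarith
  exact evH_main x hV

/-- all cases of two even centres -/
lemma evH_all {p r : ℕ} {c0 β : ℤ} (hA : 2 * c0 ≤ p - 1) (hR : 2 * β ≤ r - 1) :
    (∃ α, EvH p r c0 (β + 1) α) ∨ (∃ α, EvH r p β (c0 + 1) α) := by
  by_cases h1 : c0 < 0
  · exact Or.inl ⟨_, evH_neg hA h1⟩
  · by_cases h2 : β < 0
    · exact Or.inr ⟨_, evH_neg hR h2⟩
    · rcases choice p r hA hR with h | h
      · exact Or.inl ⟨_, evH_crit hA hR (by omega) (by omega) h⟩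
      · exact Or.inr ⟨_, evH_crit hR hA (by omega) (by omega) h⟩

/-- the move from `z + 1` to `z` coordinates -/
lemma move {z p r : ℕ} {A R : ℤ} {a c : (Fin (z + 1) → Bool) → ℤ} (hA : A ≤ p - 1)
    (hR : R ≤ r - 1) (hpar : (A + R + (z + 1 : ℕ)) % 2 = 0) (ha : Val A a)
    (hc : Val (R + (z + 1 : ℕ)) c) :
    (∃ a' c' : (Fin z → Bool) → ℤ, Val (A + 1) a' ∧ Val (R + z) c' ∧
      PV (Gf p) (Gf r) a c ≤ PV (Gf (p + 1)) (Gf r) a' c') ∨
    (∃ a' c' : (Fin z → Bool) → ℤ, Val (R + 1) a' ∧ Val (A + z) c' ∧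
      PV (Gf p) (Gf r) a c ≤ PV (Gf (r + 1)) (Gf p) a' c') := by
  -- the mirrored pair
  obtain ⟨am, cm, ham, hcm, hPm⟩ := mirrorP ha hc (Gf p) (Gf r)
  -- best pairs
  obtain ⟨a1, c1, ha1, hc1, hP1, hmax1, sa1, sc1⟩ :=
    exists_best (Gf_mono p) (Gf_mono r) ha hc
  obtain ⟨a2, c2, ha2, hc2, hP2, hmax2, sa2, sc2⟩ :=
    exists_best (Gf_mono r) (Gf_mono p) ham hcm
  push_cast at hpar
  by_cases hAo : A % 2 = 1
  · left
    obtain ⟨a', c', k1, k2, k3⟩ := odd_move p (Gf_mono r) (Gf_nonneg r) hA ha1 hc1 hAo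
      (by push_cast; omega) sa1 sc1
    refine ⟨a', c', k1, ?_, hP1.trans k3⟩
    rwa [show R + ((z + 1 : ℕ) : ℤ) - 1 = R + z by push_cast; ring] at k2
  · by_cases hRo : R % 2 = 1
    · right
      obtain ⟨a', c', k1, k2, k3⟩ := odd_move r (Gf_mono p) (Gf_nonneg p) hR ha2 hc2 hRo
        (by push_cast; omega) sa2 sc2
      refine ⟨a', c', k1, ?_, ?_⟩
      · rwa [show A + ((z + 1 : ℕ) : ℤ) - 1 = A + z by push_cast; ring] at k2
      · rw [hPm]; exact hP2.trans k3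
    · obtain ⟨y, rfl⟩ : ∃ y, z = y + 1 := ⟨z - 1, by omega⟩
      obtain ⟨c0, rfl⟩ : ∃ c0, A = 2 * c0 := ⟨A / 2, by omega⟩
      obtain ⟨β, rfl⟩ : ∃ β, R = 2 * β := ⟨R / 2, by omega⟩
      obtain ⟨w, hw⟩ : ∃ w : ℤ, (y : ℤ) = 2 * w := ⟨(y : ℤ) / 2, by push_cast at hpar; omega⟩
      rcases evH_all hA hR with ⟨α, e⟩ | ⟨α, e⟩
      · left
        have e1 : 2 * β + ((y + 1 + 1 : ℕ) : ℤ) = 2 * (β + w) + 2 := by push_cast; omega
        rw [e1] at hc1 hmax1
        obtain ⟨a', c', k1, k2, k3⟩ := even_move e hw (K := β + w) (by ring) ha1 hc1 sa1 sc1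
          (fun c' hc' => hmax1 a1 c' ha1 hc')
        refine ⟨a', c', k1, ?_, hP1.trans k3⟩
        rwa [show 2 * (β + w) + 1 = 2 * β + ((y + 1 : ℕ) : ℤ) by push_cast; omega] at k2
      · right
        have e1 : 2 * c0 + ((y + 1 + 1 : ℕ) : ℤ) = 2 * (c0 + w) + 2 := by push_cast; omega
        rw [e1] at hc2 hmax2
        obtain ⟨a', c', k1, k2, k3⟩ := even_move e hw (K := c0 + w) (by ring) ha2 hc2 sa2 sc2
          (fun c' hc' => hmax2 a2 c' ha2 hc')
        refine ⟨a', c', k1, ?_, ?_⟩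
        · rwa [show 2 * (c0 + w) + 1 = 2 * c0 + ((y + 1 : ℕ) : ℤ) by push_cast; omega] at k2
        · rw [hPm]; exact hP2.trans k3

/-- the strong theorem for pairs -/
theorem strong2 (z : ℕ) : ∀ (p r : ℕ) (A R : ℤ) (a c : (Fin z → Bool) → ℤ),
    A ≤ p - 1 → R ≤ r - 1 → (A + R + z) % 2 = 0 → Val A a → Val (R + z) c →
    ∃ z1 z2 : ℕ, z1 + z2 = z ∧ (A + z1) % 2 = 0 ∧
      PV (Gf p) (Gf r) a c ≤ Gf (p + z1) ((A + z1) / 2) * Gf (r + z2) ((R + z2) / 2) := by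
  induction z with
  | zero =>
    intro p r A R a c _ _ hpar ha hc
    have h1 := ha.sd (fun i => i.elim0)
    have h1' := hc.sd (fun i => i.elim0)
    have h2 : ng (fun i : Fin 0 => (i.elim0 : Bool)) = fun i => i.elim0 := by
      funext i; exact i.elim0
    rw [h2] at h1 h1'
    refine ⟨0, 0, rfl, by push_cast; omega, ?_⟩
    unfold PV
    rw [Fintype.sum_subsingleton _ (fun i : Fin 0 => (i.elim0 : Bool))]
    have h4 : cn (fun i : Fin 0 => (i.elim0 : Bool)) = 0 := by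
      unfold cn; simp
    rw [h4]
    push_cast at h1'
    apply le_of_eq
    congr 2 <;> push_cast <;> omega
  | succ z ih =>
    intro p r A R a c hA hR hpar ha hc
    rcases move hA hR hpar ha hc with ⟨a', c', k1, k2, k3⟩ | ⟨a', c', k1, k2, k3⟩
    · obtain ⟨z1, z2, h3, h4, h5⟩ := ih (p + 1) r (A + 1) R a' c' (by push_cast; omega) hR
        (by push_cast at hpar; omega) k1 k2
      refine ⟨z1 + 1, z2, by omega, by push_cast; omega, k3.trans (h5.trans_eq ?_)⟩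
      rw [show p + 1 + z1 = p + (z1 + 1) by ring, show A + 1 + (z1 : ℤ) = A + ((z1 + 1 : ℕ) : ℤ) by
        push_cast; ring]
    · obtain ⟨z1, z2, h3, h4, h5⟩ := ih (r + 1) p (R + 1) A a' c' (by push_cast; omega) hA
        (by push_cast at hpar; omega) k1 k2
      refine ⟨z2, z1 + 1, by omega, by push_cast at hpar; omega, k3.trans (h5.trans_eq ?_)⟩
      rw [mul_comm, show r + 1 + z1 = r + (z1 + 1) by ring,
        show R + 1 + (z1 : ℤ) = R + ((z1 + 1 : ℕ) : ℤ) by push_cast; ring]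

lemma Gf_zero_nonneg {x : ℤ} (h : 0 ≤ x) : Gf 0 x = 1 := by
  obtain ⟨n, rfl⟩ := Int.eq_ofNat_of_zero_le h
  unfold Gf
  rw [bz_zero, if_pos h]

/-- the bound for families -/
lemma families2 {n t s h : ℕ} (hn : n = t + s + 2 * h) (ht : 1 ≤ t) (hs : 1 ≤ s)
    (F : Finset (Finset (Fin n)))
    (hF : ∀ A ∈ F, ∀ B ∈ F, t ≤ (A ∩ B).card ∧ (A ∪ B).card + s ≤ n) :
    ∃ i j, i + j = h ∧ F.card ≤ Ball (t + 2 * i) i * Ball (s + 2 * j) j := by
  classical
  obtain ⟨c1, hc1⟩ := exists_val (z := n) (-(t : ℤ)) (Or.inr (by omega))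
  obtain ⟨c2, hc2⟩ := exists_val (z := n) (-(s : ℤ) + n) (Or.inr (by omega))
  have hf1 : ∀ τ ∈ F.image chr, ∀ τ' ∈ F.image chr,
      (fun _ : Fin n → Bool => (0 : ℤ)) τ + (fun _ : Fin n → Bool => (0 : ℤ)) τ' ≤
        -(t : ℤ) + df τ (ng τ') := by
    intro τ hτ τ' hτ'
    obtain ⟨A, hA, rfl⟩ := Finset.mem_image.1 hτ
    obtain ⟨B, hB, rfl⟩ := Finset.mem_image.1 hτ'
    rw [df_chr]
    obtain ⟨h1, h2⟩ := hF A hA B hB
    simp only
    omega
  have hf2 : ∀ τ ∈ F.image chr, ∀ τ' ∈ F.image chr,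
      cn τ + cn τ' ≤ -(s : ℤ) + n + df τ (ng τ') := by
    intro τ hτ τ' hτ'
    obtain ⟨A, hA, rfl⟩ := Finset.mem_image.1 hτ
    obtain ⟨B, hB, rfl⟩ := Finset.mem_image.1 hτ'
    rw [cn_chr, cn_chr, df_chr]
    obtain ⟨h1, h2⟩ := hF A hA B hB
    have h5 := card_union_add_card_inter A B
    omega
  obtain ⟨a, ha, hale⟩ := extend hc1 (F.image chr) (fun _ => 0) hf1
  obtain ⟨c, hc, hcle⟩ := extend hc2 (F.image chr) cn hf2
  obtain ⟨z1, z2, e1, e2, e3⟩ := strong2 n 0 0 (-(t : ℤ)) (-(s : ℤ)) a c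
    (by push_cast; omega) (by push_cast; omega) (by rw [hn]; push_cast; omega) ha hc
  have hcount : (F.card : ℝ) ≤ PV (Gf 0) (Gf 0) a c := by
    rw [← Finset.card_image_of_injective F chr_inj]
    unfold PV
    refine le_trans ?_ (Finset.sum_le_univ_sum_of_nonneg
      (fun σ => mul_nonneg (Gf_nonneg _ _) (Gf_nonneg _ _)) (s := F.image chr))
    rw [Finset.card_eq_sum_ones]
    push_cast
    apply Finset.sum_le_sum
    intro σ hσ
    have h1 := hale σ hσ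
    have h2 := hcle σ hσ
    rw [Gf_zero_nonneg h1, Gf_zero_nonneg (by omega)]
    norm_num
  have e4 := hcount.trans e3
  by_cases hz1 : z1 < t
  · rw [Gf_neg _ (show (-(t : ℤ) + z1) / 2 < 0 by omega), zero_mul] at e4
    have : F.card = 0 := by
      have h0 : (F.card : ℝ) = 0 := le_antisymm e4 (by positivity)
      exact_mod_cast h0
    exact ⟨h, 0, by omega, by rw [this]; exact Nat.zero_le _⟩
  · by_cases hz2 : z2 < s
    · rw [Gf_neg _ (show (-(s : ℤ) + z2) / 2 < 0 by omega), mul_zero] at e4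
      have : F.card = 0 := by
        have h0 : (F.card : ℝ) = 0 := le_antisymm e4 (by positivity)
        exact_mod_cast h0
      exact ⟨h, 0, by omega, by rw [this]; exact Nat.zero_le _⟩
    · obtain ⟨i, rfl⟩ : ∃ i, z1 = t + 2 * i := ⟨(z1 - t) / 2, by omega⟩
      obtain ⟨j, rfl⟩ : ∃ j, z2 = s + 2 * j := ⟨(z2 - s) / 2, by omega⟩
      refine ⟨i, j, by omega, ?_⟩
      rw [show (-(t : ℤ) + ((t + 2 * i : ℕ) : ℤ)) / 2 = i by omega,
        show (-(s : ℤ) + ((s + 2 * j : ℕ) : ℤ)) / 2 = j by omega] at e4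
      unfold Gf at e4
      rw [bz_nat, bz_nat, zero_add, zero_add] at e4
      exact_mod_cast e4

/-- the even-parity theorem -/
theorem even_parity (n t s : ℕ) (hpar : (n + t + s) % 2 = 0) (F : Finset (Finset (Fin n)))
    (hF : ∀ A ∈ F, ∀ B ∈ F, t ≤ (A ∩ B).card ∧ (A ∪ B).card + s ≤ n) :
    ∃ q : ℕ, q ≤ n ∧
      ∃ G : Finset (Finset (Fin q)),
        (∀ A ∈ G, ∀ B ∈ G, t ≤ (A ∩ B).card) ∧
        ∃ H : Finset (Finset (Fin (n - q))),
          (∀ A ∈ H, ∀ B ∈ H, (A ∪ B).card + s ≤ n - q) ∧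
          F.card ≤ G.card * H.card := by
  classical
  rcases F.eq_empty_or_nonempty with hFe | ⟨A0, hA0⟩
  · subst hFe
    exact ⟨0, Nat.zero_le _, ∅, by simp, ∅, by simp, by simp⟩
  obtain ⟨k1, k2⟩ := hF A0 hA0 A0 hA0
  rw [inter_self] at k1
  rw [union_self] at k2
  by_cases ht : t = 0
  · subst ht
    refine ⟨0, Nat.zero_le _, {∅}, by simp, F, ?_, by simp⟩
    intro A hA B hB
    exact (hF A hA B hB).2
  by_cases hs : s = 0
  · subst hs
    refine ⟨n, le_rfl, F, ?_, {∅}, by simp, by simp⟩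
    intro A hA B hB
    exact (hF A hA B hB).1
  obtain ⟨h, hn⟩ : ∃ h, n = t + s + 2 * h := ⟨(n - t - s) / 2, by omega⟩
  exact conclude2 hn F (families2 hn (by omega) (by omega) F hF)

end Pool.Agent.MP_867aae_co.P75
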