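import Mathlib
import Pool.Agent.MP_867aae_co.P75.OL
import Pool.Agent.MP_867aae_co.P75.PN

/-!
The strong theorem for pairs, odd total parity.
-/

namespace Pool.Agent.MP_867aae_co.P75

open Finset Function Pool.Agent.MP_867aae_co.H75

/-- the criterion in the form used here -/
lemma crit_data {p r : ℕ} {c0 β : ℤ} (hA : 2 * c0 ≤ p - 1) (hR : 2 * β ≤ r - 1) (hc0 : 0 ≤ c0)
    (hβ : 0 ≤ β) (h : Crit (bz p) c0 (bz r) (2 * β)) :
    HV p r c0 (β + 1) ∧ XD p r c0 (β + 1) (r - β) := by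
  have hV : ∀ j, Gf p c0 * ((hh r (β + 1) (1 - j) - hh r (β + 1) (-j)) +
      (hh r (β + 1) (j + 1) - hh r (β + 1) j)) ≤
      (kf p (c0 + 1) - kf p c0) * (HH r (β + 1) (-j) + HH r (β + 1) j) := by
    intro j
    have h1 := h (β + j)
    have h1R : (bz p c0 : ℝ) * (bz r (β + j - 1) + bz r (2 * β - (β + j) + 1) +
        bz r (β + j + 1) + bz r (2 * β - (β + j) - 1)) ≤
        (bz p (c0 + 1) + bz p (c0 - 1)) * (bz r (β + j) + bz r (2 * β - (β + j))) := by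
      exact_mod_cast h1
    have a1 : (bz r (β + j) : ℝ) = HH r (β + 1) j := by
      unfold HH; rw [show β + 1 - 1 + j = β + j by ring]
    have a2 : (bz r (2 * β - (β + j)) : ℝ) = HH r (β + 1) (-j) := by
      unfold HH; rw [show β + 1 - 1 + -j = 2 * β - (β + j) by ring]
    have a3 : (bz r (β + j + 1) : ℝ) = HH r (β + 1) j + hh r (β + 1) (j + 1) := by
      rw [← HH_succ]; unfold HH; rw [show β + 1 - 1 + (j + 1) = β + j + 1 by ring]
    have a4 : (bz r (β + j - 1) : ℝ) = HH r (β + 1) j - hh r (β + 1) j := by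
      have := HH_pred r (β + 1) j
      rw [this, add_sub_cancel_right]
      unfold HH; rw [show β + 1 - 1 + (j - 1) = β + j - 1 by ring]
    have a5 : (bz r (2 * β - (β + j) + 1) : ℝ) = HH r (β + 1) (-j) + hh r (β + 1) (1 - j) := by
      rw [show 1 - j = -j + 1 by ring, ← HH_succ]
      unfold HH; rw [show β + 1 - 1 + (-j + 1) = 2 * β - (β + j) + 1 by ring]
    have a6 : (bz r (2 * β - (β + j) - 1) : ℝ) = HH r (β + 1) (-j) - hh r (β + 1) (-j) := by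
      have := HH_pred r (β + 1) (-j)
      rw [this, add_sub_cancel_right]
      unfold HH; rw [show β + 1 - 1 + (-j - 1) = 2 * β - (β + j) - 1 by ring]
    have a7 : (bz p (c0 + 1) : ℝ) = Gf p c0 + kf p (c0 + 1) := Gf_succ p c0
    have a8 : (bz p (c0 - 1) : ℝ) = Gf p c0 - kf p c0 := Gf_pred p c0
    have a9 : (bz p c0 : ℝ) = Gf p c0 := rfl
    rw [a1, a2, a3, a4, a5, a6, a7, a8, a9] at h1R
    linarith
  refine ⟨hV, ⟨⟨by omega, by omega, by ring⟩, hc0, hA, ?_⟩⟩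
  have := hV 0
  simp only [sub_zero, neg_zero, zero_add] at this
  linarith

/-- two coordinates are deleted, negative centre -/
lemma neg2 {z p r : ℕ} {c0 C : ℤ} (hc0 : c0 < 0) {a c : (Fin (z + 3) → Bool) → ℤ}
    (ha : Val (2 * c0) a) (hc : Val C c) :
    ∃ a' c' : (Fin (z + 1) → Bool) → ℤ, Val (2 * c0 + 2) a' ∧ Val (C - 2) c' ∧
      PV (Gf p) (Gf r) a c ≤ PV (Gf (p + 1 + 1)) (Gf r) a' c' := by
  obtain ⟨a1, c1, ha1, hc1, hP1, -, sa1, sc1⟩ := exists_best (Gf_mono p) (Gf_mono r) ha hc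
  obtain ⟨a2, c2, ha2, hc2, hP2⟩ := neg_move (z := z + 1) p (Gf_mono r) (Gf_nonneg r)
    (by omega) ha1 hc1 sa1 sc1
  obtain ⟨a3, c3, ha3, hc3, hP3, -, sa3, sc3⟩ :=
    exists_best (Gf_mono (p + 1)) (Gf_mono r) ha2 hc2
  obtain ⟨a4, c4, ha4, hc4, hP4⟩ := neg_move (z := z) (p + 1) (Gf_mono r) (Gf_nonneg r)
    (by omega) ha3 hc3 sa3 sc3
  refine ⟨a4, c4, ?_, ?_, hP1.trans (hP2.trans (hP3.trans hP4))⟩
  · rwa [show 2 * c0 + 2 = 2 * c0 + 1 + 1 by ring]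
  · rwa [show C - 2 = C - 1 - 1 by ring]

/-- two coordinates are deleted, under the criterion -/
lemma crit2 {z p r : ℕ} {c0 β w : ℤ} (hz : (z : ℤ) = 2 * w) (hA : 2 * c0 ≤ p - 1)
    (hR : 2 * β ≤ r - 1) (hc0 : 0 ≤ c0)
    (hβ : 0 ≤ β) (h : Crit (bz p) c0 (bz r) (2 * β)) {a c : (Fin (z + 3) → Bool) → ℤ}
    (ha : Val (2 * c0) a) (hc : Val (2 * β + (z + 3 : ℕ)) c) :
    ∃ a' c' : (Fin (z + 1) → Bool) → ℤ, Val (2 * c0 + 2) a' ∧ Val (2 * β + (z + 1 : ℕ)) c' ∧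
      PV (Gf p) (Gf r) a c ≤ PV (Gf (p + 1 + 1)) (Gf r) a' c' := by
  obtain ⟨hV, x⟩ := crit_data hA hR hc0 hβ h
  obtain ⟨a1, c1, ha1, hc1, hP1, -, sa1, sc1⟩ := exists_best (Gf_mono p) (Gf_mono r) ha hc
  obtain ⟨a2, c2, ha2, hc2, hP2⟩ := step_one (z := z + 2) p (Gf_mono r) (Gf_nonneg r) hA ha1 hc1
    (by push_cast; omega) sa1 sc1
  obtain ⟨a3, c3, ha3, hc3, hP3, hmax, sa3, sc3⟩ :=
    exists_bestE (Gx_mono p c0) (Gf_mono r) ha2 hc2
  have e1 : 2 * β + ((z + 3 : ℕ) : ℤ) - 1 = 2 * (β + w) + 2 := by push_cast; omega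
  rw [e1] at hc3 hmax
  obtain ⟨a4, c4, ha4, hc4, hP4⟩ := half_move x hV hz (K := β + w) (by ring) ha3 hc3 sa3 sc3
    (fun c' hc' => hmax a3 c' ha3 hc')
  refine ⟨a4, c4, ha4, ?_, hP1.trans (hP2.trans (hP3.trans hP4))⟩
  rwa [show 2 * β + ((z + 1 : ℕ) : ℤ) = 2 * (β + w) + 1 by push_cast; omega]

/-- the move from `z + 3` to `z + 1` coordinates -/
lemma move2 {z p r : ℕ} {c0 β w : ℤ} (hz : (z : ℤ) = 2 * w) (hA : 2 * c0 ≤ p - 1)
    (hR : 2 * β ≤ r - 1) {a c : (Fin (z + 3) → Bool) → ℤ}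
    (ha : Val (2 * c0) a) (hc : Val (2 * β + (z + 3 : ℕ)) c) :
    (∃ a' c' : (Fin (z + 1) → Bool) → ℤ, Val (2 * c0 + 2) a' ∧ Val (2 * β + (z + 1 : ℕ)) c' ∧
      PV (Gf p) (Gf r) a c ≤ PV (Gf (p + 1 + 1)) (Gf r) a' c') ∨
    (∃ a' c' : (Fin (z + 1) → Bool) → ℤ, Val (2 * β + 2) a' ∧ Val (2 * c0 + (z + 1 : ℕ)) c' ∧
      PV (Gf p) (Gf r) a c ≤ PV (Gf (r + 1 + 1)) (Gf p) a' c') := by
  obtain ⟨am, cm, ham, hcm, hPm⟩ := mirrorP ha hc (Gf p) (Gf r)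
  by_cases h1 : c0 < 0
  · left
    obtain ⟨a', c', k1, k2, k3⟩ := neg2 (p := p) (r := r) h1 ha hc
    refine ⟨a', c', k1, ?_, k3⟩
    rwa [show 2 * β + ((z + 1 : ℕ) : ℤ) = 2 * β + ((z + 3 : ℕ) : ℤ) - 2 by push_cast; ring]
  · by_cases h2 : β < 0
    · right
      obtain ⟨a', c', k1, k2, k3⟩ := neg2 (p := r) (r := p) h2 ham hcm
      refine ⟨a', c', k1, ?_, hPm.trans_le k3⟩
      rwa [show 2 * c0 + ((z + 1 : ℕ) : ℤ) = 2 * c0 + ((z + 3 : ℕ) : ℤ) - 2 by push_cast; ring]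
    · rcases choice p r hA hR with h | h
      · left
        exact crit2 hz hA hR (by omega) (by omega) h ha hc
      · right
        obtain ⟨a', c', k1, k2, k3⟩ := crit2 hz hR hA (by omega) (by omega) h ham hcm
        exact ⟨a', c', k1, k2, hPm.trans_le k3⟩

/-- the base case -/
lemma base1 {p r : ℕ} {c0 β : ℤ} {a c : (Fin 1 → Bool) → ℤ}
    (ha : Val (2 * c0) a) (hc : Val (2 * β + 1) c) :
    PV (Gf p) (Gf r) a c = 2 * (Gf p c0 * Gf r β) := by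
  unfold PV
  rw [sum_consR, Fintype.sum_subsingleton _ (fun i : Fin 0 => (i.elim0 : Bool))]
  have h2 : ng (fun i : Fin 0 => (i.elim0 : Bool)) = fun i => i.elim0 := by
    funext i; exact i.elim0
  have h4 : cn (fun i : Fin 0 => (i.elim0 : Bool)) = 0 := by
    unfold cn; simp
  have a1 := sd0 ha (fun i : Fin 0 => (i.elim0 : Bool))
  have a2 := H75.st0 ha (fun i : Fin 0 => (i.elim0 : Bool))
  have c1 := sd0 hc (fun i : Fin 0 => (i.elim0 : Bool))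
  have c2 := H75.st0 hc (fun i : Fin 0 => (i.elim0 : Bool))
  rw [h2] at a1 c1
  rw [cn_cons, cn_cons, h4]
  simp only [Bool.false_eq_true, if_false, if_true, zero_add, add_zero, sub_zero]
  have e1 : a (Fin.cons false (fun i : Fin 0 => (i.elim0 : Bool))) = c0 := by omega
  have e2 : a (Fin.cons true (fun i : Fin 0 => (i.elim0 : Bool))) = c0 := by omega
  have e3 : c (Fin.cons false (fun i : Fin 0 => (i.elim0 : Bool))) = β := by omega
  have e4 : c (Fin.cons true (fun i : Fin 0 => (i.elim0 : Bool))) - 1 = β := by omega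
  rw [e1, e2, e3, e4]
  ring

/-- the strong theorem for two even centres and an odd number of coordinates -/
theorem strong3 (z : ℕ) : ∀ (p r : ℕ) (c0 β : ℤ) (a c : (Fin z → Bool) → ℤ),
    z % 2 = 1 → 2 * c0 ≤ p - 1 → 2 * β ≤ r - 1 → Val (2 * c0) a → Val (2 * β + z) c →
    ∃ z1 z2 : ℕ, 2 * z1 + 2 * z2 + 1 = z ∧
      PV (Gf p) (Gf r) a c ≤ 2 * (Gf (p + 2 * z1) (c0 + z1) * Gf (r + 2 * z2) (β + z2)) := by
  induction z using Nat.strong_induction_on with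
  | _ z ih =>
    intro p r c0 β a c hz hA hR ha hc
    by_cases hz1 : z = 1
    · subst hz1
      refine ⟨0, 0, rfl, ?_⟩
      rw [base1 (β := β) ha (by simpa using hc)]
      simp
    · obtain ⟨y, rfl⟩ : ∃ y, z = y + 3 := ⟨z - 3, by omega⟩
      obtain ⟨w, hw⟩ : ∃ w : ℤ, (y : ℤ) = 2 * w := ⟨(y : ℤ) / 2, by omega⟩
      rcases move2 hw hA hR ha hc with ⟨a', c', k1, k2, k3⟩ | ⟨a', c', k1, k2, k3⟩
      · obtain ⟨z1, z2, h3, h4⟩ := ih (y + 1) (by omega) (p + 1 + 1) r (c0 + 1) β a' c'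
          (by omega) (by push_cast; omega) hR (by rwa [show 2 * (c0 + 1) = 2 * c0 + 2 by ring]) k2
        refine ⟨z1 + 1, z2, by omega, k3.trans (h4.trans_eq ?_)⟩
        rw [show p + 1 + 1 + 2 * z1 = p + 2 * (z1 + 1) by ring,
          show c0 + 1 + (z1 : ℤ) = c0 + ((z1 + 1 : ℕ) : ℤ) by push_cast; ring]
      · obtain ⟨z1, z2, h3, h4⟩ := ih (y + 1) (by omega) (r + 1 + 1) p (β + 1) c0 a' c'
          (by omega) (by push_cast; omega) hA (by rwa [show 2 * (β + 1) = 2 * β + 2 by ring]) k2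
        refine ⟨z2, z1 + 1, by omega, k3.trans (h4.trans_eq ?_)⟩
        rw [mul_comm (Gf _ _), show r + 1 + 1 + 2 * z1 = r + 2 * (z1 + 1) by ring,
          show β + 1 + (z1 : ℤ) = β + ((z1 + 1 : ℕ) : ℤ) by push_cast; ring]

/-- the bound -/
def OB (z p r : ℕ) (A R : ℤ) : Prop :=
  ∀ a c : (Fin z → Bool) → ℤ, Val A a → Val (R + z) c →
    ∃ z1 z2 : ℕ, z1 + z2 + 1 = z ∧ (A + z1) % 2 = 0 ∧ (R + z2) % 2 = 0 ∧
      PV (Gf p) (Gf r) a c ≤ 2 * (Gf (p + z1) ((A + z1) / 2) * Gf (r + z2) ((R + z2) / 2))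

lemma OB_even {z p r : ℕ} {A R : ℤ} (hz : z % 2 = 1) (hA : A ≤ p - 1) (hR : R ≤ r - 1)
    (hA2 : A % 2 = 0) (hR2 : R % 2 = 0) : OB z p r A R := by
  intro a c ha hc
  obtain ⟨c0, rfl⟩ : ∃ c0, A = 2 * c0 := ⟨A / 2, by omega⟩
  obtain ⟨β, rfl⟩ : ∃ β, R = 2 * β := ⟨R / 2, by omega⟩
  obtain ⟨z1, z2, h1, h2⟩ := strong3 z p r c0 β a c hz hA hR ha hc
  refine ⟨2 * z1, 2 * z2, h1, by push_cast; omega, by push_cast; omega, ?_⟩
  rw [show (2 * c0 + ((2 * z1 : ℕ) : ℤ)) / 2 = c0 + z1 by push_cast; omega,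
    show (2 * β + ((2 * z2 : ℕ) : ℤ)) / 2 = β + z2 by push_cast; omega]
  exact h2

lemma OB_mirror {z p r : ℕ} {A R : ℤ} (h : OB z r p R A) : OB z p r A R := by
  intro a c ha hc
  obtain ⟨am, cm, ham, hcm, hPm⟩ := mirrorP ha hc (Gf p) (Gf r)
  obtain ⟨z1, z2, h1, h2, h3, h4⟩ := h am cm ham hcm
  refine ⟨z2, z1, by omega, h3, h2, ?_⟩
  rw [hPm, mul_comm (Gf _ _)]
  exact h4

lemma OB_neg {z p r : ℕ} {A R : ℤ} (hA : A < 0) (h : OB (z + 1) (p + 1) r (A + 1) R) :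
    OB (z + 2) p r A R := by
  intro a c ha hc
  obtain ⟨a1, c1, ha1, hc1, hP1, -, sa1, sc1⟩ := exists_best (Gf_mono p) (Gf_mono r) ha hc
  obtain ⟨a2, c2, ha2, hc2, hP2⟩ := neg_move (z := z) p (Gf_mono r) (Gf_nonneg r)
    hA ha1 hc1 sa1 sc1
  obtain ⟨z1, z2, h1, h2, h3, h4⟩ := h a2 c2 ha2
    (by rwa [show R + ((z + 1 : ℕ) : ℤ) = R + ((z + 2 : ℕ) : ℤ) - 1 by push_cast; ring])
  refine ⟨z1 + 1, z2, by omega, by push_cast; omega, h3, hP1.trans (hP2.trans ?_)⟩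
  rw [show p + 1 + z1 = p + (z1 + 1) by ring,
    show A + 1 + (z1 : ℤ) = A + ((z1 + 1 : ℕ) : ℤ) by push_cast; ring] at h4
  exact h4

lemma OB_all {n t s : ℕ} (ht : 1 ≤ t) (hs : 1 ≤ s) (hn : t + s + 1 ≤ n)
    (hpar : (n + t + s) % 2 = 1) : OB n 0 0 (-(t : ℤ)) (-(s : ℤ)) := by
  rcases Nat.mod_two_eq_zero_or_one t with h1 | h1 <;>
    rcases Nat.mod_two_eq_zero_or_one s with h2 | h2
  · exact OB_even (by omega) (by push_cast; omega) (by push_cast; omega) (by omega) (by omega)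
  · obtain ⟨y, rfl⟩ : ∃ y, n = y + 2 := ⟨n - 2, by omega⟩
    apply OB_mirror
    apply OB_neg (by omega)
    exact OB_even (by omega) (by push_cast; omega) (by push_cast; omega) (by omega) (by omega)
  · obtain ⟨y, rfl⟩ : ∃ y, n = y + 2 := ⟨n - 2, by omega⟩
    apply OB_neg (by omega)
    exact OB_even (by omega) (by push_cast; omega) (by push_cast; omega) (by omega) (by omega)
  · obtain ⟨y, rfl⟩ : ∃ y, n = y + 3 := ⟨n - 3, by omega⟩
    apply OB_neg (z := y + 1) (by omega)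
    apply OB_mirror
    apply OB_neg (z := y) (by omega)
    exact OB_even (by omega) (by push_cast; omega) (by push_cast; omega) (by omega) (by omega)

/-- the bound for families -/
lemma families3 {n t s h : ℕ} (hn : n = t + s + 2 * h + 1) (ht : 1 ≤ t) (hs : 1 ≤ s)
    (F : Finset (Finset (Fin n)))
    (hF : ∀ A ∈ F, ∀ B ∈ F, t ≤ (A ∩ B).card ∧ (A ∪ B).card + s ≤ n) :
    ∃ i j, i + j = h ∧ F.card ≤ 2 * (Ball (t + 2 * i) i * Ball (s + 2 * j) j) := by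
  classical
  obtain ⟨c1, hc1⟩ := exists_val (z := n) (-(t : ℤ)) (Or.inr (by omega))
  obtain ⟨c2, hc2⟩ := exists_val (z := n) (-(s : ℤ) + n) (Or.inr (by omega))
  have hf1 : ∀ τ ∈ F.image chr, ∀ τ' ∈ F.image chr,
      (fun _ : Fin n → Bool => (0 : ℤ)) τ + (fun _ : Fin n → Bool => (0 : ℤ)) τ' ≤
        -(t : ℤ) + df τ (ng τ') := by
    intro τ hτ τ' hτ'
    obtain ⟨A, hA, rfl⟩ := Finset.mem_image.1 hτ
    obtain ⟨B, hB, rfl⟩ := Finset.mem_image.1 hτ'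
    rw [df_chr]
    obtain ⟨h1, h2⟩ := hF A hA B hB
    simp only
    omega
  have hf2 : ∀ τ ∈ F.image chr, ∀ τ' ∈ F.image chr,
      cn τ + cn τ' ≤ -(s : ℤ) + n + df τ (ng τ') := by
    intro τ hτ τ' hτ'
    obtain ⟨A, hA, rfl⟩ := Finset.mem_image.1 hτ
    obtain ⟨B, hB, rfl⟩ := Finset.mem_image.1 hτ'
    rw [cn_chr, cn_chr, df_chr]
    obtain ⟨h1, h2⟩ := hF A hA B hB
    have h5 := card_union_add_card_inter A B
    omega
  obtain ⟨a, ha, hale⟩ := extend hc1 (F.image chr) (fun _ => 0) hf1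
  obtain ⟨c, hc, hcle⟩ := extend hc2 (F.image chr) cn hf2
  obtain ⟨z1, z2, e1, e2, e2', e3⟩ := OB_all ht hs (by omega) (by omega) a c ha hc
  have hcount : (F.card : ℝ) ≤ PV (Gf 0) (Gf 0) a c := by
    rw [← Finset.card_image_of_injective F chr_inj]
    unfold PV
    refine le_trans ?_ (Finset.sum_le_univ_sum_of_nonneg
      (fun σ => mul_nonneg (Gf_nonneg _ _) (Gf_nonneg _ _)) (s := F.image chr))
    rw [Finset.card_eq_sum_ones]
    push_cast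
    apply Finset.sum_le_sum
    intro σ hσ
    have h1 := hale σ hσ
    have h2 := hcle σ hσ
    rw [Gf_zero_nonneg h1, Gf_zero_nonneg (by omega)]
    norm_num
  have e4 := hcount.trans e3
  by_cases hz1 : z1 < t
  · rw [Gf_neg _ (show (-(t : ℤ) + z1) / 2 < 0 by omega), zero_mul, mul_zero] at e4
    have : F.card = 0 := by
      have h0 : (F.card : ℝ) = 0 := le_antisymm e4 (by positivity)
      exact_mod_cast h0
    exact ⟨h, 0, by omega, by rw [this]; exact Nat.zero_le _⟩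
  · by_cases hz2 : z2 < s
    · rw [Gf_neg _ (show (-(s : ℤ) + z2) / 2 < 0 by omega), mul_zero, mul_zero] at e4
      have : F.card = 0 := by
        have h0 : (F.card : ℝ) = 0 := le_antisymm e4 (by positivity)
        exact_mod_cast h0
      exact ⟨h, 0, by omega, by rw [this]; exact Nat.zero_le _⟩
    · obtain ⟨i, rfl⟩ : ∃ i, z1 = t + 2 * i := ⟨(z1 - t) / 2, by omega⟩
      obtain ⟨j, rfl⟩ : ∃ j, z2 = s + 2 * j := ⟨(z2 - s) / 2, by omega⟩
      refine ⟨i, j, by omega, ?_⟩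
      rw [show (-(t : ℤ) + ((t + 2 * i : ℕ) : ℤ)) / 2 = i by omega,
        show (-(s : ℤ) + ((s + 2 * j : ℕ) : ℤ)) / 2 = j by omega] at e4
      unfold Gf at e4
      rw [bz_nat, bz_nat, zero_add, zero_add] at e4
      exact_mod_cast e4

end Pool.Agent.MP_867aae_co.P75
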