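import Mathlib
import Pool.Agent.MP_867aae_co.P75.OM

/-!
The theorem for all parities.
-/

namespace Pool.Agent.MP_867aae_co.P75

open Finset Function Pool.Agent.MP_867aae_co.H75

/-- doubling a `t`-intersecting family by a free point -/
lemma exists_G3 (t i q : ℕ) (hq : q = t + 2 * i + 1) : ∃ G : Finset (Finset (Fin q)),
    (∀ A ∈ G, ∀ B ∈ G, t ≤ (A ∩ B).card) ∧ 2 * Ball (t + 2 * i) i ≤ G.card := by
  classical
  subst hq
  obtain ⟨G0, h1, h2⟩ := exists_G2 t i (t + 2 * i) rfl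
  let f : Finset (Fin (t + 2 * i)) → Finset (Fin (t + 2 * i + 1)) := fun A =>
    A.map Fin.castSuccEmb
  let g : Finset (Fin (t + 2 * i)) → Finset (Fin (t + 2 * i + 1)) := fun A =>
    insert (Fin.last _) (A.map Fin.castSuccEmb)
  have hfi : Injective f := Finset.map_injective _
  have hlast : ∀ A, Fin.last (t + 2 * i) ∉ f A := by
    intro A h
    simp only [f, Finset.mem_map, Fin.coe_castSuccEmb] at h
    obtain ⟨k, -, hk⟩ := h
    exact absurd hk (Fin.castSucc_lt_last k).ne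
  have hgi : Injective g := by
    intro A B hAB
    apply hfi
    have e1 : (g A).erase (Fin.last _) = f A := Finset.erase_insert (hlast A)
    have e2 : (g B).erase (Fin.last _) = f B := Finset.erase_insert (hlast B)
    rw [← e1, ← e2, hAB]
  have hint : ∀ A ∈ G0, ∀ B ∈ G0, ∀ A' B' : Finset (Fin (t + 2 * i + 1)),
      f A ⊆ A' → f B ⊆ B' → t ≤ (A' ∩ B').card := by
    intro A hA B hB A' B' hA' hB'
    have e1 : (A ∩ B).card ≤ (A' ∩ B').card := by
      rw [← Finset.card_map (Fin.castSuccEmb (n := t + 2 * i)) (s := A ∩ B)]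
      apply Finset.card_le_card
      rw [Finset.map_inter]
      exact Finset.inter_subset_inter hA' hB'
    exact (h1 A hA B hB).trans e1
  have hsub : ∀ A' ∈ G0.image f ∪ G0.image g, ∃ A ∈ G0, f A ⊆ A' := by
    intro A' hA'
    rcases Finset.mem_union.1 hA' with h | h
    · obtain ⟨A, hA, rfl⟩ := Finset.mem_image.1 h
      exact ⟨A, hA, subset_rfl⟩
    · obtain ⟨A, hA, rfl⟩ := Finset.mem_image.1 h
      exact ⟨A, hA, Finset.subset_insert _ _⟩
  refine ⟨G0.image f ∪ G0.image g, ?_, ?_⟩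
  · intro A' hA' B' hB'
    obtain ⟨A, hA, hA2⟩ := hsub A' hA'
    obtain ⟨B, hB, hB2⟩ := hsub B' hB'
    exact hint A hA B hB A' B' hA2 hB2
  · rw [Finset.card_union_of_disjoint, Finset.card_image_of_injective _ hfi,
      Finset.card_image_of_injective _ hgi]
    · omega
    · rw [Finset.disjoint_left]
      intro X hX hX'
      obtain ⟨A, -, rfl⟩ := Finset.mem_image.1 hX
      obtain ⟨B, -, hB⟩ := Finset.mem_image.1 hX'
      apply hlast A
      rw [← hB]
      exact Finset.mem_insert_self _ _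

/-- the odd-parity theorem -/
theorem odd_parity (n t s : ℕ) (hpar : (n + t + s) % 2 = 1) (F : Finset (Finset (Fin n)))
    (hF : ∀ A ∈ F, ∀ B ∈ F, t ≤ (A ∩ B).card ∧ (A ∪ B).card + s ≤ n) :
    ∃ q : ℕ, q ≤ n ∧
      ∃ G : Finset (Finset (Fin q)),
        (∀ A ∈ G, ∀ B ∈ G, t ≤ (A ∩ B).card) ∧
        ∃ H : Finset (Finset (Fin (n - q))),
          (∀ A ∈ H, ∀ B ∈ H, (A ∪ B).card + s ≤ n - q) ∧
          F.card ≤ G.card * H.card := by
  classical
  rcases F.eq_empty_or_nonempty with hFe | ⟨A0, hA0⟩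
  · subst hFe
    exact ⟨0, Nat.zero_le _, ∅, by simp, ∅, by simp, by simp⟩
  obtain ⟨k1, k2⟩ := hF A0 hA0 A0 hA0
  rw [inter_self] at k1
  rw [union_self] at k2
  by_cases ht : t = 0
  · subst ht
    refine ⟨0, Nat.zero_le _, {∅}, by simp, F, ?_, by simp⟩
    intro A hA B hB
    exact (hF A hA B hB).2
  by_cases hs : s = 0
  · subst hs
    refine ⟨n, le_rfl, F, ?_, {∅}, by simp, by simp⟩
    intro A hA B hB
    exact (hF A hA B hB).1
  obtain ⟨h, hn⟩ : ∃ h, n = t + s + 2 * h + 1 := ⟨(n - t - s - 1) / 2, by omega⟩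
  obtain ⟨i, j, hij, hle⟩ := families3 hn (by omega) (by omega) F hF
  obtain ⟨G, hG1, hG2⟩ := exists_G3 t i (t + 2 * i + 1) rfl
  obtain ⟨H, hH1, hH2⟩ := exists_H2 s j (n - (t + 2 * i + 1)) (by omega)
  refine ⟨t + 2 * i + 1, by omega, G, hG1, H, hH1, hle.trans ?_⟩
  rw [← mul_assoc]
  exact Nat.mul_le_mul hG2 hH2

/-- the theorem -/
theorem all_parities (n t s : ℕ) (F : Finset (Finset (Fin n)))
    (hF : ∀ A ∈ F, ∀ B ∈ F, t ≤ (A ∩ B).card ∧ (A ∪ B).card + s ≤ n) :
    ∃ q : ℕ, q ≤ n ∧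
      ∃ G : Finset (Finset (Fin q)),
        (∀ A ∈ G, ∀ B ∈ G, t ≤ (A ∩ B).card) ∧
        ∃ H : Finset (Finset (Fin (n - q))),
          (∀ A ∈ H, ∀ B ∈ H, (A ∪ B).card + s ≤ n - q) ∧
          F.card ≤ G.card * H.card := by
  rcases Nat.mod_two_eq_zero_or_one (n + t + s) with h | h
  · exact even_parity n t s h F hF
  · exact odd_parity n t s h F hF

end Pool.Agent.MP_867aae_co.P75
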