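import Mathlib
import Pool.Agent.MP_867aae_co.P75.ON

/-!
Product families, for the explicit form of the theorem.
-/

namespace Pool.Agent.MP_867aae_co.P75

open Finset Function Pool.Agent.MP_867aae_co.H75

/-- union of a set on the first `q` points and one on the last `r` points -/
def prodSet {q r : ℕ} (A : Finset (Fin q)) (B : Finset (Fin r)) : Finset (Fin (q + r)) :=
  A.map (Fin.castAddEmb r) ∪ B.map (Fin.natAddEmb q)

lemma prodSet_left {q r : ℕ} (A : Finset (Fin q)) (B : Finset (Fin r)) (x : Fin q) :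
    Fin.castAdd r x ∈ prodSet A B ↔ x ∈ A := by
  unfold prodSet
  rw [mem_union, mem_map, mem_map]
  constructor
  · rintro (⟨y, hy, h⟩ | ⟨y, hy, h⟩)
    · have : y = x := by
        have h' := congrArg Fin.val h
        simp at h'
        exact Fin.ext h'
      exact this ▸ hy
    · exfalso
      have h' := congrArg Fin.val h
      simp at h'
      have := x.isLt
      omega
  · intro h
    exact Or.inl ⟨x, h, rfl⟩

lemma prodSet_right {q r : ℕ} (A : Finset (Fin q)) (B : Finset (Fin r)) (x : Fin r) :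
    Fin.natAdd q x ∈ prodSet A B ↔ x ∈ B := by
  unfold prodSet
  rw [mem_union, mem_map, mem_map]
  constructor
  · rintro (⟨y, hy, h⟩ | ⟨y, hy, h⟩)
    · exfalso
      have h' := congrArg Fin.val h
      simp at h'
      have := y.isLt
      omega
    · have : y = x := by
        have h' := congrArg Fin.val h
        simp at h'
        exact Fin.ext h'
      exact this ▸ hy
  · intro h
    exact Or.inr ⟨x, h, rfl⟩

lemma prodSet_inj {q r : ℕ} {A A' : Finset (Fin q)} {B B' : Finset (Fin r)}
    (h : prodSet A B = prodSet A' B') : A = A' ∧ B = B' := by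
  constructor
  · ext x
    rw [← prodSet_left A B, h, prodSet_left]
  · ext x
    rw [← prodSet_right A B, h, prodSet_right]

/-- product of an intersecting and a union family -/
lemma exists_prod {n q r t s : ℕ} (hn : n = q + r) (G : Finset (Finset (Fin q)))
    (H : Finset (Finset (Fin r))) (hG : ∀ A ∈ G, ∀ B ∈ G, t ≤ (A ∩ B).card)
    (hH : ∀ A ∈ H, ∀ B ∈ H, (A ∪ B).card + s ≤ r) :
    ∃ F : Finset (Finset (Fin n)),
      (∀ A ∈ F, ∀ B ∈ F, t ≤ (A ∩ B).card ∧ (A ∪ B).card + s ≤ n) ∧
        F.card = G.card * H.card := by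
  classical
  subst hn
  refine ⟨(G ×ˢ H).image (fun p => prodSet p.1 p.2), ?_, ?_⟩
  · intro X hX Y hY
    obtain ⟨⟨A, B⟩, hAB, rfl⟩ := mem_image.1 hX
    obtain ⟨⟨A', B'⟩, hAB', rfl⟩ := mem_image.1 hY
    obtain ⟨hA, hB⟩ := mem_product.1 hAB
    obtain ⟨hA', hB'⟩ := mem_product.1 hAB'
    simp only at hA hB hA' hB' ⊢
    constructor
    · refine (hG A hA A' hA').trans ?_
      rw [← card_map (Fin.castAddEmb r) (s := A ∩ A'), map_inter]
      apply card_le_card
      exact inter_subset_inter subset_union_left subset_union_left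
    · have h1 : prodSet A B ∪ prodSet A' B' ⊆
          (univ : Finset (Fin q)).map (Fin.castAddEmb r) ∪ (B ∪ B').map (Fin.natAddEmb q) := by
        unfold prodSet
        rw [map_union]
        intro x hx
        simp only [mem_union] at hx ⊢
        rcases hx with (h | h) | (h | h)
        · exact Or.inl (map_subset_map.2 (subset_univ A) h)
        · exact Or.inr (Or.inl h)
        · exact Or.inl (map_subset_map.2 (subset_univ A') h)
        · exact Or.inr (Or.inr h)
      have h2 := card_le_card h1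
      have h3 := card_union_le ((univ : Finset (Fin q)).map (Fin.castAddEmb r))
        ((B ∪ B').map (Fin.natAddEmb q))
      rw [card_map, card_map, card_univ, Fintype.card_fin] at h3
      have h4 := hH B hB B' hB'
      omega
  · rw [card_image_of_injOn, card_product]
    rintro ⟨A, B⟩ - ⟨A', B'⟩ - h
    obtain ⟨h1, h2⟩ := prodSet_inj h
    exact Prod.ext h1 h2

/-- the explicit extremal numbers, both parities -/
theorem exact_formula (t s h e : ℕ) (ht : 1 ≤ t) (hs : 1 ≤ s) (he : e ≤ 1) :
    IsGreatest {m : ℕ | ∃ F : Finset (Finset (Fin (t + s + 2 * h + e))),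
        (∀ A ∈ F, ∀ B ∈ F, t ≤ (A ∩ B).card ∧ (A ∪ B).card + s ≤ t + s + 2 * h + e) ∧
          F.card = m}
      (2 ^ e * (range (h + 1)).sup fun i =>
        (∑ k ∈ range (i + 1), (t + 2 * i).choose k) *
          ∑ k ∈ range (h - i + 1), (s + 2 * (h - i)).choose k) := by
  classical
  -- the upper bound
  have hub : ∀ F : Finset (Finset (Fin (t + s + 2 * h + e))),
      (∀ A ∈ F, ∀ B ∈ F, t ≤ (A ∩ B).card ∧ (A ∪ B).card + s ≤ t + s + 2 * h + e) →
      F.card ≤ (2 ^ e * (range (h + 1)).sup fun i =>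
        (∑ k ∈ range (i + 1), (t + 2 * i).choose k) *
          ∑ k ∈ range (h - i + 1), (s + 2 * (h - i)).choose k) := by
    intro F hF
    have key : ∃ i j, i + j = h ∧
        F.card ≤ 2 ^ e * (Ball (t + 2 * i) i * Ball (s + 2 * j) j) := by
      rcases Nat.eq_zero_or_pos e with h0 | h0
      · subst h0
        obtain ⟨i, j, hij, hle⟩ := families2 (n := t + s + 2 * h + 0) (h := h) rfl ht hs F hF
        exact ⟨i, j, hij, by simpa using hle⟩
      · obtain rfl : e = 1 := by omega
        obtain ⟨i, j, hij, hle⟩ := families3 (n := t + s + 2 * h + 1) (h := h) rfl ht hs F hF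
        exact ⟨i, j, hij, by simpa using hle⟩
    obtain ⟨i, j, hij, hle⟩ := key
    obtain rfl : j = h - i := by omega
    refine hle.trans (Nat.mul_le_mul le_rfl ?_)
    exact Finset.le_sup (f := fun i => (∑ k ∈ range (i + 1), (t + 2 * i).choose k) *
      ∑ k ∈ range (h - i + 1), (s + 2 * (h - i)).choose k) (mem_range.2 (by omega))
  constructor
  · -- attained
    obtain ⟨i, hi, hsup⟩ := Finset.exists_mem_eq_sup (range (h + 1)) ⟨0, by simp⟩
      (fun i => (∑ k ∈ range (i + 1), (t + 2 * i).choose k) *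
        ∑ k ∈ range (h - i + 1), (s + 2 * (h - i)).choose k)
    have hi' : i ≤ h := by
      have := mem_range.1 hi
      omega
    obtain ⟨G, hG1, hG2⟩ : ∃ G : Finset (Finset (Fin (t + 2 * i + e))),
        (∀ A ∈ G, ∀ B ∈ G, t ≤ (A ∩ B).card) ∧ 2 ^ e * Ball (t + 2 * i) i ≤ G.card := by
      rcases Nat.eq_zero_or_pos e with h0 | h0
      · subst h0
        obtain ⟨G, h1, h2⟩ := exists_G2 t i (t + 2 * i + 0) rfl
        exact ⟨G, h1, by simpa using h2⟩
      · obtain rfl : e = 1 := by omega
        obtain ⟨G, h1, h2⟩ := exists_G3 t i (t + 2 * i + 1) rfl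
        exact ⟨G, h1, by simpa using h2⟩
    obtain ⟨H, hH1, hH2⟩ := exists_H2 s (h - i) (s + 2 * (h - i)) rfl
    obtain ⟨F, hF1, hF2⟩ := exists_prod (n := t + s + 2 * h + e) (by omega) G H hG1 hH1
    refine ⟨F, hF1, le_antisymm (hub F hF1) ?_⟩
    rw [hsup, hF2]
    calc 2 ^ e * ((∑ k ∈ range (i + 1), (t + 2 * i).choose k) *
          ∑ k ∈ range (h - i + 1), (s + 2 * (h - i)).choose k)
        = (2 ^ e * Ball (t + 2 * i) i) * Ball (s + 2 * (h - i)) (h - i) := by
          unfold Ball
          ring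
      _ ≤ G.card * H.card := Nat.mul_le_mul hG2 hH2
  · rintro m ⟨F, hF, rfl⟩
    exact hub F hF

end Pool.Agent.MP_867aae_co.P75
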